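import Pool.Agent.Helper89.MEF.H82_M5ab

/-!
# ME-M6: step 2 of the main theorem; ME-M9a: reading on the image side
-/

set_option autoImplicit false

namespace ME

open Encodable Set Filter Topology

section param

variable {α β γ δ : Type} [Primcodable α] [Primcodable β] [Primcodable γ] [Primcodable δ]

/-- operators with a parameter -/
def UOp (Ξ : Set α → β → Set γ) : Prop := EP (fun (X : Set α) (p : β × γ) => p.2 ∈ Ξ X p.1)

theorem UOp.comp {Ξ : Set α → β → Set γ} (h : UOp Ξ) {Θ : Set γ → Set δ} (hΘ : IsOp Θ) :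
    UOp (fun X b => Θ (Ξ X b)) := by
  obtain ⟨W, hW, hΘ⟩ := hΘ
  have h1 : EP (fun (X : Set α) (z : (β × δ) × List γ) =>
      W (z.2, z.1.2) ∧ ∀ c ∈ z.2, c ∈ Ξ X z.1.1) := by
    refine EP.and (EP.re (hW.subst (Primrec.snd.pair (Primrec.snd.comp Primrec.fst)))) ?_
    have h2 : EP (fun (X : Set α) (w : ((β × δ) × List γ) × γ) => w.2 ∈ Ξ X w.1.1.1) :=
      EP.subst h ((Primrec.fst.comp (Primrec.fst.comp Primrec.fst)).pair Primrec.snd)
    exact EP.ball (P := fun (X : Set α) (w : ((β × δ) × List γ) × γ) => w.2 ∈ Ξ X w.1.1.1) h2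
      (g := fun z => z.2) Primrec.snd
  refine h1.ex.of_iff ?_
  intro X p
  exact hΘ _ _

theorem UOp.sj {Ξ : Set α → β → Set γ} (h : UOp Ξ) {Ξ' : Set α → β → Set δ} (h' : UOp Ξ') :
    UOp (fun X b => sj (Ξ X b) (Ξ' X b)) := by
  have h1 : EP (fun (X : Set α) (y : (β × (γ ⊕ δ)) × γ) =>
      y.1.2 = Sum.inl y.2 ∧ y.2 ∈ Ξ X y.1.1) :=
    EP.and (EP.re (RE.eq (Primrec.snd.comp Primrec.fst) (Primrec.sumInl.comp Primrec.snd)))
      (EP.subst h ((Primrec.fst.comp Primrec.fst).pair Primrec.snd))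
  have h2 : EP (fun (X : Set α) (y : (β × (γ ⊕ δ)) × δ) =>
      y.1.2 = Sum.inr y.2 ∧ y.2 ∈ Ξ' X y.1.1) :=
    EP.and (EP.re (RE.eq (Primrec.snd.comp Primrec.fst) (Primrec.sumInr.comp Primrec.snd)))
      (EP.subst h' ((Primrec.fst.comp Primrec.fst).pair Primrec.snd))
  refine (h1.ex.or h2.ex).of_iff ?_
  intro X p
  obtain ⟨b, s⟩ := p
  cases s with
  | inl c => simp
  | inr d => simp

theorem UOp.cd {Ξ : Set α → β → Set γ} (h : UOp Ξ) : UOp (fun X b => cd (Ξ X b)) :=
  h.comp (IsOp.cd IsOp.id)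

theorem UOp.jn {Ξ Ξ' : Set α → β → Set ℕ} (h : UOp Ξ) (h' : UOp Ξ') :
    UOp (fun X b => jn (Ξ X b) (Ξ' X b)) := (h.sj h').cd

/-- the column of index `k b` of a coded `GF` set -/
theorem UOp.col {k : β → Idx} (hk : Primrec k) :
    UOp (fun (X : Set ℕ) (b : β) =>
      ME.cd {p : ℕ × Bool | encode ((((k b), p.1), p.2) : (Idx × ℕ) × Bool) ∈ X}) := by
  refine UOp.cd ?_
  refine EP.mem (f := fun q : β × (ℕ × Bool) =>
    encode ((((k q.1), q.2.1), q.2.2) : (Idx × ℕ) × Bool)) ?_
  exact Primrec.encode.comp (((hk.comp Primrec.fst).pair (Primrec.fst.comp Primrec.snd)).pair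
    (Primrec.snd.comp Primrec.snd))

end param

namespace Pack

variable {a : Aut} {e : Set ℕ} {f : ℕ → Bool} (P : Pack a e f)

theorem col_G (l : Idx) :
    cd {p : ℕ × Bool | encode (((l, p.1), p.2) : (Idx × ℕ) × Bool) ∈ P.G} = P.ro l := by
  unfold Pack.ro Pack.G rs
  congr 1
  ext p
  simp only [mem_ofPred_eq, encode_mem_cd]
  unfold GF gr
  simp [Pack.Y]

theorem jn_pi_le (l l' : Idx) (y y' : ℕ → Bool) (h : P.ro l = rs (rho P.t y))
    (h' : P.ro l' = rs (rho P.t y')) :
    ER (a.pi (jn (rs (P.r y)) (rs (P.r y')))) (jn (P.ro l) (P.ro l')) := by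
  refine (a.pi_jn _ _).1.trans ?_
  refine ER_jn ?_ ?_
  · rw [h]
    exact (P.pi_r y).1.trans (ER_jn_left _ _)
  · rw [h']
    exact (P.pi_r y').1.trans (ER_jn_right _ _)

/-- the member of `α(I_j)` given by the satellite `m` -/
theorem ER_Λ (j : Bool) {X Y : Set ℕ} (h : ER X Y) : ER (P.Λ j X) Y :=
  (ER.of_op (P.hΛ j) X).trans h

/-- ME-M6: step 2 -/
theorem o_le_G : ER (gr (fun p : ℕ × ℕ => decide (P.s true p.1 < P.s false p.2))) P.G := by
  obtain ⟨Θ, hΘ, hΘs⟩ := cmp_op
  obtain ⟨Θ', hΘ', h'⟩ := AD2 a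
    (jn (rs (P.r (P.Y (true, none)))) (rs (P.r (P.Y (false, none)))))
    (jn (P.ro (true, none)) (P.ro (false, none)))
    (P.jn_pi_le _ _ _ _ rfl rfl)
    (fun y : P.J true => rs (P.r y.1)) (fun y : P.J false => rs (P.r y.1))
    (fun y y' => decide (fd (P.r (P.Y (true, none))) (P.r y.1) <
      fd (P.r (P.Y (false, none))) (P.r y'.1))) Θ hΘ
    (fun y y' => hΘs _ _ _ _ (P.r_ne y.2) (P.r_ne y'.2))
  -- the value
  have key : ∀ m m' : ℕ, Θ' (sj (jn (P.ro (true, none)) (P.ro (false, none)))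
      (sj (P.Λ true (P.ro (true, some m))) (P.Λ false (P.ro (false, some m'))))) =
      {decide (P.s true m < P.s false m')} := by
    intro m m'
    obtain ⟨i, j, h1, h2, h3⟩ := h' _ (P.Λ_spec true m) _ (P.Λ_spec false m')
    set W := sj (jn (P.ro (true, none)) (P.ro (false, none)))
      (sj (P.Λ true (P.ro (true, some m))) (P.Λ false (P.ro (false, some m')))) with hW
    have hWle : ∀ Z : Set ℕ, (∀ l : Idx, l = (true, none) ∨ l = (false, none) ∨
        l = (true, some m) ∨ l = (false, some m') → ER (P.ro l) Z) → ER (cd W) Z := by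
      intro Z hZ
      refine ER.cd_left ?_
      refine ER.sj ?_ (ER.sj ?_ ?_)
      · exact ER_jn (hZ _ (by simp)) (hZ _ (by simp))
      · exact P.ER_Λ true (hZ _ (by simp))
      · exact P.ER_Λ false (hZ _ (by simp))
    have hi : i.1 = P.Y (true, some m) := by
      by_contra hne
      refine P.indep_fin i.2 (cd W) ?_ ?_ ?_
      · intro l hl hli
        have hl1 : l.1 = true := by
          by_contra hlt
          exact P.pt_disj true l hlt (by
            have : P.Y l ∈ P.J true := by rw [hli]; exact i.2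
            exact this)
        refine (hWle _ ?_).trans (ER_jn_right _ _)
        intro l' hl'
        refine P.ro_le_Gm ?_
        rintro rfl
        rcases hl' with rfl | rfl | rfl | rfl
        · exact hl rfl
        · exact hl rfl
        · exact hne hli.symm
        · simp at hl1
      · exact (hWle _ (fun l _ => P.ro_le_G l)).trans (ER_jn_right _ _)
      · exact ((P.pi_r i.1).2.trans h2).trans (ER.of_cd W)
    have hj : j.1 = P.Y (false, some m') := by
      by_contra hne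
      refine P.indep_fin j.2 (cd W) ?_ ?_ ?_
      · intro l hl hli
        have hl1 : l.1 = false := by
          by_contra hlt
          exact P.pt_disj false l hlt (by
            have : P.Y l ∈ P.J false := by rw [hli]; exact j.2
            exact this)
        refine (hWle _ ?_).trans (ER_jn_right _ _)
        intro l' hl'
        refine P.ro_le_Gm ?_
        rintro rfl
        rcases hl' with rfl | rfl | rfl | rfl
        · exact hl rfl
        · exact hl rfl
        · simp at hl1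
        · exact hne hli.symm
      · exact (hWle _ (fun l _ => P.ro_le_G l)).trans (ER_jn_right _ _)
      · exact ((P.pi_r j.1).2.trans h3).trans (ER.of_cd W)
    refine (show Θ' W = _ from h1).trans ?_
    rw [hi, hj]
    rfl
  -- the operator
  have hU : UOp (fun (X : Set ℕ) (p : ℕ × ℕ) => Θ'
      (sj (jn (cd {q : ℕ × Bool | encode ((((true, none) : Idx), q.1), q.2) ∈ X})
          (cd {q : ℕ × Bool | encode ((((false, none) : Idx), q.1), q.2) ∈ X}))
        (sj (P.Λ true (cd {q : ℕ × Bool | encode ((((true, some p.1) : Idx), q.1), q.2) ∈ X}))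
          (P.Λ false
            (cd {q : ℕ × Bool | encode ((((false, some p.2) : Idx), q.1), q.2) ∈ X}))))) := by
    refine UOp.comp (UOp.sj (UOp.jn ?_ ?_) (UOp.sj (UOp.comp ?_ (P.hΛ true))
      (UOp.comp ?_ (P.hΛ false)))) hΘ'
    · exact UOp.col (Primrec.const _)
    · exact UOp.col (Primrec.const _)
    · exact UOp.col ((Primrec.const true).pair (Primrec.option_some.comp Primrec.fst))
    · exact UOp.col ((Primrec.const false).pair (Primrec.option_some.comp Primrec.snd))
  refine ⟨_, hU, ?_⟩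
  ext ⟨p, v⟩
  change v ∈ Θ' _ ↔ _
  simp only [P.col_G]
  rw [key p.1 p.2]
  simp only [gr, mem_singleton_iff, mem_ofPred_eq]
  exact eq_comm

/-- ME-M9a: reading `φ` at the names on the image side -/
theorem read (φ : ℕ → Bool)
    (hφ : ER (a.pi (rs φ)) (jn (a.pi (rs f)) P.G))
    (hφ' : ∀ l : Idx, l.2 ≠ none → ER (rs φ) (jn P.b (P.Gm l))) :
    ∃ Θ : Set (ℕ ⊕ ℕ) → Set Bool, IsOp Θ ∧ ∀ m,
      Θ (sj (jn (a.pi (rs φ)) (P.ro (true, none))) (P.ro (true, some m))) =
        {φ (P.s true m)} := by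
  obtain ⟨Θ, hΘ, hΘs⟩ := eval_op
  have hq : ER (a.pi (jn (rs φ) (rs (P.r (P.Y (true, none))))))
      (jn (a.pi (rs φ)) (P.ro (true, none))) := by
    refine (a.pi_jn _ _).1.trans (ER_jn (ER_jn_left _ _) ?_)
    exact (P.pi_r (P.Y (true, none))).1.trans (ER_jn_right _ _)
  obtain ⟨Θ', hΘ', h'⟩ := AD1 a _ _ hq
    (fun y : P.J true => rs (P.r y.1))
    (fun y => φ (fd (P.r (P.Y (true, none))) (P.r y.1))) Θ hΘ
    (fun y => hΘs _ _ _ (P.r_ne y.2))
  refine ⟨fun Z => Θ' (sj {x | Sum.inl x ∈ Z} (P.Λ true {x | Sum.inr x ∈ Z})), ?_, ?_⟩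
  · exact hΘ'.comp (IsOp.inl.sj ((P.hΛ true).comp IsOp.inr))
  intro m
  obtain ⟨i, h1, h2⟩ := h' _ (P.Λ_spec true m)
  change Θ' (sj (jn (a.pi (rs φ)) (P.ro (true, none))) (P.Λ true (P.ro (true, some m)))) = _
  change Θ' (sj (jn (a.pi (rs φ)) (P.ro (true, none))) (P.Λ true (P.ro (true, some m)))) = _ at h1
  change ER _ (sj (jn (a.pi (rs φ)) (P.ro (true, none))) (P.Λ true (P.ro (true, some m)))) at h2
  set W := sj (jn (a.pi (rs φ)) (P.ro (true, none))) (P.Λ true (P.ro (true, some m))) with hW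
  have hWle : ∀ Z : Set ℕ, ER (a.pi (rs φ)) Z → ER (P.ro (true, none)) Z →
      ER (P.ro (true, some m)) Z → ER (cd W) Z := by
    intro Z h1 h2 h3
    exact ER.cd_left (ER.sj (ER_jn h1 h2) (P.ER_Λ true h3))
  have hi : i.1 = P.Y (true, some m) := by
    by_contra hne
    refine P.indep_fin i.2 (cd W) ?_ ?_ ?_
    · intro l hl hli
      refine hWle _ ?_ ?_ ?_
      · refine (P.he _).1.trans (ER_jn (hφ' l hl) ?_)
        exact P.e_le_b.trans (ER_jn_left _ _)
      · refine (P.ro_le_Gm ?_).trans (ER_jn_right _ _)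
        rintro rfl
        exact hl rfl
      · refine (P.ro_le_Gm ?_).trans (ER_jn_right _ _)
        rintro rfl
        exact hne hli.symm
    · refine hWle _ ?_ ?_ ?_
      · exact hφ.trans (ER_jn (P.pi_f_le_b.trans (ER_jn_left _ _)) (ER_jn_right _ _))
      · exact (P.ro_le_G _).trans (ER_jn_right _ _)
      · exact (P.ro_le_G _).trans (ER_jn_right _ _)
    · exact ((P.pi_r i.1).2.trans h2).trans (ER.of_cd W)
  rw [h1, hi]
  rfl

end Pack

end ME
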