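import Pool.Agent.Helper89.MEF.H89_St_Lat1

/-!
# ME-L2: singles (Dyment)
-/

set_option autoImplicit false

namespace ME

open Encodable Set

/-- the order theoretic property of degrees of singletons -/
def HasV (A V : Set (Set ℕ)) : Prop := ∀ Z : Set (Set ℕ), ¬ PR Z A ↔ PR V Z

theorem hasV_single (X : Set ℕ) : HasV {X} {V | ¬ ER V X} := by
  intro Z
  constructor
  · intro h
    apply PR_of_subset
    intro Y hY hYX
    exact h (PR_single_right.2 ⟨Y, hY, hYX⟩)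
  · rintro ⟨Φ, hΦ, h⟩ hZ
    obtain ⟨Y, hY, hYX⟩ := PR_single_right.1 hZ
    exact h Y hY ((ER.of_op hΦ Y).trans hYX)

theorem hasV_aut (a : Aut) {A V : Set (Set ℕ)} (h : HasV A V) : HasV (a.F A) (a.F V) := by
  intro Z
  have h1 : PR Z (a.F A) ↔ PR (a.G Z) A := by
    constructor
    · intro h1
      exact (a.G_mono _ _ h1).trans (a.GF A).1
    · intro h1
      exact (a.FG Z).2.trans (a.F_mono _ _ h1)
  have h2 : PR (a.F V) Z ↔ PR V (a.G Z) := by
    constructor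
    · intro h2
      exact (a.GF V).2.trans (a.G_mono _ _ h2)
    · intro h2
      exact (a.F_mono _ _ h2).trans (a.FG Z).1
  rw [h1, h2]
  exact h (a.G Z)

/-- Baire category for two countable families of finite-condition requirements -/
theorem exists_generic (P Q : ℕ → ℕ → Prop) (hP : ∀ e (O : Finset ℕ), ∃ i, i ∉ O ∧ P e i)
    (hQ : ∀ e (I : Finset ℕ), ∃ i, i ∉ I ∧ Q e i) :
    ∃ Z : ℕ → Bool, ∀ e, (∃ i, Z i = true ∧ P e i) ∧ (∃ i, Z i = false ∧ Q e i) := by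
  classical
  have hop : ∀ (R : ℕ → Prop) (b : Bool), IsOpen {Z : ℕ → Bool | ∃ i, Z i = b ∧ R i} := by
    intro R b
    have : {Z : ℕ → Bool | ∃ i, Z i = b ∧ R i} =
        ⋃ i : {i // R i}, (fun Z : ℕ → Bool => Z i.1) ⁻¹' {b} := by
      ext Z
      simp only [mem_setOf_eq, mem_iUnion, mem_preimage, mem_singleton_iff, Subtype.exists]
      constructor
      · rintro ⟨i, h1, h2⟩
        exact ⟨i, h2, h1⟩
      · rintro ⟨i, h1, h2⟩
        exact ⟨i, h2, h1⟩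
    rw [this]
    exact isOpen_iUnion fun i => (isOpen_discrete {b}).preimage (continuous_apply i.1)
  have hde : ∀ (R : ℕ → Prop) (b : Bool), (∀ O : Finset ℕ, ∃ i, i ∉ O ∧ R i) →
      Dense {Z : ℕ → Bool | ∃ i, Z i = b ∧ R i} := by
    intro R b hR
    rw [dense_iff_inter_open]
    rintro U hU ⟨Z0, hZ0⟩
    obtain ⟨I, u, hu, hsub⟩ := isOpen_pi_iff.1 hU Z0 hZ0
    obtain ⟨i, hi, hRi⟩ := hR I
    refine ⟨Function.update Z0 i b, hsub ?_, i, by simp, hRi⟩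
    intro j hj
    have hji : j ≠ i := by
      rintro rfl
      exact hi hj
    rw [Function.update_of_ne hji]
    exact (hu j hj).2
  have hB := dense_iInter_of_isOpen (X := ℕ → Bool) (ι := ℕ × Bool)
    (f := fun e => {Z : ℕ → Bool | ∃ i, Z i = e.2 ∧ (if e.2 then P e.1 i else Q e.1 i)})
    (fun e => hop _ _) (fun e => hde _ _ (by
      intro O
      cases h : e.2
      · simpa using hQ e.1 O
      · simpa using hP e.1 O))
  obtain ⟨Z, hZ⟩ := hB.nonempty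
  rw [mem_iInter] at hZ
  refine ⟨Z, fun e => ⟨?_, ?_⟩⟩
  · simpa using hZ (e, true)
  · simpa using hZ (e, false)

theorem single_of_hasV {A V : Set (Set ℕ)} (h : HasV A V) : ∃ Y : Set ℕ, PE A {Y} := by
  classical
  by_contra hcon
  push Not at hcon
  have hVA : ¬ PR V A := fun hc => ((h A).2 hc) (PR.refl A)
  obtain ⟨Φ, hΦ, hΦall⟩ := exists_enum_IsOp (α := ℕ) (β := ℕ)
  -- the members `a i`
  have h1 : ∀ i, ∃ X ∈ A, Φ i (tg i X) ∉ V := by
    intro i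
    by_contra hc
    push Not at hc
    exact hVA ⟨fun X => Φ i (tg i X), (hΦ i).comp (IsOp_tg i), hc⟩
  choose a haA haV using h1
  obtain ⟨U, hU, hUt⟩ := exists_untag
  -- `V ≤ {a i}`
  have h2 : ∀ i, ∃ Γ : Set ℕ → Set ℕ, IsOp Γ ∧ Γ (a i) ∈ V := by
    intro i
    have h3 : ¬ PR {a i} A := by
      intro hc
      refine hcon (a i) ⟨PR_of_subset ?_, hc⟩
      rw [singleton_subset_iff]
      exact haA i
    obtain ⟨Γ, hΓ, hΓV⟩ := (h _).1 h3
    exact ⟨Γ, hΓ, hΓV _ rfl⟩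
  choose Γ hΓ hΓV using h2
  -- claim (1)
  have hc1 : ∀ e (O : Finset ℕ), ∃ i, i ∉ O ∧ Φ e (tg i (a i)) ∉ V := by
    intro e O
    by_contra hc
    push Not at hc
    obtain ⟨N, hN⟩ : ∃ N, ∀ i ∈ O, i < N := ⟨O.sup id + 1, fun i hi =>
      Nat.lt_succ_of_le (Finset.le_sup (f := id) hi)⟩
    obtain ⟨Θ, hΘ, hΘt⟩ := case_tags N (fun n => if n ∈ O then fun X => Γ n (U X) else Φ e)
      (by
        intro n
        by_cases hn : n ∈ O
        · simp only [hn, if_true]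
          exact (hΓ n).comp hU
        · simp only [hn, if_false]
          exact hΦ e) (Φ e) (hΦ e)
    obtain ⟨j, hj⟩ := hΦall Θ hΘ
    apply haV j
    rw [hj, hΘt]
    by_cases hjN : j < N
    · rw [if_pos hjN]
      by_cases hjO : j ∈ O
      · simp only [hjO, if_true]
        rw [hUt]
        exact hΓV j
      · simp only [hjO, if_false]
        exact hc j hjO
    · rw [if_neg hjN]
      exact hc j (fun hjO => hjN (hN j hjO))
  -- claim (2)
  have hc2 : ∀ (e : ℕ) (I : Finset ℕ), ∃ X ∈ A, ∀ i ∈ I, Φ e X ≠ tg i (a i) := by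
    intro e I
    by_contra hc
    push Not at hc
    obtain ⟨N, hN⟩ : ∃ N, ∀ i ∈ I, i < N := ⟨I.sup id + 1, fun i hi =>
      Nat.lt_succ_of_le (Finset.le_sup (f := id) hi)⟩
    obtain ⟨Θ, hΘ, hΘt⟩ := case_tags N (fun n X => Γ n (U X)) (fun n => (hΓ n).comp hU)
      (fun X => X) IsOp.id
    apply hVA
    refine ⟨fun X => Θ (Φ e X), hΘ.comp (hΦ e), ?_⟩
    intro X hX
    obtain ⟨i, hi, hie⟩ := hc X hX
    change Θ (Φ e X) ∈ V
    rw [hie, hΘt, if_pos (hN i hi), hUt]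
    exact hΓV i
  -- split the second requirement
  obtain ⟨Z, hZ⟩ := exists_generic (fun e i => Φ e (tg i (a i)) ∉ V)
    (fun e i => (∃ X ∈ A, Φ e X = tg i (a i)) ∨ (∃ X ∈ A, ∀ j, Φ e X ≠ tg j (a j))) hc1 (by
      intro e I
      obtain ⟨X, hX, hXI⟩ := hc2 e I
      by_cases hK : ∃ j, Φ e X = tg j (a j)
      · obtain ⟨j, hj⟩ := hK
        exact ⟨j, fun hjI => hXI j hjI hj, Or.inl ⟨X, hX, hj⟩⟩
      · push Not at hK
        obtain ⟨i, hi⟩ := Infinite.exists_notMem_finset I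
        exact ⟨i, hi, Or.inr ⟨X, hX, hK⟩⟩)
  -- the set `K_Z`
  have hVK : ¬ PR V {Y | ∃ i, Z i = true ∧ Y = tg i (a i)} := by
    rintro ⟨Ψ, hΨ, hΨV⟩
    obtain ⟨e, rfl⟩ := hΦall Ψ hΨ
    obtain ⟨i, hi, hiV⟩ := (hZ e).1
    exact hiV (hΨV _ ⟨i, hi, rfl⟩)
  have hKA : PR {Y | ∃ i, Z i = true ∧ Y = tg i (a i)} A := by
    by_contra hc
    exact hVK ((h _).1 hc)
  obtain ⟨Ψ, hΨ, hΨK⟩ := hKA
  obtain ⟨e, rfl⟩ := hΦall Ψ hΨ
  obtain ⟨i, hi, ⟨X, hX, hXi⟩ | ⟨X, hX, hXj⟩⟩ := (hZ e).2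
  · obtain ⟨j, hj, hje⟩ := hΨK X hX
    have := (tg_inj (hXi.symm.trans hje)).1
    subst this
    rw [hi] at hj
    exact Bool.false_ne_true hj
  · obtain ⟨j, hj, hje⟩ := hΨK X hX
    exact hXj j hje

/-- **L1** `α{X}` is a singleton degree -/
theorem single_image (a : Aut) (X : Set ℕ) : ∃ Y : Set ℕ, PE (a.F {X}) {Y} :=
  single_of_hasV (hasV_aut a (hasV_single X))

end ME
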