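import Pool.Agent.Helper89.MEF.H89_MainDefs
import Pool.Agent.Helper89.MEF.H41_Cat1a

/-!
# ME-M1: unpredictability above a node, avoidance of the points, avoidance by the tree
-/

set_option autoImplicit false

namespace ME

open Encodable Set Filter Topology

theorem PA.mono {A B : Set ℕ} {t : List Bool → Bool} {u : List Bool} (h : PA B t u)
    (hAB : ER A B) : PA A t u := by
  obtain ⟨Φ, hΦ, rfl⟩ := hAB
  intro Θ hΘ hne
  exact h (fun X => Θ (Φ X)) (hΘ.comp hΦ) hne

/-- nothing above `u` is below the oracle -/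
theorem PA.not_ER {A : Set ℕ} {t : List Bool → Bool} {u : List Bool} (h : PA A t u)
    {y : ℕ → Bool} (hy : y ∈ cyl u) : ¬ ER (rs (rho t y)) A := by
  intro hER
  have hER' : ER (gr (rho t y)) A := by
    have h1 : ER (gr (rho t y)) (rs (rho t y)) := ER.of_cd _
    exact h1.trans hER
  obtain ⟨Θ, hΘ, hΘA⟩ := hER'
  obtain ⟨n, v, hnv, hn, hw⟩ := h Θ hΘ (fun n => ⟨rho t y n, by rw [hΘA]; rfl⟩)
  rw [hΘA] at hnv
  have h1 : rho t y n = v := hnv
  have h2 : u <+: pre y n := by
    have h3 : pre y u.length = u := hy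
    have h4 := pre_prefix y hn
    rwa [h3] at h4
  have h5 := hw (pre y n) h2 (length_pre y n)
  have h6 : t (pre y n) = v := h1
  rw [h6] at h5
  exact absurd h5.symm (by cases v <;> decide)

namespace Gen1aux

theorem avoid_aux (M : ℕ) (c : Bool → ℕ → Bool) (z : Bool × ℕ → ℕ → Bool) (y : ℕ → Bool)
    (S : Set Idx) (hS : ∀ j, (j, none) ∈ S) (hy : ∀ l ∈ S, pt M c z l ≠ y) :
    ∃ u, y ∈ cyl u ∧ ∀ l ∈ S, pt M c z l ∉ cyl u := by
  classical
  have hd : ∀ l, ∃ d, l ∈ S → pt M c z l d ≠ y d := by
    intro l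
    by_cases hl : l ∈ S
    · obtain ⟨d, hd⟩ := Function.ne_iff.1 (hy l hl)
      exact ⟨d, fun _ => hd⟩
    · exact ⟨0, fun h => absurd h hl⟩
  choose d hd using hd
  -- bound for the finitely many relevant satellites
  set B : Bool → ℕ := fun j => (Finset.range (d (j, none) + 1)).sup fun m => d (j, some m) with hB
  set N := d (true, none) + d (false, none) + B true + B false + 1 with hN
  have hdN : ∀ j, d (j, none) < N := by
    intro j
    cases j <;> omega
  have hBN : ∀ j, B j < N := by
    intro j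
    cases j <;> omega
  have key : ∀ (x : ℕ → Bool) (k : ℕ), k < N → x k ≠ y k → x ∉ cyl (pre y N) := by
    intro x k hk hne hx
    have h1 : pre x N = pre y N := by
      have h2 : pre x (pre y N).length = pre y N := hx
      rwa [length_pre] at h2
    exact hne (pre_eq_iff.1 h1 k hk)
  refine ⟨pre y N, ?_, ?_⟩
  · change pre y (pre y N).length = pre y N
    rw [length_pre]
  · rintro ⟨j, o⟩ hl
    cases o with
    | none => exact key _ _ (hdN j) (hd _ hl)
    | some m =>
      by_cases hm : m ≤ d (j, none)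
      · have h1 : d (j, some m) ≤ B j :=
          Finset.le_sup (f := fun m => d (j, some m)) (Finset.mem_range.2 (by omega))
        exact key _ _ (lt_of_le_of_lt h1 (hBN j)) (hd _ hl)
      · apply key _ _ (hdN j)
        have h1 := hd (j, none) (hS j)
        have h2 : pt M c z (j, some m) (d (j, none)) = pt M c z (j, none) (d (j, none)) := by
          simp only [pt, sat]
          rw [if_pos (by omega)]
        rw [h2]
        exact h1

end Gen1aux

/-- ME-M1a: the points are not dense near other points -/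
theorem exists_avoid (M : ℕ) (c : Bool → ℕ → Bool) (z : Bool × ℕ → ℕ → Bool) (y : ℕ → Bool)
    (hy : ∀ l, pt M c z l ≠ y) : ∃ u, y ∈ cyl u ∧ ∀ l, pt M c z l ∉ cyl u := by
  obtain ⟨u, h1, h2⟩ := Gen1aux.avoid_aux M c z y univ (fun _ => mem_univ _) (fun l _ => hy l)
  exact ⟨u, h1, fun l => h2 l (mem_univ _)⟩

theorem exists_avoid' (M : ℕ) (c : Bool → ℕ → Bool) (z : Bool × ℕ → ℕ → Bool) (j : Bool) (m : ℕ)
    (hy : ∀ l, l ≠ (j, some m) → pt M c z l ≠ pt M c z (j, some m)) :
    ∃ u, pt M c z (j, some m) ∈ cyl u ∧ ∀ l, l ≠ (j, some m) → pt M c z l ∉ cyl u :=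
  Gen1aux.avoid_aux M c z _ {l | l ≠ (j, some m)} (fun j' => by simp) hy

namespace Gen1aux

/-- the trees whose level `n` has constant label `!c n` for some `n` -/
def lev (c : ℕ → Bool) : Set (List Bool → Bool) :=
  ⋃ n : ℕ, {t | ∀ w : List Bool, w.length = n → t w = !(c n)}

theorem isOpen_lev (c : ℕ → Bool) : IsOpen (lev c) := by
  apply isOpen_iUnion
  intro n
  have h1 : {t : List Bool → Bool | ∀ w : List Bool, w.length = n → t w = !(c n)} =
      ⋂ w ∈ {w : List Bool | w.length = n}, {t : List Bool → Bool | t w = !(c n)} := by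
    ext t
    simp
  rw [h1]
  apply Set.Finite.isOpen_biInter
  · exact List.finite_length_eq Bool n
  · intro w _
    have hc : Continuous (fun t : List Bool → Bool => t w) := continuous_apply w
    exact (isOpen_discrete ({!(c n)} : Set Bool)).preimage hc

theorem dense_lev (c : ℕ → Bool) : Dense (lev c) := by
  intro t
  have h1 : Tendsto (fun n : ℕ => fun w : List Bool => if w.length = n then !(c n) else t w)
      atTop (𝓝 t) := by
    rw [tendsto_pi_nhds]
    intro w
    apply tendsto_nhds_of_eventually_eq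
    filter_upwards [eventually_gt_atTop w.length] with n hn
    rw [if_neg (by omega)]
  refine mem_closure_of_tendsto h1 (Eventually.of_forall fun n => ?_)
  refine mem_iUnion.2 ⟨n, ?_⟩
  intro w hw
  simp only [hw, if_true]

end Gen1aux

/-- ME-M1e -/
theorem tree_avoid (C : Set (ℕ → Bool)) (hC : C.Countable) :
    ∀ᶠ t in residual (List Bool → Bool), ∀ y, rho t y ∉ C := by
  have h1 : ∀ᶠ t in residual (List Bool → Bool), ∀ c ∈ C, t ∈ Gen1aux.lev c := by
    rw [eventually_countable_ball hC]
    intro c _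
    exact residual_of_dense_open (Gen1aux.isOpen_lev c) (Gen1aux.dense_lev c)
  filter_upwards [h1] with t ht y hy
  obtain ⟨n, hn⟩ := mem_iUnion.1 (ht _ hy)
  have h2 : t (pre y n) = !(rho t y n) := hn (pre y n) (length_pre y n)
  have h3 : rho t y n = t (pre y n) := rfl
  rw [h3] at h2
  cases h : t (pre y n) <;> simp [h] at h2

end ME
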