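import Pool.Agent.Helper89.MEF.H89_KDefs

/-!
# ME-K1: Kalimullin's theorem and closure of K-pairs
-/

set_option autoImplicit false

namespace ME

open Encodable Set

theorem KPair.symm {A B : Set ℕ} (h : KPair A B) : KPair B A := by
  obtain ⟨W, hW, h1, h2⟩ := h
  refine ⟨fun x => W (x.2, x.1), hW.subst (Primrec.snd.pair Primrec.fst), ?_, ?_⟩
  · intro b hb a ha
    exact h1 a ha b hb
  · intro b a hab
    exact (h2 a b hab).symm

/-- (K2) -/
theorem KPair.le_compl {A B : Set ℕ} (h : KPair A B) (hB : ¬ RE (· ∈ B)) : ER A Bᶜ := by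
  obtain ⟨W, hW, h1, h2⟩ := h
  have hop : EP (fun (X : Set ℕ) (y : ℕ × ℕ) => W (y.1, y.2) ∧ y.2 ∈ X) :=
    EP.and (EP.re hW) (EP.mem Primrec.snd)
  refine ⟨fun X => {a | ∃ s, W (a, s) ∧ s ∈ X}, hop.ex, ?_⟩
  ext a
  constructor
  · rintro ⟨s, hs, hsB⟩
    rcases h2 a s hs with h | h
    · exact h
    · exact absurd h hsB
  · intro ha
    by_contra hcon
    apply hB
    have h3 : RE (fun b : ℕ => W (a, b)) := hW.subst ((Primrec.const a).pair Primrec.id)
    refine h3.of_iff ?_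
    intro b
    constructor
    · intro hb
      exact h1 a ha b hb
    · intro hab
      by_contra hb
      exact hcon ⟨b, hab, hb⟩

section K1a

/-- membership in a list is decidable -/
theorem RE_mem_list {α β : Type} [Primcodable α] [Primcodable β] {f : β → α} {g : β → List α}
    (hf : Primrec f) (hg : Primrec g) : RE (fun b => f b ∈ g b) := by
  refine RE.prim ?_
  have h4 : PrimrecRel (fun (L : List α) (l : α) => ∃ x ∈ L, x = l) :=
    PrimrecRel.exists_mem_list (R := fun x y : α => x = y) Primrec.eq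
  have h5 := primrecRel_comp h4 hg hf
  exact h5.of_eq (by simp)

/-- (K1), the easy direction -/
theorem KPair.inf {A B : Set ℕ} (h : KPair A B) (X Z : Set ℕ) (hA : ER Z (jn X A))
    (hB : ER Z (jn X B)) : ER Z X := by
  obtain ⟨W, hW, h1, h2⟩ := h
  obtain ⟨Φ, ⟨U, hU, hΦ⟩, hΦZ⟩ := ER_cd_right.1 hA
  obtain ⟨Ψ, ⟨V, hV, hΨ⟩, hΨZ⟩ := ER_cd_right.1 hB
  -- elements c of a list: either `inl x` with `x ∈ X` or `inr a`
  have e1 : EP (fun (X : Set ℕ) (c : ℕ ⊕ ℕ) => c ∈ sj X (univ : Set ℕ)) :=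
    IsOp.sj IsOp.id (IsOp.const ((RE.const True).of_iff (by simp)))
  -- compatible pairs
  have e2 : RE (fun z : (ℕ ⊕ ℕ) × (ℕ ⊕ ℕ) =>
      (∃ x : ℕ, z.1 = Sum.inl x) ∨ (∃ x : ℕ, z.2 = Sum.inl x) ∨
      ∃ p : ℕ × ℕ, z.1 = Sum.inr p.1 ∧ z.2 = Sum.inr p.2 ∧ W p) := by
    refine RE.or ?_ (RE.or ?_ ?_)
    · exact (RE.eq (Primrec.fst.comp Primrec.fst)
        (Primrec.sumInl.comp Primrec.snd) : RE (fun y : ((ℕ ⊕ ℕ) × (ℕ ⊕ ℕ)) × ℕ =>
          y.1.1 = Sum.inl y.2)).ex
    · exact (RE.eq (Primrec.snd.comp Primrec.fst)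
        (Primrec.sumInl.comp Primrec.snd) : RE (fun y : ((ℕ ⊕ ℕ) × (ℕ ⊕ ℕ)) × ℕ =>
          y.1.2 = Sum.inl y.2)).ex
    · have h3 : RE (fun y : ((ℕ ⊕ ℕ) × (ℕ ⊕ ℕ)) × (ℕ × ℕ) =>
          y.1.1 = Sum.inr y.2.1 ∧ y.1.2 = Sum.inr y.2.2 ∧ W y.2) :=
        (RE.eq (Primrec.fst.comp Primrec.fst)
          (Primrec.sumInr.comp (Primrec.fst.comp Primrec.snd))).and
        ((RE.eq (Primrec.snd.comp Primrec.fst)
          (Primrec.sumInr.comp (Primrec.snd.comp Primrec.snd))).and (hW.subst Primrec.snd))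
      exact h3.ex
  have e3 : RE (fun y : (List (ℕ ⊕ ℕ)) × (List (ℕ ⊕ ℕ)) =>
      ∀ c ∈ y.1, ∀ d ∈ y.2, (∃ x : ℕ, c = Sum.inl x) ∨ (∃ x : ℕ, d = Sum.inl x) ∨
      ∃ p : ℕ × ℕ, c = Sum.inr p.1 ∧ d = Sum.inr p.2 ∧ W p) := by
    refine RE.ball (p := fun w : ((List (ℕ ⊕ ℕ)) × (List (ℕ ⊕ ℕ))) × (ℕ ⊕ ℕ) =>
      ∀ d ∈ w.1.2, (∃ x : ℕ, w.2 = Sum.inl x) ∨ (∃ x : ℕ, d = Sum.inl x) ∨
      ∃ p : ℕ × ℕ, w.2 = Sum.inr p.1 ∧ d = Sum.inr p.2 ∧ W p) ?_ (g := fun y => y.1) Primrec.fst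
    refine RE.ball (p := fun v : (((List (ℕ ⊕ ℕ)) × (List (ℕ ⊕ ℕ))) × (ℕ ⊕ ℕ)) × (ℕ ⊕ ℕ) =>
      (∃ x : ℕ, v.1.2 = Sum.inl x) ∨ (∃ x : ℕ, v.2 = Sum.inl x) ∨
      ∃ p : ℕ × ℕ, v.1.2 = Sum.inr p.1 ∧ v.2 = Sum.inr p.2 ∧ W p) ?_
      (g := fun w => w.1.2) (Primrec.snd.comp Primrec.fst)
    exact e2.subst (f := fun v : (((List (ℕ ⊕ ℕ)) × (List (ℕ ⊕ ℕ))) × (ℕ ⊕ ℕ)) × (ℕ ⊕ ℕ) =>
      (v.1.2, v.2)) ((Primrec.snd.comp Primrec.fst).pair Primrec.snd)
  have e4 : EP (fun (X : Set ℕ) (y : ℕ × ((List (ℕ ⊕ ℕ)) × (List (ℕ ⊕ ℕ)))) =>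
      (U (y.2.1, y.1) ∧ V (y.2.2, y.1) ∧
      ∀ c ∈ y.2.1, ∀ d ∈ y.2.2, (∃ x : ℕ, c = Sum.inl x) ∨ (∃ x : ℕ, d = Sum.inl x) ∨
      ∃ p : ℕ × ℕ, c = Sum.inr p.1 ∧ d = Sum.inr p.2 ∧ W p) ∧
      (∀ c ∈ y.2.1, c ∈ sj X (univ : Set ℕ)) ∧ (∀ d ∈ y.2.2, d ∈ sj X (univ : Set ℕ))) := by
    refine EP.and (EP.re ?_) (EP.and ?_ ?_)
    · refine RE.and ?_ (RE.and ?_ ?_)
      · exact hU.subst ((Primrec.fst.comp Primrec.snd).pair Primrec.fst)
      · exact hV.subst ((Primrec.snd.comp Primrec.snd).pair Primrec.fst)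
      · exact e3.subst (f := fun y : ℕ × ((List (ℕ ⊕ ℕ)) × (List (ℕ ⊕ ℕ))) => y.2) Primrec.snd
    · exact EP.ball (P := fun (X : Set ℕ) (z : (ℕ × ((List (ℕ ⊕ ℕ)) × (List (ℕ ⊕ ℕ)))) × (ℕ ⊕ ℕ))
        => z.2 ∈ sj X (univ : Set ℕ)) (EP.subst e1 Primrec.snd)
        (g := fun y => y.2.1) (Primrec.fst.comp Primrec.snd)
    · exact EP.ball (P := fun (X : Set ℕ) (z : (ℕ × ((List (ℕ ⊕ ℕ)) × (List (ℕ ⊕ ℕ)))) × (ℕ ⊕ ℕ))
        => z.2 ∈ sj X (univ : Set ℕ)) (EP.subst e1 Primrec.snd)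
        (g := fun y => y.2.2) (Primrec.snd.comp Primrec.snd)
  refine ⟨_, e4.ex, ?_⟩
  ext n
  constructor
  · rintro ⟨⟨L, M⟩, ⟨hL, hM, hLM⟩, hLX, hMX⟩
    simp only at hL hM hLM hLX hMX
    by_cases hLA : ∀ a, Sum.inr a ∈ L → a ∈ A
    · rw [← hΦZ]
      refine (hΦ _ _).2 ⟨L, hL, ?_⟩
      rintro (x | a) hc
      · exact hLX _ hc
      · exact hLA a hc
    · push Not at hLA
      obtain ⟨a, haL, haA⟩ := hLA
      rw [← hΨZ]
      refine (hΨ _ _).2 ⟨M, hM, ?_⟩
      rintro (x | b) hc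
      · exact hMX _ hc
      · rcases hLM _ haL _ hc with ⟨x, hx⟩ | ⟨x, hx⟩ | ⟨⟨p, q⟩, hp, hq, hpq⟩
        · cases hx
        · cases hx
        · simp only [Sum.inr.injEq] at hp hq
          subst hp hq
          rcases h2 _ _ hpq with h | h
          · exact absurd h haA
          · exact h
  · intro hn
    obtain ⟨L, hL, hL'⟩ := (hΦ _ _).1 (show n ∈ Φ (sj X A) by rw [hΦZ]; exact hn)
    obtain ⟨M, hM, hM'⟩ := (hΨ _ _).1 (show n ∈ Ψ (sj X B) by rw [hΨZ]; exact hn)
    refine ⟨(L, M), ⟨hL, hM, ?_⟩, ?_, ?_⟩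
    · rintro (x | a) hc (y | b) hd
      · exact Or.inl ⟨x, rfl⟩
      · exact Or.inl ⟨x, rfl⟩
      · exact Or.inr (Or.inl ⟨y, rfl⟩)
      · exact Or.inr (Or.inr ⟨(a, b), rfl, rfl, h1 a (hL' _ hc) b (hM' _ hd)⟩)
    · rintro (x | a) hc
      · exact hL' _ hc
      · trivial
    · rintro (x | a) hc
      · exact hM' _ hc
      · trivial

end K1a

section K1b

/-- tokens: side, row, element -/
abbrev KT : Type := Bool × (ℕ × ℕ)

/-- all rows are consistent -/
def KGood (A B : Set ℕ) (F : Set KT) : Prop :=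
  ∀ n, (∃ a ∈ A, (false, (n, a)) ∈ F) ↔ (∃ b ∈ B, (true, (n, b)) ∈ F)

/-- the set `Z` coded by the rows -/
def KZ (A : Set ℕ) (X : Set KT) : Set ℕ := {n | ∃ a ∈ A, (false, (n, a)) ∈ X}

/-- one step of the construction -/
theorem kstep {A B : Set ℕ} (hK : ¬ KPair A B) {a0 b0 : ℕ} (ha0 : a0 ∈ A) (hb0 : b0 ∈ B)
    {Φ : Set KT → Set ℕ} (hΦ : IsOp Φ) (F : List KT) (N : ℕ) (hFN : ∀ t ∈ F, t.2.1 < N)
    (hF : KGood A B {t | t ∈ F}) :
    ∃ (F' : List KT) (N' : ℕ), (∀ t ∈ F', t.2.1 < N') ∧ KGood A B {t | t ∈ F'} ∧ N < N' ∧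
      (∀ t ∈ F, t ∈ F') ∧ (∀ t ∈ F', t.2.1 < N → t ∈ F) ∧
      ∀ X : Set KT, (∀ t : KT, t.2.1 < N' → (t ∈ X ↔ t ∈ F')) → Φ X ≠ KZ A X := by
  classical
  obtain ⟨U, hU, hΦU⟩ := hΦ
  -- the c.e. set W
  set W : ℕ × ℕ → Prop := fun p => ∃ L : List KT, U (L, N) ∧
    ∀ t ∈ L, (t ∈ F ∨ t = (false, (N, p.1)) ∨ t = (true, (N, p.2)) ∨ N < t.2.1) with hWdef
  have hW : RE W := by
    have hmem : RE (fun y : ((ℕ × ℕ) × List KT) × KT => y.2 ∈ F ∨
        y.2 = (false, (N, y.1.1.1)) ∨ y.2 = (true, (N, y.1.1.2)) ∨ N < y.2.2.1) := by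
      refine RE.or ?_ (RE.or ?_ (RE.or ?_ ?_))
      · exact RE_mem_list Primrec.snd (Primrec.const F)
      · exact RE.eq Primrec.snd ((Primrec.const false).pair ((Primrec.const N).pair
          (Primrec.fst.comp (Primrec.fst.comp Primrec.fst))))
      · exact RE.eq Primrec.snd ((Primrec.const true).pair ((Primrec.const N).pair
          (Primrec.snd.comp (Primrec.fst.comp Primrec.fst))))
      · exact RE.prim (Primrec.nat_lt.comp (Primrec.const N)
          (Primrec.fst.comp (Primrec.snd.comp Primrec.snd)))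
    have h1 : RE (fun y : (ℕ × ℕ) × List KT => ∀ t ∈ y.2, (t ∈ F ∨
        t = (false, (N, y.1.1)) ∨ t = (true, (N, y.1.2)) ∨ N < t.2.1)) :=
      RE.ball (p := fun y : ((ℕ × ℕ) × List KT) × KT => y.2 ∈ F ∨
        y.2 = (false, (N, y.1.1.1)) ∨ y.2 = (true, (N, y.1.1.2)) ∨ N < y.2.2.1) hmem
        (g := fun y => y.2) Primrec.snd
    have h2 : RE (fun y : (ℕ × ℕ) × List KT => U (y.2, N)) :=
      hU.subst (Primrec.snd.pair (Primrec.const N))
    exact (h2.and h1).ex
  by_cases hcase : ∀ a ∈ A, ∀ b ∈ B, W (a, b)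
  · -- then some bad pair is in W
    have : ∃ a b, W (a, b) ∧ a ∉ A ∧ b ∉ B := by
      by_contra hcon
      push Not at hcon
      exact hK ⟨W, hW, hcase, fun a b hab => by
        by_cases ha : a ∈ A
        · exact Or.inl ha
        · exact Or.inr (hcon a b hab ha)⟩
    obtain ⟨a, b, ⟨L, hUL, hL⟩, haA, hbB⟩ := this
    simp only at hL
    -- the new elements of L
    set G : List KT := L.filter (fun t => decide (N < t.2.1)) with hG
    have hGmem : ∀ t, t ∈ G ↔ t ∈ L ∧ N < t.2.1 := by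
      intro t
      simp [hG]
    set R : List ℕ := G.map (fun t => t.2.1) with hR
    set F' : List KT := F ++ ([(false, (N, a)), (true, (N, b))] ++ (G ++
      ((R.map fun m => ((false, (m, a0)) : KT)) ++ (R.map fun m => ((true, (m, b0)) : KT)))))
      with hF'
    have hRmem : ∀ m, m ∈ R ↔ ∃ t ∈ G, t.2.1 = m := by
      intro m
      simp [hR]
    have hRN : ∀ m ∈ R, N < m := by
      intro m hm
      obtain ⟨t, ht, rfl⟩ := (hRmem m).1 hm
      exact ((hGmem t).1 ht).2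
    have hmem : ∀ t, t ∈ F' ↔ t ∈ F ∨ t = (false, (N, a)) ∨ t = (true, (N, b)) ∨ t ∈ G ∨
        (∃ m ∈ R, t = (false, (m, a0))) ∨ (∃ m ∈ R, t = (true, (m, b0))) := by
      intro t
      simp only [hF', List.mem_append, List.mem_cons, List.mem_map, List.not_mem_nil, or_false]
      constructor
      · rintro (h | (h | h) | h | ⟨m, hm, h⟩ | ⟨m, hm, h⟩)
        · exact Or.inl h
        · exact Or.inr (Or.inl h)
        · exact Or.inr (Or.inr (Or.inl h))
        · exact Or.inr (Or.inr (Or.inr (Or.inl h)))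
        · exact Or.inr (Or.inr (Or.inr (Or.inr (Or.inl ⟨m, hm, h.symm⟩))))
        · exact Or.inr (Or.inr (Or.inr (Or.inr (Or.inr ⟨m, hm, h.symm⟩))))
      · rintro (h | h | h | h | ⟨m, hm, h⟩ | ⟨m, hm, h⟩)
        · exact Or.inl h
        · exact Or.inr (Or.inl (Or.inl h))
        · exact Or.inr (Or.inl (Or.inr h))
        · exact Or.inr (Or.inr (Or.inl h))
        · exact Or.inr (Or.inr (Or.inr (Or.inl ⟨m, hm, h.symm⟩)))
        · exact Or.inr (Or.inr (Or.inr (Or.inr ⟨m, hm, h.symm⟩)))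
    -- the new bound
    set N' : ℕ := (F'.toFinset.sup fun t => t.2.1) + 1 with hN'
    have hb1 : ∀ t ∈ F', t.2.1 < N' := by
      intro t ht
      exact Nat.lt_succ_of_le
        (Finset.le_sup (f := fun t : KT => t.2.1) (List.mem_toFinset.2 ht))
    refine ⟨F', N', hb1, ?_, ?_, ?_, ?_, ?_⟩
    · intro n
      simp only [mem_ofPred_eq, hmem]
      rcases lt_trichotomy n N with hn | hn | hn
      · have h1 := hF n
        simp only [mem_ofPred_eq] at h1
        constructor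
        · rintro ⟨x, hx, h | h | h | h | ⟨m, hm, h⟩ | ⟨m, hm, h⟩⟩
          · obtain ⟨y, hy, hy'⟩ := h1.1 ⟨x, hx, h⟩
            exact ⟨y, hy, Or.inl hy'⟩
          · simp only [Prod.mk.injEq] at h
            omega
          · simp at h
          · have := ((hGmem _).1 h).2
            simp only at this
            omega
          · have := hRN m hm
            simp only [Prod.mk.injEq] at h
            omega
          · simp at h
        · rintro ⟨x, hx, h | h | h | h | ⟨m, hm, h⟩ | ⟨m, hm, h⟩⟩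
          · obtain ⟨y, hy, hy'⟩ := h1.2 ⟨x, hx, h⟩
            exact ⟨y, hy, Or.inl hy'⟩
          · simp at h
          · simp only [Prod.mk.injEq] at h
            omega
          · have := ((hGmem _).1 h).2
            simp only at this
            omega
          · simp at h
          · have := hRN m hm
            simp only [Prod.mk.injEq] at h
            omega
      · subst hn
        constructor
        · rintro ⟨x, hx, h | h | h | h | ⟨m, hm, h⟩ | ⟨m, hm, h⟩⟩
          · have := hFN _ h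
            simp only at this
            omega
          · simp only [Prod.mk.injEq, true_and] at h
            exact absurd (h ▸ hx) haA
          · simp at h
          · have := ((hGmem _).1 h).2
            simp only at this
            omega
          · have := hRN m hm
            simp only [Prod.mk.injEq] at h
            omega
          · simp at h
        · rintro ⟨x, hx, h | h | h | h | ⟨m, hm, h⟩ | ⟨m, hm, h⟩⟩
          · have := hFN _ h
            simp only at this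
            omega
          · simp at h
          · simp only [Prod.mk.injEq, true_and] at h
            exact absurd (h ▸ hx) hbB
          · have := ((hGmem _).1 h).2
            simp only at this
            omega
          · simp at h
          · have := hRN m hm
            simp only [Prod.mk.injEq] at h
            omega
      · -- rows above N
        have key : ∀ s x, ((s, (n, x)) : KT) ∈ F' → n ∈ R := by
          intro s x h
          rcases (hmem _).1 h with h | h | h | h | ⟨m, hm, h⟩ | ⟨m, hm, h⟩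
          · have := hFN _ h
            simp only at this
            omega
          · simp only [Prod.mk.injEq] at h
            omega
          · simp only [Prod.mk.injEq] at h
            omega
          · exact (hRmem n).2 ⟨_, h, rfl⟩
          · simp only [Prod.mk.injEq] at h
            rw [h.2.1]
            exact hm
          · simp only [Prod.mk.injEq] at h
            rw [h.2.1]
            exact hm
        constructor
        · rintro ⟨x, hx, h⟩
          have hn := key _ _ ((hmem _).2 h)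
          exact ⟨b0, hb0, Or.inr (Or.inr (Or.inr (Or.inr (Or.inr ⟨n, hn, rfl⟩))))⟩
        · rintro ⟨x, hx, h⟩
          have hn := key _ _ ((hmem _).2 h)
          exact ⟨a0, ha0, Or.inr (Or.inr (Or.inr (Or.inr (Or.inl ⟨n, hn, rfl⟩))))⟩
    · have := hb1 (false, (N, a)) ((hmem _).2 (Or.inr (Or.inl rfl)))
      exact this
    · intro t ht
      exact (hmem t).2 (Or.inl ht)
    · intro t ht htN
      rcases (hmem _).1 ht with h | h | h | h | ⟨m, hm, h⟩ | ⟨m, hm, h⟩
      · exact h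
      · rw [h] at htN
        simp at htN
      · rw [h] at htN
        simp at htN
      · have := ((hGmem _).1 h).2
        omega
      · have := hRN m hm
        rw [h] at htN
        simp only at htN
        omega
      · have := hRN m hm
        rw [h] at htN
        simp only at htN
        omega
    · intro X hX heq
      have hNN' : N < N' := hb1 (false, (N, a)) ((hmem _).2 (Or.inr (Or.inl rfl)))
      have h1 : N ∈ Φ X := by
        refine (hΦU _ _).2 ⟨L, hUL, ?_⟩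
        intro t ht
        have ht' : t ∈ F' := by
          rw [hmem]
          rcases hL t ht with h | h | h | h
          · exact Or.inl h
          · exact Or.inr (Or.inl h)
          · exact Or.inr (Or.inr (Or.inl h))
          · exact Or.inr (Or.inr (Or.inr (Or.inl ((hGmem t).2 ⟨ht, h⟩))))
        exact (hX t (hb1 t ht')).2 ht'
      rw [heq] at h1
      obtain ⟨x, hx, hxX⟩ := h1
      have h2 := (hX _ hNN').1 hxX
      rcases (hmem _).1 h2 with h | h | h | h | ⟨m, hm, h⟩ | ⟨m, hm, h⟩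
      · have := hFN _ h
        simp only at this
        omega
      · simp only [Prod.mk.injEq, true_and] at h
        exact haA (h ▸ hx)
      · simp at h
      · have := ((hGmem _).1 h).2
        simp only at this
        omega
      · have := hRN m hm
        simp only [Prod.mk.injEq] at h
        omega
      · simp at h
  · -- a good pair outside W
    push Not at hcase
    obtain ⟨a, ha, b, hb, hab⟩ := hcase
    set F' : List KT := F ++ [(false, (N, a)), (true, (N, b))] with hF'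
    have hmem : ∀ t, t ∈ F' ↔ t ∈ F ∨ t = (false, (N, a)) ∨ t = (true, (N, b)) := by
      intro t
      simp [hF']
    refine ⟨F', N + 1, ?_, ?_, Nat.lt_succ_self N, ?_, ?_, ?_⟩
    · intro t ht
      rcases (hmem t).1 ht with h | h | h
      · have := hFN _ h
        omega
      · rw [h]
        simp
      · rw [h]
        simp
    · intro n
      have h1 := hF n
      simp only [mem_ofPred_eq] at h1
      simp only [mem_ofPred_eq, hmem]
      constructor
      · rintro ⟨x, hx, h | h | h⟩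
        · obtain ⟨y, hy, hy'⟩ := h1.1 ⟨x, hx, h⟩
          exact ⟨y, hy, Or.inl hy'⟩
        · simp only [Prod.mk.injEq, true_and] at h
          rw [h.1]
          exact ⟨b, hb, Or.inr (Or.inr rfl)⟩
        · simp at h
      · rintro ⟨x, hx, h | h | h⟩
        · obtain ⟨y, hy, hy'⟩ := h1.2 ⟨x, hx, h⟩
          exact ⟨y, hy, Or.inl hy'⟩
        · simp at h
        · simp only [Prod.mk.injEq, true_and] at h
          rw [h.1]
          exact ⟨a, ha, Or.inr (Or.inl rfl)⟩
    · intro t ht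
      exact (hmem t).2 (Or.inl ht)
    · intro t ht htN
      rcases (hmem t).1 ht with h | h | h
      · exact h
      · rw [h] at htN
        simp at htN
      · rw [h] at htN
        simp at htN
    · intro X hX heq
      have h1 : N ∈ KZ A X :=
        ⟨a, ha, (hX (false, (N, a)) (Nat.lt_succ_self N)).2 ((hmem _).2 (Or.inr (Or.inl rfl)))⟩
      rw [← heq] at h1
      obtain ⟨L, hL, hLX⟩ := (hΦU _ _).1 h1
      apply hab
      refine ⟨L, hL, ?_⟩
      intro t ht
      by_cases htN : t.2.1 < N + 1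
      · have h2 := (hX t htN).1 (hLX t ht)
        rcases (hmem t).1 h2 with h | h | h
        · exact Or.inl h
        · exact Or.inr (Or.inl h)
        · exact Or.inr (Or.inr (Or.inl h))
      · exact Or.inr (Or.inr (Or.inr (by omega)))

/-- the hard direction of Kalimullin's theorem -/
theorem kalimullin_hard {A B : Set ℕ}
    (h : ∀ X Z : Set ℕ, ER Z (jn X A) → ER Z (jn X B) → ER Z X) : KPair A B := by
  classical
  by_contra hK
  have hA : ∃ a, a ∈ A := by
    by_contra hcon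
    push Not at hcon
    exact hK ⟨fun _ => False, RE.const False, fun a ha => absurd ha (hcon a), by simp⟩
  have hB : ∃ b, b ∈ B := by
    by_contra hcon
    push Not at hcon
    exact hK ⟨fun _ => False, RE.const False, fun a _ b hb => absurd hb (hcon b), by simp⟩
  obtain ⟨a0, ha0⟩ := hA
  obtain ⟨b0, hb0⟩ := hB
  obtain ⟨Φ, hΦ, hΦs⟩ := exists_enum_IsOp (α := KT) (β := ℕ)
  have step := fun e => kstep hK ha0 hb0 (hΦ e)
  -- the states
  let S : Type := {p : List KT × ℕ // (∀ t ∈ p.1, t.2.1 < p.2) ∧ KGood A B {t | t ∈ p.1}}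
  have hstep : ∀ (e : ℕ) (s : S), ∃ s' : S, s.1.2 < s'.1.2 ∧
      (∀ t ∈ s.1.1, t ∈ s'.1.1) ∧ (∀ t ∈ s'.1.1, t.2.1 < s.1.2 → t ∈ s.1.1) ∧
      ∀ X : Set KT, (∀ t : KT, t.2.1 < s'.1.2 → (t ∈ X ↔ t ∈ s'.1.1)) → Φ e X ≠ KZ A X := by
    rintro e ⟨⟨F, N⟩, h1, h2⟩
    obtain ⟨F', N', k1, k2, k3, k4, k5, k6⟩ := step e F N h1 h2
    exact ⟨⟨(F', N'), k1, k2⟩, k3, k4, k5, k6⟩
  choose nx hnx1 hnx2 hnx3 hnx4 using hstep
  let s0 : S := ⟨([], 0), by simp, by intro n; simp⟩
  let st : ℕ → S := fun e => Nat.rec s0 (fun e s => nx e s) e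
  have hst : ∀ e, st (e + 1) = nx e (st e) := fun e => rfl
  have hN : ∀ e, (st e).1.2 < (st (e + 1)).1.2 := fun e => by rw [hst]; exact hnx1 _ _
  have hNmono : StrictMono (fun e => (st e).1.2) := strictMono_nat_of_lt_succ hN
  have hmono : ∀ e d, ∀ t ∈ (st e).1.1, t ∈ (st (e + d)).1.1 := by
    intro e d
    induction d with
    | zero => exact fun t ht => ht
    | succ d ih =>
      intro t ht
      have := ih t ht
      rw [← add_assoc, hst]
      exact hnx2 _ _ t this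
  have hback : ∀ e d, ∀ t ∈ (st (e + d)).1.1, t.2.1 < (st e).1.2 → t ∈ (st e).1.1 := by
    intro e d
    induction d with
    | zero => exact fun t ht _ => ht
    | succ d ih =>
      intro t ht htN
      apply ih t _ htN
      rw [← add_assoc, hst] at ht
      refine hnx3 _ _ t ht (lt_of_lt_of_le htN ?_)
      exact hNmono.monotone (Nat.le_add_right e d)
  let X : Set KT := {t | ∃ e, t ∈ (st e).1.1}
  have hX : ∀ e, ∀ t : KT, t.2.1 < (st e).1.2 → (t ∈ X ↔ t ∈ (st e).1.1) := by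
    intro e t ht
    constructor
    · rintro ⟨d, hd⟩
      rcases le_total e d with hed | hed
      · obtain ⟨k, rfl⟩ := Nat.exists_eq_add_of_le hed
        exact hback e k t hd ht
      · obtain ⟨k, rfl⟩ := Nat.exists_eq_add_of_le hed
        exact hmono d k t hd
    · intro h
      exact ⟨e, h⟩
  have hgood : KGood A B X := by
    intro n
    have hn : n < (st (n + 1)).1.2 := lt_of_lt_of_le (Nat.lt_succ_self n) (hNmono.id_le (n + 1))
    have h1 := (st (n + 1)).2.2 n
    simp only [mem_ofPred_eq] at h1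
    constructor
    · rintro ⟨a, ha, hh⟩
      obtain ⟨b, hb, hb'⟩ := h1.1 ⟨a, ha, (hX (n + 1) _ hn).1 hh⟩
      exact ⟨b, hb, (hX (n + 1) _ hn).2 hb'⟩
    · rintro ⟨a, ha, hh⟩
      obtain ⟨b, hb, hb'⟩ := h1.2 ⟨a, ha, (hX (n + 1) _ hn).1 hh⟩
      exact ⟨b, hb, (hX (n + 1) _ hn).2 hb'⟩
  -- Z is below X + A and X + B
  have hZA : ER (KZ A X) (jn (cd X) A) := by
    rw [jn, ER_cd_right]
    have h1 : EP (fun (Y : Set (ℕ ⊕ ℕ)) (y : ℕ × ℕ) => (Sum.inr y.2 : ℕ ⊕ ℕ) ∈ Y ∧
        (Sum.inl (encode ((false, (y.1, y.2)) : KT)) : ℕ ⊕ ℕ) ∈ Y) :=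
      EP.and (EP.mem (Primrec.sumInr.comp Primrec.snd))
        (EP.mem (Primrec.sumInl.comp (Primrec.encode.comp
          ((Primrec.const false).pair (Primrec.fst.pair Primrec.snd)))))
    refine ⟨_, h1.ex, ?_⟩
    ext n
    constructor
    · rintro ⟨a, ha, hh⟩
      simp only [inl_mem_sj, inr_mem_sj, encode_mem_cd] at ha hh
      exact ⟨a, ha, hh⟩
    · rintro ⟨a, ha, hh⟩
      refine ⟨a, ?_⟩
      simp only [inl_mem_sj, inr_mem_sj, encode_mem_cd]
      exact ⟨ha, hh⟩
  have hZB : ER (KZ A X) (jn (cd X) B) := by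
    rw [jn, ER_cd_right]
    have h1 : EP (fun (Y : Set (ℕ ⊕ ℕ)) (y : ℕ × ℕ) => (Sum.inr y.2 : ℕ ⊕ ℕ) ∈ Y ∧
        (Sum.inl (encode ((true, (y.1, y.2)) : KT)) : ℕ ⊕ ℕ) ∈ Y) :=
      EP.and (EP.mem (Primrec.sumInr.comp Primrec.snd))
        (EP.mem (Primrec.sumInl.comp (Primrec.encode.comp
          ((Primrec.const true).pair (Primrec.fst.pair Primrec.snd)))))
    refine ⟨_, h1.ex, ?_⟩
    ext n
    constructor
    · rintro ⟨a, ha, hh⟩
      simp only [inl_mem_sj, inr_mem_sj, encode_mem_cd] at ha hh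
      exact (hgood n).2 ⟨a, ha, hh⟩
    · intro hn
      obtain ⟨a, ha, hh⟩ := (hgood n).1 hn
      refine ⟨a, ?_⟩
      simp only [inl_mem_sj, inr_mem_sj, encode_mem_cd]
      exact ⟨ha, hh⟩
  have hZX := ER_cd_right.1 (h _ _ hZA hZB)
  obtain ⟨Ψ, hΨ, hΨX⟩ := hZX
  obtain ⟨e, he⟩ := hΦs Ψ hΨ
  have h1 := hnx4 e (st e) X (by
    have := hX (e + 1)
    rw [hst] at this
    exact this)
  rw [he] at h1
  exact h1 hΨX

/-- (K1) **Kalimullin** -/
theorem kalimullin {A B : Set ℕ} :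
    KPair A B ↔ ∀ X Z : Set ℕ, ER Z (jn X A) → ER Z (jn X B) → ER Z X :=
  ⟨fun h X Z h1 h2 => h.inf X Z h1 h2, kalimullin_hard⟩

theorem KPair.mono {A B A' B' : Set ℕ} (h : KPair A B) (hA : ER A' A) (hB : ER B' B) :
    KPair A' B' := by
  rw [kalimullin] at h ⊢
  intro X Z h1 h2
  have key : ∀ {A A' : Set ℕ}, ER A' A → ER (jn X A') (jn X A) := by
    intro A A' hAA
    rw [jn, jn, ER_cd_left, ER_cd_right]
    exact ER.sj (ER.left _ _) (hAA.trans (ER.right _ _))
  exact h X Z (h1.trans (key hA)) (h2.trans (key hB))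

end K1b

end ME
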