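import Pool.Agent.Helper89.MEF.H89_CatDefs

/-!
# ME-C2a: G1, a non-reducible set does not become reducible by adding a generic real
-/

set_option autoImplicit false
set_option linter.unusedSectionVars false

namespace ME

open Encodable Set Filter Topology

namespace G1aux

variable {α β ι : Type} [Primcodable α] [Primcodable β] [Primcodable ι]

/-- consistent finite condition -/
def Cons (q : List (ι × Bool)) : Prop := ∀ x ∈ q, ∀ y ∈ q, x.1 = y.1 → x.2 = y.2

/-- the basic open set of a finite condition -/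
def CY (q : List (ι × Bool)) : Set (ι → Bool) := {γ | ∀ x ∈ q, γ x.1 = x.2}

theorem isOpen_CY (q : List (ι × Bool)) : IsOpen (CY q) := by
  induction q with
  | nil =>
    have : CY ([] : List (ι × Bool)) = univ := by
      ext γ; simp [CY]
    rw [this]
    exact isOpen_univ
  | cons a q ih =>
    have h1 : CY (a :: q) = {γ | γ a.1 = a.2} ∩ CY q := by
      ext γ
      simp [CY]
    rw [h1]
    refine IsOpen.inter ?_ ih
    exact (continuous_apply (A := fun _ : ι => Bool) a.1).isOpen_preimage {a.2} (isOpen_discrete _)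

theorem CY_nonempty {q : List (ι × Bool)} (h : Cons q) : (CY q).Nonempty := by
  classical
  refine ⟨fun i => if (i, true) ∈ q then true else false, ?_⟩
  rintro ⟨i, b⟩ hx
  cases b with
  | true => simp [hx]
  | false =>
    have : (i, true) ∉ q := by
      intro h'
      have := h _ hx _ h' rfl
      simp at this
    simp [this]

theorem cons_of_mem {q : List (ι × Bool)} {γ : ι → Bool} (h : γ ∈ CY q) : Cons q := by
  intro x hx y hy hxy
  rw [← h x hx, ← h y hy, hxy]

theorem CY_append (q l : List (ι × Bool)) : CY (q ++ l) = CY q ∩ CY l := by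
  ext γ
  simp only [CY, List.mem_append, mem_setOf_eq, mem_inter_iff]
  constructor
  · intro h
    exact ⟨fun x hx => h x (Or.inl hx), fun x hx => h x (Or.inr hx)⟩
  · rintro ⟨h1, h2⟩ x (hx | hx)
    · exact h1 x hx
    · exact h2 x hx

theorem exists_CY {U : Set (ι → Bool)} (hU : IsOpen U) {γ : ι → Bool} (hγ : γ ∈ U) :
    ∃ q : List (ι × Bool), γ ∈ CY q ∧ CY q ⊆ U := by
  obtain ⟨I, u, hu, hsub⟩ := isOpen_pi_iff.1 hU γ hγ
  refine ⟨I.toList.map (fun i => (i, γ i)), ?_, ?_⟩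
  · intro x hx
    obtain ⟨i, _, rfl⟩ := List.mem_map.1 hx
    rfl
  · intro δ hδ
    apply hsub
    intro i hi
    have h1 : δ i = γ i := hδ (i, γ i) (List.mem_map.2 ⟨i, Finset.mem_toList.2 (by exact_mod_cast hi), rfl⟩)
    rw [h1]
    exact (hu i (by exact_mod_cast hi)).2

theorem primrecPred_cons (q : List (ι × Bool)) :
    PrimrecPred (fun l : List (ι × Bool) => Cons (q ++ l)) := by
  have hR : PrimrecRel (fun (x y : ι × Bool) => x.1 = y.1 → x.2 = y.2) := by
    have h1 : PrimrecPred (fun z : (ι × Bool) × (ι × Bool) => ¬ (z.1.1 = z.2.1)) :=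
      PrimrecPred.not (primrecRel_comp (q := fun a b : ι => a = b) Primrec.eq
        (Primrec.fst.comp Primrec.fst) (Primrec.fst.comp Primrec.snd))
    have h2 : PrimrecPred (fun z : (ι × Bool) × (ι × Bool) => z.1.2 = z.2.2) :=
      primrecRel_comp (q := fun a b : Bool => a = b) Primrec.eq
        (Primrec.snd.comp Primrec.fst) (Primrec.snd.comp Primrec.snd)
    exact (h1.or h2).of_eq (fun z => by tauto)
  -- for x in L, for y in M
  have h3 : PrimrecRel (fun (L : List (ι × Bool)) (y : ι × Bool) => ∀ x ∈ L, x.1 = y.1 → x.2 = y.2) :=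
    hR.forall_mem_list
  have h4 : PrimrecRel (fun (y : ι × Bool) (L : List (ι × Bool)) => ∀ x ∈ L, x.1 = y.1 → x.2 = y.2) :=
    primrecRel_comp h3 Primrec.snd Primrec.fst
  have h5 : PrimrecRel (fun (M L : List (ι × Bool)) => ∀ y ∈ M, ∀ x ∈ L, x.1 = y.1 → x.2 = y.2) :=
    h4.forall_mem_list
  have h6 : Primrec (fun l : List (ι × Bool) => q ++ l) :=
    Primrec.list_append.comp (Primrec.const q) Primrec.id
  have h7 := primrecRel_comp h5 h6 h6
  refine h7.of_eq (fun l => ?_)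
  constructor
  · intro h x hx y hy hxy
    exact h y hy x hx hxy
  · intro h y hy x hx hxy
    exact h x hx y hy hxy

/-- the forcing operator -/
def Fo (Φ : Set (β ⊕ (ι × Bool)) → Set α) (q : List (ι × Bool)) (A : Set β) : Set α :=
  {n | ∃ l : List (ι × Bool), Cons (q ++ l) ∧ n ∈ Φ (sj A {x | x ∈ l})}

theorem isOp_Fo {Φ : Set (β ⊕ (ι × Bool)) → Set α} (hΦ : IsOp Φ) (q : List (ι × Bool)) :
    IsOp (Fo Φ q) := by
  obtain ⟨W, hW, hP⟩ := hΦ
  -- membership in the join
  have h1 : EP (fun (A : Set β) (z : ((α × List (ι × Bool)) × List (β ⊕ (ι × Bool))) × (β ⊕ (ι × Bool))) =>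
      z.2 ∈ sj A {x | x ∈ z.1.1.2}) := by
    have e1 : EP (fun (A : Set β)
        (w : (((α × List (ι × Bool)) × List (β ⊕ (ι × Bool))) × (β ⊕ (ι × Bool))) × β) =>
        w.1.2 = Sum.inl w.2 ∧ w.2 ∈ A) :=
      EP.and (EP.re (RE.eq (Primrec.snd.comp Primrec.fst) (Primrec.sumInl.comp Primrec.snd)))
        (EP.mem Primrec.snd)
    have e2 : EP (fun (_ : Set β)
        (w : (((α × List (ι × Bool)) × List (β ⊕ (ι × Bool))) × (β ⊕ (ι × Bool))) × (ι × Bool)) =>
        w.1.2 = Sum.inr w.2 ∧ w.2 ∈ w.1.1.1.2) := by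
      refine EP.re (RE.and (RE.eq (Primrec.snd.comp Primrec.fst) (Primrec.sumInr.comp Primrec.snd))
        (RE.prim ?_))
      have h4 : PrimrecRel (fun (L : List (ι × Bool)) (l : ι × Bool) => ∃ x ∈ L, x = l) :=
        PrimrecRel.exists_mem_list (R := fun x y : ι × Bool => x = y) Primrec.eq
      have h5 := primrecRel_comp h4
        (f := fun w : (((α × List (ι × Bool)) × List (β ⊕ (ι × Bool))) × (β ⊕ (ι × Bool))) × (ι × Bool) =>
          w.1.1.1.2)
        (g := fun w => w.2)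
        (Primrec.snd.comp (Primrec.fst.comp (Primrec.fst.comp Primrec.fst))) Primrec.snd
      exact h5.of_eq (by simp)
    refine (e1.ex.or e2.ex).of_iff ?_
    rintro A ⟨⟨⟨a, l⟩, m⟩, s⟩
    cases s with
    | inl b => simp
    | inr b => simp
  have h2 : EP (fun (A : Set β) (y : (α × List (ι × Bool)) × List (β ⊕ (ι × Bool))) =>
      ∀ s ∈ y.2, s ∈ sj A {x | x ∈ y.1.2}) :=
    EP.ball (P := fun (A : Set β)
      (z : ((α × List (ι × Bool)) × List (β ⊕ (ι × Bool))) × (β ⊕ (ι × Bool))) =>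
      z.2 ∈ sj A {x | x ∈ z.1.1.2}) h1 (g := fun y => y.2) Primrec.snd
  have h3 : EP (fun (A : Set β) (y : (α × List (ι × Bool)) × List (β ⊕ (ι × Bool))) =>
      W (y.2, y.1.1) ∧ ∀ s ∈ y.2, s ∈ sj A {x | x ∈ y.1.2}) :=
    EP.and (EP.re (hW.subst (Primrec.snd.pair (Primrec.fst.comp Primrec.fst)))) h2
  have h4 : EP (fun (A : Set β) (y : α × List (ι × Bool)) =>
      Cons (q ++ y.2) ∧ ∃ m, W (m, y.1) ∧ ∀ s ∈ m, s ∈ sj A {x | x ∈ y.2}) :=
    EP.and (EP.re ((RE.prim (primrecPred_cons q)).subst Primrec.snd)) h3.ex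
  refine h4.ex.of_iff ?_
  intro A n
  constructor
  · rintro ⟨l, hl, hn⟩
    exact ⟨l, hl, (hP _ _).1 hn⟩
  · rintro ⟨l, hl, hn⟩
    exact ⟨l, hl, (hP _ _).2 hn⟩

theorem nowhereDense {H : Set α} {A : Set β} (h : ¬ ER H A)
    {Φ : Set (β ⊕ (ι × Bool)) → Set α} (hΦ : IsOp Φ) :
    IsNowhereDense {γ : ι → Bool | Φ (sj A (gr γ)) = H} := by
  by_contra hnd
  set E : Set (ι → Bool) := {γ | Φ (sj A (gr γ)) = H} with hE
  have hne : (interior (closure E)).Nonempty := by
    rw [Set.nonempty_iff_ne_empty]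
    exact hnd
  obtain ⟨γ0, hγ0⟩ := hne
  obtain ⟨q, hγq, hq⟩ := exists_CY isOpen_interior hγ0
  have hqc : CY q ⊆ closure E := hq.trans interior_subset
  -- every consistent extension of q contains a point of E
  have hdense : ∀ l : List (ι × Bool), Cons (q ++ l) → ∃ γ ∈ E, γ ∈ CY q ∧ γ ∈ CY l := by
    intro l hl
    obtain ⟨δ, hδ⟩ := CY_nonempty hl
    have h1 : δ ∈ closure E := hqc (by rw [CY_append] at hδ; exact hδ.1)
    obtain ⟨γ, hγ, hγE⟩ := mem_closure_iff.1 h1 _ (isOpen_CY (q ++ l)) hδ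
    rw [CY_append] at hγ
    exact ⟨γ, hγE, hγ.1, hγ.2⟩
  apply h
  refine ⟨Fo Φ q, isOp_Fo hΦ q, ?_⟩
  ext n
  constructor
  · rintro ⟨l, hl, hn⟩
    obtain ⟨γ, hγE, _, hγl⟩ := hdense l hl
    have hγE' : Φ (sj A (gr γ)) = H := hγE
    rw [← hγE']
    refine hΦ.mono ?_ hn
    rintro (b | x) hx
    · exact hx
    · exact hγl x hx
  · intro hn
    obtain ⟨γ, hγE, hγq', _⟩ := hdense [] (by simpa using cons_of_mem hγq)
    have hγE' : Φ (sj A (gr γ)) = H := hγE
    rw [← hγE'] at hn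
    obtain ⟨m, hm1, hm2⟩ := hΦ.compact hn
    refine ⟨m.filterMap (fun s => Sum.getRight? s), ?_, ?_⟩
    · apply cons_of_mem (γ := γ)
      rw [CY_append]
      refine ⟨hγq', ?_⟩
      intro x hx
      obtain ⟨s, hs, hsx⟩ := List.mem_filterMap.1 hx
      cases s with
      | inl b => simp at hsx
      | inr y =>
        simp at hsx
        subst hsx
        exact hm1 _ hs
    · refine hΦ.mono ?_ hm2
      rintro (b | x) hx
      · exact hm1 _ hx
      · exact List.mem_filterMap.2 ⟨Sum.inr x, hx, rfl⟩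

end G1aux

/-- **G1** a non-reducible set does not become reducible by adding a generic real -/
theorem G1 {α β ι : Type} [Primcodable α] [Primcodable β] [Primcodable ι] {H : Set α} {A : Set β}
    (h : ¬ ER H A) : IsMeagre {γ : ι → Bool | ER H (sj A (gr γ))} := by
  obtain ⟨Φ, hΦ, hall⟩ := exists_enum_IsOp (α := β ⊕ (ι × Bool)) (β := α)
  have h1 : {γ : ι → Bool | ER H (sj A (gr γ))} ⊆
      ⋃ i, {γ : ι → Bool | Φ i (sj A (gr γ)) = H} := by
    rintro γ ⟨Ψ, hΨ, hγ⟩
    obtain ⟨i, rfl⟩ := hall Ψ hΨ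
    exact mem_iUnion.2 ⟨i, hγ⟩
  exact (isMeagre_iUnion (fun i => (G1aux.nowhereDense h (hΦ i)).isMeagre)).mono h1

end ME
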