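import Pool.Agent.Helper89.MEF.H89_LatDefs

/-!
# ME-L1: basics of the Dyment lattice
-/

set_option autoImplicit false

namespace ME

open Encodable Set

section basics

theorem PR.refl (A : Set (Set ℕ)) : PR A A := ⟨fun X => X, IsOp.id, fun _ hX => hX⟩

theorem PR.trans {A B C : Set (Set ℕ)} (h1 : PR A B) (h2 : PR B C) : PR A C := by
  obtain ⟨Φ, hΦ, h1⟩ := h1
  obtain ⟨Ψ, hΨ, h2⟩ := h2
  exact ⟨fun X => Φ (Ψ X), hΦ.comp hΨ, fun X hX => h1 _ (h2 X hX)⟩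

theorem PE.refl (A : Set (Set ℕ)) : PE A A := ⟨PR.refl A, PR.refl A⟩

theorem PE.symm {A B : Set (Set ℕ)} (h : PE A B) : PE B A := ⟨h.2, h.1⟩

theorem PE.trans {A B C : Set (Set ℕ)} (h1 : PE A B) (h2 : PE B C) : PE A C :=
  ⟨h1.1.trans h2.1, h2.2.trans h1.2⟩

theorem PR_of_subset {A B : Set (Set ℕ)} (h : B ⊆ A) : PR A B :=
  ⟨fun X => X, IsOp.id, fun _ hX => h hX⟩

theorem PR_single_right {A : Set (Set ℕ)} {Y : Set ℕ} : PR A {Y} ↔ ∃ X ∈ A, ER X Y := by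
  constructor
  · rintro ⟨Φ, hΦ, h⟩
    exact ⟨Φ Y, h Y rfl, Φ, hΦ, rfl⟩
  · rintro ⟨X, hX, Φ, hΦ, rfl⟩
    refine ⟨Φ, hΦ, ?_⟩
    intro Z hZ
    rw [Set.mem_singleton_iff] at hZ
    rw [hZ]
    exact hX

theorem PR_singleton {X Y : Set ℕ} : PR {X} {Y} ↔ ER X Y := by
  rw [PR_single_right]
  constructor
  · rintro ⟨Z, hZ, h⟩
    rw [Set.mem_singleton_iff] at hZ
    rwa [hZ] at h
  · intro h
    exact ⟨X, rfl, h⟩

theorem PE_single_right {A : Set (Set ℕ)} {X Y : Set ℕ} (hA : PE A {X}) (h : EE X Y) :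
    PE A {Y} :=
  hA.trans ⟨PR_singleton.2 h.1, PR_singleton.2 h.2⟩

theorem EE.refl {α : Type} [Primcodable α] (X : Set α) : EE X X := ⟨ER.refl X, ER.refl X⟩

theorem EE.symm {α β : Type} [Primcodable α] [Primcodable β] {X : Set α} {Y : Set β}
    (h : EE X Y) : EE Y X := ⟨h.2, h.1⟩

theorem EE.trans {α β γ : Type} [Primcodable α] [Primcodable β] [Primcodable γ] {X : Set α}
    {Y : Set β} {Z : Set γ} (h1 : EE X Y) (h2 : EE Y Z) : EE X Z :=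
  ⟨h1.1.trans h2.1, h2.2.trans h1.2⟩

theorem ER_jn_left (X Y : Set ℕ) : ER X (jn X Y) := ER_cd_right.2 (ER.left X Y)

theorem ER_jn_right (X Y : Set ℕ) : ER Y (jn X Y) := ER_cd_right.2 (ER.right X Y)

theorem ER_jn {α : Type} [Primcodable α] {X Y : Set ℕ} {Z : Set α} (h1 : ER X Z) (h2 : ER Y Z) :
    ER (jn X Y) Z := ER_cd_left.2 (h1.sj h2)

theorem PJ_left (A B : Set (Set ℕ)) : PR A (PJ A B) := by
  refine ⟨fun Z => {a | Sum.inl a ∈ dc (α := ℕ ⊕ ℕ) Z}, IsOp.inl.comp IsOp.dc, ?_⟩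
  rintro Z ⟨X, hX, Y, hY, rfl⟩
  have h : {a | Sum.inl a ∈ dc (α := ℕ ⊕ ℕ) (jn X Y)} = X := by
    unfold jn
    rw [dc_cd]
    ext a
    simp
  simp only at h ⊢
  rw [h]
  exact hX

theorem PJ_right (A B : Set (Set ℕ)) : PR B (PJ A B) := by
  refine ⟨fun Z => {a | Sum.inr a ∈ dc (α := ℕ ⊕ ℕ) Z}, IsOp.inr.comp IsOp.dc, ?_⟩
  rintro Z ⟨X, hX, Y, hY, rfl⟩
  have h : {a | Sum.inr a ∈ dc (α := ℕ ⊕ ℕ) (jn X Y)} = Y := by
    unfold jn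
    rw [dc_cd]
    ext a
    simp
  simp only at h ⊢
  rw [h]
  exact hY

theorem PJ_le {A B C : Set (Set ℕ)} (h1 : PR A C) (h2 : PR B C) : PR (PJ A B) C := by
  obtain ⟨Φ, hΦ, h1⟩ := h1
  obtain ⟨Ψ, hΨ, h2⟩ := h2
  exact ⟨fun Z => jn (Φ Z) (Ψ Z), (hΦ.sj hΨ).cd, fun Z hZ => ⟨Φ Z, h1 Z hZ, Ψ Z, h2 Z hZ, rfl⟩⟩

theorem PR_MU_iff {C A : Set (Set ℕ)} : PR (MU C) A ↔ A ⊆ MU C := by
  constructor
  · rintro ⟨Φ, hΦ, h⟩ X hX
    obtain ⟨Y, hY, hER⟩ := h X hX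
    exact ⟨Y, hY, hER.trans (ER.of_op hΦ X)⟩
  · exact PR_of_subset

/-- the operator `X ↦ tg n X` and its inverse -/
theorem IsOp_tg (n : ℕ) : IsOp (tg n) := by
  have h1 : IsOp (fun X : Set ℕ => insert (n, 0) {p : ℕ × ℕ | ∃ a ∈ X, p = (n, a + 1)}) := by
    have h2 : EP (fun (_ : Set ℕ) (p : ℕ × ℕ) => p = (n, 0)) :=
      EP.re (RE.eq Primrec.id (Primrec.const _))
    have h3 : EP (fun (X : Set ℕ) (y : (ℕ × ℕ) × ℕ) => y.2 ∈ X ∧ y.1 = (n, y.2 + 1)) :=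
      EP.and (EP.mem Primrec.snd)
        (EP.re (RE.eq Primrec.fst ((Primrec.const n).pair (Primrec.succ.comp Primrec.snd))))
    refine (h2.or h3.ex).of_iff ?_
    intro X p
    simp
  exact h1.cd

theorem tg_mem {n m k : ℕ} {X : Set ℕ} : encode ((m, k) : ℕ × ℕ) ∈ tg n X ↔
    m = n ∧ (k = 0 ∨ ∃ a ∈ X, k = a + 1) := by
  unfold tg
  rw [encode_mem_cd]
  constructor
  · rintro (h | ⟨a, ha, h⟩)
    · rw [Prod.mk.injEq] at h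
      exact ⟨h.1, Or.inl h.2⟩
    · rw [Prod.mk.injEq] at h
      exact ⟨h.1, Or.inr ⟨a, ha, h.2⟩⟩
  · rintro ⟨rfl, rfl | ⟨a, ha, rfl⟩⟩
    · exact Or.inl rfl
    · exact Or.inr ⟨a, ha, rfl⟩

theorem tg_marker {n m : ℕ} {X : Set ℕ} : encode ((m, 0) : ℕ × ℕ) ∈ tg n X ↔ m = n := by
  rw [tg_mem]
  simp

/-- a single operator strips all tags -/
theorem exists_untag : ∃ U : Set ℕ → Set ℕ, IsOp U ∧ ∀ n X, U (tg n X) = X := by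
  refine ⟨fun Z => {a | ∃ m : ℕ, encode ((m, a + 1) : ℕ × ℕ) ∈ Z}, ?_, ?_⟩
  · have h : EP (fun (Z : Set ℕ) (y : ℕ × ℕ) => encode ((y.2, y.1 + 1) : ℕ × ℕ) ∈ Z) :=
      EP.mem (Primrec.encode.comp (Primrec.snd.pair (Primrec.succ.comp Primrec.fst)))
    exact h.ex
  · intro n X
    ext a
    simp only [Set.mem_setOf_eq, tg_mem]
    constructor
    · rintro ⟨m, _, h | ⟨b, hb, h⟩⟩
      · omega
      · have : a = b := by omega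
        rwa [this]
    · intro ha
      exact ⟨n, rfl, Or.inr ⟨a, ha, rfl⟩⟩

theorem tg_inj {n m : ℕ} {X Y : Set ℕ} (h : tg n X = tg m Y) : n = m ∧ X = Y := by
  constructor
  · have h1 : encode ((n, 0) : ℕ × ℕ) ∈ tg n X := tg_marker.2 rfl
    rw [h] at h1
    exact tg_marker.1 h1
  · obtain ⟨U, _, hU⟩ := exists_untag
    rw [← hU n X, h, hU]

theorem case_tags_fin (N : ℕ) (Φ : ℕ → Set ℕ → Set ℕ) (hΦ : ∀ i, IsOp (Φ i)) :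
    EP (fun (Z : Set ℕ) (b : ℕ) => ∃ i < N, encode ((i, 0) : ℕ × ℕ) ∈ Z ∧ b ∈ Φ i Z) := by
  induction N with
  | zero =>
    refine (EP.re (RE.const False)).of_iff ?_
    intro Z b
    simp
  | succ N ih =>
    have h1 : EP (fun (Z : Set ℕ) (b : ℕ) => encode ((N, 0) : ℕ × ℕ) ∈ Z ∧ b ∈ Φ N Z) :=
      EP.and (EP.mem (Primrec.const _)) (hΦ N)
    refine (ih.or h1).of_iff ?_
    intro Z b
    constructor
    · rintro ⟨i, hi, h⟩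
      rcases Nat.lt_succ_iff_lt_or_eq.1 hi with h2 | rfl
      · exact Or.inl ⟨i, h2, h⟩
      · exact Or.inr h
    · rintro (⟨i, hi, h⟩ | h)
      · exact ⟨i, by omega, h⟩
      · exact ⟨N, by omega, h⟩

/-- case distinction on finitely many tags, arbitrary operators on tags `< N`, one fixed
operator on all the other tags -/
theorem case_tags (N : ℕ) (Φ : ℕ → Set ℕ → Set ℕ) (hΦ : ∀ i, IsOp (Φ i)) (Ψ : Set ℕ → Set ℕ)
    (hΨ : IsOp Ψ) : ∃ Θ : Set ℕ → Set ℕ, IsOp Θ ∧ ∀ n X,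
      Θ (tg n X) = if n < N then Φ n (tg n X) else Ψ (tg n X) := by
  have h1 : EP (fun (Z : Set ℕ) (y : ℕ × ℕ) => N ≤ y.2 ∧ encode ((y.2, 0) : ℕ × ℕ) ∈ Z) :=
    EP.and (EP.re (RE.prim (primrecRel_comp Primrec.nat_le (Primrec.const N) Primrec.snd)))
      (EP.mem (Primrec.encode.comp (Primrec.snd.pair (Primrec.const 0))))
  have h2 : EP (fun (Z : Set ℕ) (b : ℕ) =>
      (∃ n, N ≤ n ∧ encode ((n, 0) : ℕ × ℕ) ∈ Z) ∧ b ∈ Ψ Z) := EP.and h1.ex hΨ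
  refine ⟨fun Z => {b | (∃ i < N, encode ((i, 0) : ℕ × ℕ) ∈ Z ∧ b ∈ Φ i Z) ∨
    ((∃ n, N ≤ n ∧ encode ((n, 0) : ℕ × ℕ) ∈ Z) ∧ b ∈ Ψ Z)}, (case_tags_fin N Φ hΦ).or h2, ?_⟩
  intro n X
  ext b
  simp only [Set.mem_setOf_eq, tg_marker]
  by_cases hn : n < N
  · rw [if_pos hn]
    constructor
    · rintro (⟨i, _, rfl, h⟩ | ⟨⟨m, hm, rfl⟩, _⟩)
      · exact h
      · omega
    · intro h
      exact Or.inl ⟨n, hn, rfl, h⟩
  · rw [if_neg hn]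
    constructor
    · rintro (⟨i, hi, rfl, _⟩ | ⟨_, h⟩)
      · exact absurd hi hn
      · exact h
    · intro h
      exact Or.inr ⟨⟨n, by omega, rfl⟩, h⟩

theorem PM_left (A B : Set (Set ℕ)) : PR (PM A B) A :=
  ⟨tg 0, IsOp_tg 0, fun X hX => Or.inl ⟨X, hX, rfl⟩⟩

theorem PM_right (A B : Set (Set ℕ)) : PR (PM A B) B :=
  ⟨tg 1, IsOp_tg 1, fun X hX => Or.inr ⟨X, hX, rfl⟩⟩

theorem PM_ge {A B C : Set (Set ℕ)} (h1 : PR C A) (h2 : PR C B) : PR C (PM A B) := by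
  obtain ⟨Φ, hΦ, h1⟩ := h1
  obtain ⟨Ψ, hΨ, h2⟩ := h2
  obtain ⟨U, hU, hUt⟩ := exists_untag
  obtain ⟨Θ, hΘ, hΘt⟩ := case_tags 1 (fun _ X => Φ (U X)) (fun _ => hΦ.comp hU)
    (fun X => Ψ (U X)) (hΨ.comp hU)
  refine ⟨Θ, hΘ, ?_⟩
  rintro Z (⟨X, hX, rfl⟩ | ⟨Y, hY, rfl⟩)
  · rw [hΘt, if_pos (by norm_num), hUt]
    exact h1 X hX
  · rw [hΘt, if_neg (by norm_num), hUt]
    exact h2 Y hY

end basics

end ME
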