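import Pool.Agent.Helper89.MEF.H89_CatDefs

/-!
# ME-C2b: Selman's theorem and total sets above a given set
-/

set_option autoImplicit false

namespace ME

open Encodable Set

namespace Cat2b

/-- graph of a list -/
def lg (l : List ℕ) : Set (ℕ × ℕ) := {p | l[p.1]? = some p.2}

/-- graph of a function -/
def fg (f : ℕ → ℕ) : Set (ℕ × ℕ) := {p | f p.1 = p.2}

/-- the set of possible values -/
def vl (Y : Set ℕ) : Set ℕ := {m | m = 0 ∨ ∃ y ∈ Y, m = y + 1}

theorem ER_vl (Y : Set ℕ) : ER (vl Y) Y := by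
  have h1 : EP (fun (Y : Set ℕ) (m : ℕ) => m = 0) :=
    EP.re (RE.eq Primrec.id (Primrec.const 0))
  have h2 : EP (fun (Y : Set ℕ) (m : ℕ × ℕ) => m.2 ∈ Y ∧ m.1 = m.2 + 1) :=
    (EP.mem Primrec.snd).and (EP.re (RE.eq Primrec.fst (Primrec.succ.comp Primrec.snd)))
  exact ⟨vl, h1.or h2.ex, rfl⟩

theorem re_lg {Φ : Set (ℕ × ℕ) → Set ℕ} (hΦ : IsOp Φ) (σ : List ℕ) :
    RE (fun x : ℕ × List ℕ => x.1 ∈ Φ (lg (σ ++ x.2))) := by
  obtain ⟨W, hW, h⟩ := hΦ
  have h1 : RE (fun z : ((ℕ × List ℕ) × List (ℕ × ℕ)) × (ℕ × ℕ) =>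
      (σ ++ z.1.1.2)[z.2.1]? = some z.2.2) := by
    refine RE.eq ?_ ?_
    · exact Primrec.list_getElem?.comp
        (Primrec.list_append.comp (Primrec.const σ)
          (Primrec.snd.comp (Primrec.fst.comp Primrec.fst)))
        (Primrec.fst.comp Primrec.snd)
    · exact Primrec.option_some.comp (Primrec.snd.comp Primrec.snd)
  have h2 : RE (fun y : (ℕ × List ℕ) × List (ℕ × ℕ) => ∀ a ∈ y.2,
      (σ ++ y.1.2)[a.1]? = some a.2) :=
    RE.ball (p := fun z : ((ℕ × List ℕ) × List (ℕ × ℕ)) × (ℕ × ℕ) =>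
      (σ ++ z.1.1.2)[z.2.1]? = some z.2.2) h1 (g := fun y => y.2) Primrec.snd
  have h3 : RE (fun y : (ℕ × List ℕ) × List (ℕ × ℕ) => W (y.2, y.1.1)) :=
    hW.subst (Primrec.snd.pair (Primrec.fst.comp Primrec.fst))
  refine (h3.and h2).ex.of_iff ?_
  rintro ⟨n, ρ⟩
  exact h _ _

theorem ER_forced {Φ : Set (ℕ × ℕ) → Set ℕ} (hΦ : IsOp Φ) (σ : List ℕ) (V : Set ℕ) :
    ER {n | ∃ ρ : List ℕ, (∀ m ∈ ρ, m ∈ V) ∧ n ∈ Φ (lg (σ ++ ρ))} V := by
  have h1 : EP (fun (V : Set ℕ) (x : ℕ × List ℕ) => ∀ m ∈ x.2, m ∈ V) :=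
    EP.ball (P := fun (V : Set ℕ) (z : (ℕ × List ℕ) × ℕ) => z.2 ∈ V)
      (EP.mem Primrec.snd) (g := fun x => x.2) Primrec.snd
  have h2 := (h1.and (EP.re (re_lg hΦ σ))).ex
  exact ⟨fun V => {n | ∃ ρ : List ℕ, (∀ m ∈ ρ, m ∈ V) ∧ n ∈ Φ (lg (σ ++ ρ))}, h2, rfl⟩

/-- generic sequences through countably many dense sets of lists -/
theorem exists_generic (V : Set ℕ) (P : ℕ → List ℕ → Prop)
    (hP : ∀ k σ, (∀ m ∈ σ, m ∈ V) → ∃ ρ : List ℕ, (∀ m ∈ ρ, m ∈ V) ∧ P k (σ ++ ρ) ∧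
      k < (σ ++ ρ).length) :
    ∃ f : ℕ → ℕ, (∀ n, f n ∈ V) ∧ ∀ k, ∃ n, P k ((List.range n).map f) := by
  classical
  choose! r hrV hrP hrL using hP
  let s : ℕ → {σ : List ℕ // ∀ m ∈ σ, m ∈ V} := fun k => Nat.rec ⟨[], by simp⟩
    (fun k σ => ⟨σ.1 ++ r k σ.1, fun m hm => by
      rcases List.mem_append.1 hm with h | h
      · exact σ.2 m h
      · exact hrV k σ.1 σ.2 m h⟩) k
  have hs : ∀ k, (s (k + 1)).1 = (s k).1 ++ r k (s k).1 := fun k => rfl
  have hpre : ∀ k l, k ≤ l → (s k).1 <+: (s l).1 := by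
    intro k l hkl
    induction l, hkl using Nat.le_induction with
    | base => exact List.prefix_refl _
    | succ l _ ih =>
      rw [hs]
      exact ih.trans (List.prefix_append _ _)
  have hlen : ∀ k, k < (s (k + 1)).1.length := by
    intro k
    rw [hs]
    exact hrL k _ (s k).2
  let f : ℕ → ℕ := fun n => (s (n + 1)).1[n]'(hlen n)
  have hfs : ∀ k n, (h : n < (s k).1.length) → f n = (s k).1[n]'h := by
    intro k n h
    rcases le_total k (n + 1) with hk | hk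
    · exact ((hpre _ _ hk).getElem h).symm
    · exact (hpre _ _ hk).getElem (hlen n)
  refine ⟨f, fun n => (s (n + 1)).2 _ (List.getElem_mem _), fun k => ?_⟩
  refine ⟨(s (k + 1)).1.length, ?_⟩
  have : (List.range (s (k + 1)).1.length).map f = (s (k + 1)).1 := by
    apply List.ext_getElem
    · simp
    · intro i h1 h2
      simp only [List.getElem_map, List.getElem_range]
      exact hfs (k + 1) i h2
  rw [this, hs]
  exact hrP k _ (s k).2

theorem lg_map_range (f : ℕ → ℕ) (n : ℕ) :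
    lg ((List.range n).map f) = {p | p.1 < n ∧ f p.1 = p.2} := by
  ext ⟨i, m⟩
  simp only [lg, mem_ofPred_eq]
  by_cases h : i < n
  · simp [h]
  · simp [h]

theorem mem_op_fg {Φ : Set (ℕ × ℕ) → Set ℕ} (hΦ : IsOp Φ) {f : ℕ → ℕ} {x : ℕ}
    (hx : x ∈ Φ (fg f)) (n : ℕ) : ∃ m, n ≤ m ∧ x ∈ Φ (lg ((List.range m).map f)) := by
  obtain ⟨l, hl, hxl⟩ := hΦ.compact hx
  refine ⟨max n ((l.map (fun p => p.1 + 1)).sum), le_max_left _ _, ?_⟩
  refine hΦ.mono ?_ hxl
  intro p hp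
  rw [lg_map_range]
  refine ⟨?_, hl p hp⟩
  have h1 : p.1 + 1 ≤ (l.map (fun p => p.1 + 1)).sum :=
    List.le_sum_of_mem (List.mem_map_of_mem (f := fun p : ℕ × ℕ => p.1 + 1) hp)
  exact lt_of_lt_of_le (Nat.lt_of_succ_le h1) (le_max_right _ _)

/-- the characteristic function of the graph of `f` -/
noncomputable def kf (f : ℕ → ℕ) : ℕ → Bool := by
  classical
  exact fun j => decide (f j.unpair.1 = j.unpair.2)

theorem ER_fg_kf (f : ℕ → ℕ) : ER (fg f) (rs (kf f)) := by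
  unfold rs
  rw [ER_cd_right]
  have h : EP (fun (Z : Set (ℕ × Bool)) (p : ℕ × ℕ) => (Nat.pair p.1 p.2, true) ∈ Z) :=
    EP.mem ((Primrec₂.natPair.comp Primrec.fst Primrec.snd).pair (Primrec.const true))
  refine ⟨fun Z => {p : ℕ × ℕ | (Nat.pair p.1 p.2, true) ∈ Z}, h, ?_⟩
  ext ⟨a, b⟩
  simp [gr, kf, fg]

theorem ER_kf_fg (f : ℕ → ℕ) : ER (rs (kf f)) (fg f) := by
  unfold rs
  rw [ER_cd_left]
  have h1 : EP (fun (Z : Set (ℕ × ℕ)) (p : ℕ × Bool) => p.2 = true ∧ p.1.unpair ∈ Z) :=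
    (EP.re (RE.eq Primrec.snd (Primrec.const true))).and
      (EP.mem (Primrec.unpair.comp Primrec.fst))
  have h2 : EP (fun (Z : Set (ℕ × ℕ)) (p : (ℕ × Bool) × ℕ) =>
      (p.1.2 = false ∧ p.2 ≠ p.1.1.unpair.2) ∧ (p.1.1.unpair.1, p.2) ∈ Z) := by
    refine (EP.re ((RE.eq (Primrec.snd.comp Primrec.fst) (Primrec.const false)).and
      (RE.prim ?_))).and (EP.mem ?_)
    · exact (Primrec.eq.comp Primrec.snd (Primrec.snd.comp (Primrec.unpair.comp
        (Primrec.fst.comp Primrec.fst)))).not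
    · exact (Primrec.fst.comp (Primrec.unpair.comp (Primrec.fst.comp Primrec.fst))).pair
        Primrec.snd
  refine ⟨fun Z => {p : ℕ × Bool | (p.2 = true ∧ p.1.unpair ∈ Z) ∨
    ∃ c : ℕ, (p.2 = false ∧ c ≠ p.1.unpair.2) ∧ (p.1.unpair.1, c) ∈ Z}, h1.or h2.ex, ?_⟩
  ext ⟨j, b⟩
  cases b with
  | true =>
    simp [gr, kf, fg]
  | false =>
    simp only [gr, kf, fg, mem_ofPred_eq]
    constructor
    · rintro (⟨h, _⟩ | ⟨c, ⟨_, h⟩, h'⟩)
      · cases h
      · rw [h']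
        simpa using h
    · intro h
      right
      refine ⟨f j.unpair.1, ⟨trivial, ?_⟩, rfl⟩
      simpa using h

end Cat2b

open Cat2b in
/-- **Selman** -/
theorem selman {X Y : Set ℕ} (h : ∀ k : ℕ → Bool, ER Y (rs k) → ER X (rs k)) : ER X Y := by
  classical
  by_contra hXY
  obtain ⟨Φ, hΦ, hall⟩ := exists_enum_IsOp (α := ℕ × ℕ) (β := ℕ)
  -- requirement 2i: value i appears; requirement 2i+1: Φ i
  let P : ℕ → List ℕ → Prop := fun k τ =>
    (k ∈ vl Y → k ∈ τ) ∧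
    ((∃ n, n ∉ X ∧ n ∈ Φ k (lg τ)) ∨
      (∃ n ∈ X, ∀ ρ : List ℕ, (∀ m ∈ ρ, m ∈ vl Y) → n ∉ Φ k (lg (τ ++ ρ))))
  obtain ⟨f, hfV, hfP⟩ := exists_generic (vl Y) P (by
    intro k σ hσ
    -- first add the value and the length
    let σ' : List ℕ := (if k ∈ vl Y then [k] else []) ++ List.replicate (k + 1) 0
    have hσ' : ∀ m ∈ σ', m ∈ vl Y := by
      intro m hm
      rcases List.mem_append.1 hm with h | h
      · split_ifs at h with hk
        · simp only [List.mem_singleton] at h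
          rw [h]; exact hk
        · simp at h
      · rw [List.eq_of_mem_replicate h]
        exact Or.inl rfl
    have hmain : ∃ ρ : List ℕ, (∀ m ∈ ρ, m ∈ vl Y) ∧
        ((∃ n, n ∉ X ∧ n ∈ Φ k (lg ((σ ++ σ') ++ ρ))) ∨
      (∃ n ∈ X, ∀ ρ' : List ℕ, (∀ m ∈ ρ', m ∈ vl Y) → n ∉ Φ k (lg (((σ ++ σ') ++ ρ) ++ ρ')))) := by
      by_contra hcon
      push Not at hcon
      apply hXY
      refine ER.trans ?_ (ER_vl Y)
      have := ER_forced (hΦ k) (σ ++ σ') (vl Y)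
      have heq : X = {n | ∃ ρ : List ℕ, (∀ m ∈ ρ, m ∈ vl Y) ∧ n ∈ Φ k (lg ((σ ++ σ') ++ ρ))} := by
        ext n
        constructor
        · intro hn
          obtain ⟨ρ', h1, h2⟩ := (hcon [] (by simp)).2 n hn
          refine ⟨ρ', h1, ?_⟩
          simpa using h2
        · rintro ⟨ρ, h1, h2⟩
          by_contra hn
          exact (hcon ρ h1).1 n hn h2
      rw [heq]
      exact this
    obtain ⟨ρ, hρ, hρ'⟩ := hmain
    refine ⟨σ' ++ ρ, ?_, ⟨?_, ?_⟩, ?_⟩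
    · intro m hm
      rcases List.mem_append.1 hm with h | h
      · exact hσ' m h
      · exact hρ m h
    · intro hk
      simp [σ', hk]
    · rw [← List.append_assoc]
      exact hρ'
    · simp only [σ', List.length_append, List.length_replicate]
      omega)
  have hY : ER Y (fg f) := by
    have h1 : EP (fun (Z : Set (ℕ × ℕ)) (x : ℕ × ℕ) => (x.2, x.1 + 1) ∈ Z) :=
      EP.mem (Primrec.snd.pair (Primrec.succ.comp Primrec.fst))
    refine ⟨fun Z => {y | ∃ i, (i, y + 1) ∈ Z}, h1.ex, ?_⟩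
    ext y
    simp only [fg, mem_ofPred_eq]
    constructor
    · rintro ⟨i, hi⟩
      rcases hfV i with h0 | ⟨y', hy', h0⟩
      · omega
      · have : y = y' := by omega
        rw [this]; exact hy'
    · intro hy
      obtain ⟨n, hn, -⟩ := hfP (y + 1)
      have := hn (Or.inr ⟨y, hy, rfl⟩)
      obtain ⟨i, -, hi⟩ := List.mem_map.1 this
      exact ⟨i, hi⟩
  have hX : ER X (fg f) := (h (kf f) (hY.trans (ER_fg_kf f))).trans (ER_kf_fg f)
  obtain ⟨Ψ, hΨ, hΨX⟩ := hX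
  obtain ⟨k, hk⟩ := hall Ψ hΨ
  obtain ⟨n, -, hn⟩ := hfP k
  rw [hk] at hn
  rcases hn with ⟨x, hxX, hx⟩ | ⟨x, hxX, hx⟩
  · apply hxX
    rw [← hΨX]
    refine hΨ.mono ?_ hx
    rw [lg_map_range]
    rintro p ⟨-, hp⟩
    exact hp
  · rw [← hΨX] at hxX
    obtain ⟨m, hnm, hm⟩ := mem_op_fg hΨ hxX n
    obtain ⟨d, rfl⟩ := Nat.exists_eq_add_of_le hnm
    refine hx ((List.range d).map (fun i => f (n + i))) ?_ ?_
    · intro v hv
      obtain ⟨i, -, rfl⟩ := List.mem_map.1 hv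
      exact hfV _
    · have : (List.range n).map f ++ (List.range d).map (fun i => f (n + i)) =
          (List.range (n + d)).map f := by
        rw [List.range_add]
        simp [List.map_append, List.map_map, Function.comp_def]
      rw [this]
      exact hm

/-- every set is below a total one -/
theorem exists_total_above (X : Set ℕ) : ∃ k : ℕ → Bool, ER X (rs k) := by
  classical
  refine ⟨fun n => decide (n ∈ X), ?_⟩
  unfold rs
  rw [ER_cd_right]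
  have h : EP (fun (Z : Set (ℕ × Bool)) (n : ℕ) => (n, true) ∈ Z) :=
    EP.mem (Primrec.id.pair (Primrec.const true))
  refine ⟨fun Z => {n | (n, true) ∈ Z}, h, ?_⟩
  ext n
  simp [gr]

end ME
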