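import Pool.Agent.Helper89.MEF.H89_St_Cat2
import Pool.Agent.Helper89.MEF.H89_MainDefs

/-!
# Forcing with labelled trees: general lemmas (S14435)
-/

set_option autoImplicit false

namespace ME

open Encodable Set Filter Topology

/-! ### operators with parameters -/

section param

variable {α β γ δ : Type} [Primcodable α] [Primcodable β] [Primcodable γ] [Primcodable δ]

/-- composition with a uniform family of operators -/
theorem EP.op_param {P : Set β → γ → Prop} (hP : EP P) {Φ : δ → Set α → Set β}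
    (hΦ : EP (fun (X : Set α) (q : δ × β) => q.2 ∈ Φ q.1 X)) :
    EP (fun (X : Set α) (q : δ × γ) => P (Φ q.1 X) q.2) := by
  obtain ⟨W, hW, hP⟩ := hP
  have h1 : EP (fun (X : Set α) (y : (δ × γ) × List β) =>
      W (y.2, y.1.2) ∧ ∀ b ∈ y.2, b ∈ Φ y.1.1 X) := by
    refine EP.and (EP.re (hW.subst (Primrec.snd.pair (Primrec.snd.comp Primrec.fst)))) ?_
    have h2 : EP (fun (X : Set α) (z : ((δ × γ) × List β) × β) => z.2 ∈ Φ z.1.1.1 X) :=
      EP.subst hΦ ((Primrec.fst.comp (Primrec.fst.comp Primrec.fst)).pair Primrec.snd)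
    exact EP.ball (P := fun (X : Set α) (z : ((δ × γ) × List β) × β) => z.2 ∈ Φ z.1.1.1 X) h2
      (g := fun y => y.2) Primrec.snd
  refine h1.ex.of_iff ?_
  intro X q
  rw [hP]

/-- membership in a list is Σ₁ -/
theorem RE.list_mem {f : α → β} {g : α → List β} (hf : Primrec f) (hg : Primrec g) :
    RE (fun a => f a ∈ g a) := by
  have h4 : PrimrecRel (fun (L : List β) (l : β) => ∃ x ∈ L, x = l) :=
    PrimrecRel.exists_mem_list (R := fun x y : β => x = y) Primrec.eq
  have h5 := primrecRel_comp h4 hg hf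
  exact RE.prim (h5.of_eq (by simp))

omit [Primcodable α] in
theorem isOpen_list_ball {Ω : Type} [TopologicalSpace Ω] {S : Ω → Set α}
    (hS : ∀ x, IsOpen {g | x ∈ S g}) (l : List α) : IsOpen {g | ∀ a ∈ l, a ∈ S g} := by
  induction l with
  | nil => simp
  | cons x l ih =>
    have : {g | ∀ a ∈ x :: l, a ∈ S g} = {g | x ∈ S g} ∩ {g | ∀ a ∈ l, a ∈ S g} := by
      ext g; simp
    rw [this]
    exact (hS x).inter ih

theorem IsOp.mem_iff {Φ : Set α → Set β} (hΦ : IsOp Φ) (X : Set α) (b : β) :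
    b ∈ Φ X ↔ ∃ l : List α, b ∈ Φ {a | a ∈ l} ∧ ∀ a ∈ l, a ∈ X := by
  constructor
  · intro h
    obtain ⟨l, h1, h2⟩ := hΦ.compact h
    exact ⟨l, h2, h1⟩
  · rintro ⟨l, h1, h2⟩
    exact hΦ.mono (fun a ha => h2 a ha) h1

theorem IsOp.isOpen {Ω : Type} [TopologicalSpace Ω] {S : Ω → Set α}
    (hS : ∀ x, IsOpen {g | x ∈ S g}) {Φ : Set α → Set β} (hΦ : IsOp Φ) (b : β) :
    IsOpen {g | b ∈ Φ (S g)} := by
  have h : {g | b ∈ Φ (S g)} =
      ⋃ l : {l : List α // b ∈ Φ {a | a ∈ l}}, {g | ∀ a ∈ l.1, a ∈ S g} := by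
    ext g
    rw [mem_iUnion]
    change b ∈ Φ (S g) ↔ _
    rw [hΦ.mem_iff]
    constructor
    · rintro ⟨l, h1, h2⟩
      exact ⟨⟨l, h1⟩, h2⟩
    · rintro ⟨⟨l, h1⟩, h2⟩
      exact ⟨l, h1, h2⟩
  rw [h]
  exact isOpen_iUnion (fun l => isOpen_list_ball hS l.1)

/-- the values forced possible by a finite condition are given by an operator -/
theorem forced_op (Θ : Set (β ⊕ (δ × Bool)) → Set α) (hΘ : IsOp Θ) (q : List (δ × Bool)) :
    ∃ Θ' : Set β → Set α, IsOp Θ' ∧ ∀ C, Θ' C =
      {x | ∃ g : δ → Bool, (∀ p ∈ q, g p.1 = p.2) ∧ x ∈ Θ (sj C (gr g))} := by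
  classical
  set con : List (δ × Bool) → Prop := fun M =>
    ∀ p ∈ M, ∀ p' ∈ M, p.1 = p'.1 → p.2 = p'.2 with hcon
  have hconRE : RE con := by
    have h1 : RE (fun z : (List (δ × Bool) × (δ × Bool)) × (δ × Bool) =>
        z.1.2.1 = z.2.1 → z.1.2.2 = z.2.2) := by
      have e1 : PrimrecPred (fun z : (List (δ × Bool) × (δ × Bool)) × (δ × Bool) =>
          z.1.2.1 = z.2.1) := by
        have h : PrimrecRel (fun a b : δ => a = b) := Primrec.eq
        exact primrecRel_comp h (Primrec.fst.comp (Primrec.snd.comp Primrec.fst))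
          (Primrec.fst.comp Primrec.snd)
      have e2 : RE (fun z : (List (δ × Bool) × (δ × Bool)) × (δ × Bool) =>
          z.1.2.2 = z.2.2) :=
        RE.eq (Primrec.snd.comp (Primrec.snd.comp Primrec.fst)) (Primrec.snd.comp Primrec.snd)
      refine ((RE.prim e1.not).or e2).of_iff (fun z => ?_)
      tauto
    have h2 : RE (fun z : List (δ × Bool) × (δ × Bool) =>
        ∀ p' ∈ z.1, z.2.1 = p'.1 → z.2.2 = p'.2) :=
      RE.ball (p := fun z : (List (δ × Bool) × (δ × Bool)) × (δ × Bool) =>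
        z.1.2.1 = z.2.1 → z.1.2.2 = z.2.2) h1 (g := fun z => z.1) Primrec.fst
    exact RE.ball (p := fun z : List (δ × Bool) × (δ × Bool) =>
        ∀ p' ∈ z.1, z.2.1 = p'.1 → z.2.2 = p'.2) h2 (g := fun z => z) Primrec.id
  refine ⟨fun C => {x | ∃ L : List (δ × Bool), con (L ++ q) ∧ x ∈ Θ (sj C {p | p ∈ L})}, ?_, ?_⟩
  · have h1 : EP (fun (C : Set β) (y : α × List (δ × Bool)) => con (y.2 ++ q)) :=
      EP.re (hconRE.subst (Primrec.list_append.comp Primrec.snd (Primrec.const q)))
    have h2 : EP (fun (C : Set β) (w : List (δ × Bool) × (β ⊕ (δ × Bool))) =>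
        w.2 ∈ sj C {p | p ∈ w.1}) := by
      have e1 : EP (fun (C : Set β) (v : (List (δ × Bool) × (β ⊕ (δ × Bool))) × β) =>
          v.1.2 = Sum.inl v.2 ∧ v.2 ∈ C) :=
        EP.and (EP.re (RE.eq (Primrec.snd.comp Primrec.fst) (Primrec.sumInl.comp Primrec.snd)))
          (EP.mem Primrec.snd)
      have e2 : EP (fun (C : Set β) (v : (List (δ × Bool) × (β ⊕ (δ × Bool))) × (δ × Bool)) =>
          v.1.2 = Sum.inr v.2 ∧ v.2 ∈ v.1.1) :=
        EP.and (EP.re (RE.eq (Primrec.snd.comp Primrec.fst) (Primrec.sumInr.comp Primrec.snd)))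
          (EP.re (RE.list_mem Primrec.snd (Primrec.fst.comp Primrec.fst)))
      refine (e1.ex.or e2.ex).of_iff ?_
      rintro C ⟨L, s⟩
      cases s with
      | inl b => simp
      | inr p => simp
    have h3 : EP (fun (C : Set β) (w : List (δ × Bool) × α) => w.2 ∈ Θ (sj C {p | p ∈ w.1})) :=
      EP.op_param (P := fun Z x => x ∈ Θ Z) hΘ (Φ := fun L C => sj C {p | p ∈ L}) h2
    have h4 : EP (fun (C : Set β) (y : α × List (δ × Bool)) =>
        y.1 ∈ Θ (sj C {p | p ∈ y.2})) :=
      EP.subst h3 (Primrec.snd.pair Primrec.fst)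
    exact (EP.and h1 h4).ex
  · intro C
    ext x
    constructor
    · rintro ⟨L, hL, hx⟩
      set g : δ → Bool := fun i => decide ((i, true) ∈ L ++ q) with hg
      have hgL : ∀ p ∈ L ++ q, g p.1 = p.2 := by
        rintro ⟨i, b⟩ hp
        cases b with
        | true => simpa [hg] using hp
        | false =>
          simp only [hg, decide_eq_false_iff_not]
          intro h
          have := hL _ h _ hp rfl
          simp at this
      refine ⟨g, fun p hp => hgL p (List.mem_append_right _ hp), ?_⟩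
      refine hΘ.mono ?_ hx
      rintro (b | p) h
      · exact h
      · exact hgL p (List.mem_append_left _ h)
    · rintro ⟨g, hg, hx⟩
      obtain ⟨l, hl1, hl2⟩ := hΘ.compact hx
      set L : List (δ × Bool) := l.filterMap (Sum.elim (fun _ => none) some) with hL
      have hLmem : ∀ p, p ∈ L ↔ Sum.inr p ∈ l := by
        intro p
        rw [hL, List.mem_filterMap]
        constructor
        · rintro ⟨s, hs, hs'⟩
          cases s with
          | inl b => simp at hs'
          | inr p' =>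
            simp only [Sum.elim_inr, Option.some.injEq] at hs'
            rwa [← hs']
        · intro h
          exact ⟨_, h, rfl⟩
      have hLg : ∀ p ∈ L ++ q, g p.1 = p.2 := by
        intro p hp
        rcases List.mem_append.mp hp with h | h
        · exact hl1 _ ((hLmem p).mp h)
        · exact hg p h
      refine ⟨L, fun p hp p' hp' h => ?_, ?_⟩
      · rw [← hLg p hp, ← hLg p' hp', h]
      · refine hΘ.mono ?_ hl2
        rintro (b | p) h
        · exact hl1 _ h
        · exact (hLmem p).mpr h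

end param

/-! ### labels along a branch -/

theorem isOpen_pre_eq (n : ℕ) (s : List Bool) : IsOpen {y : ℕ → Bool | pre y n = s} := by
  by_cases h : s.length = n
  · have : {y : ℕ → Bool | pre y n = s} = cyl s := by
      ext y
      change pre y n = s ↔ pre y s.length = s
      rw [h]
    rw [this]
    exact isOpen_cyl s
  · have : {y : ℕ → Bool | pre y n = s} = ∅ := by
      ext y
      simp only [mem_ofPred_eq, mem_empty_iff_false, iff_false]
      intro h'
      apply h
      rw [← h', length_pre]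
    rw [this]
    exact isOpen_empty

theorem isOpen_apply_eq {ι : Type} (i : ι) (v : Bool) : IsOpen {t : ι → Bool | t i = v} := by
  have : {t : ι → Bool | t i = v} = (fun t : ι → Bool => t i) ⁻¹' {v} := rfl
  rw [this]
  exact (isOpen_discrete _).preimage (continuous_apply i)

theorem isOpen_rho {Ω : Type} [TopologicalSpace Ω] {T : Ω → List Bool → Bool}
    {Y : Ω → ℕ → Bool} (hT : Continuous T) (hY : Continuous Y) (n : ℕ) (v : Bool) :
    IsOpen {g | rho (T g) (Y g) n = v} := by
  have h : {g | rho (T g) (Y g) n = v} =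
      ⋃ s : List Bool, (Y ⁻¹' {y | pre y n = s}) ∩ (T ⁻¹' {t | t s = v}) := by
    ext g
    rw [mem_iUnion]
    constructor
    · intro h
      exact ⟨pre (Y g) n, rfl, h⟩
    · rintro ⟨s, h1, h2⟩
      change T g (pre (Y g) n) = v
      change pre (Y g) n = s at h1
      rw [h1]
      exact h2
  rw [h]
  exact isOpen_iUnion (fun s => ((isOpen_pre_eq n s).preimage hY).inter
    ((isOpen_apply_eq s v).preimage hT))

theorem isOpen_mem_rs {Ω : Type} [TopologicalSpace Ω] {h : Ω → ℕ → Bool}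
    (hh : ∀ n v, IsOpen {g | h g n = v}) (x : ℕ) : IsOpen {g | x ∈ rs (h g)} := by
  have e : {g | x ∈ rs (h g)} = ⋃ q : {q : ℕ × Bool // encode q = x}, {g | h g q.1.1 = q.1.2} := by
    ext g
    rw [mem_iUnion]
    constructor
    · rintro ⟨q, hq, hx⟩
      exact ⟨⟨q, hx⟩, hq⟩
    · rintro ⟨⟨q, hx⟩, hq⟩
      exact ⟨q, hq, hx⟩
  rw [e]
  exact isOpen_iUnion (fun q => hh q.1.1 q.1.2)

theorem isOpen_mem_rs_rho {Ω : Type} [TopologicalSpace Ω] {T : Ω → List Bool → Bool}
    {Y : Ω → ℕ → Bool} (hT : Continuous T) (hY : Continuous Y) (x : ℕ) :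
    IsOpen {g | x ∈ rs (rho (T g) (Y g))} :=
  isOpen_mem_rs (fun n v => isOpen_rho hT hY n v) x

theorem isOpen_mem_sj {Ω α β : Type} [TopologicalSpace Ω] {A : Ω → Set α} {B : Ω → Set β}
    (hA : ∀ x, IsOpen {g | x ∈ A g}) (hB : ∀ x, IsOpen {g | x ∈ B g}) (s : α ⊕ β) :
    IsOpen {g | s ∈ sj (A g) (B g)} := by
  cases s with
  | inl a => exact hA a
  | inr b => exact hB b

theorem isOpen_mem_gr {Ω ι : Type} [TopologicalSpace Ω] {h : Ω → ι → Bool} (hh : Continuous h)
    (x : ι × Bool) : IsOpen {g | x ∈ gr (h g)} :=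
  (isOpen_apply_eq x.1 x.2).preimage hh

theorem isOpen_const_mem {Ω α : Type} [TopologicalSpace Ω] (A : Set α) (x : α) :
    IsOpen {_g : Ω | x ∈ A} := by
  by_cases h : x ∈ A
  · simp [h]
  · simp [h]

/-- a nonempty open set of `ι → Bool` contains a basic one around each of its points -/
theorem exists_basic {ι : Type} {O : Set (ι → Bool)} (hO : IsOpen O) {g : ι → Bool}
    (hg : g ∈ O) : ∃ F : Finset ι, ∀ g' : ι → Bool, (∀ i ∈ F, g' i = g i) → g' ∈ O := by
  rw [isOpen_pi_iff] at hO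
  obtain ⟨F, u, h1, h2⟩ := hO g hg
  refine ⟨F, fun g' hg' => h2 ?_⟩
  intro i hi
  rw [hg' i hi]
  exact (h1 i hi).2

theorem isOpen_basic {ι : Type} (F : Finset ι) (g : ι → Bool) :
    IsOpen {g' : ι → Bool | ∀ i ∈ F, g' i = g i} := by
  have : {g' : ι → Bool | ∀ i ∈ F, g' i = g i} = ⋂ i ∈ F, {g' | g' i = g i} := by
    ext g'; simp
  rw [this]
  exact isOpen_biInter_finset (fun i _ => isOpen_apply_eq i (g i))

/-- a bound for the lengths of the nodes in a finite set -/
theorem exists_length_bound (F : Finset (List Bool)) : ∃ N : ℕ, ∀ w ∈ F, w.length < N := by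
  refine ⟨F.sup List.length + 1, fun w hw => ?_⟩
  have := Finset.le_sup (f := List.length) hw
  omega

theorem isOpen_labels (u : List Bool) (n : ℕ) (v : Bool) :
    IsOpen {t : List Bool → Bool | ∀ w, u <+: w → w.length = n → t w = v} := by
  have hfin : {w : List Bool | w.length = n}.Finite := List.finite_length_eq Bool n
  have : {t : List Bool → Bool | ∀ w, u <+: w → w.length = n → t w = v} =
      ⋂ w ∈ {w : List Bool | w.length = n}, {t | u <+: w → t w = v} := by
    ext t
    simp only [mem_iInter]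
    constructor
    · intro h w hw h'
      exact h w h' hw
    · intro h w h' hw
      exact h w hw h'
  rw [this]
  refine hfin.isOpen_biInter (fun w _ => ?_)
  by_cases h : u <+: w
  · simp only [h, true_imp_iff]
    exact isOpen_apply_eq w v
  · simp [h]

/-- **label forcing** -/
theorem label_forcing {Ω α : Type} [TopologicalSpace Ω] [Primcodable α]
    (S : (List Bool → Bool) × Ω → Set α) (hS : ∀ x, IsOpen {g | x ∈ S g})
    (Bad : Set Ω) (hBad : IsOpen Bad) (u : List Bool)
    (hloc : ∀ ω, ω ∉ Bad → ∀ t t' : List Bool → Bool, (∀ w, ¬ (u <+: w) → t w = t' w) →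
      S (t, ω) = S (t', ω))
    (Θ : Set α → Set (ℕ × Bool)) (hΘ : IsOp Θ) :
    ∃ V : Set ((List Bool → Bool) × Ω), IsOpen V ∧ Dense V ∧ ∀ g ∈ V, g.2 ∉ Bad →
      (∀ n, ∃ v, (n, v) ∈ Θ (S g)) → ∃ n v, u.length ≤ n ∧ (n, v) ∈ Θ (S g) ∧
        ∀ w, u <+: w → w.length = n → g.1 w = !v := by
  classical
  set A : Set ((List Bool → Bool) × Ω) := {g | ∃ n v, u.length ≤ n ∧ (n, v) ∈ Θ (S g) ∧
        ∀ w, u <+: w → w.length = n → g.1 w = !v} with hA
  set C : Set ((List Bool → Bool) × Ω) := {g | ∃ n, ∀ v, (n, v) ∉ Θ (S g)} with hC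
  have hAo : IsOpen A := by
    have : A = ⋃ n : {n : ℕ // u.length ≤ n}, ⋃ v : Bool, {g | (n.1, v) ∈ Θ (S g)} ∩
        ((fun g : (List Bool → Bool) × Ω => g.1) ⁻¹'
          {t | ∀ w, u <+: w → w.length = n.1 → t w = !v}) := by
      ext g
      simp only [mem_iUnion]
      constructor
      · rintro ⟨n, v, h1, h2, h3⟩
        exact ⟨⟨n, h1⟩, v, h2, h3⟩
      · rintro ⟨⟨n, h1⟩, v, h2, h3⟩
        exact ⟨n, v, h1, h2, h3⟩
    rw [this]
    exact isOpen_iUnion (fun n => isOpen_iUnion (fun v => (hΘ.isOpen hS _).inter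
      ((isOpen_labels u n.1 _).preimage continuous_fst)))
  have hBo : IsOpen ((fun g : (List Bool → Bool) × Ω => g.2) ⁻¹' Bad) :=
    hBad.preimage continuous_snd
  refine ⟨((fun g : (List Bool → Bool) × Ω => g.2) ⁻¹' Bad) ∪ A ∪ interior C,
    (hBo.union hAo).union isOpen_interior, ?_, ?_⟩
  · rw [dense_iff_inter_open]
    rintro O hO ⟨⟨t0, ω0⟩, hg0⟩
    by_cases hcase : ∃ g ∈ O, g.2 ∈ Bad
    · obtain ⟨g, h1, h2⟩ := hcase
      exact ⟨g, h1, Or.inl (Or.inl h2)⟩
    push Not at hcase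
    obtain ⟨O1, O2, hO1, hO2, ht0, hω0, hsub⟩ := isOpen_prod_iff.mp hO t0 ω0 hg0
    obtain ⟨F, hF⟩ := exists_basic hO1 ht0
    obtain ⟨N, hN⟩ := exists_length_bound F
    set n := max N u.length with hn
    set U : Set ((List Bool → Bool) × Ω) := {t | ∀ w ∈ F, t w = t0 w} ×ˢ O2 with hU
    have hUo : IsOpen U := (isOpen_basic F t0).prod hO2
    have hUO : U ⊆ O := fun g hg => hsub ⟨hF _ hg.1, hg.2⟩
    by_cases h : ∃ g ∈ U, ∃ v, (n, v) ∈ Θ (S g)
    · obtain ⟨⟨t, ω⟩, hgU, v, hv⟩ := h
      set t' : List Bool → Bool := fun w => if u <+: w ∧ w.length = n then !v else t w with ht'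
      have hU' : ((t', ω) : (List Bool → Bool) × Ω) ∈ U := by
        refine ⟨fun w hw => ?_, hgU.2⟩
        have h1 : ¬ (u <+: w ∧ w.length = n) := by
          rintro ⟨-, h2⟩
          have := hN w hw
          have := le_max_left N u.length
          omega
        simp only [ht', h1, if_false]
        exact hgU.1 w hw
      have hSeq : S (t', ω) = S (t, ω) := by
        refine hloc ω (hcase _ (hUO hgU)) _ _ (fun w hw => ?_)
        simp [ht', hw]
      refine ⟨(t', ω), hUO hU', Or.inl (Or.inr ⟨n, v, le_max_right _ _, ?_, ?_⟩)⟩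
      · rw [hSeq]; exact hv
      · intro w h1 h2
        simp [ht', h1, h2]
    · push Not at h
      have hUC : U ⊆ C := fun g hg => ⟨n, fun v => h g hg v⟩
      exact ⟨(t0, ω0), hg0, Or.inr (interior_maximal hUC hUo ⟨fun w _ => rfl, hω0⟩)⟩
  · rintro g ((h | h) | h) hg hall
    · exact absurd h hg
    · exact h
    · obtain ⟨n, hn⟩ := interior_subset h
      obtain ⟨v, hv⟩ := hall n
      exact absurd hv (hn v)

/-! ### residual sets -/

theorem residual_of_open_dense {X : Type} [TopologicalSpace X] {V : Set X} (ho : IsOpen V)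
    (hd : Dense V) : ∀ᶠ x in residual X, x ∈ V := residual_of_dense_open ho hd

/-- Kuratowski-Ulam for residual sets -/
theorem ku_residual {X Y : Type} [TopologicalSpace X] [TopologicalSpace Y]
    [SecondCountableTopology Y] {P : X × Y → Prop} (h : ∀ᶠ g in residual (X × Y), P g) :
    ∀ᶠ x in residual X, ∀ᶠ y in residual Y, P (x, y) := by
  have h' : {g | P g} ∈ residual (X × Y) := h
  rw [mem_residual_iff] at h'
  obtain ⟨S, hSo, hSd, hSc, hSP⟩ := h'
  have h1 : ∀ᶠ x in residual X, ∀ V ∈ S, Dense {y : Y | (x, y) ∈ V} := by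
    rw [eventually_countable_ball hSc]
    intro V hV
    exact kuratowski_ulam (hSo V hV) (hSd V hV)
  filter_upwards [h1] with x hx
  have h2 : ∀ᶠ y in residual Y, ∀ V ∈ S, (x, y) ∈ V := by
    rw [eventually_countable_ball hSc]
    intro V hV
    refine residual_of_open_dense ?_ (hx V hV)
    exact (hSo V hV).preimage (Continuous.prodMk_right x)
  filter_upwards [h2] with y hy
  exact hSP (mem_sInter.mpr hy)

/-- transfer along a homeomorphism -/
theorem residual_homeo {X Y : Type} [TopologicalSpace X] [TopologicalSpace Y] (e : X ≃ₜ Y)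
    {V : Set X} (ho : IsOpen V) (hd : Dense V) {P : Y → Prop} (h : ∀ x ∈ V, P (e x)) :
    ∀ᶠ y in residual Y, P y := by
  have h1 : IsOpen (e.symm ⁻¹' V) := ho.preimage e.symm.continuous
  have h2 : Dense (e.symm ⁻¹' V) := hd.preimage e.symm.isOpenMap
  filter_upwards [residual_of_open_dense h1 h2] with y hy
  have := h _ hy
  rwa [e.apply_symm_apply] at this

end ME
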