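import Pool.Agent.Helper89.MEF.H40_Gen1a
import Pool.Agent.Helper89.MEF.H97_Gen1b
import Pool.Agent.Helper89.MEF.H75_DensePA

/-!
# Assembly: genericity for the first tree
-/

set_option autoImplicit false

namespace ME

open Encodable Set Filter Topology

theorem gen1 {H A : Set ℕ} (h : ¬ ER H A) (b : Set ℕ) (FF : Set (Set Idx)) (hFF : FF.Countable) :
    ∀ᶠ t in residual (List Bool → Bool), ∀ᶠ a₁ in residual (ℕ → Bool),
    ∀ᶠ a₀ in residual (ℕ → Bool), ∀ (M : ℕ) (B : Bool × ℕ → Set (ℕ → Bool)),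
      (∀ i, ENM (B i) []) → ∃ z : Bool × ℕ → ℕ → Bool, (∀ i, z i ∈ B i) ∧
        ¬ ER H (jn A (cd (GF t (pt M (fun j => cond j a₁ a₀) z) univ))) ∧
        ∀ F ∈ FF, ∀ u, (∀ l ∈ F, pt M (fun j => cond j a₁ a₀) z l ∉ cyl u) →
          PA (jn b (cd (GF t (pt M (fun j => cond j a₁ a₀) z) F))) t u :=
  gen1_of dense_PA h b FF hFF

end ME
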