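import Pool.Agent.Helper89.MEF.H89_PackDefs
import Pool.Agent.Helper89.MEF.H89_St_Gen1

/-!
# ME-M4: step 1 of the main theorem
-/

set_option autoImplicit false

namespace ME

open Encodable Set Filter Topology

namespace PackPf

/-- replace the bits up to `k` by those of `t` -/
def rep (t : ℕ → Bool) (k : ℕ) (y : ℕ → Bool) : ℕ → Bool := fun n => if n ≤ k then t n else y n

theorem continuous_rep (t : ℕ → Bool) (k : ℕ) : Continuous (rep t k) := by
  refine continuous_pi fun n => ?_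
  by_cases h : n ≤ k
  · simp only [rep, h, if_true]
    exact continuous_const
  · simp only [rep, h, if_false]
    exact continuous_apply n

theorem isOpenMap_rep (t : ℕ → Bool) (k : ℕ) : IsOpenMap (rep t k) := by
  have h : IsOpenMap (Pi.map (fun n => fun b : Bool => if n ≤ k then t n else b)) := by
    refine IsOpenMap.piMap (fun i => fun U _ => isOpen_discrete _) ?_
    rw [Filter.eventually_cofinite]
    refine (Set.finite_Iic k).subset ?_
    intro n hn
    by_contra hlt
    apply hn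
    have hnk : ¬ n ≤ k := hlt
    intro b
    exact ⟨b, by simp [hnk]⟩
  exact h

theorem mem_cyl_pre {x y : ℕ → Bool} {N : ℕ} : y ∈ cyl (pre x N) ↔ ∀ n < N, y n = x n := by
  unfold cyl
  change pre y (pre x N).length = pre x N ↔ _
  rw [length_pre]
  exact pre_eq_iff

theorem sat_lt {c z : ℕ → Bool} {k n : ℕ} (h : n < k) : sat c k z n = c n := by
  simp [sat, h]

theorem sat_self (c z : ℕ → Bool) (k : ℕ) : sat c k z k = !(c k) := by
  simp [sat]

theorem sat_gt {c z : ℕ → Bool} {k n : ℕ} (h : k < n) : sat c k z n = z n := by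
  simp [sat, not_lt.2 h.le, h.ne']

theorem ENM_inter_cyl {D : Set (ℕ → Bool)} {s : List Bool} (hD : ENM D s) : ENM (D ∩ cyl s) s := by
  intro t hst hm
  apply hD t hst
  refine hm.mono ?_
  rintro y ⟨h1, h2⟩
  exact ⟨⟨h1, cyl_anti hst h2⟩, h2⟩

theorem ENM_sat {D : Set (ℕ → Bool)} {s : List Bool} (hD : ENM D s) {c : ℕ → Bool}
    (hc : c ∈ cyl s) {k : ℕ} (hk : s.length ≤ k) : ENM {z | sat c k z ∈ D} [] := by
  intro t _ hm
  obtain ⟨y0, hy0⟩ : (cyl t).Nonempty := cyl_nonempty t
  set N := max t.length (k + 1) with hN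
  have hkN : k < N := lt_of_lt_of_le (Nat.lt_succ_self k) (le_max_right _ _)
  have hsub : cyl (pre y0 N) ⊆ cyl t := by
    have ht : t = pre y0 t.length := by
      have : pre y0 t.length = t := hy0
      exact this.symm
    apply cyl_anti
    rw [ht]
    have := pre_prefix y0 (m := t.length) (n := N) (le_max_left _ _)
    simpa using this
  have hm' : IsMeagre ({z | sat c k z ∈ D} ∩ cyl (pre y0 N)) := by
    refine hm.mono ?_
    rintro y ⟨h1, h2⟩
    exact ⟨h1, hsub h2⟩
  have h2 := hm'.preimage_of_isOpenMap (continuous_rep y0 k) (isOpenMap_rep y0 k)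
  have hst : s <+: pre (sat c k y0) N := by
    have h3 : pre (sat c k y0) s.length = s := by
      have h4 : pre c s.length = s := hc
      rw [← h4]
      simp only [length_pre]
      rw [pre_eq_iff]
      intro i hi
      exact sat_lt (lt_of_lt_of_le hi hk)
    have h5 := pre_prefix (sat c k y0) (m := s.length) (n := N) (hk.trans hkN.le)
    rwa [h3] at h5
  apply hD _ hst
  refine h2.mono ?_
  rintro y ⟨hyD, hy⟩
  rw [mem_cyl_pre] at hy
  have hrep : sat c k (rep y0 k y) = y := by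
    funext n
    rcases lt_trichotomy n k with h | h | h
    · rw [sat_lt h, hy n (h.trans hkN), sat_lt h]
    · subst h
      rw [sat_self, hy n hkN, sat_self]
    · rw [sat_gt h]
      simp [rep, not_le.2 h]
  refine ⟨?_, ?_⟩
  · change sat c k (rep y0 k y) ∈ D
    rw [hrep]
    exact hyD
  · rw [mem_cyl_pre]
    intro n hn
    by_cases h : n ≤ k
    · simp [rep, h]
    · have h' : k < n := not_le.1 h
      have : rep y0 k y n = y n := by simp [rep, h]
      rw [this, hy n hn, sat_gt h']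

theorem bit_of_cyl {σ : List Bool} {j : Bool} {y : ℕ → Bool} (h : y ∈ cyl (σ ++ [j])) :
    y σ.length = j := by
  have h1 : pre y (σ ++ [j]).length = σ ++ [j] := h
  have h2 := congrArg (fun l : List Bool => l[σ.length]?) h1
  simpa [pre] using h2

theorem exists_of_residual {X : Type} [TopologicalSpace X] [BaireSpace X] [Nonempty X]
    {p : X → Prop} (h : ∀ᶠ x in residual X, p x) : ∃ x, p x := by
  have hd : Dense {x | p x} := dense_of_mem_residual h
  exact hd.nonempty

end PackPf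

open PackPf

/-- ME-M4: step 1 -/
theorem exists_pack (a : Aut) (e : Set ℕ) (he : IsBase a e)
    (htot : {h : ℕ → Bool | ¬ Tot (a.symm.pi (rs h))}.Countable) (f : ℕ → Bool)
    (hf : ¬ ER (rs f) (a.pi (rs f))) : Nonempty (Pack a e f) := by
  classical
  let FF : Set (Set Idx) := ({univ} ∪ (range fun l : Idx => ({l}ᶜ : Set Idx))) ∪
    (range fun m : ℕ => ({(true, none), (true, some m)} : Set Idx))
  have hFF : FF.Countable :=
    ((countable_singleton _).union (countable_range _)).union (countable_range _)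
  have hg := gen1 hf (jn e (rs f)) FF hFF
  have ht := tree_avoid _ htot
  obtain ⟨t, hgt, htt⟩ := exists_of_residual (hg.and ht)
  -- the reals on the original side
  have hr : ∀ y, ∃ h : ℕ → Bool, EE (a.symm.pi (rs (rho t y))) (rs h) := by
    intro y
    by_contra hcon
    exact htt y hcon
  choose r hr using hr
  have hr1 : ∀ y, ER (a.pi (rs (r y))) (rs (rho t y)) := fun y =>
    ((a.pi_mono).2 (hr y).2).trans (a.symm_pi _).1
  -- Ψ
  obtain ⟨Φ, hΦ, hΦall⟩ := exists_enum_IsOp (α := ℕ ⊕ ℕ) (β := ℕ)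
  have hcov : (univ : Set (ℕ → Bool)) ∩ cyl [] ⊆
      ⋃ i, {y | Φ i (sj e (rs (rho t y))) = rs (r y)} := by
    rintro y -
    have h1 : ER (rs (r y)) (sj e (rs (rho t y))) := by
      refine (hr y).2.trans (((he (a.symm.pi (rs (rho t y)))).2).trans ?_)
      exact ER_jn ((a.symm_pi _).1.trans (ER.right _ _)) (ER.left _ _)
    obtain ⟨Ψ, hΨ, h⟩ := h1
    obtain ⟨i, rfl⟩ := hΦall Ψ hΨ
    exact mem_iUnion.2 ⟨i, h⟩
  obtain ⟨i₀, σ, -, hσ⟩ := baire_trick (ENM_univ []) _ hcov
  set D' : Set (ℕ → Bool) := univ ∩ {y | Φ i₀ (sj e (rs (rho t y))) = rs (r y)} ∩ cyl σ with hD'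
  -- base points
  let PP : (ℕ → Bool) → (ℕ → Bool) → Prop := fun a₁ a₀ =>
    ∀ (M : ℕ) (B : Bool × ℕ → Set (ℕ → Bool)),
      (∀ i, ENM (B i) []) → ∃ z : Bool × ℕ → ℕ → Bool, (∀ i, z i ∈ B i) ∧
        ¬ ER (rs f) (jn (a.pi (rs f))
          (cd (GF t (pt M (fun j => cond j a₁ a₀) z) univ))) ∧
        ∀ F ∈ FF, ∀ u, (∀ l ∈ F, pt M (fun j => cond j a₁ a₀) z l ∉ cyl u) →
          PA (jn (jn e (rs f)) (cd (GF t (pt M (fun j => cond j a₁ a₀) z) F))) t u
  have hgt' : {a₁ | ∀ᶠ a₀ in residual (ℕ → Bool), PP a₁ a₀} ∈ residual (ℕ → Bool) := hgt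
  obtain ⟨C1, hC1D, hC1c, hC1σ, hC1d⟩ :=
    ((hσ.ext (List.prefix_append σ [true])).inter_residual hgt').exists_countable_dense
  have hR0 : ∀ᶠ a₀ in residual (ℕ → Bool), ∀ a₁ (_ : a₁ ∈ C1), PP a₁ a₀ :=
    (eventually_countable_ball hC1c).2 (fun a₁ h => (hC1D h).2)
  have hR0' : {a₀ | ∀ a₁ (_ : a₁ ∈ C1), PP a₁ a₀} ∈ residual (ℕ → Bool) := hR0
  obtain ⟨C0, hC0D, hC0c, hC0σ, hC0d⟩ :=
    ((hσ.ext (List.prefix_append σ [false])).inter_residual hR0').exists_countable_dense
  let C : Bool → Set (ℕ → Bool) := fun j => cond j C1 C0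
  have hCD : ∀ j, C j ⊆ D' := by
    intro j
    cases j
    · exact fun y hy => (hC0D hy).1
    · exact fun y hy => (hC1D hy).1
  have hCc : ∀ j, (C j).Countable := by
    intro j
    cases j
    · exact hC0c
    · exact hC1c
  have hCσ : ∀ j, C j ⊆ cyl (σ ++ [j]) := by
    intro j
    cases j
    · exact hC0σ
    · exact hC1σ
  have hCd : ∀ j s, σ ++ [j] <+: s → ∃ y ∈ C j, y ∈ cyl s := by
    intro j
    cases j
    · exact hC0d
    · exact hC1d
  let J : Bool → Set (ℕ → Bool) := fun j => (D' \ C j) ∩ cyl (σ ++ [j])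
  have hJ : ∀ j, ENM (J j) (σ ++ [j]) := fun j =>
    ENM_inter_cyl ((hσ.ext (List.prefix_append σ [j])).diff_countable (hCc j))
  -- Λ
  obtain ⟨Φ', hΦ', hΦ'all⟩ := exists_enum_IsOp (α := ℕ) (β := ℕ)
  have hΛ : ∀ j, ∃ (i : ℕ) (τ : List Bool), σ ++ [j] <+: τ ∧ ENM (J j ∩
      {y | Φ' i (rs (rho t y)) ∈ a.F (range fun y : J j => rs (r y.1))} ∩ cyl τ) τ := by
    intro j
    apply baire_trick (hJ j)
    rintro y ⟨hyJ, -⟩
    have h1 : PR (a.F (range fun y : J j => rs (r y.1))) {rs (rho t y)} := by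
      have h2 : PR (range fun y : J j => rs (r y.1)) {rs (r y)} :=
        PR_of_subset (by rintro _ rfl; exact ⟨⟨y, hyJ⟩, rfl⟩)
      exact ((a.F_mono _ _ h2).trans (a.pi_spec (rs (r y))).1).trans (PR_singleton.2 (hr1 y))
    obtain ⟨Ψ, hΨ, h⟩ := h1
    obtain ⟨i, rfl⟩ := hΦ'all Ψ hΨ
    exact mem_iUnion.2 ⟨i, h _ rfl⟩
  choose iΛ τ hτ hD using hΛ
  have hc : ∀ j, ∃ c ∈ C j, c ∈ cyl (τ j) := fun j => hCd j _ (hτ j)
  choose c hcC hcτ using hc
  set M : ℕ := max (τ true).length (τ false).length with hM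
  have hMj : ∀ j, (τ j).length ≤ M := by
    intro j
    cases j
    · exact le_max_right _ _
    · exact le_max_left _ _
  have hP : ∀ (M : ℕ) (B : Bool × ℕ → Set (ℕ → Bool)),
      (∀ i, ENM (B i) []) → ∃ z : Bool × ℕ → ℕ → Bool, (∀ i, z i ∈ B i) ∧
        ¬ ER (rs f) (jn (a.pi (rs f))
          (cd (GF t (pt M (fun j => cond j (c true) (c false)) z) univ))) ∧
        ∀ F ∈ FF, ∀ u, (∀ l ∈ F, pt M (fun j => cond j (c true) (c false)) z l ∉ cyl u) →
          PA (jn (jn e (rs f)) (cd (GF t (pt M (fun j => cond j (c true) (c false)) z) F))) t u :=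
    (hC0D (hcC false)).2 (c true) (hcC true)
  have hcc : (fun j => cond j (c true) (c false)) = c := by
    funext j
    cases j <;> rfl
  rw [hcc] at hP
  obtain ⟨z, hzB, hI0, hPA⟩ := hP M
    (fun i => {z | sat (c i.1) (M + i.2) z ∈ J i.1 ∩
      {y | Φ' (iΛ i.1) (rs (rho t y)) ∈ a.F (range fun y : J i.1 => rs (r y.1))} ∩ cyl (τ i.1)})
    (fun i => ENM_sat (hD i.1) (hcτ i.1) ((hMj i.1).trans (Nat.le_add_right _ _)))
  have hsat : ∀ j m, pt M c z (j, some m) ∈ J j ∩
      {y | Φ' (iΛ j) (rs (rho t y)) ∈ a.F (range fun y : J j => rs (r y.1))} ∩ cyl (τ j) :=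
    fun j m => hzB (j, m)
  have hptD : ∀ l, pt M c z l ∈ D' := by
    rintro ⟨j, _ | m⟩
    · exact hCD j (hcC j)
    · exact (hsat j m).1.1.1.1
  have hptσ : ∀ l, pt M c z l ∈ cyl (σ ++ [l.1]) := by
    rintro ⟨j, _ | m⟩
    · exact hCσ j (hcC j)
    · exact (hsat j m).1.1.2
  refine ⟨{ t := t, M := M, c := c, z := z, r := r, J := J, Ψ := Φ i₀, Λ := fun j => Φ' (iΛ j),
            he := he, hΨ := hΦ i₀, hΛ := fun j => hΦ' _, r_spec := hr,
            base_not_mem := fun j h => h.1.2 (hcC j),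
            pt_mem := fun j m => (hsat j m).1.1,
            pt_disj := ?_, pt_inj := ?_, Ψ_spec := ?_, Λ_spec := fun j m => (hsat j m).1.2,
            hI0 := hI0, hP := ?_, hPl := ?_, hPf := ?_ }⟩
  · intro j l hl hmem
    have h1 := bit_of_cyl hmem.2
    have h2 := bit_of_cyl (hptσ l)
    exact hl (h2.symm.trans h1)
  · intro l l' hll
    have h1 := bit_of_cyl (hptσ l)
    have h2 := bit_of_cyl (hptσ l')
    obtain ⟨j, o⟩ := l
    obtain ⟨j', o'⟩ := l'
    have hj : j = j' := by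
      rw [hll] at h1
      exact h1.symm.trans h2
    subst hj
    have key : ∀ m, pt M c z (j, some m) ≠ pt M c z (j, none) := by
      intro m h
      have h3 : sat (c j) (M + m) (z (j, m)) (M + m) = c j (M + m) := congrFun h (M + m)
      rw [sat_self] at h3
      cases hb : c j (M + m) <;> simp [hb] at h3
    have key2 : ∀ m m', m < m' → pt M c z (j, some m) ≠ pt M c z (j, some m') := by
      intro m m' hmm h
      have h3 : sat (c j) (M + m) (z (j, m)) (M + m) = sat (c j) (M + m') (z (j, m')) (M + m) :=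
        congrFun h (M + m)
      rw [sat_self, sat_lt (by omega)] at h3
      cases hb : c j (M + m) <;> simp [hb] at h3
    rcases o with _ | m
    · rcases o' with _ | m'
      · rfl
      · exact absurd hll.symm (key m')
    · rcases o' with _ | m'
      · exact absurd hll (key m)
      · rcases lt_trichotomy m m' with h | h | h
        · exact absurd hll (key2 _ _ h)
        · rw [h]
        · exact absurd hll.symm (key2 _ _ h)
  · intro l
    exact (hptD l).1.2
  · intro u hu
    exact hPA univ (Or.inl (Or.inl rfl)) u (fun l _ => hu l)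
  · intro l u hu
    exact hPA {l}ᶜ (Or.inl (Or.inr ⟨l, rfl⟩)) u (fun l' hl' => hu l' hl')
  · intro m u h1 h2
    refine hPA {(true, none), (true, some m)} (Or.inr ⟨m, rfl⟩) u (fun l' hl' => ?_)
    rcases hl' with rfl | rfl
    · exact h1
    · exact h2

end ME
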