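import Pool.Agent.Helper89.MEF.H89_KerDefs

/-!
# Kernel theorem, second step (merging)
-/

set_option autoImplicit false

namespace ME

open Encodable Set Filter Topology

namespace Ker2

/-- facts -/
abbrev Fct : Type := ℕ × ((ℕ × ℕ) ⊕ ℕ)

/-! ### strings -/

theorem pre_length (y : ℕ → Bool) (n : ℕ) : (pre y n).length = n := by
  simp [pre]

theorem pre_congr {y y' : ℕ → Bool} {n : ℕ} (h : ∀ i < n, y i = y' i) : pre y n = pre y' n := by
  unfold pre
  refine List.map_congr_left (fun i hi => h i ?_)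
  simpa using hi

theorem pre_inj {y y' : ℕ → Bool} {n : ℕ} (h : pre y n = pre y' n) : ∀ i < n, y i = y' i := by
  intro i hi
  unfold pre at h
  rw [List.map_inj_left] at h
  exact h i (List.mem_range.2 hi)

/-- flipped string -/
def fl (y : ℕ → Bool) (n : ℕ) : List Bool := pre y n ++ [!(y n)]

theorem fl_length (y : ℕ → Bool) (n : ℕ) : (fl y n).length = n + 1 := by
  simp [fl, pre_length]

theorem fl_eq_pre (y : ℕ → Bool) (n : ℕ) :
    fl y n = pre (fun i => if i = n then !(y n) else y i) (n + 1) := by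
  unfold fl pre
  rw [List.range_succ, List.map_append]
  congr 1
  · refine List.map_congr_left (fun i hi => ?_)
    have : i < n := by simpa using hi
    simp [this.ne]
  · simp

theorem fl_congr {y y' : ℕ → Bool} {n : ℕ} (h : ∀ i < n + 1, y i = y' i) : fl y n = fl y' n := by
  unfold fl
  rw [pre_congr (fun i hi => h i (by omega)), h n (by omega)]

/-- a satellite value -/
theorem sat_congr {y y' z z' : ℕ → Bool} {m i : ℕ} (h1 : y' i = y i) (h2 : m < i → z' i = z i) :
    sat y' m z' i = sat y m z i := by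
  unfold sat
  by_cases hi : i < m
  · simp [hi, h1]
  · by_cases hi2 : i = m
    · subst hi2
      simp [h1]
    · rw [if_neg hi, if_neg hi2, if_neg hi, if_neg hi2]
      exact h2 (by omega)

/-! ### boxes -/

def box (N K : ℕ) (g : Gam) : Set Gam :=
  {g' | (∀ b < N, g'.1 b = g.1 b) ∧ (∀ i < K, g'.2.1 i = g.2.1 i) ∧
    (∀ m < K, ∀ i < K, g'.2.2 m i = g.2.2 m i)}

theorem self_mem_box (N K : ℕ) (g : Gam) : g ∈ box N K g :=
  ⟨fun _ _ => rfl, fun _ _ => rfl, fun _ _ _ _ => rfl⟩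

theorem box_mem_nhds (N K : ℕ) (g : Gam) : box N K g ∈ 𝓝 g := by
  have h1 : ∀ b, ∀ᶠ g' in 𝓝 g, g'.1 b = g.1 b := by
    intro b
    have hc : Continuous (fun g' : Gam => g'.1 b) := (continuous_apply b).comp continuous_fst
    exact hc.continuousAt.eventually (show ∀ᶠ x in 𝓝 (g.1 b), x = g.1 b by simp)
  have h2 : ∀ i, ∀ᶠ g' in 𝓝 g, g'.2.1 i = g.2.1 i := by
    intro i
    have hc : Continuous (fun g' : Gam => g'.2.1 i) :=
      (continuous_apply i).comp (continuous_fst.comp continuous_snd)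
    exact hc.continuousAt.eventually (show ∀ᶠ x in 𝓝 (g.2.1 i), x = g.2.1 i by simp)
  have h3 : ∀ m i, ∀ᶠ g' in 𝓝 g, g'.2.2 m i = g.2.2 m i := by
    intro m i
    have hc : Continuous (fun g' : Gam => g'.2.2 m i) :=
      (continuous_apply i).comp ((continuous_apply m).comp (continuous_snd.comp continuous_snd))
    exact hc.continuousAt.eventually (show ∀ᶠ x in 𝓝 (g.2.2 m i), x = g.2.2 m i by simp)
  have e1 : ∀ᶠ g' in 𝓝 g, ∀ b ∈ Finset.range N, g'.1 b = g.1 b :=
    (Finset.eventually_all _).2 (fun b _ => h1 b)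
  have e2 : ∀ᶠ g' in 𝓝 g, ∀ i ∈ Finset.range K, g'.2.1 i = g.2.1 i :=
    (Finset.eventually_all _).2 (fun i _ => h2 i)
  have e3 : ∀ᶠ g' in 𝓝 g, ∀ m ∈ Finset.range K, ∀ i ∈ Finset.range K, g'.2.2 m i = g.2.2 m i :=
    (Finset.eventually_all _).2 (fun m _ => (Finset.eventually_all _).2 (fun i _ => h3 m i))
  filter_upwards [e1, e2, e3] with g' a1 a2 a3
  exact ⟨fun b hb => a1 b (Finset.mem_range.2 hb), fun i hi => a2 i (Finset.mem_range.2 hi),
    fun m hm i hi => a3 m (Finset.mem_range.2 hm) i (Finset.mem_range.2 hi)⟩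

theorem box_trans {N K : ℕ} {g g' g'' : Gam} (h : g' ∈ box N K g) (h' : g'' ∈ box N K g') :
    g'' ∈ box N K g :=
  ⟨fun b hb => (h'.1 b hb).trans (h.1 b hb), fun i hi => (h'.2.1 i hi).trans (h.2.1 i hi),
    fun m hm i hi => (h'.2.2 m hm i hi).trans (h.2.2 m hm i hi)⟩

theorem box_symm {N K : ℕ} {g g' : Gam} (h : g' ∈ box N K g) : g ∈ box N K g' :=
  ⟨fun b hb => (h.1 b hb).symm, fun i hi => (h.2.1 i hi).symm,
    fun m hm i hi => (h.2.2 m hm i hi).symm⟩

theorem box_anti {N N' K K' : ℕ} (g : Gam) (hN : N ≤ N') (hK : K ≤ K') :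
    box N' K' g ⊆ box N K g := by
  intro g' h
  exact ⟨fun b hb => h.1 b (by omega), fun i hi => h.2.1 i (by omega),
    fun m hm i hi => h.2.2 m (by omega) i (by omega)⟩

theorem isOpen_box (N K : ℕ) (g : Gam) : IsOpen (box N K g) := by
  rw [isOpen_iff_mem_nhds]
  intro g' hg'
  exact mem_of_superset (box_mem_nhds N K g') (fun g'' h => box_trans hg' h)

theorem exists_box {U : Set Gam} (hU : IsOpen U) {g : Gam} (hg : g ∈ U) :
    ∃ N, box N N g ⊆ U := by
  by_contra hcon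
  push Not at hcon
  have h1 : ∀ N, ∃ g', g' ∈ box N N g ∧ g' ∉ U := fun N => Set.not_subset.1 (hcon N)
  choose f hf hfU using h1
  have t1 : Tendsto (fun N => (f N).1) atTop (𝓝 g.1) := by
    rw [tendsto_pi_nhds]
    intro b
    refine tendsto_const_nhds.congr' ?_
    filter_upwards [eventually_gt_atTop b] with N hN
    exact ((hf N).1 b hN).symm
  have t2 : Tendsto (fun N => (f N).2.1) atTop (𝓝 g.2.1) := by
    rw [tendsto_pi_nhds]
    intro i
    refine tendsto_const_nhds.congr' ?_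
    filter_upwards [eventually_gt_atTop i] with N hN
    exact ((hf N).2.1 i hN).symm
  have t3 : Tendsto (fun N => (f N).2.2) atTop (𝓝 g.2.2) := by
    rw [tendsto_pi_nhds]
    intro m
    rw [tendsto_pi_nhds]
    intro i
    refine tendsto_const_nhds.congr' ?_
    filter_upwards [eventually_gt_atTop i, eventually_gt_atTop m] with N hN hN'
    exact ((hf N).2.2 m hN' i hN).symm
  have t : Tendsto f atTop (𝓝 g) := t1.prodMk_nhds (t2.prodMk_nhds t3)
  have := hU.isClosed_compl.mem_of_tendsto t (Eventually.of_forall hfU)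
  exact this hg

/-! ### dependence of the facts on finitely many values -/

theorem facts_congr (A : ℕ → Set ℕ) {g g' : Gam} {b K : ℕ} (hb : g'.1 b = g.1 b)
    (hty : ∀ s a, ty (g.1 b) = some (s, a) → s.length ≤ K)
    (hy : ∀ i < K, g'.2.1 i = g.2.1 i) (hz : ∀ m < K, ∀ i < K, g'.2.2 m i = g.2.2 m i)
    {f : (ℕ × ℕ) ⊕ ℕ} (h : (b, f) ∈ facts A g) : (b, f) ∈ facts A g' := by
  rcases h with ⟨n, a, h1, h2⟩ | ⟨m, h1, h2, n, a, h3, h4⟩
  · refine Or.inl ⟨n, a, h1, ?_⟩
    simp only at h2 ⊢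
    rw [hb, h2]
    have hl := hty _ _ h2
    rw [show (pre g.2.1 n ++ [!(g.2.1 n)]) = fl g.2.1 n from rfl, fl_length] at hl
    have := fl_congr (y := g.2.1) (y' := g'.2.1) (n := n) (fun i hi => (hy i (by omega)).symm)
    unfold fl at this
    rw [this]
  · refine Or.inr ⟨m, h1, ?_, n, a, ?_, h4⟩
    · intro n' a' hcon
      simp only at hcon h2 h3
      rw [hb] at hcon
      have e1 : pre g'.2.1 n' ++ [!(g'.2.1 n')] = pre (sat g.2.1 m (g.2.2 m)) (n + 1) := by
        have := hcon.symm.trans h3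
        simpa using (Prod.mk.inj (Option.some.inj this)).1
      have e2 : n' = n := by
        have := congrArg List.length e1
        rw [show (pre g'.2.1 n' ++ [!(g'.2.1 n')]) = fl g'.2.1 n' from rfl, fl_length,
          pre_length] at this
        omega
      have hl := hty _ _ h3
      rw [pre_length] at hl
      have e3 := fl_congr (y := g'.2.1) (y' := g.2.1) (n := n') (fun i hi => hy i (by omega))
      unfold fl at e3
      rw [e3] at hcon
      exact h2 _ _ hcon
    · simp only at h3 ⊢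
      rw [hb, h3]
      have hl := hty _ _ h3
      rw [pre_length] at hl
      rw [pre_congr (y := sat g.2.1 m (g.2.2 m)) (y' := sat g'.2.1 m (g'.2.2 m)) (fun i hi =>
        (sat_congr (hy i (by omega)) (fun hmi => hz m (by omega) i (by omega))).symm)]

theorem facts_same (A : ℕ → Set ℕ) {g g' : Gam} {b : ℕ} (hb : g'.1 b = g.1 b) (h2 : g'.2 = g.2)
    {f : (ℕ × ℕ) ⊕ ℕ} (h : (b, f) ∈ facts A g) : (b, f) ∈ facts A g' := by
  rcases hs : ty (g.1 b) with _ | ⟨s, a⟩
  · refine facts_congr (K := 0) A hb (fun s a h => ?_) (fun i hi => absurd hi (by omega))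
      (fun i hi => absurd hi (by omega)) h
    rw [hs] at h
    exact absurd h (by simp)
  · refine facts_congr (K := s.length) A hb (fun s' a' h => ?_) (fun i _ => by rw [h2])
      (fun m _ i _ => by rw [h2]) h
    rw [hs] at h
    have := (Prod.mk.inj (Option.some.inj h)).1
    rw [this]

theorem no_facts (A : ℕ → Set ℕ) {g : Gam} {b : ℕ} (hb : ty (g.1 b) = none)
    {f : (ℕ × ℕ) ⊕ ℕ} : (b, f) ∉ facts A g := by
  rintro (⟨n, a, _, h2⟩ | ⟨m, _, _, n, a, h3, _⟩)
  · simp only at h2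
    rw [hb] at h2
    simp at h2
  · simp only at h3
    rw [hb] at h3
    simp at h3

theorem isOpen_fact (A : ℕ → Set ℕ) (p : Fct) : IsOpen {g : Gam | p ∈ facts A g} := by
  rw [isOpen_iff_mem_nhds]
  intro g hg
  obtain ⟨b, f⟩ := p
  rcases hs : ty (g.1 b) with _ | ⟨s, a⟩
  · exact absurd hg (no_facts A hs)
  · refine mem_of_superset (box_mem_nhds (b + 1) s.length g) (fun g' h => ?_)
    refine facts_congr A (h.1 b (by omega)) ?_ h.2.1 h.2.2 hg
    intro s' a' h'
    rw [hs] at h'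
    rw [(Prod.mk.inj (Option.some.inj h')).1]

theorem isOpen_list {α X : Type} [TopologicalSpace X] (l : List α) (S : α → Set X)
    (h : ∀ a, IsOpen (S a)) : IsOpen {x | ∀ a ∈ l, x ∈ S a} := by
  induction l with
  | nil => simp
  | cons a l ih =>
      have : {x | ∀ c ∈ a :: l, x ∈ S c} = S a ∩ {x | ∀ c ∈ l, x ∈ S c} := by
        ext x
        simp
      rw [this]
      exact (h a).inter ih

/-- two facts about one token -/
theorem two_facts (A : ℕ → Set ℕ) {g : Gam} {b : ℕ} {f f' : (ℕ × ℕ) ⊕ ℕ}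
    (h : (b, f) ∈ facts A g) (h' : (b, f') ∈ facts A g) :
    f' = f ∨ ((∃ m, f = Sum.inr (m + 1)) ∧ ∃ m, f' = Sum.inr (m + 1)) := by
  rcases h with ⟨n, a, h1, h2⟩ | ⟨m, h1, h2, n, a, h3, _⟩
  · rcases h' with ⟨n', a', h1', h2'⟩ | ⟨m', _, h2', _⟩
    · left
      simp only at h1 h2 h1' h2'
      have e := Prod.mk.inj (Option.some.inj (h2.symm.trans h2'))
      have e1 := congrArg List.length e.1
      rw [show (pre g.2.1 n ++ [!(g.2.1 n)]) = fl g.2.1 n from rfl,
        show (pre g.2.1 n' ++ [!(g.2.1 n')]) = fl g.2.1 n' from rfl, fl_length, fl_length] at e1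
      have e2 : n = n' := by omega
      rw [h1, h1', e2, e.2]
    · exact absurd h2 (h2' n a)
  · rcases h' with ⟨n', a', _, h2'⟩ | ⟨m', h1', _, n', a', h3', _⟩
    · exact absurd h2' (h2 n' a')
    · simp only at h1 h3 h1' h3'
      have e := Prod.mk.inj (Option.some.inj (h3.symm.trans h3'))
      have e1 := congrArg List.length e.1
      rw [pre_length, pre_length] at e1
      have e2 : n = n' := by omega
      subst e2
      have e3 := pre_inj e.1 0 (by omega)
      by_cases hm : m = m'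
      · left
        rw [h1, h1', hm]
      · right
        have key : ∀ k, sat g.2.1 k (g.2.2 k) 0 = if k = 0 then !(g.2.1 0) else g.2.1 0 := by
          intro k
          unfold sat
          by_cases hk : k = 0
          · subst hk
            simp
          · have : 0 < k := by omega
            simp [hk, this]
        rw [key, key] at e3
        have hm0 : m ≠ 0 := by
          intro h0
          have : m' ≠ 0 := fun h => hm (h0.trans h.symm)
          rw [if_pos h0, if_neg this] at e3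
          revert e3
          cases g.2.1 0 <;> simp
        have hm0' : m' ≠ 0 := by
          intro h0
          rw [if_pos h0, if_neg hm0] at e3
          revert e3
          cases g.2.1 0 <;> simp
        obtain ⟨k, rfl⟩ := Nat.exists_eq_succ_of_ne_zero hm0
        obtain ⟨k', rfl⟩ := Nat.exists_eq_succ_of_ne_zero hm0'
        exact ⟨⟨k, h1⟩, ⟨k', h1'⟩⟩

/-! ### realising a finite set of facts -/

/-- token type code -/
def tok (x : List Bool × ℕ) : ℕ := encode x + 1

theorem ty_tok (x : List Bool × ℕ) : ty (tok x) = some x := by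
  unfold tok ty
  exact encodek x

/-- the compatibility condition -/
def Cmp (N : ℕ) (E : List Fct) : Prop :=
  ∀ p ∈ E, ∀ p' ∈ E, p'.1 < p.1 ∨ p.1 < p'.1 ∨ p.1 < N ∨ p' = p ∨
    ((∃ m, p.2 = Sum.inr (m + 1)) ∧ ∃ m, p'.2 = Sum.inr (m + 1))

theorem Cmp.of_facts {A : ℕ → Set ℕ} {g : Gam} {E : List Fct} (N : ℕ)
    (h : ∀ p ∈ E, p ∈ facts A g) : Cmp N E := by
  intro p hp p' hp'
  obtain ⟨b, f⟩ := p
  obtain ⟨b', f'⟩ := p'
  rcases lt_trichotomy b' b with h1 | h1 | h1
  · exact Or.inl h1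
  · subst h1
    rcases two_facts A (h _ hp) (h _ hp') with h2 | h2
    · exact Or.inr (Or.inr (Or.inr (Or.inl (by rw [h2]))))
    · exact Or.inr (Or.inr (Or.inr (Or.inr h2)))
  · exact Or.inr (Or.inl h1)

open Classical in
/-- new type of a token -/
noncomputable def nt (E : List Fct) (g : Gam) (b : ℕ) : ℕ :=
  if h : ∃ x : ℕ × ℕ, (b, Sum.inl x) ∈ E then tok (fl g.2.1 h.choose.1, h.choose.2)
  else if (b, Sum.inr 0) ∈ E then tok (pre (sat g.2.1 0 (g.2.2 0)) 2, 0)
  else tok (pre g.2.1 1, 0)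

open Classical in
/-- the modified point -/
noncomputable def md (N : ℕ) (E : List Fct) (g : Gam) : Gam :=
  (fun b => if N ≤ b ∧ ∃ f, (b, f) ∈ E then nt E g b else g.1 b, g.2)

theorem md_snd (N : ℕ) (E : List Fct) (g : Gam) : (md N E g).2 = g.2 := rfl

theorem md_old {N : ℕ} {E : List Fct} (g : Gam) {b : ℕ} (h : b < N ∨ ∀ f, (b, f) ∉ E) :
    (md N E g).1 b = g.1 b := by
  unfold md
  simp only
  rw [if_neg]
  rintro ⟨h1, f, h2⟩
  rcases h with h | h
  · omega
  · exact h f h2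

theorem md_new (A : ℕ → Set ℕ) {N : ℕ} {E : List Fct} (hE : Cmp N E) (g : Gam) {p : Fct}
    (hp : p ∈ E) (hN : N ≤ p.1) : p ∈ facts A (md N E g) := by
  classical
  obtain ⟨b, f⟩ := p
  simp only at hN
  have hτ : (md N E g).1 b = nt E g b := by
    unfold md
    simp only
    rw [if_pos ⟨hN, f, hp⟩]
  have h2 : (md N E g).2 = g.2 := rfl
  -- consequence of compatibility
  have hc : ∀ f', (b, f') ∈ E → f' = f ∨ ((∃ m, f = Sum.inr (m + 1)) ∧ ∃ m, f' = Sum.inr (m + 1)) := by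
    intro f' hf'
    rcases hE _ hp _ hf' with h | h | h | h | h
    · simp at h
    · simp at h
    · simp only at h
      omega
    · exact Or.inl (Prod.mk.inj h).2
    · exact Or.inr h
  by_cases hx : ∃ x : ℕ × ℕ, (b, Sum.inl x) ∈ E
  · have hnt : nt E g b = tok (fl g.2.1 hx.choose.1, hx.choose.2) := by
      unfold nt
      rw [dif_pos hx]
    have hf : f = Sum.inl hx.choose := by
      rcases hc _ hx.choose_spec with h | ⟨_, m, h⟩
      · exact h.symm
      · exact absurd h (by simp)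
    refine Or.inl ⟨hx.choose.1, hx.choose.2, hf, ?_⟩
    simp only
    rw [hτ, hnt, ty_tok, h2]
    rfl
  · by_cases h0 : (b, Sum.inr 0) ∈ E
    · have hnt : nt E g b = tok (pre (sat g.2.1 0 (g.2.2 0)) 2, 0) := by
        unfold nt
        rw [dif_neg hx, if_pos h0]
      have hf : f = Sum.inr 0 := by
        rcases hc _ h0 with h | ⟨_, m, h⟩
        · exact h.symm
        · exact absurd h (by simp)
      refine Or.inr ⟨0, hf, ?_, 1, 0, ?_, ?_⟩
      · intro n a hcon
        simp only at hcon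
        rw [hτ, hnt, ty_tok, h2] at hcon
        have e := (Prod.mk.inj (Option.some.inj hcon)).1
        have e1 := congrArg List.length e
        rw [show (pre g.2.1 n ++ [!(g.2.1 n)]) = fl g.2.1 n from rfl, fl_length, pre_length] at e1
        have e2 : n = 1 := by omega
        subst e2
        rw [show (pre g.2.1 1 ++ [!(g.2.1 1)]) = fl g.2.1 1 from rfl, fl_eq_pre] at e
        have e3 := pre_inj e 0 (by omega)
        unfold sat at e3
        revert e3
        cases g.2.1 0 <;> simp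
      · simp only
        rw [hτ, hnt, ty_tok, h2]
      · exact Or.inl rfl
    · have hnt : nt E g b = tok (pre g.2.1 1, 0) := by
        unfold nt
        rw [dif_neg hx, if_neg h0]
      obtain ⟨m, hm, hm1⟩ : ∃ m, f = Sum.inr m ∧ 1 ≤ m := by
        rcases f with x | m
        · exact absurd ⟨x, hp⟩ hx
        · refine ⟨m, rfl, ?_⟩
          rcases m with _ | m
          · exact absurd hp h0
          · omega
      refine Or.inr ⟨m, hm, ?_, 0, 0, ?_, ?_⟩
      · intro n a hcon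
        simp only at hcon
        rw [hτ, hnt, ty_tok, h2] at hcon
        have e := (Prod.mk.inj (Option.some.inj hcon)).1
        have e1 := congrArg List.length e
        rw [show (pre g.2.1 n ++ [!(g.2.1 n)]) = fl g.2.1 n from rfl, fl_length, pre_length] at e1
        have e2 : n = 0 := by omega
        subst e2
        rw [show (pre g.2.1 0 ++ [!(g.2.1 0)]) = fl g.2.1 0 from rfl, fl_eq_pre] at e
        have e3 := pre_inj e 0 (by omega)
        revert e3
        cases g.2.1 0 <;> simp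
      · simp only
        rw [hτ, hnt, ty_tok, h2]
        rw [pre_congr (y := g.2.1) (y' := sat g.2.1 m (g.2.2 m))]
        intro i hi
        unfold sat
        rw [if_pos (by omega)]
      · exact Or.inl rfl

theorem md_mem_box {N K : ℕ} {E : List Fct} {g0 g : Gam} (h : g ∈ box N K g0) :
    md N E g ∈ box N K g0 := by
  refine ⟨fun b hb => ?_, ?_, ?_⟩
  · rw [md_old g (Or.inl hb)]
    exact h.1 b hb
  · rw [md_snd]
    exact h.2.1
  · rw [md_snd]
    exact h.2.2

/-! ### the facts about old tokens -/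

/-- lengths of the types of the tokens `< N` -/
theorem exists_len (g : Gam) (N : ℕ) :
    ∃ K, ∀ b < N, ∀ s a, ty (g.1 b) = some (s, a) → s.length ≤ K := by
  induction N with
  | zero => exact ⟨0, fun b hb => absurd hb (by omega)⟩
  | succ N ih =>
      obtain ⟨K, hK⟩ := ih
      rcases hs : ty (g.1 N) with _ | ⟨s, a⟩
      · refine ⟨K, fun b hb s a h => ?_⟩
        rcases Nat.lt_succ_iff_lt_or_eq.1 hb with h1 | h1
        · exact hK b h1 s a h
        · rw [h1, hs] at h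
          exact absurd h (by simp)
      · refine ⟨max K s.length, fun b hb s' a' h => ?_⟩
        rcases Nat.lt_succ_iff_lt_or_eq.1 hb with h1 | h1
        · exact (hK b h1 s' a' h).trans (le_max_left _ _)
        · rw [h1, hs] at h
          rw [← (Prod.mk.inj (Option.some.inj h)).1]
          exact le_max_right _ _

theorem facts_box (A : ℕ → Set ℕ) {N K : ℕ} {g g' : Gam}
    (hK : ∀ b < N, ∀ s a, ty (g.1 b) = some (s, a) → s.length ≤ K) (h : g' ∈ box N K g)
    {p : Fct} (hp : p.1 < N) : p ∈ facts A g' ↔ p ∈ facts A g := by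
  obtain ⟨b, f⟩ := p
  simp only at hp
  constructor
  · intro h1
    have h' := box_symm h
    refine facts_congr A (h'.1 b hp) ?_ h'.2.1 h'.2.2 h1
    intro s a hs
    rw [h.1 b hp] at hs
    exact hK b hp s a hs
  · intro h1
    exact facts_congr A (h.1 b hp) (hK b hp) h.2.1 h.2.2 h1

theorem inr_const (A : ℕ → Set ℕ) {g : Gam} {b K m m' : ℕ}
    (hty : ∀ s a, ty (g.1 b) = some (s, a) → s.length ≤ K) (hm : K ≤ m) (hm' : K ≤ m')
    (h : (b, Sum.inr m) ∈ facts A g) : (b, Sum.inr m') ∈ facts A g := by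
  rcases h with ⟨n, a, h1, _⟩ | ⟨k, h1, h2, n, a, h3, h4⟩
  · simp at h1
  · simp only at h1 h3
    have hk : m = k := Sum.inr.inj h1
    subst hk
    refine Or.inr ⟨m', rfl, h2, n, a, ?_, h4⟩
    simp only
    rw [h3]
    have hl := hty _ _ h3
    rw [pre_length] at hl
    rw [pre_congr (y := sat g.2.1 m (g.2.2 m)) (y' := sat g.2.1 m' (g.2.2 m'))]
    intro i hi
    unfold sat
    rw [if_pos (by omega), if_pos (by omega)]

theorem RE_finite {α : Type} [Primcodable α] {S : Set α} (hS : S.Finite) : RE (fun a => a ∈ S) := by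
  induction S, hS using Set.Finite.induction_on with
  | empty => exact (RE.const False).of_iff (fun a => by simp)
  | @insert a S _ _ ih =>
      refine ((RE.eq Primrec.id (Primrec.const a)).or ih).of_iff (fun b => ?_)
      simp

theorem RE_old (A : ℕ → Set ℕ) {N K : ℕ} {g : Gam}
    (hK : ∀ b < N, ∀ s a, ty (g.1 b) = some (s, a) → s.length ≤ K) :
    RE (fun p : Fct => p.1 < N ∧ p ∈ facts A g) := by
  set F1 : Set Fct := {p | p.1 < N ∧ p ∈ facts A g ∧ ∀ m, p.2 = Sum.inr m → m < K} with hF1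
  set T : Set ℕ := {b | b < N ∧ (b, Sum.inr K) ∈ facts A g} with hT
  have hT' : T.Finite := (Set.finite_lt_nat N).subset (fun b hb => hb.1)
  have hF1' : F1.Finite := by
    have h1 : F1 ⊆ ⋃ b ∈ {b : ℕ | b < N},
        ({p : Fct | p.1 = b ∧ p ∈ facts A g ∧ ∃ x, p.2 = Sum.inl x} ∪
          (fun m => ((b, Sum.inr m) : Fct)) '' {m | m < K}) := by
      rintro ⟨b, f⟩ ⟨h1, h2, h3⟩
      simp only at h1 h3
      simp only [Set.mem_iUnion]
      refine ⟨b, h1, ?_⟩
      rcases f with x | m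
      · exact Or.inl ⟨rfl, h2, x, rfl⟩
      · exact Or.inr ⟨m, h3 m rfl, rfl⟩
    refine ((Set.finite_lt_nat N).biUnion (fun b _ => ?_)).subset h1
    refine Set.Finite.union ?_ ((Set.finite_lt_nat K).image _)
    refine Set.Subsingleton.finite ?_
    rintro ⟨b1, f1⟩ ⟨h1, h2, x, h3⟩ ⟨b2, f2⟩ ⟨h1', h2', x', h3'⟩
    simp only at h1 h3 h1' h3'
    subst h1
    subst h1'
    rcases two_facts A h2 h2' with h | ⟨⟨m, h⟩, _⟩
    · rw [h]
    · rw [h3] at h
      exact absurd h (by simp)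
  have r1 : RE (fun p : Fct => p ∈ F1) := RE_finite hF1'
  have r2 : RE (fun p : Fct => p.1 ∈ T) := (RE_finite hT').subst Primrec.fst
  have r3 : RE (fun p : Fct => ∃ m, p.2 = Sum.inr m ∧ K ≤ m) := by
    have a1 : RE (fun x : Fct × ℕ => x.1.2 = Sum.inr x.2) :=
      RE.eq (Primrec.snd.comp Primrec.fst) (Primrec.sumInr.comp Primrec.snd)
    have a2 : RE (fun x : Fct × ℕ => K ≤ x.2) :=
      RE.prim (primrecRel_comp Primrec.nat_le (Primrec.const K) Primrec.snd)
    exact (a1.and a2).ex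
  refine (r1.or (r2.and r3)).of_iff (fun p => ?_)
  obtain ⟨b, f⟩ := p
  constructor
  · rintro ⟨h1, h2⟩
    by_cases hm : ∃ m, f = Sum.inr m ∧ K ≤ m
    · obtain ⟨m, rfl, hm⟩ := hm
      exact Or.inr ⟨⟨h1, inr_const A (hK b h1) hm (le_refl K) h2⟩, m, rfl, hm⟩
    · left
      refine ⟨h1, h2, fun m hfm => ?_⟩
      by_contra hc
      exact hm ⟨m, hfm, by omega⟩
  · rintro (⟨h1, h2, _⟩ | ⟨⟨h1, h2⟩, m, h3, h4⟩)
    · exact ⟨h1, h2⟩
    · simp only at h1 h2 h3
      subst h3
      exact ⟨h1, inr_const A (hK b h1) (le_refl K) h4 h2⟩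

/-- list membership is Σ₁ -/
theorem RE_mem {α β : Type} [Primcodable α] [Primcodable β] {f : α → β} {g : α → List β}
    (hf : Primrec f) (hg : Primrec g) : RE (fun a => f a ∈ g a) := by
  refine RE.prim ?_
  have h4 : PrimrecRel (fun (L : List β) (l : β) => ∃ x ∈ L, x = l) :=
    PrimrecRel.exists_mem_list (R := fun x y : β => x = y) Primrec.eq
  have h5 := primrecRel_comp h4 hg hf
  exact h5.of_eq (by simp)

theorem RE_Cmp (N : ℕ) : RE (fun E : List Fct => Cmp N E) := by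
  have b1 : RE (fun x : (List Fct × Fct) × Fct => x.2.1 < x.1.2.1) :=
    RE.prim (primrecRel_comp Primrec.nat_lt (Primrec.fst.comp Primrec.snd)
      (Primrec.fst.comp (Primrec.snd.comp Primrec.fst)))
  have b2 : RE (fun x : (List Fct × Fct) × Fct => x.1.2.1 < x.2.1) :=
    RE.prim (primrecRel_comp Primrec.nat_lt (Primrec.fst.comp (Primrec.snd.comp Primrec.fst))
      (Primrec.fst.comp Primrec.snd))
  have b3 : RE (fun x : (List Fct × Fct) × Fct => x.1.2.1 < N) :=
    RE.prim (primrecRel_comp Primrec.nat_lt (Primrec.fst.comp (Primrec.snd.comp Primrec.fst))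
      (Primrec.const N))
  have b4 : RE (fun x : (List Fct × Fct) × Fct => x.2 = x.1.2) :=
    RE.eq Primrec.snd (Primrec.snd.comp Primrec.fst)
  have b5 : RE (fun x : (List Fct × Fct) × Fct => ∃ m, x.1.2.2 = Sum.inr (m + 1)) := by
    have : RE (fun y : ((List Fct × Fct) × Fct) × ℕ => y.1.1.2.2 = Sum.inr (y.2 + 1)) :=
      RE.eq (Primrec.snd.comp (Primrec.snd.comp (Primrec.fst.comp Primrec.fst)))
        (Primrec.sumInr.comp (Primrec.succ.comp Primrec.snd))
    exact this.ex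
  have b6 : RE (fun x : (List Fct × Fct) × Fct => ∃ m, x.2.2 = Sum.inr (m + 1)) := by
    have : RE (fun y : ((List Fct × Fct) × Fct) × ℕ => y.1.2.2 = Sum.inr (y.2 + 1)) :=
      RE.eq (Primrec.snd.comp (Primrec.snd.comp Primrec.fst))
        (Primrec.sumInr.comp (Primrec.succ.comp Primrec.snd))
    exact this.ex
  have c1 := b1.or (b2.or (b3.or (b4.or (b5.and b6))))
  have c2 : RE (fun y : List Fct × Fct => ∀ p' ∈ y.1, p'.1 < y.2.1 ∨ y.2.1 < p'.1 ∨ y.2.1 < N ∨
      p' = y.2 ∨ ((∃ m, y.2.2 = Sum.inr (m + 1)) ∧ ∃ m, p'.2 = Sum.inr (m + 1))) :=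
    RE.ball c1 (g := fun y => y.1) Primrec.fst
  exact RE.ball c2 (g := fun E => E) Primrec.id

/-- parametrised evaluation -/
theorem EP_param {α β γ : Type} [Primcodable α] [Primcodable β] [Primcodable γ]
    {Φ : Set (α ⊕ β) → Set γ} (hΦ : IsOp Φ) :
    EP (fun (Y : Set α) (x : γ × List β) => x.1 ∈ Φ (sj Y {e | e ∈ x.2})) := by
  obtain ⟨W, hW, hΦ⟩ := hΦ
  have p1 : EP (fun (Y : Set α) (z : ((γ × List β) × List (α ⊕ β)) × (α ⊕ β)) =>
      ∃ a, z.2 = Sum.inl a ∧ a ∈ Y) := by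
    have a1 : EP (fun (_ : Set α) (w : (((γ × List β) × List (α ⊕ β)) × (α ⊕ β)) × α) =>
        w.1.2 = Sum.inl w.2) :=
      EP.re (RE.eq (Primrec.snd.comp Primrec.fst) (Primrec.sumInl.comp Primrec.snd))
    have a2 : EP (fun (Y : Set α) (w : (((γ × List β) × List (α ⊕ β)) × (α ⊕ β)) × α) =>
        w.2 ∈ Y) := EP.mem Primrec.snd
    exact (a1.and a2).ex
  have p2 : EP (fun (_ : Set α) (z : ((γ × List β) × List (α ⊕ β)) × (α ⊕ β)) =>
      ∃ e, z.2 = Sum.inr e ∧ e ∈ z.1.1.2) := by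
    refine EP.re ?_
    have a1 : RE (fun (w : (((γ × List β) × List (α ⊕ β)) × (α ⊕ β)) × β) =>
        w.1.2 = Sum.inr w.2) :=
      RE.eq (Primrec.snd.comp Primrec.fst) (Primrec.sumInr.comp Primrec.snd)
    have a2 : RE (fun (w : (((γ × List β) × List (α ⊕ β)) × (α ⊕ β)) × β) =>
        w.2 ∈ w.1.1.1.2) :=
      RE_mem Primrec.snd (Primrec.snd.comp (Primrec.fst.comp (Primrec.fst.comp Primrec.fst)))
    exact (a1.and a2).ex
  have p3 : EP (fun (Y : Set α) (z : ((γ × List β) × List (α ⊕ β)) × (α ⊕ β)) =>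
      z.2 ∈ sj Y {e | e ∈ z.1.1.2}) := by
    refine (p1.or p2).of_iff (fun Y z => ?_)
    rcases hz : z.2 with a | e
    · simp
    · simp
  have p4 : EP (fun (Y : Set α) (x : (γ × List β) × List (α ⊕ β)) =>
      ∀ s ∈ x.2, s ∈ sj Y {e | e ∈ x.1.2}) :=
    EP.ball p3 (g := fun x => x.2) Primrec.snd
  have p5 : EP (fun (_ : Set α) (x : (γ × List β) × List (α ⊕ β)) => W (x.2, x.1.1)) :=
    EP.re (hW.subst (Primrec.snd.pair (Primrec.fst.comp Primrec.fst)))
  refine (p5.and p4).ex.of_iff (fun Y x => ?_)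
  exact hΦ _ _

theorem compact_param {α β γ : Type} [Primcodable α] [Primcodable β] [Primcodable γ]
    {Φ : Set (α ⊕ β) → Set γ} (hΦ : IsOp Φ) {Y : Set α} {F : Set β} {c : γ}
    (h : c ∈ Φ (sj Y F)) : ∃ E : List β, (∀ e ∈ E, e ∈ F) ∧ c ∈ Φ (sj Y {e | e ∈ E}) := by
  obtain ⟨l, h1, h2⟩ := hΦ.compact h
  refine ⟨l.filterMap Sum.getRight?, ?_, ?_⟩
  · intro e he
    obtain ⟨s, hs, hse⟩ := List.mem_filterMap.1 he
    rcases s with a | e'
    · simp at hse
    · simp only [Sum.getRight?_inr, Option.some.injEq] at hse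
      subst hse
      exact h1 _ hs
  · refine hΦ.mono ?_ h2
    rintro (a | e) hs
    · exact h1 _ hs
    · simp only [inr_mem_sj, mem_setOf_eq]
      exact List.mem_filterMap.2 ⟨_, hs, rfl⟩

theorem sj_mono {α β : Type} {Y : Set α} {F F' : Set β} (h : F ⊆ F') : sj Y F ⊆ sj Y F' := by
  rintro (a | b) hs
  · exact hs
  · exact h hs

theorem tg_marker {n m : ℕ} {X : Set ℕ} (h : encode ((n, 0) : ℕ × ℕ) ∈ tg m X) : n = m := by
  unfold tg at h
  rw [encode_mem_cd] at h
  rcases h with h | ⟨a, _, h⟩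
  · exact (Prod.mk.inj h).1
  · exact (Prod.mk.inj h).1

theorem marker_mem (n : ℕ) (X : Set ℕ) : encode ((n, 0) : ℕ × ℕ) ∈ tg n X := by
  unfold tg
  rw [encode_mem_cd]
  exact Or.inl rfl

theorem list_bdd (l : List Fct) : ∃ M, ∀ p ∈ l, p.1 < M := by
  induction l with
  | nil => exact ⟨0, fun p hp => absurd hp (by simp)⟩
  | cons a l ih =>
      obtain ⟨M, hM⟩ := ih
      refine ⟨max M (a.1 + 1), fun p hp => ?_⟩
      rcases List.mem_cons.1 hp with h | h
      · rw [h]
        exact lt_of_lt_of_le (Nat.lt_succ_self _) (le_max_right _ _)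
      · exact lt_of_lt_of_le (hM p h) (le_max_left _ _)

end Ker2

open Ker2

/-- ME-KER2: second step (merging). -/
theorem ker_step2 (A : ℕ → Set ℕ) (L : Set (Set ℕ))
    (h : ∀ V : ℕ → Set Gam, (∀ k, IsOpen (V k)) → (∀ k, Dense (V k)) →
      ∃ g : Gam, (∀ k, g ∈ V k) ∧ ∃ Φ : Set (ℕ ⊕ (ℕ × ((ℕ × ℕ) ⊕ ℕ))) → Set ℕ, IsOp Φ ∧
        ∀ Y ∈ L, Φ (sj Y (facts A g)) ∈ DP A) :
    PR (DP A) L := by
  obtain ⟨Φs, hΦs, hall⟩ := exists_enum_IsOp (α := ℕ ⊕ Fct) (β := ℕ)
  set Es : ℕ → Set Gam := fun i => {g | ∀ Y ∈ L, Φs i (sj Y (facts A g)) ∈ DP A} with hEs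
  -- one of the sets is somewhere dense
  obtain ⟨i, hi⟩ : ∃ i, ¬ Dense (closure (Es i))ᶜ := by
    by_contra hcon
    push Not at hcon
    obtain ⟨g, hg, Ψ, hΨ, hΨ2⟩ := h (fun i => (closure (Es i))ᶜ)
      (fun i => isClosed_closure.isOpen_compl) hcon
    obtain ⟨i, rfl⟩ := hall Ψ hΨ
    exact hg i (subset_closure hΨ2)
  set Φ := Φs i with hΦdef
  have hΦ : IsOp Φ := hΦs i
  have hint : (interior (closure (Es i))).Nonempty := by
    rw [Set.nonempty_iff_ne_empty]
    intro he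
    exact hi (interior_eq_empty_iff_dense_compl.1 he)
  obtain ⟨g0, hg0⟩ := hint
  obtain ⟨N, hN⟩ := exists_box isOpen_interior hg0
  obtain ⟨K0, hK0⟩ := exists_len g0 N
  set K := max N K0 with hKdef
  have hK : ∀ b < N, ∀ s a, ty (g0.1 b) = some (s, a) → s.length ≤ K :=
    fun b hb s a hs => (hK0 b hb s a hs).trans (le_max_right _ _)
  set Q := box N K g0 with hQ
  have hQsub : Q ⊆ closure (Es i) :=
    ((box_anti g0 (le_refl N) (le_max_left _ _)).trans hN).trans interior_subset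
  have hQo : IsOpen Q := isOpen_box N K g0
  -- density
  have dens : ∀ W : Set Gam, IsOpen W → ∀ g, g ∈ W → g ∈ Q → ∃ g', g' ∈ Es i ∧ g' ∈ W ∧ g' ∈ Q := by
    intro W hW g hgW hgQ
    have h1 := mem_closure_iff.1 (hQsub hgQ) (W ∩ Q) (hW.inter hQo) ⟨hgW, hgQ⟩
    obtain ⟨g', ⟨h2, h3⟩, h4⟩ := h1
    exact ⟨g', h4, h2, h3⟩
  have hold : ∀ g ∈ Q, ∀ g' ∈ Q, ∀ p : Fct, p.1 < N → p ∈ facts A g → p ∈ facts A g' := by
    intro g hg g' hg' p hp h1
    exact (facts_box A hK hg' hp).2 ((facts_box A hK hg hp).1 h1)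
  -- realisation inside the box, and approximation by points of `Es i`
  have real : ∀ (E1 E3 : List Fct) (g1 g3 : Gam), g1 ∈ Q → g3 ∈ Q → Cmp N E1 →
      (∀ p ∈ E1, p.1 < N → p ∈ facts A g1) → (∀ p ∈ E3, p ∈ facts A g3) →
      (∀ p ∈ E1, N ≤ p.1 → g3.1 p.1 = 0 ∨ E3 = []) →
      ∃ g4, g4 ∈ Es i ∧ g4 ∈ Q ∧ (∀ p ∈ E1, p ∈ facts A g4) ∧ ∀ p ∈ E3, p ∈ facts A g4 := by
    intro E1 E3 g1 g3 hg1 hg3 hc h1 h3 h0
    set g := md N E1 g3 with hg
    have hgQ : g ∈ Q := md_mem_box hg3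
    have a1 : ∀ p ∈ E1, p ∈ facts A g := by
      intro p hp
      rcases lt_or_ge p.1 N with hlt | hge
      · exact hold g1 hg1 g hgQ p hlt (h1 p hp hlt)
      · exact md_new A hc g3 hp hge
    have a3 : ∀ p ∈ E3, p ∈ facts A g := by
      intro p hp
      obtain ⟨b, f⟩ := p
      by_cases hb : b < N ∨ ∀ f', (b, f') ∉ E1
      · exact facts_same A (md_old g3 hb) (md_snd N E1 g3) (h3 _ hp)
      · push Not at hb
        obtain ⟨hb1, f', hf'⟩ := hb
        exfalso
        rcases h0 _ hf' hb1 with h5 | h5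
        · refine no_facts A ?_ (h3 _ hp)
          simp only at h5
          rw [h5]
          rfl
        · rw [h5] at hp
          simp at hp
    obtain ⟨g4, b1, b2, b3⟩ := dens {g | ∀ p ∈ E1 ++ E3, g ∈ {g : Gam | p ∈ facts A g}}
      (isOpen_list _ _ (fun p => isOpen_fact A p)) g (by
        intro p hp
        rcases List.mem_append.1 hp with h | h
        · exact a1 p h
        · exact a3 p h) hgQ
    exact ⟨g4, b1, b3, fun p hp => b2 p (List.mem_append_left _ hp),
      fun p hp => b2 p (List.mem_append_right _ hp)⟩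
  -- the value is constant
  have hval : ∀ Y ∈ L, ∀ g ∈ Es i, ∃ n, Φ (sj Y (facts A g)) = tg n (A n) := by
    intro Y hY g hg
    obtain ⟨n, hn⟩ := hg Y hY
    exact ⟨n, hn.symm⟩
  have hconst1 : ∀ Y ∈ L, ∀ g1 g3 : Gam, g1 ∈ Es i → g1 ∈ Q → g3 ∈ Es i → g3 ∈ Q →
      ∀ n1 n3, Φ (sj Y (facts A g3)) = tg n3 (A n3) →
      ∀ E1 : List Fct, (∀ p ∈ E1, p ∈ facts A g1) →
        encode ((n1, 0) : ℕ × ℕ) ∈ Φ (sj Y {e | e ∈ E1}) →
        (∀ p ∈ E1, N ≤ p.1 → g3.1 p.1 = 0) → n1 = n3 := by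
    intro Y hY g1 g3 _ hg1 _ hg3 n1 n3 hn3 E1 hE1 hm1 h0
    have hm3 : encode ((n3, 0) : ℕ × ℕ) ∈ Φ (sj Y (facts A g3)) := by
      rw [hn3]
      exact marker_mem _ _
    obtain ⟨E3, hE3, hm3'⟩ := compact_param hΦ hm3
    obtain ⟨g4, b1, b2, b3, b4⟩ := real E1 E3 g1 g3 hg1 hg3 (Cmp.of_facts N hE1)
      (fun p hp _ => hE1 p hp) hE3 (fun p hp hN => Or.inl (h0 p hp hN))
    obtain ⟨n4, hn4⟩ := hval Y hY g4 b1
    have c1 : encode ((n1, 0) : ℕ × ℕ) ∈ tg n4 (A n4) := by
      rw [← hn4]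
      exact hΦ.mono (sj_mono b3) hm1
    have c3 : encode ((n3, 0) : ℕ × ℕ) ∈ tg n4 (A n4) := by
      rw [← hn4]
      exact hΦ.mono (sj_mono b4) hm3'
    rw [tg_marker c1, tg_marker c3]
  have hconst : ∀ Y ∈ L, ∀ g1 g2 : Gam, g1 ∈ Es i → g1 ∈ Q → g2 ∈ Es i → g2 ∈ Q →
      ∀ n1 n2, Φ (sj Y (facts A g1)) = tg n1 (A n1) → Φ (sj Y (facts A g2)) = tg n2 (A n2) →
      n1 = n2 := by
    intro Y hY g1 g2 he1 hg1 he2 hg2 n1 n2 hn1 hn2
    have hm1 : encode ((n1, 0) : ℕ × ℕ) ∈ Φ (sj Y (facts A g1)) := by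
      rw [hn1]
      exact marker_mem _ _
    have hm2 : encode ((n2, 0) : ℕ × ℕ) ∈ Φ (sj Y (facts A g2)) := by
      rw [hn2]
      exact marker_mem _ _
    obtain ⟨E1, hE1, hm1'⟩ := compact_param hΦ hm1
    obtain ⟨E2, hE2, hm2'⟩ := compact_param hΦ hm2
    set W : Set Gam := {g | ∀ p ∈ E1 ++ E2, N ≤ p.1 → g.1 p.1 = 0} with hW
    have hWo : IsOpen W := by
      rw [isOpen_iff_mem_nhds]
      intro g hg
      obtain ⟨M, hM⟩ := list_bdd (E1 ++ E2)
      refine mem_of_superset (box_mem_nhds M 0 g) (fun g' hg' p hp hN => ?_)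
      rw [hg'.1 p.1 (hM p hp)]
      exact hg p hp hN
    have hg0W : ((fun b => if b < N then g0.1 b else 0, g0.2) : Gam) ∈ W := by
      intro p _ hN
      simp only
      rw [if_neg (by omega)]
    have hg0Q : ((fun b => if b < N then g0.1 b else 0, g0.2) : Gam) ∈ Q := by
      refine ⟨fun b hb => ?_, fun i _ => rfl, fun m _ i _ => rfl⟩
      simp only
      rw [if_pos hb]
    obtain ⟨g3, he3, hg3W, hg3⟩ := dens W hWo _ hg0W hg0Q
    obtain ⟨n3, hn3⟩ := hval Y hY g3 he3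
    have d1 := hconst1 Y hY g1 g3 he1 hg1 he3 hg3 n1 n3 hn3 E1 hE1 hm1'
      (fun p hp hN => hg3W p (List.mem_append_left _ hp) hN)
    have d2 := hconst1 Y hY g2 g3 he2 hg2 he3 hg3 n2 n3 hn3 E2 hE2 hm2'
      (fun p hp hN => hg3W p (List.mem_append_right _ hp) hN)
    rw [d1, d2]
  -- the operator
  set OK : List Fct → Prop := fun E =>
    (∀ p ∈ E, (p.1 < N ∧ p ∈ facts A g0) ∨ N ≤ p.1) ∧ Cmp N E with hOK
  have rOK : RE (fun E : List Fct => OK E) := by
    have a1 : RE (fun x : List Fct × Fct => x.2.1 < N ∧ x.2 ∈ facts A g0) :=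
      (RE_old A hK).subst Primrec.snd
    have a2 : RE (fun x : List Fct × Fct => N ≤ x.2.1) :=
      RE.prim (primrecRel_comp Primrec.nat_le (Primrec.const N) (Primrec.fst.comp Primrec.snd))
    have a3 : RE (fun E : List Fct => ∀ p ∈ E, (p.1 < N ∧ p ∈ facts A g0) ∨ N ≤ p.1) :=
      RE.ball (a1.or a2) (g := fun E => E) Primrec.id
    exact a3.and (RE_Cmp N)
  refine ⟨fun Y => {c | ∃ E : List Fct, OK E ∧ c ∈ Φ (sj Y {e | e ∈ E})}, ?_, ?_⟩
  · have e1 : EP (fun (_ : Set ℕ) (x : ℕ × List Fct) => OK x.2) := EP.re (rOK.subst Primrec.snd)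
    exact (e1.and (EP_param hΦ)).ex
  · intro Y hY
    obtain ⟨g, heg, _, hgQ⟩ := dens Set.univ isOpen_univ g0 (Set.mem_univ _) (self_mem_box N K g0)
    obtain ⟨n, hn⟩ := hval Y hY g heg
    refine ⟨n, ?_⟩
    ext c
    constructor
    · intro hc
      simp only at hc
      rw [← hn] at hc
      obtain ⟨E, hE, hcE⟩ := compact_param hΦ hc
      refine ⟨E, ⟨fun p hp => ?_, Cmp.of_facts N hE⟩, hcE⟩
      rcases lt_or_ge p.1 N with hlt | hge
      · exact Or.inl ⟨hlt, hold g hgQ g0 (self_mem_box N K g0) p hlt (hE p hp)⟩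
      · exact Or.inr hge
    · rintro ⟨E, ⟨hE1, hE2⟩, hcE⟩
      obtain ⟨g4, b1, b2, b3, _⟩ := real E [] g0 g0 (self_mem_box N K g0) (self_mem_box N K g0) hE2
        (fun p hp hlt => by
          rcases hE1 p hp with h1 | h1
          · exact h1.2
          · omega)
        (fun p hp => absurd hp (by simp)) (fun _ _ _ => Or.inr rfl)
      obtain ⟨n4, hn4⟩ := hval Y hY g4 b1
      have := hconst Y hY g g4 heg hgQ b1 b2 n n4 hn hn4
      subst this
      simp only
      rw [← hn4]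
      exact hΦ.mono (sj_mono b3) hcE

end ME
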