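import Pool.Agent.Helper89.MEF.H89_KerDefs
import Pool.Agent.Helper89.MEF.H89_CatAll
import Pool.Agent.Helper89.MEF.H66_Ker0

/-!
# Satellites: the pullback of an everywhere nonmeagre set
-/

set_option autoImplicit false

namespace ME.Ker66

open Encodable Set Filter Topology

/-- finite bit flips -/
def xorH (u : ℕ → Bool) : (ℕ → Bool) ≃ₜ (ℕ → Bool) where
  toFun z := fun i => xor (z i) (u i)
  invFun z := fun i => xor (z i) (u i)
  left_inv z := by
    funext i
    simp
  right_inv z := by
    funext i
    simp
  continuous_toFun := continuous_pi fun i =>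
    (continuous_of_discreteTopology (f := fun b : Bool => xor b (u i))).comp (continuous_apply i)
  continuous_invFun := continuous_pi fun i =>
    (continuous_of_discreteTopology (f := fun b : Bool => xor b (u i))).comp (continuous_apply i)

theorem getElem_of_mem_cyl {t : List Bool} {y : ℕ → Bool} (h : y ∈ cyl t) (i : ℕ)
    (hi : i < t.length) : y i = t[i] := by
  have h1 : pre y t.length = t := h
  have h2 : (pre y t.length)[i]? = t[i]? := by rw [h1]
  simp only [pre, List.getElem?_map] at h2
  rw [List.getElem?_range hi, List.getElem?_eq_getElem hi] at h2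
  simpa using h2

theorem mem_cyl_of_getElem {t : List Bool} {y : ℕ → Bool}
    (h : ∀ i (hi : i < t.length), y i = t[i]) : y ∈ cyl t := by
  change pre y t.length = t
  apply List.ext_getElem (by simp)
  intro i h1 h2
  rw [pre_getElem, h i h2]

theorem continuous_sat (a : ℕ → Bool) (k : ℕ) : Continuous (sat a k) := by
  refine continuous_pi fun n => ?_
  by_cases h1 : n < k
  · simp only [sat, h1, if_true]
    exact continuous_const
  · by_cases h2 : n = k
    · simp only [sat, h2, lt_irrefl, if_true, if_false]
      exact continuous_const
    · simp only [sat, h1, h2, if_false]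
      exact continuous_apply n

/-- the pullback of an everywhere nonmeagre set by the satellite map -/
theorem sat_ENM {D : Set (ℕ → Bool)} {s : List Bool} (hD : ENM D s) {y₀ : ℕ → Bool}
    (hy : y₀ ∈ cyl s) {m : ℕ} (hm : s.length ≤ m) : ENM {z | sat y₀ m z ∈ D} [] := by
  intro t _ hmea
  -- extend `t`
  obtain ⟨w, hw⟩ := cyl_nonempty t
  set L := max t.length (m + 1) with hL
  have htw : t <+: pre w L := by
    have h1 : pre w t.length = t := hw
    rw [← h1]
    exact pre_prefix w (le_max_left _ _)
  set t' := pre w L with ht'
  have hlen : t'.length = L := by simp [ht']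
  have hmea' : IsMeagre ({z | sat y₀ m z ∈ D} ∩ cyl t') :=
    hmea.mono (inter_subset_inter_right _ (cyl_anti htw))
  -- the target string
  set v : ℕ → Bool := sat y₀ m w with hv
  set s' := pre v L with hs'
  set u : ℕ → Bool := fun i => if i < L then xor (w i) (v i) else false with hu
  have hss' : s <+: s' := by
    have h1 : s = pre y₀ s.length := (show pre y₀ s.length = s from hy).symm
    have h2 : pre y₀ s.length = pre v s.length := by
      rw [pre_eq_iff]
      intro i hi
      rw [hv, sat_of_lt (by omega)]
    rw [h1, h2]
    exact pre_prefix v (by omega)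
  have hnm := hD s' hss'
  apply hnm
  have h3 := hmea'.preimage_of_isOpenMap (xorH u).continuous (xorH u).isOpenMap
  refine h3.mono ?_
  rintro y ⟨hyD, hyc⟩
  have hyi : ∀ i < L, y i = v i := by
    intro i hi
    have := getElem_of_mem_cyl hyc i (by simpa [hs'] using hi)
    rw [this]
    exact pre_getElem v L i _
  have e1 : ∀ i < L, xorH u y i = w i := by
    intro i hi
    change xor (y i) (u i) = w i
    simp only [hu, hi, if_true, hyi i hi]
    cases w i <;> cases v i <;> rfl
  have e2 : ∀ i, L ≤ i → xorH u y i = y i := by
    intro i hi
    change xor (y i) (u i) = y i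
    simp [hu, Nat.not_lt.2 hi]
  refine ⟨?_, ?_⟩
  · change sat y₀ m (xorH u y) ∈ D
    have : sat y₀ m (xorH u y) = y := by
      funext i
      rcases lt_trichotomy i m with h | h | h
      · rw [sat_of_lt h, hyi i (by omega), hv, sat_of_lt h]
      · subst h
        rw [sat_self, hyi i (by omega), hv, sat_self]
      · rw [sat_of_gt h]
        by_cases hi : i < L
        · rw [e1 i hi, hyi i hi, hv, sat_of_gt h]
        · exact e2 i (by omega)
    rw [this]
    exact hyD
  · refine mem_cyl_of_getElem fun i hi => ?_
    rw [e1 i (by omega)]
    exact (pre_getElem w L i _).symm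

end ME.Ker66
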