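import Pool.Agent.Helper89.MEF.H89_KDefs

/-!
# ME-K3, part 1: lower cuts of reals are semicomputable, K-pair (L, complement of L)
-/

set_option autoImplicit false

namespace ME

open Encodable Set

namespace Cut

/-- strict lexicographic order on sequences of numbers -/
def lx (u v : ℕ → ℕ) : Prop := ∃ i, (∀ j ∈ List.range i, u j = v j) ∧ u i < v i

theorem lx_or {u v : ℕ → ℕ} (h : u ≠ v) : lx u v ∨ lx v u := by
  classical
  have hex : ∃ i, u i ≠ v i := by
    by_contra hc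
    push Not at hc
    exact h (funext hc)
  have hmin : ∀ j ∈ List.range (Nat.find hex), u j = v j := by
    intro j hj
    have := Nat.find_min hex (List.mem_range.1 hj)
    simpa using this
  rcases lt_or_gt_of_ne (Nat.find_spec hex) with h1 | h1
  · exact Or.inl ⟨_, hmin, h1⟩
  · exact Or.inr ⟨_, fun j hj => (hmin j hj).symm, h1⟩

theorem lx_trans {u v w : ℕ → ℕ} (h1 : lx u v) (h2 : lx v w) : lx u w := by
  obtain ⟨i, hi, hi'⟩ := h1
  obtain ⟨k, hk, hk'⟩ := h2
  simp only [List.mem_range] at hi hk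
  rcases lt_trichotomy i k with h | h | h
  · refine ⟨i, fun j hj => ?_, ?_⟩
    · have hj' := List.mem_range.1 hj
      rw [hi j hj', hk j (by omega)]
    · rw [← hk i h]; exact hi'
  · subst h
    refine ⟨i, fun j hj => ?_, hi'.trans hk'⟩
    have hj' := List.mem_range.1 hj
    rw [hi j hj', hk j hj']
  · refine ⟨k, fun j hj => ?_, ?_⟩
    · have hj' := List.mem_range.1 hj
      rw [hi j (by omega), hk j hj']
    · rw [hi k h]; exact hk'

theorem lx_irrefl {u : ℕ → ℕ} (h : lx u u) : False := by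
  obtain ⟨i, _, hi⟩ := h
  exact lt_irrefl _ hi

theorem lx_sandwich {u h v : ℕ → ℕ} (h1 : lx u h) (h2 : lx h v) {N : ℕ}
    (huv : ∀ j ∈ List.range N, u j = v j) {j : ℕ} (hj : j < N) : u j = h j := by
  obtain ⟨i, hi, hi'⟩ := h1
  obtain ⟨k, hk, hk'⟩ := h2
  simp only [List.mem_range] at hi hk huv
  by_cases hiN : i < N
  · exfalso
    have e1 := huv i hiN
    rcases lt_trichotomy i k with h | h | h
    · have := hk i h
      omega
    · subst h
      omega
    · have := hi k h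
      have := huv k (by omega)
      omega
  · exact hi j (by omega)

/-- the sequence coded by a number, padded by `3` -/
def sq (n : ℕ) (i : ℕ) : ℕ := (Denumerable.ofNat (List ℕ) n).getD i 3

theorem primrec_sq : Primrec (fun p : ℕ × ℕ => sq p.1 p.2) := by
  have h1 : Primrec (fun p : ℕ × ℕ => Denumerable.ofNat (List ℕ) p.1) :=
    (Primrec.ofNat (List ℕ)).comp Primrec.fst
  exact (Primrec.list_getD 3).comp h1 Primrec.snd

/-- the sequence of a real -/
def hs (h : ℕ → Bool) (i : ℕ) : ℕ := (h i).toNat + 1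

theorem sq_ne_hs (n : ℕ) (h : ℕ → Bool) : sq n ≠ hs h := by
  intro he
  have h1 := congrFun he (Denumerable.ofNat (List ℕ) n).length
  have h2 : sq n (Denumerable.ofNat (List ℕ) n).length = 3 := by
    unfold sq
    exact List.getD_eq_default _ _ le_rfl
  rw [h2] at h1
  unfold hs at h1
  have := Bool.toNat_le (h (Denumerable.ofNat (List ℕ) n).length)
  omega

/-- the lower cut -/
def lc (h : ℕ → Bool) : Set ℕ := {n | lx (sq n) (hs h)}

theorem not_mem_lc {h : ℕ → Bool} {n : ℕ} : n ∈ (lc h)ᶜ ↔ lx (hs h) (sq n) := by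
  constructor
  · intro hn
    rcases lx_or (sq_ne_hs n h) with h1 | h1
    · exact absurd h1 hn
    · exact h1
  · intro h1 h2
    exact lx_irrefl (lx_trans h1 h2)

theorem re_lx : RE (fun p : ℕ × ℕ => lx (sq p.1) (sq p.2)) := by
  have h1 : RE (fun z : ((ℕ × ℕ) × ℕ) × ℕ => sq z.1.1.1 z.2 = sq z.1.1.2 z.2) :=
    RE.eq (primrec_sq.comp ((Primrec.fst.comp (Primrec.fst.comp Primrec.fst)).pair Primrec.snd))
      (primrec_sq.comp ((Primrec.snd.comp (Primrec.fst.comp Primrec.fst)).pair Primrec.snd))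
  have h2 : RE (fun z : (ℕ × ℕ) × ℕ => ∀ j ∈ List.range z.2, sq z.1.1 j = sq z.1.2 j) :=
    RE.ball (p := fun z : ((ℕ × ℕ) × ℕ) × ℕ => sq z.1.1.1 z.2 = sq z.1.1.2 z.2) h1
      (g := fun z => List.range z.2) (Primrec.list_range.comp Primrec.snd)
  have h3 : RE (fun z : (ℕ × ℕ) × ℕ => sq z.1.1 z.2 < sq z.1.2 z.2) := by
    refine RE.prim ?_
    exact primrecRel_comp Primrec.nat_lt
      (primrec_sq.comp ((Primrec.fst.comp Primrec.fst).pair Primrec.snd))
      (primrec_sq.comp ((Primrec.snd.comp Primrec.fst).pair Primrec.snd))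
  exact (h2.and h3).ex

theorem kpair_lc (h : ℕ → Bool) : KPair (lc h) (lc h)ᶜ := by
  refine ⟨_, re_lx, ?_, ?_⟩
  · intro a ha b hb
    exact lx_trans ha (not_mem_lc.1 hb)
  · intro a b hab
    by_cases hb : b ∈ lc h
    · exact Or.inl (lx_trans hab hb)
    · exact Or.inr hb

/-- auxiliary relation: the number `n` and the real with graph `X` agree at `j` -/
theorem ep_agree : EP (fun (X : Set (ℕ × Bool)) (z : ℕ × ℕ) =>
    ∃ b : Bool, (z.2, b) ∈ X ∧ sq z.1 z.2 = b.toNat + 1) := by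
  have h1 : EP (fun (X : Set (ℕ × Bool)) (z : (ℕ × ℕ) × Bool) => (z.1.2, z.2) ∈ X) :=
    EP.mem ((Primrec.snd.comp Primrec.fst).pair Primrec.snd)
  have hb : Primrec (fun b : Bool => b.toNat + 1) := Primrec.dom_finite _
  have h2 : RE (fun z : (ℕ × ℕ) × Bool => sq z.1.1 z.1.2 = z.2.toNat + 1) :=
    RE.eq (primrec_sq.comp Primrec.fst) (hb.comp Primrec.snd)
  exact (h1.and (EP.re h2)).ex

theorem ep_less : EP (fun (X : Set (ℕ × Bool)) (z : ℕ × ℕ) =>
    ∃ b : Bool, (z.2, b) ∈ X ∧ sq z.1 z.2 < b.toNat + 1) := by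
  have h1 : EP (fun (X : Set (ℕ × Bool)) (z : (ℕ × ℕ) × Bool) => (z.1.2, z.2) ∈ X) :=
    EP.mem ((Primrec.snd.comp Primrec.fst).pair Primrec.snd)
  have hb : Primrec (fun b : Bool => b.toNat + 1) := Primrec.dom_finite _
  have h2 : RE (fun z : (ℕ × ℕ) × Bool => sq z.1.1 z.1.2 < z.2.toNat + 1) :=
    RE.prim (primrecRel_comp Primrec.nat_lt (primrec_sq.comp Primrec.fst) (hb.comp Primrec.snd))
  exact (h1.and (EP.re h2)).ex

theorem ep_greater : EP (fun (X : Set (ℕ × Bool)) (z : ℕ × ℕ) =>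
    ∃ b : Bool, (z.2, b) ∈ X ∧ b.toNat + 1 < sq z.1 z.2) := by
  have h1 : EP (fun (X : Set (ℕ × Bool)) (z : (ℕ × ℕ) × Bool) => (z.1.2, z.2) ∈ X) :=
    EP.mem ((Primrec.snd.comp Primrec.fst).pair Primrec.snd)
  have hb : Primrec (fun b : Bool => b.toNat + 1) := Primrec.dom_finite _
  have h2 : RE (fun z : (ℕ × ℕ) × Bool => z.2.toNat + 1 < sq z.1.1 z.1.2) :=
    RE.prim (primrecRel_comp Primrec.nat_lt (hb.comp Primrec.snd) (primrec_sq.comp Primrec.fst))
  exact (h1.and (EP.re h2)).ex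

theorem ep_agree_range : EP (fun (X : Set (ℕ × Bool)) (z : ℕ × ℕ) =>
    ∀ j ∈ List.range z.2, ∃ b : Bool, (j, b) ∈ X ∧ sq z.1 j = b.toNat + 1) := by
  have h1 : EP (fun (X : Set (ℕ × Bool)) (z : (ℕ × ℕ) × ℕ) =>
      ∃ b : Bool, (z.2, b) ∈ X ∧ sq z.1.1 z.2 = b.toNat + 1) :=
    EP.subst (f := fun z : (ℕ × ℕ) × ℕ => (z.1.1, z.2)) ep_agree
      ((Primrec.fst.comp Primrec.fst).pair Primrec.snd)
  exact EP.ball h1 (g := fun z : ℕ × ℕ => List.range z.2) (Primrec.list_range.comp Primrec.snd)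

theorem lc_le (h : ℕ → Bool) : ER (lc h) (gr h) := by
  have h1 := (ep_agree_range.and ep_less).ex
  refine ⟨fun X => {n | ∃ i, (∀ j ∈ List.range i, ∃ b : Bool, (j, b) ∈ X ∧
    sq n j = b.toNat + 1) ∧ ∃ b : Bool, (i, b) ∈ X ∧ sq n i < b.toNat + 1}, h1, ?_⟩
  ext n
  constructor
  · rintro ⟨i, h2, b, h3, h4⟩
    refine ⟨i, fun j hj => ?_, ?_⟩
    · obtain ⟨c, hc, hc'⟩ := h2 j hj
      have : h j = c := hc
      rw [hc']
      simp [hs, this]
    · have : h i = b := h3
      simpa [hs, this] using h4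
  · rintro ⟨i, h2, h3⟩
    exact ⟨i, fun j hj => ⟨h j, rfl, h2 j hj⟩, h i, rfl, h3⟩

theorem lcc_le (h : ℕ → Bool) : ER (lc h)ᶜ (gr h) := by
  have h1 := (ep_agree_range.and ep_greater).ex
  refine ⟨fun X => {n | ∃ i, (∀ j ∈ List.range i, ∃ b : Bool, (j, b) ∈ X ∧
    sq n j = b.toNat + 1) ∧ ∃ b : Bool, (i, b) ∈ X ∧ b.toNat + 1 < sq n i}, h1, ?_⟩
  ext n
  rw [not_mem_lc]
  constructor
  · rintro ⟨i, h2, b, h3, h4⟩
    refine ⟨i, fun j hj => ?_, ?_⟩
    · obtain ⟨c, hc, hc'⟩ := h2 j hj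
      have : h j = c := hc
      rw [hc']
      simp [hs, this]
    · have : h i = b := h3
      simpa [hs, this] using h4
  · rintro ⟨i, h2, h3⟩
    exact ⟨i, fun j hj => ⟨h j, rfl, (h2 j hj).symm⟩, h i, rfl, h3⟩

/-- the operator reconstructing a real from its cut -/
def rec (Z : Set (ℕ ⊕ ℕ)) : Set (ℕ × Bool) :=
  {p | ∃ st : ℕ × ℕ, (Sum.inl st.1 ∈ Z ∧ Sum.inr st.2 ∈ Z) ∧
    ((∀ j ∈ List.range (p.1 + 1), sq st.1 j = sq st.2 j) ∧ sq st.1 p.1 = p.2.toNat + 1)}

theorem isOp_rec : IsOp rec := by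
  have h1 : EP (fun (Z : Set (ℕ ⊕ ℕ)) (z : (ℕ × Bool) × (ℕ × ℕ)) => Sum.inl z.2.1 ∈ Z) :=
    EP.mem (Primrec.sumInl.comp (Primrec.fst.comp Primrec.snd))
  have h2 : EP (fun (Z : Set (ℕ ⊕ ℕ)) (z : (ℕ × Bool) × (ℕ × ℕ)) => Sum.inr z.2.2 ∈ Z) :=
    EP.mem (Primrec.sumInr.comp (Primrec.snd.comp Primrec.snd))
  have h3 : RE (fun z : ((ℕ × Bool) × (ℕ × ℕ)) × ℕ => sq z.1.2.1 z.2 = sq z.1.2.2 z.2) :=
    RE.eq
      (primrec_sq.comp ((Primrec.fst.comp (Primrec.snd.comp Primrec.fst)).pair Primrec.snd))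
      (primrec_sq.comp ((Primrec.snd.comp (Primrec.snd.comp Primrec.fst)).pair Primrec.snd))
  have h4 : RE (fun z : (ℕ × Bool) × (ℕ × ℕ) =>
      ∀ j ∈ List.range (z.1.1 + 1), sq z.2.1 j = sq z.2.2 j) :=
    RE.ball (p := fun z : ((ℕ × Bool) × (ℕ × ℕ)) × ℕ => sq z.1.2.1 z.2 = sq z.1.2.2 z.2) h3
      (g := fun z => List.range (z.1.1 + 1))
      (Primrec.list_range.comp (Primrec.succ.comp (Primrec.fst.comp Primrec.fst)))
  have hb : Primrec (fun b : Bool => b.toNat + 1) := Primrec.dom_finite _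
  have h5 : RE (fun z : (ℕ × Bool) × (ℕ × ℕ) => sq z.2.1 z.1.1 = z.1.2.toNat + 1) :=
    RE.eq (primrec_sq.comp ((Primrec.fst.comp Primrec.snd).pair
      (Primrec.fst.comp Primrec.fst))) (hb.comp (Primrec.snd.comp Primrec.fst))
  exact ((h1.and h2).and (EP.re (h4.and h5))).ex

theorem rec_cut (h : ℕ → Bool) : rec (sj (lc h) (lc h)ᶜ) = gr h := by
  ext ⟨n, b⟩
  constructor
  · rintro ⟨⟨s, t⟩, ⟨h1, h2⟩, h3, h4⟩
    simp only [inl_mem_sj, inr_mem_sj] at h1 h2
    have h5 := not_mem_lc.1 h2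
    have h6 : sq s n = hs h n := lx_sandwich (N := n + 1) h1 h5 h3 (Nat.lt_succ_self n)
    have h7 : (h n).toNat + 1 = b.toNat + 1 := by
      simp only at h4
      rw [← h4, h6, hs]
    change h n = b
    revert h7
    cases h n <;> cases b <;> simp
  · intro hb
    have hb' : h n = b := hb
    set l : List ℕ := (List.range (n + 1)).map (hs h) with hl
    have hlen : l.length = n + 1 := by simp [hl]
    have hget : ∀ j, j < n + 1 → l.getD j 3 = hs h j := by
      intro j hj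
      rw [hl, List.getD_eq_getElem?_getD, List.getElem?_map]
      simp [List.getElem?_range hj]
    have hget' : ∀ j, j < n + 1 → (l ++ [0]).getD j 3 = hs h j := by
      intro j hj
      rw [← hget j hj, List.getD_eq_getElem?_getD, List.getD_eq_getElem?_getD,
        List.getElem?_append_left (by omega)]
    have hs1 : ∀ j, sq (encode l) j = l.getD j 3 := by
      intro j; simp [sq]
    have hs2 : ∀ j, sq (encode (l ++ [0])) j = (l ++ [0]).getD j 3 := by
      intro j; unfold sq; rw [Denumerable.ofNat_encode]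
    refine ⟨(encode (l ++ [0]), encode l), ⟨?_, ?_⟩, ?_, ?_⟩
    · change encode (l ++ [0]) ∈ lc h
      refine ⟨n + 1, fun j hj => ?_, ?_⟩
      · rw [hs2, hget' j (List.mem_range.1 hj)]
      · rw [hs2]
        have : (l ++ [0]).getD (n + 1) 3 = 0 := by
          rw [List.getD_eq_getElem?_getD, List.getElem?_append_right (by omega)]
          simp [hlen]
        rw [this]
        simp [hs]
    · change encode l ∈ (lc h)ᶜ
      rw [not_mem_lc]
      refine ⟨n + 1, fun j hj => ?_, ?_⟩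
      · rw [hs1, hget j (List.mem_range.1 hj)]
      · rw [hs1, List.getD_eq_default _ _ (by omega)]
        have := Bool.toNat_le (h (n + 1))
        simp only [hs]
        omega
    · intro j hj
      simp only
      rw [hs1, hs2, hget j (List.mem_range.1 hj), hget' j (List.mem_range.1 hj)]
    · simp only
      rw [hs2, hget' n (Nat.lt_succ_self n), ← hb']
      rfl

theorem gr_le (h : ℕ → Bool) : ER (gr h) (sj (lc h) (lc h)ᶜ) := ⟨rec, isOp_rec, rec_cut h⟩

theorem lc_injective : Function.Injective lc := by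
  intro h h' he
  have h1 : gr h = gr h' := by rw [← rec_cut h, ← rec_cut h', he]
  funext n
  have h2 : (n, h n) ∈ gr h := rfl
  rw [h1] at h2
  exact (show h' n = h n from h2).symm

theorem countable_re_sets : {X : Set ℕ | RE (· ∈ X)}.Countable := countable_RE ℕ

theorem countable_re_lc : {h : ℕ → Bool | RE (· ∈ lc h)}.Countable :=
  countable_re_sets.preimage_of_injOn (f := lc) lc_injective.injOn

theorem countable_re_lcc : {h : ℕ → Bool | RE (· ∈ (lc h)ᶜ)}.Countable :=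
  countable_re_sets.preimage_of_injOn (f := fun h => (lc h)ᶜ)
    (fun _ _ _ _ he => lc_injective (compl_injective he))

end Cut

end ME
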