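import Pool.Agent.Helper89.MEF.H89_St_K1
import Pool.Agent.Helper89.MEF.H89_St_Jams
import Pool.Agent.Helper89.MEF.H89_St_Lat3
import Pool.Agent.Helper89.MEF.H68_Cut

/-!
# ME-K3: images of almost all reals are total (section 3)
-/

set_option autoImplicit false

namespace ME

open Encodable Set

namespace Cut

/-- the characteristic function of a set -/
noncomputable def chi (C : Set ℕ) (n : ℕ) : Bool := @decide (n ∈ C) (Classical.dec _)

theorem chi_true {C : Set ℕ} {n : ℕ} : chi C n = true ↔ n ∈ C := by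
  simp [chi]

theorem chi_false {C : Set ℕ} {n : ℕ} : chi C n = false ↔ n ∉ C := by
  simp [chi]

theorem ER_chi (C : Set ℕ) : ER (gr (chi C)) (sj C Cᶜ) := by
  have h1 : EP (fun (Z : Set (ℕ ⊕ ℕ)) (p : ℕ × Bool) => Sum.inl p.1 ∈ Z ∧ p.2 = true) :=
    (EP.mem (Primrec.sumInl.comp Primrec.fst)).and
      (EP.re (RE.eq Primrec.snd (Primrec.const true)))
  have h2 : EP (fun (Z : Set (ℕ ⊕ ℕ)) (p : ℕ × Bool) => Sum.inr p.1 ∈ Z ∧ p.2 = false) :=
    (EP.mem (Primrec.sumInr.comp Primrec.fst)).and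
      (EP.re (RE.eq Primrec.snd (Primrec.const false)))
  refine ⟨fun Z => {p | (Sum.inl p.1 ∈ Z ∧ p.2 = true) ∨ (Sum.inr p.1 ∈ Z ∧ p.2 = false)},
    h1.or h2, ?_⟩
  ext ⟨n, b⟩
  simp only [mem_ofPred_eq, inl_mem_sj, inr_mem_sj, gr]
  cases b
  · simp [chi_false]
  · simp [chi_true]

theorem le_chi (C : Set ℕ) : ER C (gr (chi C)) := by
  refine ⟨fun Z => {n | (n, true) ∈ Z}, EP.mem (Primrec.id.pair (Primrec.const true)), ?_⟩
  ext n
  exact chi_true

theorem compl_le_chi (C : Set ℕ) : ER Cᶜ (gr (chi C)) := by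
  refine ⟨fun Z => {n | (n, false) ∈ Z}, EP.mem (Primrec.id.pair (Primrec.const false)), ?_⟩
  ext n
  exact chi_false

theorem EE_jn_chi (C : Set ℕ) : EE (jn C Cᶜ) (rs (chi C)) := by
  refine ⟨?_, ?_⟩
  · exact ((le_chi C).sj (compl_le_chi C)).cd_left.trans (ER.of_cd _)
  · exact (ER_chi C).cd_left.trans (ER.of_cd _)

theorem EE_jn_lc (h : ℕ → Bool) : EE (jn (lc h) (lc h)ᶜ) (rs h) := by
  refine ⟨?_, ?_⟩
  · exact ((lc_le h).sj (lcc_le h)).cd_left.trans (ER.of_cd _)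
  · exact (gr_le h).cd_left.trans (ER.of_cd _)

theorem jn_mono {X Y X' Y' : Set ℕ} (h1 : ER X X') (h2 : ER Y Y') :
    ER (jn X Y) (jn X' Y') :=
  ER_jn (h1.trans (ER_jn_left _ _)) (h2.trans (ER_jn_right _ _))

/-- the image of a K-pair is a K-pair -/
theorem KPair_pi (a : Aut) {A B : Set ℕ} (h : KPair A B) : KPair (a.pi A) (a.pi B) := by
  rw [kalimullin] at h ⊢
  intro X Z h1 h2
  have h3 : ER (a.symm.pi Z) (a.symm.pi X) := by
    apply h
    · have := a.symm.pi_mono.2 h1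
      exact this.trans ((a.symm.pi_jn _ _).1.trans (jn_mono (ER.refl _) (a.pi_symm A).1))
    · have := a.symm.pi_mono.2 h2
      exact this.trans ((a.symm.pi_jn _ _).1.trans (jn_mono (ER.refl _) (a.pi_symm B).1))
  exact a.symm.pi_mono.1 h3

theorem RE_of_pi (a : Aut) {X : Set ℕ} (h : RE (· ∈ a.pi X)) : RE (· ∈ X) := by
  have h1 : ER (a.pi X) (a.pi ∅) := ER.of_RE h _
  have h2 : ER X (∅ : Set ℕ) := a.pi_mono.1 h1
  exact ER_RE h2 ((RE.const False).of_iff (by simp))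

end Cut

open Cut in
theorem total_image_of (a : Aut) (h : ℕ → Bool) (h1 : ¬ RE (· ∈ lc h))
    (h2 : ¬ RE (· ∈ (lc h)ᶜ)) : Tot (a.pi (rs h)) := by
  obtain ⟨C, hC, hA, hB⟩ := jams (KPair_pi a (kpair_lc h)) (fun hr => h1 (RE_of_pi a hr))
    (fun hr => h2 (RE_of_pi a hr))
  have hk := KPair_pi a.symm hC
  have hA' : ER (lc h) (a.symm.pi C) := a.pi_le_iff.1 hA
  have hB' : ER (lc h)ᶜ (a.symm.pi Cᶜ) := a.pi_le_iff.1 hB
  -- `π⁻¹ C ≤ L` and `π⁻¹ Cᶜ ≤ Lᶜ`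
  have h3 : ER (a.symm.pi C) (lc h) := by
    have := (hk.mono (ER.refl _) hB').le_compl h2
    rwa [compl_compl] at this
  have h4 : ER (a.symm.pi Cᶜ) (lc h)ᶜ := (hk.mono hA' (ER.refl _)).symm.le_compl h1
  have h5 : ER C (a.pi (lc h)) := a.le_pi_iff.2 h3
  have h6 : ER Cᶜ (a.pi (lc h)ᶜ) := a.le_pi_iff.2 h4
  refine ⟨chi C, ?_, ?_⟩
  · have e1 : ER (a.pi (rs h)) (a.pi (jn (lc h) (lc h)ᶜ)) := a.pi_mono.2 (EE_jn_lc h).2
    exact e1.trans ((a.pi_jn _ _).1.trans ((jn_mono hA hB).trans (EE_jn_chi C).1))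
  · have e1 : ER (a.pi (jn (lc h) (lc h)ᶜ)) (a.pi (rs h)) := a.pi_mono.2 (EE_jn_lc h).1
    exact (EE_jn_chi C).2.trans ((jn_mono h5 h6).trans ((a.pi_jn _ _).2.trans e1))

/-- for all but countably many reals `h` the image of `h` is total -/
theorem total_image (a : Aut) : {h : ℕ → Bool | ¬ Tot (a.pi (rs h))}.Countable := by
  refine (Cut.countable_re_lc.union Cut.countable_re_lcc).mono ?_
  intro h hh
  by_contra hc
  apply hh
  refine total_image_of a h (fun h1 => hc (Or.inl h1)) (fun h2 => hc (Or.inr h2))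

end ME
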