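import Pool.Agent.Helper89.MEF.H89_PackDefs
import Pool.Agent.Helper89.MEF.H89_GenAll

/-!
# ME-M5a, ME-M5b: basic facts and independence for the data of step 1
-/

set_option autoImplicit false

namespace ME

open Encodable Set

theorem M5_jn_mono {X Y Z W : Set ℕ} (h1 : ER X Z) (h2 : ER Y W) : ER (jn X Y) (jn Z W) :=
  ER_jn (h1.trans (ER_jn_left Z W)) (h2.trans (ER_jn_right Z W))

/-- extraction of one column -/
theorem M5_col {t : List Bool → Bool} {Y : Idx → ℕ → Bool} {F : Set Idx} {l : Idx} (hl : l ∈ F) :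
    ER (rs (rho t (Y l))) (cd (GF t Y F)) := by
  refine ER_cd_right.2 (ER_cd_left.2 ?_)
  refine ⟨fun Z => {p : ℕ × Bool | ((l, p.1), p.2) ∈ Z}, ?_, ?_⟩
  · exact EP.mem (((Primrec.const l).pair Primrec.fst).pair Primrec.snd)
  · ext p
    simp only [GF, gr, mem_ofPred_eq]
    exact ⟨fun h => h.2, fun h => ⟨hl, h⟩⟩

namespace Pack

variable {a : Aut} {e : Set ℕ} {f : ℕ → Bool} (P : Pack a e f)

/-- ME-M5a: basic facts -/
theorem pi_r (y : ℕ → Bool) : EE (a.pi (rs (P.r y))) (rs (rho P.t y)) := by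
  have h1 := P.r_spec y
  have h2 : EE (a.pi (a.symm.pi (rs (rho P.t y)))) (a.pi (rs (P.r y))) :=
    ⟨a.pi_mono.2 h1.1, a.pi_mono.2 h1.2⟩
  exact h2.symm.trans (a.symm_pi _)

theorem r_le (y : ℕ → Bool) : ER (rs (P.r y)) (jn e (rs (rho P.t y))) := by
  have h1 := (P.he (rs (P.r y))).2
  exact h1.trans (ER_jn ((P.pi_r y).1.trans (ER_jn_right _ _)) (ER_jn_left _ _))

theorem rho_le (y : ℕ → Bool) : ER (rs (rho P.t y)) (jn e (rs (P.r y))) := by
  have h1 := (P.he (rs (P.r y))).1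
  exact (P.pi_r y).2.trans (h1.trans (ER_jn (ER_jn_right _ _) (ER_jn_left _ _)))

theorem pi_x : EE (a.pi P.x) P.G := a.symm_pi _

theorem e_le_b : ER e P.b := ER_jn_left _ _

theorem f_le_b : ER (rs f) P.b := ER_jn_right _ _

theorem pi_f_le_b : ER (a.pi (rs f)) P.b :=
  (P.he (rs f)).1.trans (ER_jn P.f_le_b P.e_le_b)

theorem x_le : ER P.x (jn P.b P.G) := by
  have h1 := (P.he P.x).2
  exact h1.trans (ER_jn (P.pi_x.1.trans (ER_jn_right _ _)) (P.e_le_b.trans (ER_jn_left _ _)))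

theorem ro_le_G (l : Idx) : ER (P.ro l) P.G := M5_col (mem_univ l)

theorem ro_le_Gm {l l' : Idx} (h : l' ≠ l) : ER (P.ro l') (P.Gm l) := M5_col (by simpa using h)

/-- ME-M5b: independence -/
theorem indep {j : Bool} {y : ℕ → Bool} (hy : y ∈ P.J j) :
    (∀ l, P.Y l ≠ y) ∧ ¬ ER (rs (rho P.t y)) (jn P.b P.G) ∨ ∃ m, y = P.Y (j, some m) := by
  by_cases h : ∀ l, P.Y l ≠ y
  · left
    refine ⟨h, ?_⟩
    obtain ⟨u, hu, hav⟩ := exists_avoid P.M P.c P.z y h
    exact (P.hP u hav).not_ER hu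
  · right
    push Not at h
    obtain ⟨⟨j', o⟩, rfl⟩ := h
    have hj : j' = j := by
      by_contra hne
      exact P.pt_disj j (j', o) hne hy
    subst hj
    rcases o with _ | m
    · exact absurd hy (P.base_not_mem j')
    · exact ⟨m, rfl⟩

theorem indep' (j : Bool) (m : ℕ) : ¬ ER (P.ro (j, some m)) (jn P.b (P.Gm (j, some m))) := by
  obtain ⟨u, hu, hav⟩ := exists_avoid' P.M P.c P.z j m (fun l hl h => hl (P.pt_inj h))
  exact (P.hPl (j, some m) u hav).not_ER hu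

/-- independence from finitely many points -/
theorem indep_fin {j : Bool} {y : ℕ → Bool} (hy : y ∈ P.J j) (Z : Set ℕ)
    (hZ : ∀ l : Idx, l.2 ≠ none → P.Y l = y → ER Z (jn P.b (P.Gm l)))
    (hZ' : ER Z (jn P.b P.G)) : ¬ ER (rs (rho P.t y)) Z := by
  intro hρ
  rcases P.indep hy with ⟨_, h⟩ | ⟨m, rfl⟩
  · exact h (hρ.trans hZ')
  · exact P.indep' j m (hρ.trans (hZ (j, some m) (by simp) rfl))

/-- unpredictability relative to the base point and one satellite of system `true` -/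
theorem PA_fin (m : ℕ) (u : List Bool) (h1 : P.Y (true, none) ∉ cyl u)
    (h2 : P.Y (true, some m) ∉ cyl u) :
    PA (jn P.b (jn (P.ro (true, none)) (P.ro (true, some m)))) P.t u := by
  refine (P.hPf m u h1 h2).mono (M5_jn_mono (ER.refl _) (ER_jn ?_ ?_))
  · exact M5_col (by simp)
  · exact M5_col (by simp)

theorem r_ne {j : Bool} {y : ℕ → Bool} (hy : y ∈ P.J j) : P.r (P.Y (j, none)) ≠ P.r y := by
  intro h
  have h1 : ER (rs (rho P.t y)) (jn e (P.ro (j, none))) := by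
    have h2 := P.rho_le y
    rw [← h] at h2
    exact h2.trans (ER_jn (ER_jn_left _ _) (P.r_le _))
  refine P.indep_fin hy _ ?_ ?_ h1
  · intro l hl _
    refine M5_jn_mono P.e_le_b (P.ro_le_Gm ?_)
    rintro rfl
    exact hl rfl
  · exact M5_jn_mono P.e_le_b (P.ro_le_G _)

end Pack

end ME
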