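import Pool.Agent.Helper89.MEF.H89_St_Lat2

/-!
# ME-L3: induced map, joins, meets, Muchnik classes, the abstract decider
-/

set_option autoImplicit false

namespace ME

open Encodable Set

theorem PE_singleton {X Y : Set ℕ} : PE {X} {Y} ↔ EE X Y := by
  unfold PE EE
  rw [PR_singleton, PR_singleton]

theorem Aut.F_iff (a : Aut) {A B : Set (Set ℕ)} : PR (a.F A) (a.F B) ↔ PR A B := by
  refine ⟨fun h => ?_, a.F_mono A B⟩
  exact ((a.GF A).2.trans (a.G_mono _ _ h)).trans (a.GF B).1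

theorem Aut.F_PE (a : Aut) {A B : Set (Set ℕ)} (h : PE A B) : PE (a.F A) (a.F B) :=
  ⟨a.F_mono _ _ h.1, a.F_mono _ _ h.2⟩

/-- adjunctions -/
theorem Aut.F_le_iff (a : Aut) {A B : Set (Set ℕ)} : PR (a.F A) B ↔ PR A (a.G B) := by
  constructor
  · intro h
    exact (a.GF A).2.trans (a.G_mono _ _ h)
  · intro h
    exact (a.F_mono _ _ h).trans (a.FG B).1

theorem Aut.le_F_iff (a : Aut) {A B : Set (Set ℕ)} : PR A (a.F B) ↔ PR (a.G A) B := by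
  constructor
  · intro h
    exact (a.G_mono _ _ h).trans (a.GF B).1
  · intro h
    exact (a.FG A).2.trans (a.F_mono _ _ h)

/-- the induced map on sets -/
noncomputable def Aut.pi (a : Aut) (X : Set ℕ) : Set ℕ := (single_image a X).choose

theorem Aut.pi_spec (a : Aut) (X : Set ℕ) : PE (a.F {X}) {a.pi X} :=
  (single_image a X).choose_spec

theorem Aut.pi_mono (a : Aut) {X Y : Set ℕ} : ER (a.pi X) (a.pi Y) ↔ ER X Y := by
  have h1 : PR (a.F {X}) (a.F {Y}) ↔ PR {a.pi X} {a.pi Y} := by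
    constructor
    · intro h
      exact ((a.pi_spec X).2.trans h).trans (a.pi_spec Y).1
    · intro h
      exact ((a.pi_spec X).1.trans h).trans (a.pi_spec Y).2
  rw [a.F_iff, PR_singleton, PR_singleton] at h1
  exact h1.symm

theorem Aut.pi_symm (a : Aut) (X : Set ℕ) : EE (a.symm.pi (a.pi X)) X := by
  rw [← PE_singleton]
  have h1 : PE {a.symm.pi (a.pi X)} (a.G {a.pi X}) := (a.symm.pi_spec (a.pi X)).symm
  have h2 : PE (a.G {a.pi X}) (a.G (a.F {X})) :=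
    ⟨a.G_mono _ _ (a.pi_spec X).2, a.G_mono _ _ (a.pi_spec X).1⟩
  exact (h1.trans h2).trans (a.GF {X})

theorem Aut.symm_pi (a : Aut) (X : Set ℕ) : EE (a.pi (a.symm.pi X)) X := a.symm.pi_symm X

/-- adjunction forms -/
theorem Aut.pi_le_iff (a : Aut) {X Y : Set ℕ} : ER (a.pi X) Y ↔ ER X (a.symm.pi Y) := by
  rw [← a.symm.pi_mono]
  constructor
  · intro h
    exact (a.pi_symm X).2.trans h
  · intro h
    exact (a.pi_symm X).1.trans h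

theorem Aut.le_pi_iff (a : Aut) {X Y : Set ℕ} : ER X (a.pi Y) ↔ ER (a.symm.pi X) Y := by
  rw [← a.symm.pi_mono]
  constructor
  · intro h
    exact h.trans (a.pi_symm Y).1
  · intro h
    exact h.trans (a.pi_symm Y).2

theorem Aut.F_PJ (a : Aut) (A B : Set (Set ℕ)) : PE (a.F (PJ A B)) (PJ (a.F A) (a.F B)) := by
  constructor
  · rw [a.F_le_iff]
    refine PJ_le ?_ ?_
    · rw [← a.F_le_iff]; exact PJ_left _ _
    · rw [← a.F_le_iff]; exact PJ_right _ _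
  · exact PJ_le (a.F_mono _ _ (PJ_left _ _)) (a.F_mono _ _ (PJ_right _ _))

theorem Aut.F_PM (a : Aut) (A B : Set (Set ℕ)) : PE (a.F (PM A B)) (PM (a.F A) (a.F B)) := by
  constructor
  · exact PM_ge (a.F_mono _ _ (PM_left _ _)) (a.F_mono _ _ (PM_right _ _))
  · rw [a.le_F_iff]
    refine PM_ge ?_ ?_
    · rw [← a.le_F_iff]; exact PM_left _ _
    · rw [← a.le_F_iff]; exact PM_right _ _

theorem PJ_singleton (X Y : Set ℕ) : PJ {X} {Y} = {jn X Y} := by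
  ext Z
  constructor
  · rintro ⟨X', hX, Y', hY, rfl⟩
    rw [mem_singleton_iff] at hX hY ⊢
    rw [hX, hY]
  · intro h
    rw [mem_singleton_iff] at h
    exact ⟨X, rfl, Y, rfl, h⟩

theorem PJ_mono {A A' B B' : Set (Set ℕ)} (h1 : PR A A') (h2 : PR B B') :
    PR (PJ A B) (PJ A' B') :=
  PJ_le (h1.trans (PJ_left _ _)) (h2.trans (PJ_right _ _))

theorem PM_mono {A A' B B' : Set (Set ℕ)} (h1 : PR A A') (h2 : PR B B') :
    PR (PM A B) (PM A' B') :=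
  PM_ge ((PM_left _ _).trans h1) ((PM_right _ _).trans h2)

theorem Aut.pi_jn (a : Aut) (X Y : Set ℕ) : EE (a.pi (jn X Y)) (jn (a.pi X) (a.pi Y)) := by
  rw [← PE_singleton]
  have h1 : PE {a.pi (jn X Y)} (a.F {jn X Y}) := (a.pi_spec _).symm
  have h2 : PE (a.F {jn X Y}) (PJ (a.F {X}) (a.F {Y})) := by
    rw [← PJ_singleton]
    exact a.F_PJ _ _
  have h3 : PE (PJ (a.F {X}) (a.F {Y})) {jn (a.pi X) (a.pi Y)} := by
    rw [← PJ_singleton]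
    exact ⟨PJ_mono (a.pi_spec X).1 (a.pi_spec Y).1, PJ_mono (a.pi_spec X).2 (a.pi_spec Y).2⟩
  exact (h1.trans h2).trans h3

theorem Aut.F_MU_sub (a : Aut) (C : Set (Set ℕ)) : a.F (MU C) ⊆ MU (a.pi '' C) := by
  intro Y hY
  have h1 : PR (a.F (MU C)) {Y} := PR_of_subset (by
    rintro Z hZ
    rw [mem_singleton_iff] at hZ
    rw [hZ]; exact hY)
  rw [a.F_le_iff] at h1
  have h2 : PR (MU C) {a.symm.pi Y} := h1.trans (a.symm.pi_spec Y).1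
  rw [PR_single_right] at h2
  obtain ⟨X, ⟨X0, hX0, h3⟩, h4⟩ := h2
  exact ⟨a.pi X0, ⟨X0, hX0, rfl⟩, a.pi_le_iff.mpr (h3.trans h4)⟩

/-- **L2** -/
theorem Aut.F_MU (a : Aut) (C : Set (Set ℕ)) : PE (a.F (MU C)) (MU (a.pi '' C)) := by
  constructor
  · rw [a.F_le_iff, PR_MU_iff]
    intro Y hY
    obtain ⟨_, ⟨_, ⟨X, hX, rfl⟩, rfl⟩, h⟩ := a.symm.F_MU_sub (a.pi '' C) hY
    exact ⟨X, hX, (a.pi_symm X).2.trans h⟩
  · rw [PR_MU_iff]
    exact a.F_MU_sub C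

theorem ER_tg (n : ℕ) (X : Set ℕ) : ER X (tg n X) := by
  obtain ⟨U, hU, h⟩ := exists_untag
  have := ER.of_op hU (tg n X)
  rwa [h] at this

/-- **AD**, abstract decider: if an operator decides `Q` on the problem `{A i}`, then an operator
gives on every member `Z` of any `M` above `α{A i}` one value `Q i` with `π (A i) ≤ Z`. -/
theorem AD (a : Aut) {ι : Type} (A : ι → Set ℕ) (Q : ι → Bool) (Θ : Set ℕ → Set Bool)
    (hΘ : IsOp Θ) (h : ∀ i, Θ (A i) = {Q i}) (M : Set (Set ℕ)) (hM : PR (a.F (range A)) M) :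
    ∃ Θ' : Set ℕ → Set Bool, IsOp Θ' ∧ ∀ Z ∈ M, ∃ i, Θ' Z = {Q i} ∧ ER (a.pi (A i)) Z := by
  set A0 : Bool → Set (Set ℕ) := fun v => {Y | ∃ i, Q i = v ∧ Y = A i} with hA0
  have h1 : PR (PM (MU (A0 false)) (MU (A0 true))) (range A) := by
    refine ⟨fun X => {z | (false ∈ Θ X ∧ z ∈ tg 0 X) ∨ (true ∈ Θ X ∧ z ∈ tg 1 X)}, ?_, ?_⟩
    · have e1 : ∀ v : Bool, EP (fun (X : Set ℕ) (_ : ℕ) => v ∈ Θ X) := fun v =>
        EP.subst hΘ (Primrec.const v)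
      exact EP.or (EP.and (e1 false) (IsOp_tg 0)) (EP.and (e1 true) (IsOp_tg 1))
    · rintro _ ⟨i, rfl⟩
      cases hQ : Q i with
      | false =>
        left
        refine ⟨A i, ⟨A i, ⟨i, hQ, rfl⟩, ER.refl _⟩, ?_⟩
        ext z
        simp [h i, hQ]
      | true =>
        right
        refine ⟨A i, ⟨A i, ⟨i, hQ, rfl⟩, ER.refl _⟩, ?_⟩
        ext z
        simp [h i, hQ]
  have h2 : PR (PM (MU (a.pi '' A0 false)) (MU (a.pi '' A0 true))) M := by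
    have e1 := PM_mono (a.F_MU (A0 false)).2 (a.F_MU (A0 true)).2
    exact ((e1.trans (a.F_PM _ _).2).trans (a.F_mono _ _ h1)).trans hM
  obtain ⟨Ψ, hΨ, hΨM⟩ := h2
  refine ⟨fun Z => {v | encode ((bif v then 1 else 0 : ℕ), (0 : ℕ)) ∈ Ψ Z}, ?_, ?_⟩
  · exact EP.subst hΨ (f := fun v : Bool => encode ((bif v then 1 else 0 : ℕ), (0 : ℕ)))
      (Primrec.dom_finite _)
  · intro Z hZ
    rcases hΨM Z hZ with ⟨Y, ⟨_, ⟨_, ⟨i, hi, rfl⟩, rfl⟩, hY⟩, hYZ⟩ |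
      ⟨Y, ⟨_, ⟨_, ⟨i, hi, rfl⟩, rfl⟩, hY⟩, hYZ⟩
    · refine ⟨i, ?_, ?_⟩
      · ext v
        rw [mem_ofPred_eq, hYZ, tg_marker, hi]
        cases v <;> simp
      · have e1 : ER (tg 0 Y) Z := by rw [← hYZ]; exact ER.of_op hΨ Z
        exact (hY.trans (ER_tg 0 Y)).trans e1
    · refine ⟨i, ?_, ?_⟩
      · ext v
        rw [mem_ofPred_eq, hYZ, tg_marker, hi]
        cases v <;> simp
      · have e1 : ER (tg 1 Y) Z := by rw [← hYZ]; exact ER.of_op hΨ Z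
        exact (hY.trans (ER_tg 1 Y)).trans e1

/-- AD for a parameter and one family -/
theorem AD1 (a : Aut) {ι : Type} (q q' : Set ℕ) (hq : ER (a.pi q) q') (X : ι → Set ℕ)
    (Q : ι → Bool) (Θ : Set (ℕ ⊕ ℕ) → Set Bool)
    (hΘ : IsOp Θ) (h : ∀ i, Θ (sj q (X i)) = {Q i}) :
    ∃ Θ' : Set (ℕ ⊕ ℕ) → Set Bool, IsOp Θ' ∧
      ∀ Z ∈ a.F (range X), ∃ i, Θ' (sj q' Z) = {Q i} ∧ ER (a.pi (X i)) (sj q' Z) := by
  have hr : range (fun i => jn q (X i)) = PJ {q} (range X) := by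
    ext Z
    constructor
    · rintro ⟨i, rfl⟩
      exact ⟨q, rfl, X i, ⟨i, rfl⟩, rfl⟩
    · rintro ⟨_, hq', _, ⟨i, rfl⟩, rfl⟩
      rw [mem_singleton_iff] at hq'
      rw [hq']
      exact ⟨i, rfl⟩
  have hM : PR (a.F (range (fun i => jn q (X i)))) (PJ {q'} (a.F (range X))) := by
    rw [hr]
    refine (a.F_PJ _ _).1.trans (PJ_mono ?_ (PR.refl _))
    exact (a.pi_spec q).1.trans (PR_singleton.mpr hq)
  obtain ⟨Θ', hΘ', hZ⟩ := AD a (fun i => jn q (X i)) Q (fun Z => Θ (dc Z)) (hΘ.comp IsOp.dc)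
    (fun i => by
      have : (dc (jn q (X i)) : Set (ℕ ⊕ ℕ)) = sj q (X i) := dc_cd _
      simp only [this]
      exact h i) _ hM
  refine ⟨fun S => Θ' (cd S), hΘ'.comp (IsOp.cd IsOp.id), ?_⟩
  intro Z hZ'
  obtain ⟨i, h1, h2⟩ := hZ (jn q' Z) ⟨q', rfl, Z, hZ', rfl⟩
  refine ⟨i, h1, ?_⟩
  have h3 : ER (a.pi (X i)) (a.pi (jn q (X i))) := a.pi_mono.mpr (ER_jn_right _ _)
  exact (h3.trans h2).trans (ER.cd_self _)

/-- AD for a parameter and two families -/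
theorem AD2 (a : Aut) {ι κ : Type} (q q' : Set ℕ) (hq : ER (a.pi q) q') (X : ι → Set ℕ)
    (Y : κ → Set ℕ) (Q : ι → κ → Bool) (Θ : Set (ℕ ⊕ (ℕ ⊕ ℕ)) → Set Bool)
    (hΘ : IsOp Θ) (h : ∀ i j, Θ (sj q (sj (X i) (Y j))) = {Q i j}) :
    ∃ Θ' : Set (ℕ ⊕ (ℕ ⊕ ℕ)) → Set Bool, IsOp Θ' ∧
      ∀ Z₁ ∈ a.F (range X), ∀ Z₂ ∈ a.F (range Y), ∃ i j, Θ' (sj q' (sj Z₁ Z₂)) = {Q i j} ∧
        ER (a.pi (X i)) (sj q' (sj Z₁ Z₂)) ∧ ER (a.pi (Y j)) (sj q' (sj Z₁ Z₂)) := by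
  -- decoding and encoding
  set dec : Set ℕ → Set (ℕ ⊕ (ℕ ⊕ ℕ)) := fun Z =>
    sj {x | Sum.inl x ∈ (dc Z : Set (ℕ ⊕ ℕ))}
      (dc {y | Sum.inr y ∈ (dc Z : Set (ℕ ⊕ ℕ))} : Set (ℕ ⊕ ℕ)) with hdec
  have hdecop : IsOp dec := by
    refine IsOp.sj ?_ ?_
    · exact IsOp.comp (Φ := fun Z : Set (ℕ ⊕ ℕ) => {a | Sum.inl a ∈ Z}) IsOp.inl IsOp.dc
    · exact IsOp.comp IsOp.dc
        (IsOp.comp (Φ := fun Z : Set (ℕ ⊕ ℕ) => {a | Sum.inr a ∈ Z}) IsOp.inr IsOp.dc)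
  have hdecj : ∀ U V V' : Set ℕ, dec (jn U (jn V V')) = sj U (sj V V') := by
    intro U V V'
    have e1 : (dc (jn U (jn V V')) : Set (ℕ ⊕ ℕ)) = sj U (jn V V') := dc_cd _
    have e2 : (dc (jn V V') : Set (ℕ ⊕ ℕ)) = sj V V' := dc_cd _
    have e3 : {y | Sum.inr y ∈ (sj U (jn V V') : Set (ℕ ⊕ ℕ))} = jn V V' := rfl
    have e4 : {y | Sum.inl y ∈ (sj U (jn V V') : Set (ℕ ⊕ ℕ))} = U := rfl
    simp only [hdec, e1, e3, e4, e2]
  set enc : Set (ℕ ⊕ (ℕ ⊕ ℕ)) → Set ℕ := fun S =>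
    cd (sj {x | Sum.inl x ∈ S} (cd {y | Sum.inr y ∈ S})) with henc
  have hencop : IsOp enc := (IsOp.sj IsOp.inl (IsOp.cd IsOp.inr)).cd
  have hencj : ∀ U V V' : Set ℕ, enc (sj U (sj V V')) = jn U (jn V V') := fun U V V' => rfl
  set A : ι × κ → Set ℕ := fun p => jn q (jn (X p.1) (Y p.2)) with hA
  have hr : range A = PJ {q} (PJ (range X) (range Y)) := by
    ext Z
    constructor
    · rintro ⟨p, rfl⟩
      exact ⟨q, rfl, _, ⟨X p.1, ⟨p.1, rfl⟩, Y p.2, ⟨p.2, rfl⟩, rfl⟩, rfl⟩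
    · rintro ⟨_, hq', _, ⟨_, ⟨i, rfl⟩, _, ⟨j, rfl⟩, rfl⟩, rfl⟩
      rw [mem_singleton_iff] at hq'
      rw [hq']
      exact ⟨(i, j), rfl⟩
  have hM : PR (a.F (range A)) (PJ {q'} (PJ (a.F (range X)) (a.F (range Y)))) := by
    rw [hr]
    refine (a.F_PJ _ _).1.trans (PJ_mono ?_ (a.F_PJ _ _).1)
    exact (a.pi_spec q).1.trans (PR_singleton.mpr hq)
  obtain ⟨Θ', hΘ', hZ⟩ := AD a A (fun p => Q p.1 p.2) (fun Z => Θ (dec Z)) (hΘ.comp hdecop)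
    (fun p => by
      simp only [hA, hdecj]
      exact h p.1 p.2) _ hM
  refine ⟨fun S => Θ' (enc S), hΘ'.comp hencop, ?_⟩
  intro Z₁ hZ₁ Z₂ hZ₂
  obtain ⟨p, h1, h2⟩ := hZ (jn q' (jn Z₁ Z₂)) ⟨q', rfl, _, ⟨Z₁, hZ₁, Z₂, hZ₂, rfl⟩, rfl⟩
  have h3 : ER (jn q' (jn Z₁ Z₂)) (sj q' (sj Z₁ Z₂)) := ER.of_op hencop _
  refine ⟨p.1, p.2, h1, ?_, ?_⟩
  · have h4 : ER (a.pi (X p.1)) (a.pi (A p)) :=
      a.pi_mono.mpr ((ER_jn_left _ _).trans (ER_jn_right _ _))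
    exact (h4.trans h2).trans h3
  · have h4 : ER (a.pi (Y p.2)) (a.pi (A p)) :=
      a.pi_mono.mpr ((ER_jn_right _ _).trans (ER_jn_right _ _))
    exact (h4.trans h2).trans h3

/-- **T3** -/
theorem T3 {E D : Set (Set ℕ)}
    (h : ∀ s : ℕ → Set ℕ, (∀ i, s i ∈ D) → PR E (range fun i => tg i (s i))) : PR E D := by
  by_contra hn
  obtain ⟨Φ, hΦ, hΦ'⟩ := exists_enum_IsOp (α := ℕ) (β := ℕ)
  have h1 : ∀ i, ∃ X ∈ D, Φ i (tg i X) ∉ E := by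
    intro i
    by_contra hi
    push Not at hi
    exact hn ⟨fun X => Φ i (tg i X), (hΦ i).comp (IsOp_tg i), hi⟩
  choose s hs hs' using h1
  obtain ⟨Ψ, hΨ, hΨ'⟩ := h s hs
  obtain ⟨j, rfl⟩ := hΦ' Ψ hΨ
  exact hs' j (hΨ' _ ⟨j, rfl⟩)

end ME
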