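import Pool.Agent.Helper89.MEF.H83_Step4
import Pool.Agent.Helper89.MEF.H89_MainAll

/-!
# `Pack.step4` from `step4`
-/

set_option autoImplicit false

namespace ME

open Encodable Set Filter Topology

/-- the columns of the satellites of system `j`, selected by `m`, are below `G` -/
theorem Pack.columns_sel {a : Aut} {e : Set ℕ} {f : ℕ → Bool} (P : Pack a e f) (j : Bool)
    (m : ℕ → ℕ) (hm : ER (gn m) P.G) :
    ER {q : ℕ × ℕ | q.2 ∈ P.ro (j, some (m q.1))} P.G := by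
  obtain ⟨M, hM, hMG⟩ := hm
  obtain ⟨E, hE, hEG⟩ := ER.of_cd (GF P.t P.Y univ)
  have hEG' : E P.G = GF P.t P.Y univ := hEG
  have h1 : EP (fun (X : Set ℕ) (y : (ℕ × ℕ) × (ℕ × (ℕ × Bool))) =>
      (y.1.1, y.2.1) ∈ M X ∧ y.1.2 = encode y.2.2 ∧
        (((j, some y.2.1), y.2.2.1), y.2.2.2) ∈ E X) := by
    refine EP.and ?_ (EP.and (EP.re (RE.eq (Primrec.snd.comp Primrec.fst)
      (Primrec.encode.comp (Primrec.snd.comp Primrec.snd)))) ?_)
    · exact EP.subst hM (f := fun y : (ℕ × ℕ) × (ℕ × (ℕ × Bool)) => (y.1.1, y.2.1))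
        ((Primrec.fst.comp Primrec.fst).pair (Primrec.fst.comp Primrec.snd))
    · exact EP.subst hE (f := fun y : (ℕ × ℕ) × (ℕ × (ℕ × Bool)) =>
        ((((j, some y.2.1), y.2.2.1), y.2.2.2) : (Idx × ℕ) × Bool))
        ((((Primrec.const j).pair (Primrec.option_some.comp
          (Primrec.fst.comp Primrec.snd))).pair
          (Primrec.fst.comp (Primrec.snd.comp Primrec.snd))).pair
          (Primrec.snd.comp (Primrec.snd.comp Primrec.snd)))
  refine ⟨fun X => {q : ℕ × ℕ | ∃ c : ℕ × (ℕ × Bool), (q.1, c.1) ∈ M X ∧ q.2 = encode c.2 ∧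
    (((j, some c.1), c.2.1), c.2.2) ∈ E X}, h1.ex.of_iff (fun X q => Iff.rfl), ?_⟩
  ext ⟨k, n⟩
  simp only [mem_ofPred_eq, Pack.ro, rs]
  constructor
  · rintro ⟨⟨i, p⟩, h1, h2, h3⟩
    rw [hMG] at h1
    rw [hEG'] at h3
    have h1' : m k = i := h1
    simp only at h2
    subst h1'
    exact ⟨p, h3.2, h2.symm⟩
  · rintro ⟨p, hp, rfl⟩
    refine ⟨(m k, p), ?_, rfl, ?_⟩
    · rw [hMG]
      rfl
    · rw [hEG']
      exact ⟨mem_univ _, hp⟩

/-- step 4 (from `step4`) -/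
theorem Pack.step4 {a : Aut} {e : Set ℕ} {f : ℕ → Bool} (P : Pack a e f) (m : ℕ → ℕ)
    (hm : ER (gn m) P.G) (hmono : StrictMono fun i => P.s true (m i)) :
    ER (gr (par fun i => P.s true (m i))) P.x := by
  set ν : ℕ → ℕ := fun i => P.s true (m i) with hν
  have key := ME.step4 a e P.he P.t (P.J true) (P.Y (true, none)) (P.base_not_mem true) P.r
    P.pi_r (fun y hy => P.r_ne hy) (fun i => P.Y (true, some (m i)))
    (fun i => P.pt_mem true (m i)) (P.Λ true) (P.hΛ true) (fun i => P.Λ_spec true (m i)) P.G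
    (P.ro_le_G (true, none)) (P.columns_sel true m hm)
    (fun i Θ hΘ u h1 h2 h3 => ?_) hmono (par ν) (fun n k h1 h2 => ?_)
  · exact (ER.of_cd _).trans key
  · obtain ⟨Ξ, hΞ, hΞe⟩ : ER (sj e (sj (P.ro (true, none)) (P.ro (true, some (m i)))))
        (jn P.b (jn (P.ro (true, none)) (P.ro (true, some (m i))))) :=
      ER.sj (P.e_le_b.trans (ER_jn_left _ _))
        (ER.sj ((ER_jn_left _ _).trans (ER_jn_right _ _))
          ((ER_jn_right _ _).trans (ER_jn_right _ _)))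
    obtain ⟨n, v, e1, e2, e3⟩ := P.PA_fin (m i) u h1 h2 (fun Z => Θ (Ξ Z)) (hΘ.comp hΞ) (by
      intro n
      rw [hΞe]
      exact h3 n)
    rw [hΞe] at e1
    exact ⟨n, v, e2, e1, e3⟩
  · have hk : kap ν n = k := by
      apply le_antisymm
      · exact (kap_le hmono).2 h2
      · by_contra hlt
        have h3 := h1 _ (not_le.mp hlt)
        have h4 := (kap_le hmono (n := n) (i := kap ν n)).1 le_rfl
        exact absurd h3 (not_lt.mpr h4)
    change decide (kap ν n % 2 = 1) = _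
    rw [hk]

end ME
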