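import Pool.Agent.Helper89.MEF.H83_Step4b

/-!
# Step 4 (second tree) of the rigidity theorem: `p ≤ x`
-/

set_option autoImplicit false

namespace ME

open Encodable Set Filter Topology

/-- CC: one operator codes the members of a problem, up to the automorphism -/
theorem const_code (a : Aut) {D : Set (ℕ → Bool)} {s : List Bool} (hD : ENM D s)
    (I : Set (Set ℕ)) (P : (ℕ → Bool) → Set ℕ) (hP : ∀ y ∈ D, ∃ X ∈ I, ER (a.pi X) (P y)) :
    ∃ Λ : Set ℕ → Set ℕ, IsOp Λ ∧ ∃ τ, s <+: τ ∧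
      ENM (D ∩ {y | Λ (P y) ∈ a.F I} ∩ cyl τ) τ := by
  obtain ⟨Φ, hΦ, hΦ'⟩ := exists_enum_IsOp (α := ℕ) (β := ℕ)
  obtain ⟨i, τ, h1, h2⟩ := baire_trick hD (fun i => {y | Φ i (P y) ∈ a.F I}) (by
    rintro y ⟨hy, -⟩
    obtain ⟨X, hX, hXP⟩ := hP y hy
    have e1 : PR (a.F I) (a.F {X}) := a.F_mono _ _ (PR_of_subset (singleton_subset_iff.mpr hX))
    have e2 : PR (a.F {X}) {P y} := (a.pi_spec X).1.trans (PR_singleton.mpr hXP)
    obtain ⟨Ψ, hΨ, hΨ'⟩ := e1.trans e2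
    obtain ⟨i, rfl⟩ := hΦ' Ψ hΨ
    exact mem_iUnion.mpr ⟨i, hΨ' _ rfl⟩)
  exact ⟨Φ i, hΦ i, τ, h1, h2⟩

theorem sj_mono {α β : Type} {A A' : Set α} {B B' : Set β} (h1 : A ⊆ A') (h2 : B ⊆ B') :
    sj A B ⊆ sj A' B' := by
  rintro (a | b) h
  · exact h1 h
  · exact h2 h

theorem cd_mono {α : Type} [Primcodable α] {A A' : Set α} (h : A ⊆ A') : cd A ⊆ cd A' :=
  image_mono h

/-- the labels along a branch are below the tree and the branch -/
theorem ER_rs_rho (T : List Bool → Bool) (y : ℕ → Bool) :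
    ER (rs (rho T y)) (sj (gr T) (gr y)) := by
  obtain ⟨Φ, hΦ, h⟩ := exists_rhoOp
  exact ER.cd_left ⟨Φ, hΦ, h T y⟩

theorem decide_mod_two (k : ℕ) : decide (k % 2 = 1) = k.bodd := by
  rw [Nat.mod_two_of_bodd]
  cases k.bodd <;> simp

/-- **Step 4** -/
theorem step4 (a : Aut) (e : Set ℕ)
    (he : ∀ X : Set ℕ, ER (a.pi X) (jn X e) ∧ ER X (jn (a.pi X) e))
    (t : List Bool → Bool) (J : Set (ℕ → Bool)) (a1 : ℕ → Bool) (ha1 : a1 ∉ J)
    (r : (ℕ → Bool) → ℕ → Bool)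
    (hr : ∀ y, EE (a.pi (rs (r y))) (rs (rho t y)))
    (hne : ∀ y ∈ J, r a1 ≠ r y)
    (z : ℕ → ℕ → Bool) (hz : ∀ i, z i ∈ J)
    (Λ : Set ℕ → Set ℕ) (hΛ : IsOp Λ)
    (hΛz : ∀ i, Λ (rs (rho t (z i))) ∈ a.F (range fun y : J => rs (r y)))
    (G : Set ℕ) (hG1 : ER (rs (rho t a1)) G)
    (hG2 : ER {q : ℕ × ℕ | q.2 ∈ rs (rho t (z q.1))} G)
    (hP : ∀ i, ∀ Θ : Set (ℕ ⊕ (ℕ ⊕ ℕ)) → Set (ℕ × Bool), IsOp Θ → ∀ u : List Bool,
      a1 ∉ cyl u → z i ∉ cyl u →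
      (∀ n, ∃ v, (n, v) ∈ Θ (sj e (sj (rs (rho t a1)) (rs (rho t (z i)))))) →
      ∃ n v, u.length ≤ n ∧ (n, v) ∈ Θ (sj e (sj (rs (rho t a1)) (rs (rho t (z i))))) ∧
        ∀ w, u <+: w → w.length = n → t w = !v)
    (hn : StrictMono fun i => fd (r a1) (r (z i)))
    (p : ℕ → Bool)
    (hp : ∀ n k, (∀ i < k, fd (r a1) (r (z i)) < n) → n ≤ fd (r a1) (r (z k)) →
      p n = decide (k % 2 = 1)) :
    ER (rs p) (a.symm.pi G) := by
  classical
  by_contra hpx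
  set x := a.symm.pi G with hx
  obtain ⟨Φ, hΦ, hΦ'⟩ := exists_enum_IsOp (α := ℕ ⊕ ((List Bool × Bool) ⊕ (ℕ × Bool)))
    (β := ℕ × Bool)
  obtain ⟨Γ, hΓ, hΓG⟩ := hG2
  obtain ⟨Γ1, hΓ1, hΓ1G⟩ := hG1
  -- genericity
  set C : ℕ → Set (ℕ ⊕ (ℕ ⊕ ℕ)) := fun i => sj e (sj (rs (rho t a1)) (rs (rho t (z i)))) with hC
  have hR : ∀ᶠ g : X3 in residual X3,
      (∀ i, ∀ y, y ≠ a1 → y ≠ z i →
        ¬ ER (rs (rho t y)) (sj (C i) (sj (gr g.1) (sj (gr g.2.1) (gr g.2.2))))) ∧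
      (∀ y, y ≠ g.2.1 → y ≠ g.2.2 →
        ¬ ER (rs (rho g.1 y)) (sj (jn e G) (sj (rs (rho g.1 g.2.1)) (rs (rho g.1 g.2.2))))) ∧
      ∀ k N, ¬ BadAt x p (Φ k) N g.1 g.2.1 := by
    have h1 : ∀ᶠ g : X3 in residual X3, ∀ i, ∀ y, y ≠ a1 → y ≠ z i →
        ¬ ER (rs (rho t y)) (sj (C i) (sj (gr g.1) (sj (gr g.2.1) (gr g.2.2)))) := by
      rw [eventually_countable_forall]
      intro i
      exact gen_J1 t (C i) a1 (z i) (fun Θ hΘ u h1 h2 h3 => hP i Θ hΘ u h1 h2 h3)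
    have h2 := gen_J2 (jn e G)
    have h3 : ∀ᶠ g : X3 in residual X3, ∀ k N, ¬ BadAt x p (Φ k) N g.1 g.2.1 := by
      rw [eventually_countable_forall]
      intro k
      rw [eventually_countable_forall]
      intro N
      exact gen_bad x p hpx (Φ k) (hΦ k) N
    filter_upwards [h1, h2, h3] with g e1 e2 e3
    exact ⟨e1, e2, e3⟩
  obtain ⟨T, hT⟩ := (dense_of_mem_residual (ku_residual hR)).nonempty
  have hT' := ku_residual (X := ℕ → Bool) (Y := ℕ → Bool) hT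
  obtain ⟨CC, hCC1, hCC2, -, hCC3⟩ :=
    ((ENM_univ []).inter_residual hT').exists_countable_dense
  have hYres : ∀ᶠ y in residual (ℕ → Bool), ∀ A ∈ CC,
      (∀ i, ∀ y', y' ≠ a1 → y' ≠ z i →
        ¬ ER (rs (rho t y')) (sj (C i) (sj (gr T) (sj (gr A) (gr y))))) ∧
      (∀ y', y' ≠ A → y' ≠ y →
        ¬ ER (rs (rho T y')) (sj (jn e G) (sj (rs (rho T A)) (rs (rho T y))))) ∧
      ∀ k N, ¬ BadAt x p (Φ k) N T A :=
    (eventually_countable_ball hCC2).mpr (fun A hA => (hCC1 hA).2)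
  set J' : Set (ℕ → Bool) := (univ ∩ {y | ∀ A ∈ CC,
      (∀ i, ∀ y', y' ≠ a1 → y' ≠ z i →
        ¬ ER (rs (rho t y')) (sj (C i) (sj (gr T) (sj (gr A) (gr y))))) ∧
      (∀ y', y' ≠ A → y' ≠ y →
        ¬ ER (rs (rho T y')) (sj (jn e G) (sj (rs (rho T A)) (rs (rho T y))))) ∧
      ∀ k N, ¬ BadAt x p (Φ k) N T A}) \ CC with hJ'
  have hJ'ENM : ENM J' [] := ((ENM_univ []).inter_residual hYres).diff_countable hCC2
  set w : (ℕ → Bool) → Set ℕ := fun y => a.pi (rs (rho T y)) with hw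
  obtain ⟨Λ', hΛ', v, hv, hD'ENM⟩ := const_code a hJ'ENM (range fun y : J' => rs (rho T y)) w
    (fun y hy => ⟨_, ⟨⟨y, hy⟩, rfl⟩, ER.refl _⟩)
  set D' : Set (ℕ → Bool) :=
    J' ∩ {y | Λ' (w y) ∈ a.F (range fun y : J' => rs (rho T y))} ∩ cyl v with hD'
  obtain ⟨Λ2, hΛ2, v2, hv2, hD''ENM⟩ := const_code a.symm hD'ENM (range fun y : D' => w y)
    (fun y => rs (rho T y)) (fun y hy => ⟨_, ⟨⟨y, hy⟩, rfl⟩, (a.pi_symm _).1⟩)
  set D'' : Set (ℕ → Bool) :=
    D' ∩ {y | Λ2 (rs (rho T y)) ∈ a.symm.F (range fun y : D' => w y)} ∩ cyl v2 with hD''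
  obtain ⟨A, hA, hAv2⟩ := hCC3 v2 List.nil_prefix
  -- facts about points of `J'`
  have hJA : ∀ y ∈ J', y ≠ A := by
    rintro y hy rfl
    exact hy.2 hA
  have hJ1 : ∀ y ∈ J', ∀ i, ∀ y', y' ≠ a1 → y' ≠ z i →
        ¬ ER (rs (rho t y')) (sj (C i) (sj (gr T) (sj (gr A) (gr y)))) :=
    fun y hy => (hy.1.2 A hA).1
  have hJ2 : ∀ y ∈ J', ∀ y', y' ≠ A → y' ≠ y →
        ¬ ER (rs (rho T y')) (sj (jn e G) (sj (rs (rho T A)) (rs (rho T y)))) :=
    fun y hy => (hy.1.2 A hA).2.1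
  have hJne : ∀ y ∈ J', rho T A ≠ rho T y := by
    intro y hy heq
    obtain ⟨y2, hy2, hy2'⟩ := hJ'ENM.exists_mem (t := [!y 0]) List.nil_prefix
    have hy20 : y2 0 = !y 0 := by
      have h1 : pre y2 1 = [!y 0] := hy2'
      have h2 : pre y2 1 = [y2 0] := rfl
      rw [h2] at h1
      simpa using h1
    have hne2 : y ≠ y2 := by
      rintro rfl
      cases h : y 0 <;> simp [h] at hy20
    refine hJ2 y2 hy2 y (hJA y hy) hne2 ?_
    rw [← heq]
    exact (ER.left _ _).trans (ER.right _ _)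
  -- reductions
  have hwA : ∀ y, ER (w y) (jn (rs (rho T y)) e) := fun y => (he _).1
  have hzG : ∀ i, ER (rs (rho t (z i))) G := by
    intro i
    have h1 : ER (rs (rho t (z i))) {q : ℕ × ℕ | q.2 ∈ rs (rho t (z q.1))} := by
      refine ⟨fun Z => {b | (i, b) ∈ Z}, EP.mem (f := fun b : ℕ => (i, b))
        ((Primrec.const i).pair Primrec.id), rfl⟩
    exact h1.trans ⟨Γ, hΓ, hΓG⟩
  have ha1G : ER (rs (rho t a1)) G := ⟨Γ1, hΓ1, hΓ1G⟩
  -- (C)
  obtain ⟨K, hK, hK'⟩ := exists_cmpOp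
  set q : Set ℕ := jn (rs (r a1)) (rs (rho T A)) with hq
  set q' : Set ℕ := jn (rs (rho t a1)) (w A) with hq'
  have hqq : ER (a.pi q) q' := (a.pi_jn _ _).1.trans
    (ER_jn ((hr a1).1.trans (ER_jn_left _ _)) (ER_jn_right _ _))
  have hLin : IsOp (fun Z : Set (ℕ ⊕ (ℕ ⊕ ℕ)) => (dc {n | Sum.inl n ∈ Z} : Set (ℕ ⊕ ℕ))) :=
    IsOp.comp (Φ := fun Z : Set ℕ => (dc Z : Set (ℕ ⊕ ℕ))) IsOp.dc IsOp.inl
  have hg1 : IsOp (fun Z : Set (ℕ ⊕ (ℕ ⊕ ℕ)) =>
      (dc {n | Sum.inl n ∈ (dc {n | Sum.inl n ∈ Z} : Set (ℕ ⊕ ℕ))} : Set (ℕ × Bool))) :=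
    IsOp.comp (Φ := fun Z : Set ℕ => (dc Z : Set (ℕ × Bool))) IsOp.dc
      (IsOp.comp (Φ := fun Z : Set (ℕ ⊕ ℕ) => {n | Sum.inl n ∈ Z}) IsOp.inl hLin)
  have hg3 : IsOp (fun Z : Set (ℕ ⊕ (ℕ ⊕ ℕ)) =>
      (dc {n | Sum.inr n ∈ (dc {n | Sum.inl n ∈ Z} : Set (ℕ ⊕ ℕ))} : Set (ℕ × Bool))) :=
    IsOp.comp (Φ := fun Z : Set ℕ => (dc Z : Set (ℕ × Bool))) IsOp.dc
      (IsOp.comp (Φ := fun Z : Set (ℕ ⊕ ℕ) => {n | Sum.inr n ∈ Z}) IsOp.inr hLin)
  have hg2 : IsOp (fun Z : Set (ℕ ⊕ (ℕ ⊕ ℕ)) =>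
      (dc {n | Sum.inr (Sum.inl n) ∈ Z} : Set (ℕ × Bool))) :=
    IsOp.comp (Φ := fun Z : Set ℕ => (dc Z : Set (ℕ × Bool))) IsOp.dc
      (EP.mem (f := fun n : ℕ => (Sum.inr (Sum.inl n) : ℕ ⊕ (ℕ ⊕ ℕ)))
        (Primrec.sumInr.comp Primrec.sumInl))
  have hg4 : IsOp (fun Z : Set (ℕ ⊕ (ℕ ⊕ ℕ)) =>
      (dc {n | Sum.inr (Sum.inr n) ∈ Z} : Set (ℕ × Bool))) :=
    IsOp.comp (Φ := fun Z : Set ℕ => (dc Z : Set (ℕ × Bool))) IsOp.dc
      (EP.mem (f := fun n : ℕ => (Sum.inr (Sum.inr n) : ℕ ⊕ (ℕ ⊕ ℕ)))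
        (Primrec.sumInr.comp Primrec.sumInr))
  obtain ⟨ΘC, hΘC, hCad⟩ := AD2 a q q' hqq (fun y : J => rs (r y))
    (fun y : J' => rs (rho T y))
    (fun y y' => decide (fd (r a1) (r y) < fd (rho T A) (rho T y')))
    (fun Z => K (sj (dc {n | Sum.inl n ∈ (dc {n | Sum.inl n ∈ Z} : Set (ℕ ⊕ ℕ))})
      (sj (dc {n | Sum.inr (Sum.inl n) ∈ Z})
        (sj (dc {n | Sum.inr n ∈ (dc {n | Sum.inl n ∈ Z} : Set (ℕ ⊕ ℕ))})
          (dc {n | Sum.inr (Sum.inr n) ∈ Z})))))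
    (hK.comp (IsOp.sj hg1 (IsOp.sj hg2 (IsOp.sj hg3 hg4))))
    (by
      intro y y'
      have e1 : (dc {n | Sum.inl n ∈ sj q (sj (rs (r y)) (rs (rho T y')))} : Set (ℕ ⊕ ℕ)) =
          sj (rs (r a1)) (rs (rho T A)) := dc_cd _
      have e2 : ∀ h : ℕ → Bool, (dc (rs h) : Set (ℕ × Bool)) = gr h := fun h => dc_cd _
      have e3 := hK' (r a1) (r y) (rho T A) (rho T y') (hne y y.2) (hJne y' y'.2)
      rw [← e3, ← e2 (r a1), ← e2 (r y), ← e2 (rho T A), ← e2 (rho T y')]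
      simp only [e1]
      rfl)
  have hCC' : ∀ i, ∀ y ∈ D', ΘC (sj q' (sj (Λ (rs (rho t (z i)))) (Λ' (w y)))) =
      {decide (fd (r a1) (r (z i)) < fd (rho T A) (rho T y))} := by
    intro i y hy
    have hyJ : y ∈ J' := hy.1.1
    obtain ⟨⟨y1, hy1⟩, ⟨y2, hy2⟩, h1, h2, h3⟩ := hCad _ (hΛz i) _ hy.1.2
    simp only at h1 h2 h3
    have hy1z : y1 = z i := by
      by_contra hne1
      refine hJ1 y hyJ i y1 (fun h => ha1 (h ▸ hy1)) hne1 ?_
      set big := sj (C i) (sj (gr T) (sj (gr A) (gr y))) with hbig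
      have b0 : ER e big := (ER.left _ _).trans (ER.left _ _)
      have b1 : ER (rs (rho t a1)) big := ((ER.left _ _).trans (ER.right _ _)).trans (ER.left _ _)
      have b2 : ER (rs (rho t (z i))) big :=
        ((ER.right _ _).trans (ER.right _ _)).trans (ER.left _ _)
      have bT : ER (gr T) big := (ER.left _ _).trans (ER.right _ _)
      have bA : ER (gr A) big := ((ER.left _ _).trans (ER.right _ _)).trans (ER.right _ _)
      have by' : ER (gr y) big := ((ER.right _ _).trans (ER.right _ _)).trans (ER.right _ _)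
      have b3 : ER (w A) big := (hwA A).trans (ER_jn ((ER_rs_rho T A).trans (ER.sj bT bA)) b0)
      have b4 : ER (w y) big := (hwA y).trans (ER_jn ((ER_rs_rho T y).trans (ER.sj bT by')) b0)
      have b5 : ER q' big := ER_jn b1 b3
      exact ((hr y1).2.trans h2).trans
        (ER.sj b5 (ER.sj ((ER.of_op hΛ _).trans b2) ((ER.of_op hΛ' _).trans b4)))
    have hy2y : y2 = y := by
      by_contra hne2
      refine hJ2 y hyJ y2 (hJA y2 hy2) hne2 ?_
      set big := sj (jn e G) (sj (rs (rho T A)) (rs (rho T y))) with hbig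
      have b0 : ER e big := (ER_jn_left _ _).trans (ER.left _ _)
      have bG : ER G big := (ER_jn_right _ _).trans (ER.left _ _)
      have bA : ER (rs (rho T A)) big := (ER.left _ _).trans (ER.right _ _)
      have by' : ER (rs (rho T y)) big := (ER.right _ _).trans (ER.right _ _)
      have b3 : ER (w A) big := (hwA A).trans (ER_jn bA b0)
      have b4 : ER (w y) big := (hwA y).trans (ER_jn by' b0)
      have b5 : ER q' big := ER_jn (ha1G.trans bG) b3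
      have b6 := ER.sj b5 (ER.sj ((ER.of_op hΛ _).trans ((hzG i).trans bG))
        ((ER.of_op hΛ' _).trans b4))
      exact (he _).2.trans (ER_jn (h3.trans b6) b0)
    subst hy1z
    subst hy2y
    exact h1
  -- (D)
  set p' : Set ℕ := jn G (w A) with hp'
  set p'' : Set ℕ := jn x (rs (rho T A)) with hp''
  have hpp : ER (a.symm.pi p') p'' := (a.symm.pi_jn _ _).1.trans
    (ER_jn (ER_jn_left _ _) ((a.pi_symm _).1.trans (ER_jn_right _ _)))
  have hLin2 : IsOp (fun Z : Set (ℕ ⊕ ℕ) => (dc {n | Sum.inl n ∈ Z} : Set (ℕ ⊕ ℕ))) :=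
    IsOp.comp (Φ := fun Z : Set ℕ => (dc Z : Set (ℕ ⊕ ℕ))) IsOp.dc IsOp.inl
  have hGZ : IsOp (fun Z : Set (ℕ ⊕ ℕ) =>
      {n | Sum.inl n ∈ (dc {n | Sum.inl n ∈ Z} : Set (ℕ ⊕ ℕ))}) :=
    IsOp.comp (Φ := fun Z : Set (ℕ ⊕ ℕ) => {n | Sum.inl n ∈ Z}) IsOp.inl hLin2
  have hWA : IsOp (fun Z : Set (ℕ ⊕ ℕ) =>
      {n | Sum.inr n ∈ (dc {n | Sum.inl n ∈ Z} : Set (ℕ ⊕ ℕ))}) :=
    IsOp.comp (Φ := fun Z : Set (ℕ ⊕ ℕ) => {n | Sum.inr n ∈ Z}) IsOp.inr hLin2
  have hWY : IsOp (fun Z : Set (ℕ ⊕ ℕ) => {n | Sum.inr n ∈ Z}) := IsOp.inr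
  set TT : ℕ → Set (ℕ ⊕ ℕ) → Set Bool := fun i Z =>
    ΘC (sj (jn (Γ1 {n | Sum.inl n ∈ (dc {n | Sum.inl n ∈ Z} : Set (ℕ ⊕ ℕ))})
        {n | Sum.inr n ∈ (dc {n | Sum.inl n ∈ Z} : Set (ℕ ⊕ ℕ))})
      (sj (Λ {b | (i, b) ∈ Γ {n | Sum.inl n ∈ (dc {n | Sum.inl n ∈ Z} : Set (ℕ ⊕ ℕ))}})
        (Λ' {n | Sum.inr n ∈ Z}))) with hTT
  have hTTop : IsOpP TT := by
    refine IsOpP.comp hΘC (IsOpP.sj (IsOp.toP ?_) (IsOpP.sj (IsOpP.comp hΛ ?_)
      (IsOp.toP (hΛ'.comp hWY))))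
    · exact (IsOp.sj (hΓ1.comp hGZ) hWA).cd
    · exact IsOpP.section (hΓ.comp hGZ)
  have hTTval : ∀ i, ∀ y ∈ D', TT i (sj p' (w y)) =
      {decide (fd (r a1) (r (z i)) < fd (rho T A) (rho T y))} := by
    intro i y hy
    have e1 : (dc {n | Sum.inl n ∈ sj p' (w y)} : Set (ℕ ⊕ ℕ)) = sj G (w A) := dc_cd _
    have e2 : {b | (i, b) ∈ Γ {n | Sum.inl n ∈ (dc {n | Sum.inl n ∈ sj p' (w y)} :
        Set (ℕ ⊕ ℕ))}} = rs (rho t (z i)) := by
      rw [e1]
      change {b | (i, b) ∈ Γ G} = _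
      rw [hΓG]
      rfl
    rw [← hCC' i y hy]
    simp only [hTT]
    rw [e2, e1]
    change ΘC (sj (jn (Γ1 G) (w A)) (sj (Λ (rs (rho t (z i)))) (Λ' (w y)))) = _
    rw [hΓ1G]
  have hThD : IsOp (fun Z : Set (ℕ ⊕ ℕ) => {v : Bool | ∃ k : ℕ,
      (∀ i ∈ List.range k, true ∈ TT i Z) ∧ false ∈ TT k Z ∧ v = k.bodd}) := by
    have h1 : EP (fun (Z : Set (ℕ ⊕ ℕ)) (y : Bool × ℕ) =>
        ∀ i ∈ List.range y.2, true ∈ TT i Z) := by
      have h2 : EP (fun (Z : Set (ℕ ⊕ ℕ)) (y : (Bool × ℕ) × ℕ) => true ∈ TT y.2 Z) :=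
        EP.subst hTTop (f := fun y : (Bool × ℕ) × ℕ => (y.2, true))
          (Primrec.snd.pair (Primrec.const true))
      exact EP.ball (P := fun (Z : Set (ℕ ⊕ ℕ)) (y : (Bool × ℕ) × ℕ) => true ∈ TT y.2 Z) h2
        (g := fun y : Bool × ℕ => List.range y.2) (Primrec.list_range.comp Primrec.snd)
    have h2 : EP (fun (Z : Set (ℕ ⊕ ℕ)) (y : Bool × ℕ) => false ∈ TT y.2 Z) :=
      EP.subst hTTop (f := fun y : Bool × ℕ => (y.2, false))
        (Primrec.snd.pair (Primrec.const false))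
    have h3 : EP (fun (Z : Set (ℕ ⊕ ℕ)) (y : Bool × ℕ) => y.1 = y.2.bodd) :=
      EP.re (RE.eq Primrec.fst (Primrec.nat_bodd.comp Primrec.snd))
    exact (EP.and h1 (EP.and h2 h3)).ex
  obtain ⟨Θ8, hΘ8, hDad⟩ := AD1 a.symm p' p'' hpp (fun y : D' => w y)
    (fun y => p (fd (rho T A) (rho T y))) _ hThD (by
      rintro ⟨y, hy⟩
      set n := fd (rho T A) (rho T y) with hnn
      have hkey : ∀ k, ((∀ i ∈ List.range k, true ∈ TT i (sj p' (w y))) ∧
          false ∈ TT k (sj p' (w y))) ↔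
          ((∀ i < k, fd (r a1) (r (z i)) < n) ∧ n ≤ fd (r a1) (r (z k))) := by
        intro k
        simp only [hTTval _ y hy, List.mem_range, mem_singleton_iff]
        constructor
        · rintro ⟨h1, h2⟩
          refine ⟨fun i hi => ?_, ?_⟩
          · have := h1 i hi
            exact of_decide_eq_true this.symm
          · have := of_decide_eq_false h2.symm
            omega
        · rintro ⟨h1, h2⟩
          refine ⟨fun i hi => (decide_eq_true (h1 i hi)).symm, ?_⟩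
          exact (decide_eq_false (by omega)).symm
      have hex : ∃ k, (∀ i < k, fd (r a1) (r (z i)) < n) ∧ n ≤ fd (r a1) (r (z k)) := by
        have h1 : ∃ k, n ≤ fd (r a1) (r (z k)) := ⟨n, hn.le_apply⟩
        exact ⟨Nat.find h1, fun i hi => not_le.mp (Nat.find_min h1 hi), Nat.find_spec h1⟩
      ext v
      rw [mem_ofPred_eq, mem_singleton_iff]
      constructor
      · rintro ⟨k, h1, h2, rfl⟩
        obtain ⟨h3, h4⟩ := (hkey k).mp ⟨h1, h2⟩
        rw [hp n k h3 h4, decide_mod_two]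
      · rintro rfl
        obtain ⟨k, h3, h4⟩ := hex
        obtain ⟨h1, h2⟩ := (hkey k).mpr ⟨h3, h4⟩
        exact ⟨k, h1, h2, by rw [hp n k h3 h4, decide_mod_two]⟩)
  have hDval : ∀ y ∈ D'', Θ8 (sj p'' (Λ2 (rs (rho T y)))) = {p (fd (rho T A) (rho T y))} := by
    intro y hy
    have hyJ : y ∈ J' := hy.1.1.1.1
    obtain ⟨⟨y', hy'⟩, h1, h2⟩ := hDad _ hy.1.2
    simp only at h1 h2
    have hyy : y' = y := by
      by_contra hne2
      refine hJ2 y hyJ y' (hJA y' hy'.1.1) hne2 ?_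
      set big := sj (jn e G) (sj (rs (rho T A)) (rs (rho T y))) with hbig
      have b0 : ER e big := (ER_jn_left _ _).trans (ER.left _ _)
      have bG : ER G big := (ER_jn_right _ _).trans (ER.left _ _)
      have bA : ER (rs (rho T A)) big := (ER.left _ _).trans (ER.right _ _)
      have by' : ER (rs (rho T y)) big := (ER.right _ _).trans (ER.right _ _)
      have bx : ER x big := (he x).2.trans (ER_jn ((a.symm_pi G).1.trans bG) b0)
      have b1 : ER p'' big := ER_jn bx bA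
      exact ((a.pi_symm _).2.trans h2).trans (ER.sj b1 ((ER.of_op hΛ2 _).trans by'))
    rw [h1, hyy]
  -- (E)
  obtain ⟨Φr, hΦr, hΦr'⟩ := exists_rhoOp
  let Z3 : Type := ℕ ⊕ ((List Bool × Bool) ⊕ (ℕ × Bool))
  set TZ : Set Z3 → Set (List Bool × Bool) := fun Z => {q | Sum.inr (Sum.inl q) ∈ Z} with hTZ
  set AZ : Set Z3 → Set (ℕ × Bool) := fun Z => {q | Sum.inr (Sum.inr q) ∈ Z} with hAZ
  have hTZop : IsOp TZ := EP.mem (f := fun q : List Bool × Bool => (Sum.inr (Sum.inl q) : Z3))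
    (Primrec.sumInr.comp Primrec.sumInl)
  have hAZop : IsOp AZ := EP.mem (f := fun q : ℕ × Bool => (Sum.inr (Sum.inr q) : Z3))
    (Primrec.sumInr.comp Primrec.sumInr)
  set RA : Set Z3 → Set (ℕ × Bool) := fun Z => Φr (sj (TZ Z) (AZ Z)) with hRA
  have hRAop : IsOp RA := hΦr.comp (IsOp.sj hTZop hAZop)
  set LB : List Bool → Set Z3 → Set (ℕ × Bool) := fun u Z =>
    {s | s.1 ≤ u.length ∧ (u.take s.1, s.2) ∈ TZ Z} with hLB
  have hLBop : IsOpP LB := by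
    have h1 : EP (fun (Z : Set Z3) (y : List Bool × (ℕ × Bool)) => y.2.1 ≤ y.1.length) := by
      refine EP.re (RE.prim ?_)
      have h : PrimrecRel (fun a b : ℕ => a ≤ b) := Primrec.nat_le
      exact primrecRel_comp h (Primrec.fst.comp Primrec.snd) (Primrec.list_length.comp Primrec.fst)
    have h2 : EP (fun (Z : Set Z3) (y : List Bool × (ℕ × Bool)) =>
        (y.1.take y.2.1, y.2.2) ∈ TZ Z) :=
      EP.subst hTZop (f := fun y : List Bool × (ℕ × Bool) => (y.1.take y.2.1, y.2.2))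
        ((Primrec.list_take.comp (Primrec.fst.comp Primrec.snd) Primrec.fst).pair
          (Primrec.snd.comp Primrec.snd))
    exact EP.and h1 h2
  set VV : List Bool → Set Z3 → Set Bool := fun u Z =>
    Θ8 (sj (jn {n | Sum.inl n ∈ Z} (cd (RA Z))) (Λ2 (cd (LB u Z)))) with hVV
  have hVVop : IsOpP VV := by
    refine IsOpP.comp hΘ8 (IsOpP.sj (IsOp.toP ?_) (IsOpP.comp hΛ2 ?_))
    · exact (IsOp.sj IsOp.inl hRAop.cd).cd
    · exact IsOpP.comp (Θ := fun Z : Set (ℕ × Bool) => cd Z) (IsOp.cd IsOp.id) hLBop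
  set Xi : Set Z3 → Set (ℕ × Bool) := fun Z => {s | ∃ u : List Bool,
    (v2 = u.take v2.length ∧ s.1 ≤ u.length) ∧
    (∀ k ∈ List.range s.1, ∃ b, (k, b) ∈ RA Z ∧ (u.take k, b) ∈ TZ Z) ∧
    (∃ b, (s.1, b) ∈ RA Z ∧ (u.take s.1, !b) ∈ TZ Z) ∧ s.2 ∈ VV u Z} with hXi
  have hXiop : IsOp Xi := by
    have h1 : EP (fun (Z : Set Z3) (y : (ℕ × Bool) × List Bool) =>
        v2 = y.2.take v2.length ∧ y.1.1 ≤ y.2.length) := by
      refine EP.re (RE.and (RE.eq (Primrec.const v2)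
        (Primrec.list_take.comp (Primrec.const v2.length) Primrec.snd)) (RE.prim ?_))
      have h : PrimrecRel (fun a b : ℕ => a ≤ b) := Primrec.nat_le
      exact primrecRel_comp h (Primrec.fst.comp Primrec.fst)
        (Primrec.list_length.comp Primrec.snd)
    have h2 : EP (fun (Z : Set Z3) (y : (ℕ × Bool) × List Bool) =>
        ∀ k ∈ List.range y.1.1, ∃ b, (k, b) ∈ RA Z ∧ (y.2.take k, b) ∈ TZ Z) := by
      have e1 : EP (fun (Z : Set Z3) (y : (((ℕ × Bool) × List Bool) × ℕ) × Bool) =>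
          (y.1.2, y.2) ∈ RA Z) :=
        EP.subst hRAop (f := fun y : (((ℕ × Bool) × List Bool) × ℕ) × Bool => (y.1.2, y.2))
          ((Primrec.snd.comp Primrec.fst).pair Primrec.snd)
      have e2 : EP (fun (Z : Set Z3) (y : (((ℕ × Bool) × List Bool) × ℕ) × Bool) =>
          (y.1.1.2.take y.1.2, y.2) ∈ TZ Z) :=
        EP.subst hTZop (f := fun y : (((ℕ × Bool) × List Bool) × ℕ) × Bool =>
            (y.1.1.2.take y.1.2, y.2))
          ((Primrec.list_take.comp (Primrec.snd.comp Primrec.fst)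
            (Primrec.snd.comp (Primrec.fst.comp Primrec.fst))).pair Primrec.snd)
      exact EP.ball (P := fun (Z : Set Z3) (y : ((ℕ × Bool) × List Bool) × ℕ) =>
          ∃ b, (y.2, b) ∈ RA Z ∧ (y.1.2.take y.2, b) ∈ TZ Z) (EP.and e1 e2).ex
        (g := fun y => List.range y.1.1) (Primrec.list_range.comp (Primrec.fst.comp Primrec.fst))
    have h3 : EP (fun (Z : Set Z3) (y : (ℕ × Bool) × List Bool) =>
        ∃ b, (y.1.1, b) ∈ RA Z ∧ (y.2.take y.1.1, !b) ∈ TZ Z) := by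
      have e1 : EP (fun (Z : Set Z3) (y : ((ℕ × Bool) × List Bool) × Bool) =>
          (y.1.1.1, y.2) ∈ RA Z) :=
        EP.subst hRAop (f := fun y : ((ℕ × Bool) × List Bool) × Bool => (y.1.1.1, y.2))
          ((Primrec.fst.comp (Primrec.fst.comp Primrec.fst)).pair Primrec.snd)
      have e2 : EP (fun (Z : Set Z3) (y : ((ℕ × Bool) × List Bool) × Bool) =>
          (y.1.2.take y.1.1.1, !y.2) ∈ TZ Z) :=
        EP.subst hTZop (f := fun y : ((ℕ × Bool) × List Bool) × Bool =>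
            (y.1.2.take y.1.1.1, !y.2))
          ((Primrec.list_take.comp (Primrec.fst.comp (Primrec.fst.comp Primrec.fst))
            (Primrec.snd.comp Primrec.fst)).pair (Primrec.not.comp Primrec.snd))
      exact (EP.and e1 e2).ex
    have h4 : EP (fun (Z : Set Z3) (y : (ℕ × Bool) × List Bool) => y.1.2 ∈ VV y.2 Z) :=
      EP.subst hVVop (f := fun y : (ℕ × Bool) × List Bool => (y.2, y.1.2))
        (Primrec.snd.pair (Primrec.snd.comp Primrec.fst))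
    exact (EP.and h1 (EP.and h2 (EP.and h3 h4))).ex
  -- values at the second tree
  set Z0 : Set Z3 := sj x (sj (gr T) (gr A)) with hZ0
  have hRA0 : RA Z0 = gr (rho T A) := hΦr' T A
  have hsound : Xi Z0 ⊆ gr p := by
    rintro ⟨n, b0⟩ ⟨u, ⟨hu1, hu2⟩, hu3, ⟨c, hu4, hu5⟩, hu6⟩
    simp only at hu2 hu3 hu4 hu5 hu6
    have hv2u : v2 <+: u := List.prefix_iff_eq_take.mpr hu1
    obtain ⟨y, hyD, hyu⟩ := hD''ENM.exists_mem hv2u
    have hpre : ∀ k ≤ u.length, pre y k = u.take k := fun k hk => pre_apply_of_prefix hyu hk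
    have hfd : fd (rho T A) (rho T y) = n := by
      refine fd_unique (fun i hi => ?_) ?_
      · obtain ⟨b, hb1, hb2⟩ := hu3 i (List.mem_range.mpr hi)
        rw [hRA0] at hb1
        have e1 : rho T A i = b := hb1
        have e2 : T (u.take i) = b := hb2
        rw [e1]
        change b = T (pre y i)
        rw [hpre i (by omega), e2]
      · rw [hRA0] at hu4
        have e1 : rho T A n = c := hu4
        have e2 : T (u.take n) = !c := hu5
        rw [e1]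
        change c ≠ T (pre y n)
        rw [hpre n hu2, e2]
        cases c <;> simp
    have hLBsub : LB u Z0 ⊆ gr (rho T y) := by
      rintro ⟨k, b⟩ ⟨h1, h2⟩
      have e2 : T (u.take k) = b := h2
      change T (pre y k) = b
      rw [hpre k h1, e2]
    have hmem : b0 ∈ Θ8 (sj p'' (Λ2 (rs (rho T y)))) := by
      refine hΘ8.mono ?_ hu6
      refine sj_mono ?_ (hΛ2.mono (cd_mono hLBsub))
      refine cd_mono (sj_mono (fun n hn => hn) ?_)
      rw [hRA0]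
      exact fun n hn => hn
    rw [hDval y hyD, hfd] at hmem
    exact hmem.symm
  have hcomp : ∀ n, v2.length ≤ n → T (pre A (n + 1)) ≠ T (pre A n ++ [!A n]) →
      (n + 1, p (n + 1)) ∈ Xi Z0 := by
    intro n hn hTn
    set u0 : List Bool := pre A n ++ [!A n] with hu0
    have hu0l : u0.length = n + 1 := by simp [hu0]
    have hv2A : v2 <+: pre A n := prefix_pre_of_mem_cyl hAv2 hn
    have hv2u0 : v2 <+: u0 := hv2A.trans (List.prefix_append _ _)
    obtain ⟨y, hyD, hyu⟩ := hD''ENM.exists_mem hv2u0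
    have hpreA : ∀ k ≤ n, pre y k = pre A k := by
      intro k hk
      rw [pre_apply_of_prefix hyu (by omega), hu0, List.take_append_of_le_length (by simpa using hk)]
      have h1 : pre A k <+: pre A n := pre_prefix A hk
      have h2 := List.prefix_iff_eq_take.mp h1
      rw [length_pre] at h2
      exact h2.symm
    have hpre1 : pre y (n + 1) = u0 := by
      have h1 : pre y u0.length = u0 := hyu
      rwa [hu0l] at h1
    have hfd : fd (rho T A) (rho T y) = n + 1 := by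
      refine fd_unique (fun i hi => ?_) ?_
      · change T (pre A i) = T (pre y i)
        rw [hpreA i (by omega)]
      · change T (pre A (n + 1)) ≠ T (pre y (n + 1))
        rw [hpre1]
        exact hTn
    have hmem : p (n + 1) ∈ Θ8 (sj p'' (Λ2 (rs (rho T y)))) := by
      rw [hDval y hyD, hfd]
      rfl
    have hcop : IsOp (fun Y : Set (ℕ ⊕ ℕ) =>
        Θ8 (sj {n | Sum.inl n ∈ Y} (Λ2 {n | Sum.inr n ∈ Y}))) :=
      hΘ8.comp (IsOp.sj IsOp.inl (hΛ2.comp IsOp.inr))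
    obtain ⟨l, hl1, hl2⟩ := hcop.compact (X := sj p'' (rs (rho T y))) hmem
    set f : ℕ ⊕ ℕ → ℕ := fun s => Sum.elim (fun _ => 0)
      (fun m => ((decode m : Option (ℕ × Bool)).elim 0 Prod.fst)) s with hf
    set M := max (l.toFinset.sup f) (n + 1) with hM
    set u := pre y M with hu
    have hul : u.length = M := length_pre _ _
    have hM1 : n + 1 ≤ M := le_max_right _ _
    have htake : ∀ k ≤ M, u.take k = pre y k := by
      intro k hk
      have h1 : pre y k <+: pre y M := pre_prefix y hk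
      have h2 := List.prefix_iff_eq_take.mp h1
      rw [length_pre] at h2
      exact h2.symm
    refine ⟨u, ⟨?_, ?_⟩, ?_, ?_, ?_⟩
    · have h1 : v2 <+: u := by
        have h2 : u0 <+: u := by
          rw [← hpre1]
          exact pre_prefix y hM1
        exact hv2u0.trans h2
      exact List.prefix_iff_eq_take.mp h1
    · rw [hul]; exact hM1
    · intro k hk
      have hk' : k < n + 1 := List.mem_range.mp hk
      refine ⟨rho T A k, ?_, ?_⟩
      · rw [hRA0]; rfl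
      · change T (u.take k) = T (pre A k)
        rw [htake k (by omega), hpreA k (by omega)]
    · refine ⟨rho T A (n + 1), ?_, ?_⟩
      · rw [hRA0]; rfl
      · change T (u.take (n + 1)) = !T (pre A (n + 1))
        rw [htake _ hM1, hpre1]
        cases h1 : T (pre A (n + 1)) <;> cases h2 : T u0 <;> simp [h1, h2] at hTn ⊢
    · change p (n + 1) ∈ Θ8 (sj (jn {n | Sum.inl n ∈ Z0} (cd (RA Z0))) (Λ2 (cd (LB u Z0))))
      refine hΘ8.mono ?_ hl2
      refine sj_mono ?_ (hΛ2.mono ?_)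
      · intro m hm
        have h1 : m ∈ p'' := hl1 _ hm
        rw [hRA0]
        exact h1
      · intro m hm
        have h1 : m ∈ rs (rho T y) := hl1 _ hm
        obtain ⟨⟨k, b⟩, hk, rfl⟩ := h1
        refine ⟨(k, b), ⟨?_, ?_⟩, rfl⟩
        · rw [hul]
          have h2 := Finset.le_sup (f := f) (List.mem_toFinset.mpr hm)
          have h3 : f (Sum.inr (encode (k, b))) = k := by simp [hf]
          rw [h3] at h2
          exact h2.trans (le_max_left _ _)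
        · have h2 := Finset.le_sup (f := f) (List.mem_toFinset.mpr hm)
          have h3 : f (Sum.inr (encode (k, b))) = k := by simp [hf]
          rw [h3] at h2
          change T (u.take k) = b
          rw [htake k (h2.trans (le_max_left _ _))]
          exact hk
  obtain ⟨k, hk⟩ := hΦ' Xi hXiop
  obtain ⟨y0, hy0, -⟩ := hJ'ENM.exists_mem (t := []) List.nil_prefix
  refine (hy0.1.2 A hA).2.2 k v2.length ?_
  rw [hk]
  exact ⟨hsound, hcomp⟩

end ME
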