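import Pool.Agent.Helper89.MEF.H91_JDefs

/-!
# The JAMS construction: correctness (combinatorial part)
-/

set_option autoImplicit false

namespace ME.JD

open Filter

theorem next_cases (q : ℕ × ℕ → ℕ → Prop) (s : ℕ) (h : List Ent) :
    (next q s h = h ∧ ∀ e ∈ cands s h, ¬ Perm q s h e) ∨
      ∃ e ∈ cands s h, Perm q s h e ∧ next q s h = e :: h := by
  unfold next
  split
  · next hf =>
    left
    refine ⟨rfl, fun e he hp => ?_⟩
    have := List.find?_eq_none.1 hf e he
    simp only [decide_eq_true_eq] at this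
    exact this hp
  · next e hf =>
    right
    refine ⟨e, List.mem_of_find?_eq_some hf, ?_, rfl⟩
    have := List.find?_some hf
    simpa using this

theorem inW_mono {h h' : List Ent} (hs : ∀ e ∈ h, e ∈ h') {a b : ℕ} (H : inW h a b) :
    inW h' a b := by
  obtain ⟨e, he, f, hf, h1, h2, h3⟩ := H
  exact ⟨e, hs e he, f, hs f hf, h1, h2, h3⟩

theorem Hist_succ_sub (q : ℕ × ℕ → ℕ → Prop) (s : ℕ) : ∀ e ∈ Hist q s, e ∈ Hist q (s + 1) := by
  intro e he
  show e ∈ next q s (Hist q s)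
  rcases next_cases q s (Hist q s) with ⟨h, -⟩ | ⟨f, -, -, h⟩
  · rw [h]; exact he
  · rw [h]; exact List.mem_cons_of_mem _ he

theorem Hist_mono (q : ℕ × ℕ → ℕ → Prop) {s t : ℕ} (hst : s ≤ t) :
    ∀ e ∈ Hist q s, e ∈ Hist q t := by
  induction t, hst using Nat.le_induction with
  | base => exact fun e he => he
  | succ n _ ih => exact fun e he => Hist_succ_sub q n e (ih e he)

theorem inv_inW (q : ℕ × ℕ → ℕ → Prop) (s a b : ℕ) : inW (Hist q s) a b → wst q s a b := by
  induction s generalizing a b with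
  | zero =>
    rintro ⟨e, he, -⟩
    simp [Hist] at he
  | succ s ih =>
    intro H
    change inW (next q s (Hist q s)) a b at H
    rcases next_cases q s (Hist q s) with ⟨h, -⟩ | ⟨g, -, hp, h⟩
    · rw [h] at H
      exact wst_mono (Nat.le_succ s) (ih a b H)
    · rw [h] at H
      refine wst_mono (Nat.le_succ s) ?_
      obtain ⟨e, he, f, hf, h1, h2, h3⟩ := H
      rw [List.mem_cons] at he hf
      rcases he with rfl | he
      · rcases hf with rfl | hf
        · rw [← h1, ← h2]; exact hp.w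
        · rcases hp.high f hf with h4 | h4
          · rw [← h1, ← h2]; exact h4
          · rw [vlt_iff] at h3 h4
            exact absurd h3 (not_lt.2 h4.le)
      · rcases hf with rfl | hf
        · rcases hp.low e he with h4 | h4
          · rw [← h1, ← h2]; exact h4
          · rw [vlt_iff] at h3 h4
            exact absurd h3 (not_lt.2 h4.le)
        · exact ih a b ⟨e, he, f, hf, h1, h2, h3⟩

/-- the basic facts about the values of a history -/
structure Inv (h : List Ent) : Prop where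
  pos : ∀ e ∈ h, 0 < val e.2.2.1
  lt : ∀ e ∈ h, val e.2.2.1 < val e.2.2.2
  lt_one : ∀ e ∈ h, val e.2.2.2 < 1
  ne : ∀ e ∈ h, ∀ f ∈ h, val e.2.2.1 ≠ val f.2.2.2

theorem inv_Hist (q : ℕ × ℕ → ℕ → Prop) (s : ℕ) : Inv (Hist q s) := by
  induction s with
  | zero => constructor <;> intro e he <;> simp [Hist] at he
  | succ s ih =>
    change Inv (next q s (Hist q s))
    rcases next_cases q s (Hist q s) with ⟨h, -⟩ | ⟨g, -, hp, h⟩
    · rw [h]; exact ih
    · rw [h]
      have hpos := (vlt_iff _ _).1 hp.pos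
      have hlt := (vlt_iff _ _).1 hp.lt
      have hlt1 := (vlt_iff _ _).1 hp.lt_one
      rw [val_zero] at hpos
      rw [val_one] at hlt1
      constructor
      · intro e he
        rcases List.mem_cons.1 he with rfl | he
        · exact hpos
        · exact ih.pos e he
      · intro e he
        rcases List.mem_cons.1 he with rfl | he
        · exact hlt
        · exact ih.lt e he
      · intro e he
        rcases List.mem_cons.1 he with rfl | he
        · exact hlt1
        · exact ih.lt_one e he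
      · intro e he f hf
        rcases List.mem_cons.1 he with he2 | he2
        · subst he2
          rcases List.mem_cons.1 hf with hf2 | hf2
          · rw [hf2]; exact hlt.ne
          · rcases (hp.fresh f hf2).1 with h1 | h1
            · rw [vlt_iff] at h1; exact h1.ne'
            · rw [vlt_iff] at h1; exact h1.ne
        · rcases List.mem_cons.1 hf with hf2 | hf2
          · subst hf2
            rcases (hp.fresh e he2).2 with h1 | h1
            · rw [vlt_iff] at h1; exact h1.ne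
            · rw [vlt_iff] at h1; exact h1.ne'
          · exact ih.ne e he2 f hf2

/-- the obstructions of `(a, b)` -/
def Ob (q : ℕ × ℕ → ℕ → Prop) (s a b : ℕ) : Set (ℕ × ℕ) :=
  {p | inW (Hist q s) p.1 p.2 ∧ ¬ wst q s a p.2 ∧ ¬ wst q s p.1 b}

theorem Ob_finite (q : ℕ × ℕ → ℕ → Prop) (s a b : ℕ) : (Ob q s a b).Finite := by
  classical
  refine Set.Finite.subset (((Hist q s).map (fun e => e.1)).toFinset ×ˢ
    ((Hist q s).map (fun e => e.2.1)).toFinset).finite_toSet ?_
  rintro ⟨x, y⟩ ⟨⟨e, he, f, hf, h1, h2, -⟩, -⟩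
  simp only [Finset.coe_product, Set.mem_prod, Finset.mem_coe, List.mem_toFinset, List.mem_map]
  exact ⟨⟨f, hf, h1⟩, ⟨e, he, h2⟩⟩

/-- (F): a pair in `W'` has no obstruction -/
theorem Ob_of_inW {q : ℕ × ℕ → ℕ → Prop} {s a b : ℕ} (H : inW (Hist q s) a b) :
    Ob q s a b = ∅ := by
  rw [Set.eq_empty_iff_forall_notMem]
  rintro ⟨x, y⟩ ⟨⟨e, he, f, hf, h1, h2, h3⟩, h4, h5⟩
  obtain ⟨e', he', f', hf', h1', h2', h3'⟩ := H
  rw [vlt_iff] at h3 h3'
  -- `f` lowers `x`, `e` raises `y`, `f'` lowers `a`, `e'` raises `b`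
  by_cases h6 : val f'.2.2.1 < val e.2.2.2
  · exact h4 (inv_inW q s a y ⟨e, he, f', hf', h1', h2, (vlt_iff _ _).2 h6⟩)
  · refine h5 (inv_inW q s x b ⟨e', he', f, hf, h1, h2', (vlt_iff _ _).2 ?_⟩)
    linarith [not_lt.1 h6]

/-- (N): an action of high level creates no new obstruction of a waiting pair -/
theorem Ob_step {q : ℕ × ℕ → ℕ → Prop} {s a b : ℕ} (hw : wst q s a b)
    (hn : ¬ inW (Hist q s) a b)
    (hl : ∀ e, Perm q s (Hist q s) e → Hist q (s + 1) = e :: Hist q s → a < max e.1 e.2.1 ∧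
      b < max e.1 e.2.1) : Ob q (s + 1) a b ⊆ Ob q s a b := by
  rintro ⟨x, y⟩ ⟨H, h4, h5⟩
  have h4' : ¬ wst q s a y := fun h => h4 (wst_mono (Nat.le_succ s) h)
  have h5' : ¬ wst q s x b := fun h => h5 (wst_mono (Nat.le_succ s) h)
  refine ⟨?_, h4', h5'⟩
  change inW (Hist q (s + 1)) x y at H
  rcases next_cases q s (Hist q s) with ⟨h, -⟩ | ⟨g, -, hp, h⟩
  · change inW (next q s (Hist q s)) x y at H
    rw [h] at H
    exact H
  · have hg : Hist q (s + 1) = g :: Hist q s := h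
    obtain ⟨hla, hlb⟩ := hl g hp hg
    obtain ⟨c0, c1, c2⟩ := hp.wait a hla b hlb hw hn
    rw [hg] at H
    obtain ⟨e, he, f, hf, h1, h2, h3⟩ := H
    rw [List.mem_cons] at he hf
    rw [vlt_iff] at h3
    rcases he with rfl | he
    · rcases hf with rfl | hf
      · exfalso
        rcases c0 with c | c
        · rw [h1] at c; exact h5' c
        · rw [h2] at c; exact h4' c
      · exfalso
        rcases c2 with c | c
        · rw [h2] at c; exact h4' c
        · rcases c f hf with d | d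
          · rw [h1] at d; exact h5' d
          · rw [vlt_iff] at d; linarith
    · rcases hf with rfl | hf
      · exfalso
        rcases c1 with c | c
        · rw [h1] at c; exact h5' c
        · rcases c e he with d | d
          · rw [h2] at d; exact h4' d
          · rw [vlt_iff] at d; linarith
      · exact ⟨e, he, f, hf, h1, h2, (vlt_iff _ _).2 h3⟩

/-- existence of a permitted candidate, given the strict separation of the bounds -/
theorem exists_cand {q : ℕ × ℕ → ℕ → Prop} {s a b : ℕ} {h : List Ent} (hI : Inv h)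
    (X Y : Set ℕ) (hs : s.unpair.1 = Nat.pair a b)
    (hXY : ∀ x ∈ X, ∀ y ∈ Y, ∀ e ∈ h, ∀ f ∈ h, ¬ wst q s x e.2.1 → ¬ wst q s f.1 y →
      val e.2.2.2 < val f.2.2.1) :
    ∃ p₁ p₂, (a, b, p₁, p₂) ∈ cands s h ∧ vlt 0 p₁ ∧ vlt p₁ p₂ ∧ vlt p₂ one ∧
      (∀ x ∈ X, lowOK q s h x p₁) ∧ (∀ y ∈ Y, highOK q s h y p₂) ∧
      ∀ f ∈ h, (vlt f.2.2.2 p₁ ∨ vlt p₁ f.2.2.2) ∧ (vlt f.2.2.1 p₂ ∨ vlt p₂ f.2.2.1) := by
  classical
  -- the upper bounds
  let V : Finset ℕ := (vals h).toFinset
  have memV : ∀ v, v ∈ V ↔ v ∈ vals h := fun v => List.mem_toFinset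
  have zV : (0 : ℕ) ∈ V := by rw [memV]; simp [vals]
  have oV : one ∈ V := by rw [memV]; simp [vals]
  have p1V : ∀ e ∈ h, e.2.2.1 ∈ V := by
    intro e he
    rw [memV]
    simp only [vals, List.mem_cons, List.mem_append, List.mem_map]
    exact Or.inr (Or.inr (Or.inl ⟨e, he, rfl⟩))
  have p2V : ∀ e ∈ h, e.2.2.2 ∈ V := by
    intro e he
    rw [memV]
    simp only [vals, List.mem_cons, List.mem_append, List.mem_map]
    exact Or.inr (Or.inr (Or.inr ⟨e, he, rfl⟩))
  let Hi : Finset ℕ := V.filter (fun v => v = one ∨ ∃ f ∈ h, v = f.2.2.1 ∧ ∃ y ∈ Y, ¬ wst q s f.1 y)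
  have Hine : Hi.Nonempty := ⟨one, Finset.mem_filter.2 ⟨oV, Or.inl rfl⟩⟩
  obtain ⟨hi, hhi, hmin⟩ := Finset.exists_min_image Hi val Hine
  have hhi' := (Finset.mem_filter.1 hhi).2
  have hhiV := (Finset.mem_filter.1 hhi).1
  -- all lower bounds are below `hi`
  have hi_pos : 0 < val hi := by
    rcases hhi' with rfl | ⟨f, hf, rfl, -⟩
    · rw [val_one]; norm_num
    · exact hI.pos f hf
  have hlow : ∀ x ∈ X, ∀ e ∈ h, ¬ wst q s x e.2.1 → val e.2.2.2 < val hi := by
    intro x hx e he hw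
    rcases hhi' with rfl | ⟨f, hf, rfl, y, hy, hwy⟩
    · rw [val_one]; exact hI.lt_one e he
    · exact hXY x hx y hy e he f hf hw hwy
  let Lo : Finset ℕ := V.filter (fun v => val v < val hi)
  have Lone : Lo.Nonempty := ⟨0, Finset.mem_filter.2 ⟨zV, by rw [val_zero]; exact hi_pos⟩⟩
  obtain ⟨lo, hlo, hmax⟩ := Finset.exists_max_image Lo val Lone
  have hlo' := (Finset.mem_filter.1 hlo).2
  have hloV := (Finset.mem_filter.1 hlo).1
  have m1 := lt_med hlo'
  have m2 := med_lt hlo'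
  have m3 := lt_med m2
  have m4 := med_lt m2
  -- no value strictly between
  have hgap : ∀ v ∈ V, val v ≤ val lo ∨ val hi ≤ val v := by
    intro v hv
    by_cases h1 : val v < val hi
    · exact Or.inl (hmax v (Finset.mem_filter.2 ⟨hv, h1⟩))
    · exact Or.inr (not_lt.1 h1)
  have hlo0 : 0 ≤ val lo := by
    have := hmax 0 (Finset.mem_filter.2 ⟨zV, by rw [val_zero]; exact hi_pos⟩)
    rwa [val_zero] at this
  have hhi1 : val hi ≤ 1 := by
    have := hmin one (Finset.mem_filter.2 ⟨oV, Or.inl rfl⟩)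
    rwa [val_one] at this
  refine ⟨med lo hi, med (med lo hi) hi, ?_, ?_, ?_, ?_, ?_, ?_, ?_⟩
  · unfold cands
    rw [List.mem_flatMap]
    refine ⟨lo, (memV lo).1 hloV, ?_⟩
    rw [List.mem_map]
    refine ⟨hi, (memV hi).1 hhiV, ?_⟩
    rw [hs, Nat.unpair_pair]
  · rw [vlt_iff, val_zero]; linarith
  · rw [vlt_iff]; exact m3
  · rw [vlt_iff, val_one]; linarith
  · intro x hx e he
    by_cases hw : wst q s x e.2.1
    · exact Or.inl hw
    · right
      rw [vlt_iff]
      have := hlow x hx e he hw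
      have := hmax _ (Finset.mem_filter.2 ⟨p2V e he, this⟩)
      linarith
  · intro y hy f hf
    by_cases hw : wst q s f.1 y
    · exact Or.inl hw
    · right
      rw [vlt_iff]
      have := hmin _ (Finset.mem_filter.2 ⟨p1V f hf, Or.inr ⟨f, hf, rfl, y, hy, hw⟩⟩)
      linarith
  · intro f hf
    simp only [vlt_iff]
    constructor
    · rcases hgap _ (p2V f hf) with h1 | h1
      · left; linarith
      · right; linarith
    · rcases hgap _ (p1V f hf) with h1 | h1
      · left; linarith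
      · right; linarith

theorem eventually_le {n : ℕ} {P : ℕ → ℕ → ℕ → Prop}
    (h : ∀ a ≤ n, ∀ b ≤ n, ∀ᶠ s in atTop, P s a b) :
    ∀ᶠ s in atTop, ∀ a ≤ n, ∀ b ≤ n, P s a b := by
  have h1 : ∀ a ≤ n, ∀ᶠ s in atTop, ∀ b ≤ n, P s a b := fun a ha =>
    (Filter.eventually_all_finite (Set.finite_Iic n)).2 (fun b hb => h a ha b hb)
  exact (Filter.eventually_all_finite (Set.finite_Iic n)).2 (fun a ha => h1 a ha)

theorem eventually_wst {q : ℕ × ℕ → ℕ → Prop} {a b : ℕ} (h : ∃ m, q (a, b) m) :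
    ∀ᶠ s in atTop, wst q s a b := by
  obtain ⟨m, hm⟩ := h
  filter_upwards [Filter.eventually_gt_atTop m] with s hs
  exact ⟨m, hs, hm⟩

theorem main_V (q : ℕ × ℕ → ℕ → Prop) (A B : Set ℕ)
    (hAB : ∀ a ∈ A, ∀ b ∈ B, ∃ m, q (a, b) m)
    (hc : ∀ a b m, q (a, b) m → a ∈ A ∨ b ∈ B) :
    ∀ a ∈ A, ∀ b ∈ B, ∃ s, inW (Hist q s) a b := by
  intro a₀ ha₀ b₀ hb₀
  by_contra hno
  set n := max a₀ b₀ with hn
  have hc' : ∀ {s a b}, wst q s a b → a ∈ A ∨ b ∈ B := by
    rintro s a b ⟨m, -, hm⟩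
    exact hc a b m hm
  -- all pairs of level `≤ n` which ever enter `W'` have done so
  have E1 : ∀ᶠ s in atTop, ∀ a ≤ n, ∀ b ≤ n, (∃ t, inW (Hist q t) a b) → inW (Hist q s) a b := by
    refine eventually_le (fun a _ b _ => ?_)
    by_cases h : ∃ t, inW (Hist q t) a b
    · obtain ⟨t, ht⟩ := h
      filter_upwards [Filter.eventually_ge_atTop t] with s hs _
      exact inW_mono (Hist_mono q hs) ht
    · exact Filter.Eventually.of_forall (fun s hh => absurd hh h)
  have E2 : ∀ᶠ s in atTop, ∀ a ≤ n, ∀ b ≤ n, a ∈ A → b ∈ B → wst q s a b := by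
    refine eventually_le (fun a _ b _ => ?_)
    by_cases h : a ∈ A ∧ b ∈ B
    · filter_upwards [eventually_wst (hAB a h.1 b h.2)] with s hs _ _
      exact hs
    · exact Filter.Eventually.of_forall (fun s h1 h2 => absurd ⟨h1, h2⟩ h)
  obtain ⟨s₀, hs₀⟩ := Filter.eventually_atTop.1 (E1.and E2)
  -- actions after `s₀` have level `> n`
  have hlev : ∀ s ≥ s₀, ∀ e, Perm q s (Hist q s) e → Hist q (s + 1) = e :: Hist q s →
      n < max e.1 e.2.1 := by
    intro s hs e hp he
    by_contra hle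
    have h1 : e.1 ≤ n := le_trans (le_max_left _ _) (not_lt.1 hle)
    have h2 : e.2.1 ≤ n := le_trans (le_max_right _ _) (not_lt.1 hle)
    have h3 : inW (Hist q (s + 1)) e.1 e.2.1 := by
      rw [he]
      exact ⟨e, List.mem_cons_self, e, List.mem_cons_self, rfl, rfl, hp.lt⟩
    exact hp.nin ((hs₀ s hs).1 e.1 h1 e.2.1 h2 ⟨s + 1, h3⟩)
  have E3 : ∀ᶠ s in atTop, ∀ a ≤ n, ∀ b ≤ n, a ∈ A → b ∈ B → Ob q s a b = ∅ := by
    refine eventually_le (fun a ha b hb => ?_)
    by_cases hab : a ∈ A ∧ b ∈ B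
    swap
    · exact Filter.Eventually.of_forall (fun s h1 h2 => absurd ⟨h1, h2⟩ hab)
    obtain ⟨haA, hbB⟩ := hab
    by_cases h : ∃ t, inW (Hist q t) a b
    · obtain ⟨t, ht⟩ := h
      filter_upwards [Filter.eventually_ge_atTop t] with s hs _ _
      exact Ob_of_inW (inW_mono (Hist_mono q hs) ht)
    · have hsub : ∀ s, s₀ ≤ s → Ob q s a b ⊆ Ob q s₀ a b := by
        intro s hs
        induction s, hs using Nat.le_induction with
        | base => exact subset_rfl
        | succ k hk ih =>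
          refine subset_trans (Ob_step ((hs₀ k hk).2 a ha b hb haA hbB) (fun h' => h ⟨k, h'⟩) ?_) ih
          intro e hp he
          have := hlev k hk e hp he
          exact ⟨lt_of_le_of_lt ha this, lt_of_le_of_lt hb this⟩
      have hdis : ∀ᶠ s in atTop, ∀ p ∈ Ob q s₀ a b, p ∉ Ob q s a b := by
        refine (Filter.eventually_all_finite (Ob_finite q s₀ a b)).2 ?_
        rintro ⟨x, y⟩ ⟨hx, -, -⟩
        rcases hc' (inv_inW q s₀ x y hx) with h1 | h1
        · filter_upwards [eventually_wst (hAB x h1 b hbB)] with s hs hmem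
          exact hmem.2.2 hs
        · filter_upwards [eventually_wst (hAB a haA y h1)] with s hs hmem
          exact hmem.2.1 hs
      filter_upwards [hdis, Filter.eventually_ge_atTop s₀] with s h1 h2 _ _
      rw [Set.eq_empty_iff_forall_notMem]
      exact fun p hp => h1 p (hsub s h2 hp) hp
  obtain ⟨k, hk⟩ := Filter.eventually_atTop.1 (E2.and E3)
  set t := Nat.pair (Nat.pair a₀ b₀) k with ht
  have htk : k ≤ t := Nat.right_le_pair _ _
  have htu : t.unpair.1 = Nat.pair a₀ b₀ := by rw [ht, Nat.unpair_pair]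
  obtain ⟨hT, hO⟩ := hk t htk
  have hI := inv_Hist q t
  have ha₀n : a₀ ≤ n := le_max_left _ _
  have hb₀n : b₀ ≤ n := le_max_right _ _
  obtain ⟨p₁, p₂, hcand, q0, q1, q2, hlow, hhigh, hfresh⟩ :=
    exists_cand (q := q) (s := t) (a := a₀) (b := b₀) hI {x | x ∈ A ∧ x ≤ n} {y | y ∈ B ∧ y ≤ n}
      htu (by
        rintro x ⟨hxA, hxn⟩ y ⟨hyB, hyn⟩ e he f hf hw1 hw2
        have hem := hO x hxn y hyn hxA hyB
        rw [Set.eq_empty_iff_forall_notMem] at hem
        have h1 := hem (f.1, e.2.1)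
        have h2 : ¬ vlt f.2.2.1 e.2.2.2 := fun hv =>
          h1 ⟨⟨e, he, f, hf, rfl, rfl, hv⟩, hw1, hw2⟩
        rw [vlt_iff, not_lt] at h2
        exact lt_of_le_of_ne h2 (hI.ne f hf e he).symm)
  have hperm : Perm q t (Hist q t) (a₀, b₀, p₁, p₂) := by
    refine ⟨hT a₀ ha₀n b₀ hb₀n ha₀ hb₀, fun h => hno ⟨t, h⟩, q0, q1, q2, hlow a₀ ⟨ha₀, ha₀n⟩,
      hhigh b₀ ⟨hb₀, hb₀n⟩, hfresh, ?_⟩
    intro a ha b hb hw _
    change a < n at ha
    change b < n at hb
    show (wst q t a₀ b ∨ wst q t a b₀) ∧ (wst q t a₀ b ∨ lowOK q t (Hist q t) a p₁) ∧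
      (wst q t a b₀ ∨ highOK q t (Hist q t) b p₂)
    have hA' : a ∈ A → wst q t a b₀ := fun h => hT a ha.le b₀ hb₀n h hb₀
    have hB' : b ∈ B → wst q t a₀ b := fun h => hT a₀ ha₀n b hb.le ha₀ h
    by_cases h1 : a ∈ A
    · refine ⟨Or.inr (hA' h1), Or.inr (hlow a ⟨h1, ha.le⟩), Or.inl (hA' h1)⟩
    · have h2 : b ∈ B := (hc' hw).resolve_left h1
      exact ⟨Or.inl (hB' h2), Or.inl (hB' h2), Or.inr (hhigh b ⟨h2, hb.le⟩)⟩
  rcases next_cases q t (Hist q t) with ⟨-, hnone⟩ | ⟨e, hecand, hp, he⟩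
  · exact hnone _ hcand hperm
  · have he1 : e.1 = a₀ ∧ e.2.1 = b₀ := by
      unfold cands at hecand
      rw [List.mem_flatMap] at hecand
      obtain ⟨lo, -, hecand⟩ := hecand
      rw [List.mem_map] at hecand
      obtain ⟨hi, -, hecand⟩ := hecand
      rw [htu, Nat.unpair_pair] at hecand
      rw [← hecand]
      exact ⟨rfl, rfl⟩
    refine hno ⟨t + 1, ?_⟩
    show inW (next q t (Hist q t)) a₀ b₀
    rw [he]
    exact ⟨e, List.mem_cons_self, e, List.mem_cons_self, he1.1, he1.2, hp.lt⟩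

end ME.JD
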