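import Pool.Agent.Helper89.MEF.H89_Ops

/-!
# Composition with an operator with a parameter, iteration of a step relation
-/

set_option autoImplicit false

namespace ME

open Encodable Set

section params

variable {α β γ δ σ : Type} [Primcodable α] [Primcodable β] [Primcodable γ] [Primcodable δ]
  [Primcodable σ]

/-- composition with an operator with a parameter -/
theorem EP.opp86 {P : Set β → γ → Prop} (hP : EP P) {Q : Set α → δ × β → Prop} (hQ : EP Q) :
    EP (fun X (p : δ × γ) => P {b | Q X (p.1, b)} p.2) := by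
  obtain ⟨W, hW, hP⟩ := hP
  have h1 : EP (fun (X : Set α) (y : (δ × γ) × List β) =>
      W (y.2, y.1.2) ∧ ∀ b ∈ y.2, Q X (y.1.1, b)) := by
    refine EP.and (EP.re (hW.subst (Primrec.snd.pair (Primrec.snd.comp Primrec.fst)))) ?_
    have h2 : EP (fun (X : Set α) (z : ((δ × γ) × List β) × β) => Q X (z.1.1.1, z.2)) :=
      EP.subst hQ ((Primrec.fst.comp (Primrec.fst.comp Primrec.fst)).pair Primrec.snd)
    exact EP.ball (P := fun (X : Set α) (z : ((δ × γ) × List β) × β) => Q X (z.1.1.1, z.2)) h2
      (g := fun y => y.2) Primrec.snd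
  refine h1.ex.of_iff ?_
  intro X c
  rw [hP]
  rfl

/-- iteration of a step relation -/
theorem EP.iter86 {R : Set α → σ × σ → Prop} (hR : EP R) (a₀ d : σ) :
    EP (fun X (p : ℕ × σ) => ∃ L : List σ, (L.getD 0 d = a₀ ∧ L.getD p.1 d = p.2) ∧
      ∀ j ∈ List.range p.1, R X (L.getD j d, L.getD (j + 1) d)) := by
  have h1 : EP (fun (X : Set α) (y : (ℕ × σ) × List σ) =>
      (y.2.getD 0 d = a₀ ∧ y.2.getD y.1.1 d = y.1.2) ∧
      ∀ j ∈ List.range y.1.1, R X (y.2.getD j d, y.2.getD (j + 1) d)) := by
    refine EP.and (EP.re (RE.and ?_ ?_)) ?_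
    · exact RE.eq ((Primrec.list_getD d).comp Primrec.snd (Primrec.const 0)) (Primrec.const a₀)
    · exact RE.eq ((Primrec.list_getD d).comp Primrec.snd (Primrec.fst.comp Primrec.fst))
        (Primrec.snd.comp Primrec.fst)
    · refine EP.ball (P := fun (X : Set α) (z : ((ℕ × σ) × List σ) × ℕ) =>
        R X (z.1.2.getD z.2 d, z.1.2.getD (z.2 + 1) d)) ?_ (g := fun y => List.range y.1.1)
        (Primrec.list_range.comp (Primrec.fst.comp Primrec.fst))
      refine EP.subst hR (Primrec.pair ?_ ?_)
      · exact (Primrec.list_getD d).comp (Primrec.snd.comp Primrec.fst) Primrec.snd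
      · exact (Primrec.list_getD d).comp (Primrec.snd.comp Primrec.fst)
          (Primrec.succ.comp Primrec.snd)
  exact h1.ex

omit [Primcodable α] [Primcodable σ] in
theorem iter86_iff {X : Set α} {R : Set α → σ × σ → Prop} {a₀ d : σ} {F : σ → σ}
    (h : ∀ a b, R X (a, b) ↔ F a = b) (n : ℕ) (c : σ) :
    (∃ L : List σ, (L.getD 0 d = a₀ ∧ L.getD n d = c) ∧
      ∀ j ∈ List.range n, R X (L.getD j d, L.getD (j + 1) d)) ↔ F^[n] a₀ = c := by
  constructor
  · rintro ⟨L, ⟨h0, hn⟩, hL⟩
    have key : ∀ j ≤ n, F^[j] a₀ = L.getD j d := by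
      intro j
      induction j with
      | zero => intro _; exact h0.symm
      | succ j ih =>
        intro hj
        rw [Function.iterate_succ_apply', ih (by omega)]
        exact (h _ _).1 (hL j (List.mem_range.2 (by omega)))
    rw [key n le_rfl, hn]
  · intro hc
    refine ⟨(List.range (n + 1)).map (fun j => F^[j] a₀), ?_, ?_⟩
    · have key : ∀ j ≤ n, ((List.range (n + 1)).map (fun j => F^[j] a₀)).getD j d = F^[j] a₀ := by
        intro j hj
        rw [List.getD_eq_getElem?_getD, List.getElem?_map,
          List.getElem?_range (show j < n + 1 by omega)]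
        rfl
      rw [key 0 (by omega), key n le_rfl]
      exact ⟨rfl, hc⟩
    · have key : ∀ j ≤ n, ((List.range (n + 1)).map (fun j => F^[j] a₀)).getD j d = F^[j] a₀ := by
        intro j hj
        rw [List.getD_eq_getElem?_getD, List.getElem?_map,
          List.getElem?_range (show j < n + 1 by omega)]
        rfl
      intro j hj
      have hj' := List.mem_range.1 hj
      rw [key j (by omega), key (j + 1) (by omega), h, Function.iterate_succ_apply']

end params

end ME
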