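import Pool.Agent.Helper89.MEF.H89_PackDefs
import Pool.Agent.Helper89.MEF.H89_GenAll
import Pool.Agent.Helper89.MEF.H86_Opp

/-!
# ME-M5c: the splitting lengths `s` (with `r_ne` as a hypothesis)
-/

set_option autoImplicit false

namespace ME

open Encodable Set Filter Topology

namespace Pack

variable {a : Aut} {e : Set ℕ} {f : ℕ → Bool} (P : Pack a e f)

theorem Y_none86 (j : Bool) : P.Y (j, none) = P.c j := rfl

theorem Y_some86 (j : Bool) (m i : ℕ) (h : i < P.M + m) : P.Y (j, some m) i = P.Y (j, none) i := by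
  change sat (P.c j) (P.M + m) (P.z (j, m)) i = P.c j i
  unfold sat
  rw [if_pos h]

theorem rho_some86 (j : Bool) (m i : ℕ) (h : i ≤ P.M + m) :
    rho P.t (P.Y (j, some m)) i = rho P.t (P.Y (j, none)) i := by
  unfold rho
  congr 1
  unfold pre
  apply List.map_congr_left
  intro k hk
  exact P.Y_some86 j m k (by have := List.mem_range.1 hk; omega)

theorem s_tendsto_of86 (hr : ∀ (j : Bool) (y : ℕ → Bool), y ∈ P.J j →
    P.r (P.Y (j, none)) ≠ P.r y) (j : Bool) : Tendsto (P.s j) atTop atTop := by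
  rw [tendsto_atTop]
  intro N
  have key : ∀ i, ∀ᶠ m in atTop, P.r (P.Y (j, none)) i = P.r (P.Y (j, some m)) i := by
    intro i
    have h1 : encode (i, P.r (P.Y (j, none)) i) ∈ P.Ψ (sj e (rs (rho P.t (P.Y (j, none))))) := by
      have := P.Ψ_spec (j, none)
      unfold Y
      rw [this]
      unfold rs
      rw [encode_mem_cd]
      rfl
    obtain ⟨l, hl1, hl2⟩ := P.hΨ.compact h1
    have h2 : ∀ᶠ m in atTop, ∀ x ∈ {x | x ∈ l}, x ∈ sj e (rs (rho P.t (P.Y (j, some m)))) := by
      rw [eventually_all_finite (List.finite_toSet l)]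
      intro x hx
      have h3 := hl1 x hx
      cases x with
      | inl x => exact Eventually.of_forall fun m => h3
      | inr x =>
        obtain ⟨⟨n, v⟩, hn, rfl⟩ := (inr_mem_sj.1 h3)
        filter_upwards [eventually_ge_atTop n] with m hm
        rw [inr_mem_sj]
        refine ⟨(n, v), ?_, rfl⟩
        have hn' : rho P.t (P.Y (j, none)) n = v := hn
        change rho P.t (P.Y (j, some m)) n = v
        rw [P.rho_some86 j m n (by omega)]
        exact hn'
    filter_upwards [h2] with m hm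
    have h4 := P.hΨ.mono (X := {x | x ∈ l}) hm hl2
    have h5 := P.Ψ_spec (j, some m)
    unfold Y at h4
    rw [h5] at h4
    unfold rs at h4
    rw [encode_mem_cd] at h4
    exact (show P.r (pt P.M P.c P.z (j, some m)) i = P.r (P.Y (j, none)) i from h4).symm
  have h6 : ∀ᶠ m in atTop, ∀ i ∈ Finset.range N,
      P.r (P.Y (j, none)) i = P.r (P.Y (j, some m)) i := by
    rw [eventually_all_finset]
    intro i _
    exact key i
  filter_upwards [h6] with m hm
  have hne := hr j _ (P.pt_mem j m)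
  unfold s
  by_contra hlt
  push Not at hlt
  have h7 := hm _ (Finset.mem_range.2 hlt)
  exact PiNat.apply_firstDiff_ne (E := fun _ => Bool) hne h7

theorem s_low_of86 (hr : ∀ (j : Bool) (y : ℕ → Bool), y ∈ P.J j →
    P.r (P.Y (j, none)) ≠ P.r y) (j : Bool) (l : Idx) (hl : l.2 ≠ none) :
    ER (gn (P.s j)) (jn e (P.Gm l)) := by
  -- the oracle `e` and the columns, read off from a set `X`
  let E : Set ℕ → Set ℕ := fun X => {a | encode (Sum.inl a : ℕ ⊕ ℕ) ∈ X}
  let Co : Set ℕ → Idx → Set ℕ := fun X l' =>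
    {c | ∃ p : ℕ × Bool, c = encode p ∧
      encode (Sum.inr (encode (((l', p.1), p.2) : (Idx × ℕ) × Bool)) : ℕ ⊕ ℕ) ∈ X}
  let S : Set ℕ → Idx → Set ℕ := fun X l' => P.Ψ (sj (E X) (Co X l'))
  have hE : EP (fun (X : Set ℕ) (a : ℕ) => a ∈ E X) :=
    EP.mem (Primrec.encode.comp Primrec.sumInl)
  have hCo : EP (fun (X : Set ℕ) (y : Idx × ℕ) => y.2 ∈ Co X y.1) := by
    have h : EP (fun (X : Set ℕ) (y : (Idx × ℕ) × (ℕ × Bool)) => y.1.2 = encode y.2 ∧
        encode (Sum.inr (encode (((y.1.1, y.2.1), y.2.2) : (Idx × ℕ) × Bool)) : ℕ ⊕ ℕ) ∈ X) := by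
      refine EP.and (EP.re (RE.eq (Primrec.snd.comp Primrec.fst)
        (Primrec.encode.comp Primrec.snd))) (EP.mem ?_)
      exact Primrec.encode.comp (Primrec.sumInr.comp (Primrec.encode.comp
        (((Primrec.fst.comp Primrec.fst).pair (Primrec.fst.comp Primrec.snd)).pair
          (Primrec.snd.comp Primrec.snd))))
    exact h.ex
  have hSj : EP (fun (X : Set ℕ) (y : Idx × (ℕ ⊕ ℕ)) => y.2 ∈ sj (E X) (Co X y.1)) := by
    have h1 : EP (fun (X : Set ℕ) (y : (Idx × (ℕ ⊕ ℕ)) × ℕ) =>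
        y.1.2 = Sum.inl y.2 ∧ y.2 ∈ E X) :=
      EP.and (EP.re (RE.eq (Primrec.snd.comp Primrec.fst) (Primrec.sumInl.comp Primrec.snd)))
        (EP.subst hE Primrec.snd)
    have h2 : EP (fun (X : Set ℕ) (y : (Idx × (ℕ ⊕ ℕ)) × ℕ) =>
        y.1.2 = Sum.inr y.2 ∧ y.2 ∈ Co X y.1.1) :=
      EP.and (EP.re (RE.eq (Primrec.snd.comp Primrec.fst) (Primrec.sumInr.comp Primrec.snd)))
        (EP.subst hCo (f := fun y : (Idx × (ℕ ⊕ ℕ)) × ℕ => (y.1.1, y.2))
          ((Primrec.fst.comp Primrec.fst).pair Primrec.snd))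
    refine (h1.ex.or h2.ex).of_iff ?_
    rintro X ⟨l', s | s⟩ <;> simp
  have hS : EP (fun (X : Set ℕ) (y : Idx × ℕ) => y.2 ∈ S X y.1) :=
    EP.opp86 (P := fun X b => b ∈ P.Ψ X) P.hΨ
      (Q := fun (X : Set ℕ) (y : Idx × (ℕ ⊕ ℕ)) => y.2 ∈ sj (E X) (Co X y.1)) hSj
  have hsm : Primrec (fun m : ℕ => ((j, some m) : Idx)) :=
    (Primrec.const j).pair Primrec.option_some
  -- the formula for `s`
  have hT : EP (fun (X : Set ℕ) (y : ℕ × ℕ) =>
      (((j, some y.1) : Idx) = l ∧ y.2 = P.s j y.1) ∨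
      (((j, some y.1) : Idx) ≠ l ∧
        ((∀ i ∈ List.range y.2, ∃ v : Bool, encode (i, v) ∈ S X (j, none) ∧
          encode (i, v) ∈ S X (j, some y.1)) ∧
        ∃ v : Bool, encode (y.2, v) ∈ S X (j, none) ∧ encode (y.2, !v) ∈ S X (j, some y.1)))) := by
    refine EP.or ?_ (EP.and ?_ (EP.and ?_ ?_))
    · -- the exceptional value is a constant
      obtain ⟨i, o⟩ := l
      cases o with
      | none => exact absurd rfl hl
      | some k =>
        have h : EP (fun (_ : Set ℕ) (y : ℕ × ℕ) =>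
            ((j, some y.1) : Idx) = (i, some k) ∧ y.2 = P.s j k) :=
          EP.re (RE.and (RE.eq (hsm.comp Primrec.fst) (Primrec.const _))
            (RE.eq Primrec.snd (Primrec.const _)))
        refine h.of_iff ?_
        intro X y
        constructor
        · rintro ⟨h1, h2⟩
          refine ⟨h1, ?_⟩
          simp only [Prod.mk.injEq, Option.some.injEq] at h1
          rw [h2, h1.2]
        · rintro ⟨h1, h2⟩
          refine ⟨h1, ?_⟩
          simp only [Prod.mk.injEq, Option.some.injEq] at h1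
          rw [h2, h1.2]
    · refine EP.re (RE.prim ?_)
      have h : PrimrecRel (fun a b : Idx => a = b) := Primrec.eq
      exact (primrecRel_comp h (hsm.comp Primrec.fst) (Primrec.const l)).not
    · refine EP.ball (P := fun (X : Set ℕ) (z : (ℕ × ℕ) × ℕ) => ∃ v : Bool,
        encode (z.2, v) ∈ S X (j, none) ∧ encode (z.2, v) ∈ S X (j, some z.1.1)) ?_
        (g := fun y => List.range y.2) (Primrec.list_range.comp Primrec.snd)
      have h : EP (fun (X : Set ℕ) (z : ((ℕ × ℕ) × ℕ) × Bool) =>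
          encode (z.1.2, z.2) ∈ S X (j, none) ∧
          encode (z.1.2, z.2) ∈ S X (j, some z.1.1.1)) := by
        refine EP.and ?_ ?_
        · exact EP.subst hS (f := fun z : ((ℕ × ℕ) × ℕ) × Bool => (((j, none) : Idx),
            encode (z.1.2, z.2))) ((Primrec.const _).pair (Primrec.encode.comp
              ((Primrec.snd.comp Primrec.fst).pair Primrec.snd)))
        · exact EP.subst hS (f := fun z : ((ℕ × ℕ) × ℕ) × Bool => (((j, some z.1.1.1) : Idx),
            encode (z.1.2, z.2))) ((hsm.comp (Primrec.fst.comp (Primrec.fst.comp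
              Primrec.fst))).pair (Primrec.encode.comp
              ((Primrec.snd.comp Primrec.fst).pair Primrec.snd)))
      exact h.ex
    · have h : EP (fun (X : Set ℕ) (z : (ℕ × ℕ) × Bool) =>
          encode (z.1.2, z.2) ∈ S X (j, none) ∧
          encode (z.1.2, !z.2) ∈ S X (j, some z.1.1)) := by
        refine EP.and ?_ ?_
        · exact EP.subst hS (f := fun z : (ℕ × ℕ) × Bool => (((j, none) : Idx),
            encode (z.1.2, z.2))) ((Primrec.const _).pair (Primrec.encode.comp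
              ((Primrec.snd.comp Primrec.fst).pair Primrec.snd)))
        · exact EP.subst hS (f := fun z : (ℕ × ℕ) × Bool => (((j, some z.1.1) : Idx),
            encode (z.1.2, !z.2))) ((hsm.comp (Primrec.fst.comp Primrec.fst)).pair
              (Primrec.encode.comp
              ((Primrec.snd.comp Primrec.fst).pair (Primrec.not.comp Primrec.snd))))
      exact h.ex
  refine ⟨_, hT, ?_⟩
  -- evaluation at the oracle
  have hE' : E (jn e (P.Gm l)) = e := by
    ext a
    change encode (Sum.inl a : ℕ ⊕ ℕ) ∈ cd _ ↔ _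
    rw [encode_mem_cd, inl_mem_sj]
  have hCo' : ∀ l', l' ≠ l → Co (jn e (P.Gm l)) l' = rs (rho P.t (P.Y l')) := by
    intro l' hl'
    ext c
    change (∃ p : ℕ × Bool, c = encode p ∧
      encode (Sum.inr (encode (((l', p.1), p.2) : (Idx × ℕ) × Bool)) : ℕ ⊕ ℕ) ∈
        cd (sj e (cd (GF P.t P.Y {l}ᶜ)))) ↔ _
    simp only [encode_mem_cd, inr_mem_sj]
    constructor
    · rintro ⟨⟨n, v⟩, rfl, h⟩
      unfold rs
      rw [encode_mem_cd]
      exact h.2
    · rintro ⟨⟨n, v⟩, h, rfl⟩
      exact ⟨(n, v), rfl, hl', h⟩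
  have hS' : ∀ l', l' ≠ l → S (jn e (P.Gm l)) l' = rs (P.r (P.Y l')) := by
    intro l' hl'
    change P.Ψ (sj (E _) (Co _ l')) = _
    rw [hE', hCo' l' hl']
    exact P.Ψ_spec l'
  have hb : ((j, none) : Idx) ≠ l := by
    intro h
    apply hl
    rw [← h]
  ext ⟨m, n⟩
  change ((((j, some m) : Idx) = l ∧ n = P.s j m) ∨
      (((j, some m) : Idx) ≠ l ∧
        ((∀ i ∈ List.range n, ∃ v : Bool, encode (i, v) ∈ S (jn e (P.Gm l)) (j, none) ∧
          encode (i, v) ∈ S (jn e (P.Gm l)) (j, some m)) ∧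
        ∃ v : Bool, encode (n, v) ∈ S (jn e (P.Gm l)) (j, none) ∧
          encode (n, !v) ∈ S (jn e (P.Gm l)) (j, some m)))) ↔ P.s j m = n
  by_cases hm : ((j, some m) : Idx) = l
  · constructor
    · rintro (⟨_, h⟩ | ⟨h, _⟩)
      · exact h.symm
      · exact absurd hm h
    · rintro rfl
      exact Or.inl ⟨hm, rfl⟩
  · rw [hS' _ hb, hS' _ hm]
    have hne := hr j _ (P.pt_mem j m)
    have key : ∀ (x : ℕ → Bool) (i : ℕ) (v : Bool), encode (i, v) ∈ rs x ↔ (i, v) ∈ gr x := by
      intro x i v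
      unfold rs
      rw [encode_mem_cd]
    simp only [key]
    constructor
    · rintro (⟨h, _⟩ | ⟨_, h⟩)
      · exact absurd h hm
      · exact ((fd_iff hne n).1 h).symm
    · intro h
      exact Or.inr ⟨hm, (fd_iff hne n).2 h.symm⟩

end Pack

end ME
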