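import Pool.Agent.Helper89.MEF.H89_CatDefs

/-!
# ME-C1, section ENM: everywhere nonmeagre sets, Baire trick
-/

set_option autoImplicit false

namespace ME

open Encodable Set Filter Topology

namespace ENMaux

theorem mem_cyl_pre {x y : ℕ → Bool} {n : ℕ} : y ∈ cyl (pre x n) ↔ ∀ i < n, y i = x i := by
  unfold cyl pre
  rw [mem_ofPred_eq, List.length_map, List.length_range, List.map_inj_left]
  simp only [List.mem_range]

theorem cyl_pre (x : ℕ → Bool) (n : ℕ) :
    cyl (pre x n) = PiNat.cylinder (E := fun _ => Bool) x n := by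
  ext y
  rw [mem_cyl_pre, PiNat.mem_cylinder_iff]

theorem exists_pre (s : List Bool) : ∃ x : ℕ → Bool, pre x s.length = s := by
  refine ⟨fun i => s.getD i false, ?_⟩
  unfold pre
  apply List.ext_getElem
  · simp
  · intro i h1 h2
    simp [h2]

theorem cyl_nonempty (s : List Bool) : (cyl s).Nonempty := exists_pre s

theorem exists_eq (s : List Bool) : ∃ x : ℕ → Bool, s = pre x s.length := by
  obtain ⟨x, hx⟩ := exists_pre s
  exact ⟨x, hx.symm⟩

theorem isOpen_cyl (s : List Bool) : IsOpen (cyl s) := by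
  obtain ⟨x, hx⟩ := exists_eq s
  rw [hx, cyl_pre]
  exact PiNat.isOpen_cylinder _ _ _

theorem isClosed_cyl (s : List Bool) : IsClosed (cyl s) := by
  obtain ⟨x, hx⟩ := exists_eq s
  have h : cyl s = ⋂ i ∈ Iio s.length, {y : ℕ → Bool | y i = x i} := by
    rw [hx]
    ext y
    rw [mem_cyl_pre]
    simp [pre]
  rw [h]
  refine isClosed_biInter fun i _ => ?_
  exact isClosed_eq (continuous_apply i) continuous_const

theorem pre_take (y : ℕ → Bool) {m n : ℕ} (h : m ≤ n) : (pre y n).take m = pre y m := by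
  unfold pre
  rw [← List.map_take, List.take_range, min_eq_left h]

theorem cyl_anti {s t : List Bool} (h : s <+: t) : cyl t ⊆ cyl s := by
  intro y hy
  have hy' : pre y t.length = t := hy
  have h1 : s = t.take s.length := List.prefix_iff_eq_take.1 h
  change pre y s.length = s
  rw [← pre_take y h.length_le, hy', ← h1]

theorem exists_cyl_of_isOpen {U : Set (ℕ → Bool)} (hU : IsOpen U) {y : ℕ → Bool} (hy : y ∈ U) :
    ∃ n, cyl (pre y n) ⊆ U := by
  obtain ⟨v, ⟨x, n, rfl⟩, hyv, hvU⟩ :=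
    (PiNat.isTopologicalBasis_cylinders (fun _ => Bool)).exists_subset_of_mem_open hy hU
  refine ⟨n, ?_⟩
  rw [cyl_pre, PiNat.mem_cylinder_iff_eq.1 hyv]
  exact hvU

theorem prefix_pre {s : List Bool} {y : ℕ → Bool} (h : y ∈ cyl s) {n : ℕ} (hn : s.length ≤ n) :
    s <+: pre y n := by
  have h' : pre y s.length = s := h
  rw [List.prefix_iff_eq_take, pre_take y hn, h']

theorem isMeagre_singleton (y : ℕ → Bool) : IsMeagre ({y} : Set (ℕ → Bool)) := by
  apply IsNowhereDense.isMeagre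
  rw [isClosed_singleton.isNowhereDense_iff]
  by_contra h
  obtain ⟨x, hx⟩ := nonempty_iff_ne_empty.2 h
  obtain ⟨n, hn⟩ := exists_cyl_of_isOpen isOpen_interior hx
  have hxy : x = y := mem_singleton_iff.1 (interior_subset hx)
  let x' : ℕ → Bool := Function.update x n (!(x n))
  have h1 : x' ∈ cyl (pre x n) := by
    rw [mem_cyl_pre]
    intro i hi
    exact Function.update_of_ne (by omega) _ _
  have h2 : x' = y := mem_singleton_iff.1 (interior_subset (hn h1))
  have h3 : x' n = !(x n) := Function.update_self n _ x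
  rw [h2, ← hxy] at h3
  cases hb : x n <;> simp [hb] at h3

theorem isMeagre_of_countable {C : Set (ℕ → Bool)} (hC : C.Countable) : IsMeagre C := by
  rw [← biUnion_of_singleton C]
  exact isMeagre_biUnion hC fun y _ => isMeagre_singleton y

end ENMaux

open ENMaux

theorem ENM.mono {D E : Set (ℕ → Bool)} {s : List Bool} (h : ENM D s) (hDE : D ⊆ E) : ENM E s :=
  fun t ht hm => h t ht (hm.mono (inter_subset_inter_left _ hDE))

theorem ENM.ext {D : Set (ℕ → Bool)} {s t : List Bool} (h : ENM D s) (hst : s <+: t) : ENM D t :=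
  fun u hu => h u (hst.trans hu)

theorem ENM_univ (s : List Bool) : ENM univ s := by
  intro t _
  rw [univ_inter]
  exact not_isMeagre_of_isOpen (ENMaux.isOpen_cyl t) (ENMaux.cyl_nonempty t)

/-- removing a meagre set -/
theorem ENM.inter_residual {D R : Set (ℕ → Bool)} {s : List Bool} (h : ENM D s)
    (hR : R ∈ residual (ℕ → Bool)) : ENM (D ∩ R) s := by
  intro t ht hm
  refine h t ht ?_
  have hRc : IsMeagre Rᶜ := by
    change Rᶜᶜ ∈ residual (ℕ → Bool)
    rwa [compl_compl]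
  refine (hm.union hRc).mono ?_
  intro y hy
  by_cases hyR : y ∈ R
  · exact Or.inl ⟨⟨hy.1, hyR⟩, hy.2⟩
  · exact Or.inr hyR

theorem ENM.diff_countable {D C : Set (ℕ → Bool)} {s : List Bool} (h : ENM D s)
    (hC : C.Countable) : ENM (D \ C) s := by
  rw [sdiff_eq]
  exact h.inter_residual (isMeagre_of_countable hC)

theorem ENM.exists_mem {D : Set (ℕ → Bool)} {s t : List Bool} (h : ENM D s) (hst : s <+: t) :
    ∃ y ∈ D, y ∈ cyl t := by
  obtain ⟨y, hy⟩ := nonempty_of_not_isMeagre (h t hst)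
  exact ⟨y, hy.1, hy.2⟩

/-- a countable subset which is dense in `[s]` -/
theorem ENM.exists_countable_dense {D : Set (ℕ → Bool)} {s : List Bool} (h : ENM D s) :
    ∃ C ⊆ D, C.Countable ∧ C ⊆ cyl s ∧ ∀ t, s <+: t → ∃ y ∈ C, y ∈ cyl t := by
  choose! f hf using fun (t : List Bool) (ht : s <+: t) => h.exists_mem ht
  refine ⟨f '' {t | s <+: t}, ?_, ?_, ?_, ?_⟩
  · rintro _ ⟨t, ht, rfl⟩
    exact (hf t ht).1
  · exact (to_countable {t : List Bool | s <+: t}).image f
  · rintro _ ⟨t, ht, rfl⟩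
    exact ENMaux.cyl_anti ht (hf t ht).2
  · intro t ht
    exact ⟨f t, ⟨t, ht, rfl⟩, (hf t ht).2⟩

/-- a set which is meagre in densely many cylinders below `s` is meagre in `[s]` -/
theorem ENMaux.isMeagre_of_dense {F : Set (ℕ → Bool)} {s : List Bool}
    (h : ∀ t, s <+: t → ∃ t', t <+: t' ∧ IsMeagre (F ∩ cyl t')) : IsMeagre (F ∩ cyl s) := by
  let T : Set (List Bool) := {t' | s <+: t' ∧ IsMeagre (F ∩ cyl t')}
  let U : Set (ℕ → Bool) := ⋃ t' ∈ T, cyl t'
  have hU : IsOpen U := isOpen_biUnion fun t' _ => ENMaux.isOpen_cyl t'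
  have h1 : IsMeagre (⋃ t' ∈ T, (F ∩ cyl t')) :=
    isMeagre_biUnion (to_countable T) fun t' ht' => ht'.2
  have h2 : IsMeagre (cyl s \ U) := by
    apply IsNowhereDense.isMeagre
    have hcl : IsClosed (cyl s \ U) := (ENMaux.isClosed_cyl s).sdiff hU
    rw [hcl.isNowhereDense_iff]
    by_contra hne
    obtain ⟨y, hy⟩ := nonempty_iff_ne_empty.2 hne
    obtain ⟨n, hn⟩ := exists_cyl_of_isOpen isOpen_interior hy
    have hys : y ∈ cyl s := (interior_subset hy).1
    set m := max n s.length with hm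
    have hsm : s <+: pre y m := prefix_pre hys (le_max_right _ _)
    obtain ⟨t', ht', hmt⟩ := h (pre y m) hsm
    obtain ⟨w, hw⟩ := ENMaux.cyl_nonempty t'
    have hw1 : w ∈ cyl (pre y m) := ENMaux.cyl_anti ht' hw
    have hw2 : w ∈ cyl (pre y n) := by
      rw [mem_cyl_pre] at hw1 ⊢
      intro i hi
      exact hw1 i (lt_of_lt_of_le hi (le_max_left _ _))
    have hw3 := interior_subset (hn hw2)
    exact hw3.2 (mem_biUnion (show t' ∈ T from ⟨hsm.trans ht', hmt⟩) hw)
  refine (h1.union h2).mono ?_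
  intro y hy
  by_cases hyU : y ∈ U
  · left
    obtain ⟨t', ht', hyt'⟩ := mem_iUnion₂.1 hyU
    exact mem_iUnion₂.2 ⟨t', ht', hy.1, hyt'⟩
  · exact Or.inr ⟨hy.2, hyU⟩

/-- **Baire trick** -/
theorem baire_trick {ι : Type} [Countable ι] {D : Set (ℕ → Bool)} {s : List Bool} (hD : ENM D s)
    (E : ι → Set (ℕ → Bool)) (h : D ∩ cyl s ⊆ ⋃ i, E i) :
    ∃ i t, s <+: t ∧ ENM (D ∩ E i ∩ cyl t) t := by
  by_contra hcon
  push Not at hcon
  have key : ∀ i, IsMeagre ((D ∩ E i) ∩ cyl s) := by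
    intro i
    apply ENMaux.isMeagre_of_dense
    intro t ht
    have h1 := hcon i t ht
    unfold ENM at h1
    push Not at h1
    obtain ⟨t', ht', hm⟩ := h1
    refine ⟨t', ht', ?_⟩
    have h2 : D ∩ E i ∩ cyl t ∩ cyl t' = D ∩ E i ∩ cyl t' := by
      ext y
      constructor
      · rintro ⟨⟨h3, -⟩, h4⟩
        exact ⟨h3, h4⟩
      · rintro ⟨h3, h4⟩
        exact ⟨⟨h3, ENMaux.cyl_anti ht' h4⟩, h4⟩
    rwa [h2] at hm
  have hm : IsMeagre (⋃ i, (D ∩ E i) ∩ cyl s) := isMeagre_iUnion key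
  refine hD s (List.prefix_refl s) (hm.mono ?_)
  intro y hy
  obtain ⟨i, hi⟩ := mem_iUnion.1 (h hy)
  exact mem_iUnion.2 ⟨i, ⟨hy.1, hi⟩, hy.2⟩

end ME
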