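import Pool.Agent.Helper89.MEF.H89_RE

/-!
# Enumeration operators and enumeration reducibility
-/

set_option autoImplicit false

namespace ME

open Encodable Set

/-- positive Σ₁ relations between a set variable and a point -/
def EP {α β : Type} [Primcodable α] [Primcodable β] (P : Set α → β → Prop) : Prop :=
  ∃ W : List α × β → Prop, RE W ∧ ∀ X b, P X b ↔ ∃ l, W (l, b) ∧ ∀ a ∈ l, a ∈ X

/-- enumeration operators -/
def IsOp {α β : Type} [Primcodable α] [Primcodable β] (Φ : Set α → Set β) : Prop :=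
  EP (fun X b => b ∈ Φ X)

/-- enumeration reducibility `X ≤ Y` -/
def ER {α β : Type} [Primcodable α] [Primcodable β] (X : Set α) (Y : Set β) : Prop :=
  ∃ Φ : Set β → Set α, IsOp Φ ∧ Φ Y = X

/-- the join -/
def sj {α β : Type} (X : Set α) (Y : Set β) : Set (α ⊕ β) :=
  {s | Sum.elim (· ∈ X) (· ∈ Y) s}

@[simp] theorem inl_mem_sj {α β : Type} {X : Set α} {Y : Set β} {a : α} :
    Sum.inl a ∈ sj X Y ↔ a ∈ X := Iff.rfl

@[simp] theorem inr_mem_sj {α β : Type} {X : Set α} {Y : Set β} {b : β} :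
    Sum.inr b ∈ sj X Y ↔ b ∈ Y := Iff.rfl

/-- coding a set over `α` as a set of numbers -/
def cd {α : Type} [Primcodable α] (X : Set α) : Set ℕ := encode '' X

@[simp] theorem encode_mem_cd {α : Type} [Primcodable α] {X : Set α} {a : α} :
    encode a ∈ cd X ↔ a ∈ X := by
  constructor
  · rintro ⟨b, hb, h⟩
    rwa [← encode_injective h]
  · intro h
    exact ⟨a, h, rfl⟩

section

variable {α β γ δ : Type} [Primcodable α] [Primcodable β] [Primcodable γ] [Primcodable δ]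

theorem EP.of_iff {P Q : Set α → β → Prop} (h : EP P) (H : ∀ X b, Q X b ↔ P X b) : EP Q := by
  obtain ⟨W, hW, h⟩ := h
  exact ⟨W, hW, fun X b => (H X b).trans (h X b)⟩

theorem EP.mono {P : Set α → β → Prop} (h : EP P) {X Y : Set α} (hXY : X ⊆ Y) {b : β}
    (hb : P X b) : P Y b := by
  obtain ⟨W, _, hP⟩ := h
  obtain ⟨l, h1, h2⟩ := (hP _ _).1 hb
  exact (hP _ _).2 ⟨l, h1, fun a ha => hXY (h2 a ha)⟩

theorem EP.compact {P : Set α → β → Prop} (h : EP P) {X : Set α} {b : β} (hb : P X b) :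
    ∃ l : List α, (∀ a ∈ l, a ∈ X) ∧ P {a | a ∈ l} b := by
  obtain ⟨W, _, hP⟩ := h
  obtain ⟨l, h1, h2⟩ := (hP _ _).1 hb
  exact ⟨l, h2, (hP _ _).2 ⟨l, h1, fun a ha => ha⟩⟩

theorem EP.re {p : β → Prop} (h : RE p) : EP (fun (_ : Set α) b => p b) := by
  refine ⟨fun x => p x.2, h.subst Primrec.snd, fun X b => ?_⟩
  constructor
  · intro hb
    exact ⟨[], hb, by simp⟩
  · rintro ⟨_, hb, _⟩
    exact hb

theorem EP.and {P Q : Set α → β → Prop} (hP : EP P) (hQ : EP Q) :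
    EP (fun X b => P X b ∧ Q X b) := by
  obtain ⟨W, hW, hP⟩ := hP
  obtain ⟨V, hV, hQ⟩ := hQ
  refine ⟨fun x => ∃ p : List α × List α, x.1 = p.1 ++ p.2 ∧ W (p.1, x.2) ∧ V (p.2, x.2), ?_, ?_⟩
  · have h1 : RE (fun y : (List α × β) × (List α × List α) => y.1.1 = y.2.1 ++ y.2.2) :=
      RE.eq (Primrec.fst.comp Primrec.fst)
        (Primrec.list_append.comp (Primrec.fst.comp Primrec.snd) (Primrec.snd.comp Primrec.snd))
    have h2 : RE (fun y : (List α × β) × (List α × List α) => W (y.2.1, y.1.2)) :=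
      hW.subst ((Primrec.fst.comp Primrec.snd).pair (Primrec.snd.comp Primrec.fst))
    have h3 : RE (fun y : (List α × β) × (List α × List α) => V (y.2.2, y.1.2)) :=
      hV.subst ((Primrec.snd.comp Primrec.snd).pair (Primrec.snd.comp Primrec.fst))
    exact (h1.and (h2.and h3)).ex
  · intro X b
    constructor
    · rintro ⟨h1, h2⟩
      obtain ⟨l, hl, hl'⟩ := (hP _ _).1 h1
      obtain ⟨m, hm, hm'⟩ := (hQ _ _).1 h2
      refine ⟨l ++ m, ⟨(l, m), rfl, hl, hm⟩, ?_⟩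
      intro a ha
      rcases List.mem_append.1 ha with h | h
      · exact hl' a h
      · exact hm' a h
    · rintro ⟨l, ⟨⟨p, q⟩, h1, h2, h3⟩, h4⟩
      simp only at h1 h2 h3
      subst h1
      exact ⟨(hP _ _).2 ⟨p, h2, fun a ha => h4 a (List.mem_append_left _ ha)⟩,
        (hQ _ _).2 ⟨q, h3, fun a ha => h4 a (List.mem_append_right _ ha)⟩⟩

theorem EP.or {P Q : Set α → β → Prop} (hP : EP P) (hQ : EP Q) :
    EP (fun X b => P X b ∨ Q X b) := by
  obtain ⟨W, hW, hP⟩ := hP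
  obtain ⟨V, hV, hQ⟩ := hQ
  refine ⟨fun x => W x ∨ V x, hW.or hV, fun X b => ?_⟩
  change (P X b ∨ Q X b) ↔ _
  rw [hP, hQ]
  constructor
  · rintro (⟨l, h1, h2⟩ | ⟨l, h1, h2⟩)
    · exact ⟨l, Or.inl h1, h2⟩
    · exact ⟨l, Or.inr h1, h2⟩
  · rintro ⟨l, h1 | h1, h2⟩
    · exact Or.inl ⟨l, h1, h2⟩
    · exact Or.inr ⟨l, h1, h2⟩

theorem EP.ex {P : Set α → β × γ → Prop} (hP : EP P) :
    EP (fun X b => ∃ c, P X (b, c)) := by
  obtain ⟨W, hW, hP⟩ := hP
  refine ⟨fun x => ∃ c, W (x.1, (x.2, c)), ?_, fun X b => ?_⟩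
  · have : RE (fun y : (List α × β) × γ => W (y.1.1, (y.1.2, y.2))) :=
      hW.subst ((Primrec.fst.comp Primrec.fst).pair
        ((Primrec.snd.comp Primrec.fst).pair Primrec.snd))
    exact this.ex
  · constructor
    · rintro ⟨c, hc⟩
      obtain ⟨l, h1, h2⟩ := (hP _ _).1 hc
      exact ⟨l, ⟨c, h1⟩, h2⟩
    · rintro ⟨l, ⟨c, h1⟩, h2⟩
      exact ⟨c, (hP _ _).2 ⟨l, h1, h2⟩⟩

theorem EP.subst {P : Set α → β → Prop} (hP : EP P) {f : γ → β} (hf : Primrec f) :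
    EP (fun X c => P X (f c)) := by
  obtain ⟨W, hW, hP⟩ := hP
  refine ⟨fun x => W (x.1, f x.2), ?_, fun X c => hP X (f c)⟩
  exact hW.subst (Primrec.fst.pair (hf.comp Primrec.snd))

theorem EP.comp {P : Set α → β → Prop} (hP : EP P) {f : γ → β} (hf : Computable f) :
    EP (fun X c => P X (f c)) := by
  obtain ⟨W, hW, hP⟩ := hP
  refine ⟨fun x => W (x.1, f x.2), ?_, fun X c => hP X (f c)⟩
  exact hW.comp (Computable.fst.pair (hf.comp Computable.snd))

theorem EP.mem {f : β → α} (hf : Primrec f) : EP (fun (X : Set α) (b : β) => f b ∈ X) := by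
  refine ⟨fun x => x.1 = [f x.2], ?_, fun X b => ?_⟩
  · exact RE.eq Primrec.fst (Primrec.list_cons.comp (hf.comp Primrec.snd) (Primrec.const []))
  · constructor
    · intro h
      exact ⟨[f b], rfl, by simpa using h⟩
    · rintro ⟨l, h1, h2⟩
      simp only at h1
      exact h2 _ (by simp [h1])

theorem EP.memc {f : β → α} (hf : Computable f) : EP (fun (X : Set α) (b : β) => f b ∈ X) :=
  (EP.mem (Primrec.id (α := α))).comp hf

theorem EP.ball {P : Set α → β × γ → Prop} (hP : EP P) {g : β → List γ} (hg : Primrec g) :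
    EP (fun X b => ∀ c ∈ g b, P X (b, c)) := by
  obtain ⟨W, hW, hP⟩ := hP
  -- a list of pairs (c, l) with first components g b
  refine ⟨fun x => ∃ L : List (List α), x.1 = L.flatten ∧
    ∀ c ∈ g x.2, ∃ l ∈ L, W (l, (x.2, c)), ?_, ?_⟩
  · have h1 : RE (fun y : (List α × β) × List (List α) => y.1.1 = y.2.flatten) :=
      RE.eq (Primrec.fst.comp Primrec.fst) (Primrec.list_flatten.comp Primrec.snd)
    have h2 : RE (fun z : ((List α × β) × List (List α)) × γ =>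
        ∃ l ∈ z.1.2, W (l, (z.1.1.2, z.2))) := by
      have h3 : RE (fun w : (((List α × β) × List (List α)) × γ) × List α =>
          w.2 ∈ w.1.1.2 ∧ W (w.2, (w.1.1.1.2, w.1.2))) := by
        refine RE.and (RE.prim ?_) ?_
        · have h4 : PrimrecRel (fun (L : List (List α)) (l : List α) => ∃ x ∈ L, x = l) :=
            PrimrecRel.exists_mem_list (R := fun x y : List α => x = y) Primrec.eq
          have h5 := primrecRel_comp h4
            (f := fun w : (((List α × β) × List (List α)) × γ) × List α => w.1.1.2)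
            (g := fun w => w.2) (Primrec.snd.comp (Primrec.fst.comp Primrec.fst)) Primrec.snd
          exact h5.of_eq (by simp)
        · exact hW.subst (Primrec.snd.pair ((Primrec.snd.comp (Primrec.fst.comp
            (Primrec.fst.comp Primrec.fst))).pair (Primrec.snd.comp Primrec.fst)))
      exact h3.ex
    have h3 : RE (fun y : (List α × β) × List (List α) =>
        ∀ c ∈ g y.1.2, ∃ l ∈ y.2, W (l, (y.1.2, c))) :=
      RE.ball (p := fun z : ((List α × β) × List (List α)) × γ =>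
        ∃ l ∈ z.1.2, W (l, (z.1.1.2, z.2))) h2
        (g := fun y => g y.1.2) (hg.comp (Primrec.snd.comp Primrec.fst))
    exact (h1.and h3).ex
  · intro X b
    constructor
    · intro h
      have h' : ∀ c, ∃ l, c ∈ g b → (W (l, (b, c)) ∧ ∀ a ∈ l, a ∈ X) := by
        intro c
        by_cases hc : c ∈ g b
        · obtain ⟨l, h1, h2⟩ := (hP _ _).1 (h c hc)
          exact ⟨l, fun _ => ⟨h1, h2⟩⟩
        · exact ⟨[], fun h => absurd h hc⟩
      choose k hk using h'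
      refine ⟨((g b).map k).flatten, ⟨(g b).map k, rfl, ?_⟩, ?_⟩
      · intro c hc
        exact ⟨k c, List.mem_map_of_mem hc, (hk c hc).1⟩
      · intro a ha
        obtain ⟨l, hl, hal⟩ := List.mem_flatten.1 ha
        obtain ⟨c, hc, rfl⟩ := List.mem_map.1 hl
        exact (hk c hc).2 a hal
    · rintro ⟨l, ⟨L, h1, h2⟩, h3⟩ c hc
      simp only at h1 h2
      obtain ⟨m, hm, hWm⟩ := h2 c hc
      exact (hP _ _).2 ⟨m, hWm, fun a ha => h3 a (by rw [h1]; exact List.mem_flatten.2 ⟨m, hm, ha⟩)⟩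

/-- composition with an operator -/
theorem EP.op {P : Set β → γ → Prop} (hP : EP P) {Φ : Set α → Set β} (hΦ : IsOp Φ) :
    EP (fun X c => P (Φ X) c) := by
  obtain ⟨W, hW, hP⟩ := hP
  have h1 : EP (fun (X : Set α) (y : γ × List β) => W (y.2, y.1) ∧ ∀ b ∈ y.2, b ∈ Φ X) := by
    refine EP.and (EP.re (hW.subst (Primrec.snd.pair Primrec.fst))) ?_
    have h2 : EP (fun (X : Set α) (z : (γ × List β) × β) => z.2 ∈ Φ X) :=
      EP.subst hΦ Primrec.snd
    exact EP.ball (P := fun (X : Set α) (z : (γ × List β) × β) => z.2 ∈ Φ X) h2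
      (g := fun y => y.2) Primrec.snd
  refine h1.ex.of_iff ?_
  intro X c
  rw [hP]

theorem IsOp.mono {Φ : Set α → Set β} (h : IsOp Φ) {X Y : Set α} (hXY : X ⊆ Y) : Φ X ⊆ Φ Y :=
  fun _ hb => EP.mono h hXY hb

theorem IsOp.compact {Φ : Set α → Set β} (h : IsOp Φ) {X : Set α} {b : β} (hb : b ∈ Φ X) :
    ∃ l : List α, (∀ a ∈ l, a ∈ X) ∧ b ∈ Φ {a | a ∈ l} :=
  EP.compact h hb

theorem IsOp.id : IsOp (fun X : Set α => X) := EP.mem Primrec.id

theorem IsOp.comp {Φ : Set β → Set γ} {Ψ : Set α → Set β} (hΦ : IsOp Φ) (hΨ : IsOp Ψ) :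
    IsOp (fun X => Φ (Ψ X)) := EP.op hΦ hΨ

theorem IsOp.inl : IsOp (fun Z : Set (α ⊕ β) => {a | Sum.inl a ∈ Z}) := EP.mem Primrec.sumInl

theorem IsOp.inr : IsOp (fun Z : Set (α ⊕ β) => {b | Sum.inr b ∈ Z}) := EP.mem Primrec.sumInr

theorem IsOp.sj {Φ : Set γ → Set α} {Ψ : Set γ → Set β} (hΦ : IsOp Φ) (hΨ : IsOp Ψ) :
    IsOp (fun X => sj (Φ X) (Ψ X)) := by
  have h1 : EP (fun (X : Set γ) (y : (α ⊕ β) × α) => y.1 = Sum.inl y.2 ∧ y.2 ∈ Φ X) :=
    EP.and (EP.re (RE.eq Primrec.fst (Primrec.sumInl.comp Primrec.snd)))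
      (EP.subst hΦ Primrec.snd)
  have h2 : EP (fun (X : Set γ) (y : (α ⊕ β) × β) => y.1 = Sum.inr y.2 ∧ y.2 ∈ Ψ X) :=
    EP.and (EP.re (RE.eq Primrec.fst (Primrec.sumInr.comp Primrec.snd)))
      (EP.subst hΨ Primrec.snd)
  refine (h1.ex.or h2.ex).of_iff ?_
  intro X s
  cases s with
  | inl a => simp
  | inr b => simp

theorem IsOp.cd {Φ : Set γ → Set α} (hΦ : IsOp Φ) : IsOp (fun X => cd (Φ X)) := by
  have h1 : EP (fun (X : Set γ) (y : ℕ × α) => y.1 = encode y.2 ∧ y.2 ∈ Φ X) :=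
    EP.and (EP.re (RE.eq Primrec.fst (Primrec.encode.comp Primrec.snd)))
      (EP.subst hΦ Primrec.snd)
  refine h1.ex.of_iff ?_
  intro X n
  constructor
  · rintro ⟨a, ha, rfl⟩
    exact ⟨a, rfl, ha⟩
  · rintro ⟨a, h, ha⟩
    exact ⟨a, ha, h.symm⟩

/-- the decoding operator -/
def dc (Z : Set ℕ) : Set α := {a | encode a ∈ Z}

@[simp] theorem dc_cd (X : Set α) : dc (cd X) = X := by
  ext a
  exact encode_mem_cd

theorem IsOp.dc : IsOp (fun Z : Set ℕ => dc (α := α) Z) := EP.mem Primrec.encode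

theorem IsOp.const {X : Set β} (hX : RE (· ∈ X)) : IsOp (fun _ : Set α => X) := EP.re hX

theorem IsOp.union {Φ Ψ : Set α → Set β} (hΦ : IsOp Φ) (hΨ : IsOp Ψ) :
    IsOp (fun X => Φ X ∪ Ψ X) := EP.or hΦ hΨ

theorem ER.refl (X : Set α) : ER X X := ⟨fun X => X, IsOp.id, rfl⟩

theorem ER.trans {X : Set α} {Y : Set β} {Z : Set γ} (h1 : ER X Y) (h2 : ER Y Z) : ER X Z := by
  obtain ⟨Φ, hΦ, rfl⟩ := h1
  obtain ⟨Ψ, hΨ, rfl⟩ := h2
  exact ⟨fun X => Φ (Ψ X), hΦ.comp hΨ, rfl⟩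

theorem ER.of_op {Φ : Set α → Set β} (h : IsOp Φ) (X : Set α) : ER (Φ X) X := ⟨Φ, h, rfl⟩

theorem ER.left (X : Set α) (Y : Set β) : ER X (sj X Y) := ⟨_, IsOp.inl, rfl⟩

theorem ER.right (X : Set α) (Y : Set β) : ER Y (sj X Y) := ⟨_, IsOp.inr, rfl⟩

theorem ER.sj {X : Set α} {Y : Set β} {Z : Set γ} (h1 : ER X Z) (h2 : ER Y Z) :
    ER (sj X Y) Z := by
  obtain ⟨Φ, hΦ, rfl⟩ := h1
  obtain ⟨Ψ, hΨ, rfl⟩ := h2
  exact ⟨_, hΦ.sj hΨ, rfl⟩

theorem ER.cd_left {X : Set α} {Y : Set β} (h : ER X Y) : ER (cd X) Y := by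
  obtain ⟨Φ, hΦ, rfl⟩ := h
  exact ⟨_, hΦ.cd, rfl⟩

theorem ER.cd_self (X : Set α) : ER (cd X) X := (ER.refl X).cd_left

theorem ER.of_cd (X : Set α) : ER X (cd X) := ⟨_, IsOp.dc, dc_cd X⟩

theorem ER_cd_left {X : Set α} {Y : Set β} : ER (cd X) Y ↔ ER X Y :=
  ⟨fun h => (ER.of_cd X).trans h, fun h => (ER.cd_self X).trans h⟩

theorem ER_cd_right {X : Set α} {Y : Set β} : ER X (cd Y) ↔ ER X Y :=
  ⟨fun h => h.trans (ER.cd_self Y), fun h => h.trans (ER.of_cd Y)⟩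

theorem ER.of_RE {X : Set α} (hX : RE (· ∈ X)) (Y : Set β) : ER X Y := ⟨_, IsOp.const hX, rfl⟩

theorem ER_RE {X : Set α} {Y : Set β} (h : ER X Y) (hY : RE (· ∈ Y)) : RE (· ∈ X) := by
  obtain ⟨Φ, ⟨W, hW, hΦ⟩, rfl⟩ := h
  have h1 : RE (fun z : (α × List β) × β => z.2 ∈ Y) := hY.subst Primrec.snd
  have h2 : RE (fun y : α × List β => ∀ b ∈ y.2, b ∈ Y) :=
    RE.ball (p := fun z : (α × List β) × β => z.2 ∈ Y) h1 (g := fun y => y.2) Primrec.snd
  have h3 : RE (fun y : α × List β => W (y.2, y.1)) := hW.subst (Primrec.snd.pair Primrec.fst)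
  refine (h3.and h2).ex.of_iff ?_
  intro a
  exact hΦ Y a

/-- there are only countably many operators -/
theorem countable_IsOp : {Φ : Set α → Set β | IsOp Φ}.Countable := by
  have h := (countable_RE (List α × β)).image
    (fun (W : List α × β → Prop) (X : Set α) => {b : β | ∃ l, W (l, b) ∧ ∀ a ∈ l, a ∈ X})
  refine h.mono ?_
  rintro Φ ⟨W, hW, hΦ⟩
  refine ⟨W, hW, ?_⟩
  funext X
  ext b
  exact (hΦ X b).symm

/-- an enumeration of all operators -/
theorem exists_enum_IsOp : ∃ Φ : ℕ → Set α → Set β, (∀ i, IsOp (Φ i)) ∧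
    ∀ Ψ, IsOp Ψ → ∃ i, Φ i = Ψ := by
  have hne : {Φ : Set α → Set β | IsOp Φ}.Nonempty :=
    ⟨fun _ => ∅, IsOp.const ((RE.const False).of_iff (by simp))⟩
  obtain ⟨f, hf⟩ := (countable_IsOp (α := α) (β := β)).exists_eq_range hne
  refine ⟨f, fun i => ?_, fun Ψ hΨ => ?_⟩
  · have : f i ∈ {Φ : Set α → Set β | IsOp Φ} := by rw [hf]; exact ⟨i, rfl⟩
    exact this
  · have : Ψ ∈ {Φ : Set α → Set β | IsOp Φ} := hΨ
    rw [hf] at this
    exact this

theorem countable_ER_below (Y : Set β) : {X : Set α | ER X Y}.Countable := by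
  refine ((countable_IsOp (α := β) (β := α)).image (fun Φ => Φ Y)).mono ?_
  rintro X ⟨Φ, hΦ, rfl⟩
  exact ⟨Φ, hΦ, rfl⟩

end

end ME
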