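import Pool.Agent.Helper89.MEF.H89_Final
import Pool.Agent.Helper89.MEF.H89_KerAll
import Pool.Agent.Helper89.MEF.H97_Fin

/-!
# Rigidity of the Dyment lattice
-/

set_option autoImplicit false

namespace ME

/-- **Rigidity of the Dyment lattice**: every automorphism is the identity. -/
theorem rigid (a : Aut) (P : Set (Set ℕ)) : PE (a.F P) P := rigid_of_pi a (pi_eq a) P

end ME
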