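import Pool.Agent.Helper89.MEF.H41_Cat1a
import Pool.Agent.Helper89.MEF.H87_ENM
import Pool.Agent.Helper89.MEF.H27_KU
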