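import Pool.Agent.Helper89.MEF.H89_St_Cat1
import Pool.Agent.Helper89.MEF.H48_G1
import Pool.Agent.Helper89.MEF.H63_Cat2b
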