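import Pool.Agent.Helper89.MEF.H63_Pack1
import Pool.Agent.Helper89.MEF.H82_M5ab
import Pool.Agent.Helper89.MEF.H86_Main1d
import Pool.Agent.Helper89.MEF.H23_OG
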