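import Pool.Agent.Helper89.MEF.H91_JDefs

/-!
# The JAMS construction is primitive recursive
-/

set_option autoImplicit false

namespace ME.JD

section

variable {δ γ : Type} [Primcodable δ] [Primcodable γ]

theorem prim_ball {p : γ × δ → Prop} (hp : PrimrecPred p) {g : δ → List γ} (hg : Primrec g) :
    PrimrecPred (fun x => ∀ c ∈ g x, p (c, x)) := by
  have h1 : PrimrecRel (fun (c : γ) (x : δ) => p (c, x)) := hp
  exact PrimrecPred.comp (p := fun z : List γ × δ => ∀ c ∈ z.1, p (c, z.2)) h1.forall_mem_list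
    (f := fun x => (g x, x)) (hg.pair Primrec.id)

theorem prim_bex {p : γ × δ → Prop} (hp : PrimrecPred p) {g : δ → List γ} (hg : Primrec g) :
    PrimrecPred (fun x => ∃ c ∈ g x, p (c, x)) := by
  have h1 : PrimrecRel (fun (c : γ) (x : δ) => p (c, x)) := hp
  exact PrimrecPred.comp (p := fun z : List γ × δ => ∃ c ∈ z.1, p (c, z.2)) h1.exists_mem_list
    (f := fun x => (g x, x)) (hg.pair Primrec.id)

theorem prim_ball_lt {p : ℕ × δ → Prop} (hp : PrimrecPred p) {g : δ → ℕ} (hg : Primrec g) :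
    PrimrecPred (fun x => ∀ c < g x, p (c, x)) :=
  (prim_ball hp (Primrec.list_range.comp hg)).of_eq (fun x => by simp)

theorem prim_vlt {f g : δ → ℕ} (hf : Primrec f) (hg : Primrec g) :
    PrimrecPred (fun x => vlt (f x) (g x)) := by
  unfold vlt
  refine Primrec.nat_lt.comp ?_ ?_
  · exact Primrec.nat_mul.comp (Primrec.fst.comp (Primrec.unpair.comp hf))
      (Primrec.succ.comp (Primrec.snd.comp (Primrec.unpair.comp hg)))
  · exact Primrec.nat_mul.comp (Primrec.fst.comp (Primrec.unpair.comp hg))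
      (Primrec.succ.comp (Primrec.snd.comp (Primrec.unpair.comp hf)))

theorem prim_wst {q : ℕ × ℕ → ℕ → Prop} (hq : PrimrecRel q) {s a b : δ → ℕ} (hs : Primrec s)
    (ha : Primrec a) (hb : Primrec b) : PrimrecPred (fun x => wst q (s x) (a x) (b x)) := by
  have h1 : PrimrecPred (fun y : ℕ × δ => q (a y.2, b y.2) y.1) :=
    primrecRel_comp hq ((ha.comp Primrec.snd).pair (hb.comp Primrec.snd)) Primrec.fst
  exact (prim_bex h1 (Primrec.list_range.comp hs)).of_eq (fun x => by simp [wst])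

theorem prim_inW {h : δ → List Ent} {a b : δ → ℕ} (hh : Primrec h)
    (ha : Primrec a) (hb : Primrec b) : PrimrecPred (fun x => inW (h x) (a x) (b x)) := by
  unfold inW
  refine prim_bex (p := fun y : Ent × δ => ∃ f ∈ h y.2, f.1 = a y.2 ∧ y.1.2.1 = b y.2 ∧
    vlt f.2.2.1 y.1.2.2.2) ?_ hh
  refine prim_bex (p := fun z : Ent × (Ent × δ) => z.1.1 = a z.2.2 ∧ z.2.1.2.1 = b z.2.2 ∧
    vlt z.1.2.2.1 z.2.1.2.2.2) ?_ (hh.comp Primrec.snd)
  refine PrimrecPred.and ?_ (PrimrecPred.and ?_ ?_)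
  · exact Primrec.eq.comp (Primrec.fst.comp Primrec.fst)
      (ha.comp (Primrec.snd.comp Primrec.snd))
  · exact Primrec.eq.comp (Primrec.fst.comp (Primrec.snd.comp (Primrec.fst.comp Primrec.snd)))
      (hb.comp (Primrec.snd.comp Primrec.snd))
  · exact prim_vlt (Primrec.fst.comp (Primrec.snd.comp (Primrec.snd.comp Primrec.fst)))
      (Primrec.snd.comp (Primrec.snd.comp (Primrec.snd.comp (Primrec.fst.comp Primrec.snd))))

theorem prim_lowOK {q : ℕ × ℕ → ℕ → Prop} (hq : PrimrecRel q) {s : δ → ℕ} {h : δ → List Ent}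
    {a p : δ → ℕ} (hs : Primrec s) (hh : Primrec h) (ha : Primrec a) (hp : Primrec p) :
    PrimrecPred (fun x => lowOK q (s x) (h x) (a x) (p x)) := by
  unfold lowOK
  refine prim_ball (p := fun y : Ent × δ => wst q (s y.2) (a y.2) y.1.2.1 ∨
    vlt y.1.2.2.2 (p y.2)) ?_ hh
  refine PrimrecPred.or ?_ ?_
  · exact prim_wst hq (hs.comp Primrec.snd) (ha.comp Primrec.snd)
      (Primrec.fst.comp (Primrec.snd.comp Primrec.fst))
  · exact prim_vlt (Primrec.snd.comp (Primrec.snd.comp (Primrec.snd.comp Primrec.fst)))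
      (hp.comp Primrec.snd)

theorem prim_highOK {q : ℕ × ℕ → ℕ → Prop} (hq : PrimrecRel q) {s : δ → ℕ} {h : δ → List Ent}
    {b p : δ → ℕ} (hs : Primrec s) (hh : Primrec h) (hb : Primrec b) (hp : Primrec p) :
    PrimrecPred (fun x => highOK q (s x) (h x) (b x) (p x)) := by
  unfold highOK
  refine prim_ball (p := fun y : Ent × δ => wst q (s y.2) y.1.1 (b y.2) ∨
    vlt (p y.2) y.1.2.2.1) ?_ hh
  refine PrimrecPred.or ?_ ?_
  · exact prim_wst hq (hs.comp Primrec.snd) (Primrec.fst.comp Primrec.fst) (hb.comp Primrec.snd)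
  · exact prim_vlt (hp.comp Primrec.snd)
      (Primrec.fst.comp (Primrec.snd.comp (Primrec.snd.comp Primrec.fst)))

theorem perm_iff (q : ℕ × ℕ → ℕ → Prop) (s : ℕ) (h : List Ent) (e : Ent) :
    Perm q s h e ↔ (wst q s e.1 e.2.1 ∧ ¬ inW h e.1 e.2.1 ∧ vlt 0 e.2.2.1 ∧
      vlt e.2.2.1 e.2.2.2 ∧ vlt e.2.2.2 one ∧ lowOK q s h e.1 e.2.2.1 ∧
      highOK q s h e.2.1 e.2.2.2) ∧
      (∀ f ∈ h, (vlt f.2.2.2 e.2.2.1 ∨ vlt e.2.2.1 f.2.2.2) ∧
        (vlt f.2.2.1 e.2.2.2 ∨ vlt e.2.2.2 f.2.2.1)) ∧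
      (∀ a < max e.1 e.2.1, ∀ b < max e.1 e.2.1, (¬ wst q s a b ∨ inW h a b) ∨
        (wst q s e.1 b ∨ wst q s a e.2.1) ∧
        (wst q s e.1 b ∨ lowOK q s h a e.2.2.1) ∧
        (wst q s a e.2.1 ∨ highOK q s h b e.2.2.2)) := by
  constructor
  · rintro ⟨h1, h2, h3, h4, h5, h6, h7, h8, h9⟩
    refine ⟨⟨h1, h2, h3, h4, h5, h6, h7⟩, h8, ?_⟩
    intro a ha b hb
    by_cases hw : wst q s a b
    · by_cases hi : inW h a b
      · exact Or.inl (Or.inr hi)
      · exact Or.inr (h9 a ha b hb hw hi)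
    · exact Or.inl (Or.inl hw)
  · rintro ⟨⟨h1, h2, h3, h4, h5, h6, h7⟩, h8, h9⟩
    refine ⟨h1, h2, h3, h4, h5, h6, h7, h8, ?_⟩
    intro a ha b hb hw hi
    rcases h9 a ha b hb with (h | h) | h
    · exact absurd hw h
    · exact absurd h hi
    · exact h

theorem prim_perm {q : ℕ × ℕ → ℕ → Prop} (hq : PrimrecRel q) :
    PrimrecPred (fun x : Ent × (ℕ × List Ent) => Perm q x.2.1 x.2.2 x.1) := by
  have e1 : Primrec (fun x : Ent × (ℕ × List Ent) => x.1.1) := Primrec.fst.comp Primrec.fst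
  have e2 : Primrec (fun x : Ent × (ℕ × List Ent) => x.1.2.1) :=
    Primrec.fst.comp (Primrec.snd.comp Primrec.fst)
  have e3 : Primrec (fun x : Ent × (ℕ × List Ent) => x.1.2.2.1) :=
    Primrec.fst.comp (Primrec.snd.comp (Primrec.snd.comp Primrec.fst))
  have e4 : Primrec (fun x : Ent × (ℕ × List Ent) => x.1.2.2.2) :=
    Primrec.snd.comp (Primrec.snd.comp (Primrec.snd.comp Primrec.fst))
  have es : Primrec (fun x : Ent × (ℕ × List Ent) => x.2.1) := Primrec.fst.comp Primrec.snd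
  have eh : Primrec (fun x : Ent × (ℕ × List Ent) => x.2.2) := Primrec.snd.comp Primrec.snd
  have em : Primrec (fun x : Ent × (ℕ × List Ent) => max x.1.1 x.1.2.1) :=
    Primrec.nat_max.comp e1 e2
  refine PrimrecPred.of_eq ?_ (fun x => (perm_iff q x.2.1 x.2.2 x.1).symm)
  refine PrimrecPred.and ?_ (PrimrecPred.and ?_ ?_)
  · refine PrimrecPred.and (prim_wst hq es e1 e2) (PrimrecPred.and (prim_inW eh e1 e2).not ?_)
    refine PrimrecPred.and (prim_vlt (Primrec.const 0) e3) (PrimrecPred.and (prim_vlt e3 e4) ?_)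
    refine PrimrecPred.and (prim_vlt e4 (Primrec.const one))
      (PrimrecPred.and (prim_lowOK hq es eh e1 e3) (prim_highOK hq es eh e2 e4))
  · refine prim_ball (p := fun y : Ent × (Ent × (ℕ × List Ent)) =>
      (vlt y.1.2.2.2 y.2.1.2.2.1 ∨ vlt y.2.1.2.2.1 y.1.2.2.2) ∧
        (vlt y.1.2.2.1 y.2.1.2.2.2 ∨ vlt y.2.1.2.2.2 y.1.2.2.1)) ?_ eh
    have f3 : Primrec (fun y : Ent × (Ent × (ℕ × List Ent)) => y.1.2.2.1) :=
      Primrec.fst.comp (Primrec.snd.comp (Primrec.snd.comp Primrec.fst))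
    have f4 : Primrec (fun y : Ent × (Ent × (ℕ × List Ent)) => y.1.2.2.2) :=
      Primrec.snd.comp (Primrec.snd.comp (Primrec.snd.comp Primrec.fst))
    have g3 := e3.comp (Primrec.snd (α := Ent) (β := Ent × (ℕ × List Ent)))
    have g4 := e4.comp (Primrec.snd (α := Ent) (β := Ent × (ℕ × List Ent)))
    exact PrimrecPred.and (PrimrecPred.or (prim_vlt f4 g3) (prim_vlt g3 f4))
      (PrimrecPred.or (prim_vlt f3 g4) (prim_vlt g4 f3))
  · refine prim_ball_lt (p := fun y : ℕ × (Ent × (ℕ × List Ent)) =>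
      ∀ b < max y.2.1.1 y.2.1.2.1, (¬ wst q y.2.2.1 y.1 b ∨ inW y.2.2.2 y.1 b) ∨
        (wst q y.2.2.1 y.2.1.1 b ∨ wst q y.2.2.1 y.1 y.2.1.2.1) ∧
        (wst q y.2.2.1 y.2.1.1 b ∨ lowOK q y.2.2.1 y.2.2.2 y.1 y.2.1.2.2.1) ∧
        (wst q y.2.2.1 y.1 y.2.1.2.1 ∨ highOK q y.2.2.1 y.2.2.2 b y.2.1.2.2.2)) ?_ em
    refine prim_ball_lt (p := fun z : ℕ × (ℕ × (Ent × (ℕ × List Ent))) =>
      (¬ wst q z.2.2.2.1 z.2.1 z.1 ∨ inW z.2.2.2.2 z.2.1 z.1) ∨
        (wst q z.2.2.2.1 z.2.2.1.1 z.1 ∨ wst q z.2.2.2.1 z.2.1 z.2.2.1.2.1) ∧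
        (wst q z.2.2.2.1 z.2.2.1.1 z.1 ∨ lowOK q z.2.2.2.1 z.2.2.2.2 z.2.1 z.2.2.1.2.2.1) ∧
        (wst q z.2.2.2.1 z.2.1 z.2.2.1.2.1 ∨ highOK q z.2.2.2.1 z.2.2.2.2 z.1 z.2.2.1.2.2.2))
      ?_ (em.comp Primrec.snd)
    have k : Primrec (fun z : ℕ × (ℕ × (Ent × (ℕ × List Ent))) => z.2.2) :=
      Primrec.snd.comp Primrec.snd
    have zb : Primrec (fun z : ℕ × (ℕ × (Ent × (ℕ × List Ent))) => z.1) := Primrec.fst
    have za : Primrec (fun z : ℕ × (ℕ × (Ent × (ℕ × List Ent))) => z.2.1) :=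
      Primrec.fst.comp Primrec.snd
    have k1 := e1.comp k
    have k2 := e2.comp k
    have k3 := e3.comp k
    have k4 := e4.comp k
    have ks := es.comp k
    have kh := eh.comp k
    exact PrimrecPred.or (PrimrecPred.or (prim_wst hq ks za zb).not (prim_inW kh za zb))
      (PrimrecPred.and (PrimrecPred.or (prim_wst hq ks k1 zb) (prim_wst hq ks za k2))
        (PrimrecPred.and (PrimrecPred.or (prim_wst hq ks k1 zb) (prim_lowOK hq ks kh za k3))
          (PrimrecPred.or (prim_wst hq ks za k2) (prim_highOK hq ks kh zb k4))))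

theorem prim_med {f g : δ → ℕ} (hf : Primrec f) (hg : Primrec g) :
    Primrec (fun x => med (f x) (g x)) := by
  unfold med
  refine Primrec₂.natPair.comp ?_ ?_
  · exact Primrec.nat_add.comp (Primrec.fst.comp (Primrec.unpair.comp hf))
      (Primrec.fst.comp (Primrec.unpair.comp hg))
  · exact Primrec.succ.comp (Primrec.nat_add.comp (Primrec.snd.comp (Primrec.unpair.comp hf))
      (Primrec.snd.comp (Primrec.unpair.comp hg)))

theorem prim_vals : Primrec vals := by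
  unfold vals
  refine Primrec.list_cons.comp (Primrec.const 0) (Primrec.list_cons.comp (Primrec.const one) ?_)
  refine Primrec.list_append.comp ?_ ?_
  · exact Primrec.list_map Primrec.id
      (Primrec.fst.comp (Primrec.snd.comp (Primrec.snd.comp Primrec.snd))).to₂
  · exact Primrec.list_map Primrec.id
      (Primrec.snd.comp (Primrec.snd.comp (Primrec.snd.comp Primrec.snd))).to₂

theorem prim_cands : Primrec (fun x : ℕ × List Ent => cands x.1 x.2) := by
  unfold cands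
  have hv : Primrec (fun x : ℕ × List Ent => vals x.2) := prim_vals.comp Primrec.snd
  refine Primrec.list_flatMap hv ?_
  -- inner
  have h1 : Primrec (fun y : (ℕ × List Ent) × ℕ => vals y.1.2) := hv.comp Primrec.fst
  refine Primrec.list_map (f := fun y : (ℕ × List Ent) × ℕ => vals y.1.2)
    (g := fun y hi => (y.1.1.unpair.1.unpair.1, y.1.1.unpair.1.unpair.2, med y.2 hi,
      med (med y.2 hi) hi)) h1 ?_
  have hc : Primrec (fun z : ((ℕ × List Ent) × ℕ) × ℕ => z.1.1.1.unpair.1) :=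
    Primrec.fst.comp (Primrec.unpair.comp (Primrec.fst.comp (Primrec.fst.comp Primrec.fst)))
  have hlo : Primrec (fun z : ((ℕ × List Ent) × ℕ) × ℕ => z.1.2) :=
    Primrec.snd.comp Primrec.fst
  have hhi : Primrec (fun z : ((ℕ × List Ent) × ℕ) × ℕ => z.2) := Primrec.snd
  exact ((Primrec.fst.comp (Primrec.unpair.comp hc)).pair
    ((Primrec.snd.comp (Primrec.unpair.comp hc)).pair
      ((prim_med hlo hhi).pair (prim_med (prim_med hlo hhi) hhi)))).to₂

theorem prim_next {q : ℕ × ℕ → ℕ → Prop} (hq : PrimrecRel q) :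
    Primrec (fun x : ℕ × List Ent => next q x.1 x.2) := by
  classical
  have hp : PrimrecRel (fun (e : Ent) (x : ℕ × List Ent) => Perm q x.1 x.2 e) := prim_perm hq
  have h1 : Primrec₂ (fun (l : List Ent) (x : ℕ × List Ent) =>
      l.filter (fun e => decide (Perm q x.1 x.2 e))) := hp.listFilter
  have h2 : Primrec (fun x : ℕ × List Ent =>
      ((cands x.1 x.2).filter (fun e => decide (Perm q x.1 x.2 e))).head?) :=
    Primrec.list_head?.comp (h1.comp prim_cands Primrec.id)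
  have h3 : Primrec₂ (fun (x : ℕ × List Ent) (e : Ent) => e :: x.2) :=
    (Primrec.list_cons.comp Primrec.snd (Primrec.snd.comp Primrec.fst)).to₂
  have h4 := Primrec.option_casesOn h2 (Primrec.snd (α := ℕ) (β := List Ent)) h3
  refine h4.of_eq ?_
  intro x
  unfold next
  rw [List.head?_filter]
  have hdec : (cands x.1 x.2).find? (fun e => decide (Perm q x.1 x.2 e)) =
      (cands x.1 x.2).find?
        (fun e => @decide (Perm q x.1 x.2 e) (Classical.propDecidable _)) := by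
    congr
  rw [hdec]
  cases (cands x.1 x.2).find?
        (fun e => @decide (Perm q x.1 x.2 e) (Classical.propDecidable _)) <;> rfl

theorem prim_Hist {q : ℕ × ℕ → ℕ → Prop} (hq : PrimrecRel q) : Primrec (Hist q) := by
  have h : Primrec (Nat.rec ([] : List Ent) (fun s h => next q s h) : ℕ → List Ent) :=
    Primrec.nat_rec₁ [] (prim_next hq).to₂
  refine h.of_eq ?_
  intro n
  induction n with
  | zero => rfl
  | succ n ih =>
    change next q n _ = next q n (Hist q n)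
    rw [← ih]

theorem RE_U {q : ℕ × ℕ → ℕ → Prop} (hq : PrimrecRel q) :
    RE (fun x : ℕ × ℕ => U q x.1 x.2) := by
  refine ⟨fun x s => ∃ e ∈ Hist q s, e.1 = x.1 ∧ vlt e.2.2.1 x.2, ?_, fun a => Iff.rfl⟩
  refine prim_bex (p := fun y : Ent × ((ℕ × ℕ) × ℕ) => y.1.1 = y.2.1.1 ∧
    vlt y.1.2.2.1 y.2.1.2) ?_ ((prim_Hist hq).comp Primrec.snd)
  refine PrimrecPred.and ?_ ?_
  · exact Primrec.eq.comp (Primrec.fst.comp Primrec.fst)
      (Primrec.fst.comp (Primrec.fst.comp Primrec.snd))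
  · exact prim_vlt (Primrec.fst.comp (Primrec.snd.comp (Primrec.snd.comp Primrec.fst)))
      (Primrec.snd.comp (Primrec.fst.comp Primrec.snd))

theorem RE_L {q : ℕ × ℕ → ℕ → Prop} (hq : PrimrecRel q) :
    RE (fun x : ℕ × ℕ => L q x.1 x.2) := by
  refine ⟨fun x s => ∃ e ∈ Hist q s, e.2.1 = x.1 ∧ vlt x.2 e.2.2.2, ?_, fun a => Iff.rfl⟩
  refine prim_bex (p := fun y : Ent × ((ℕ × ℕ) × ℕ) => y.1.2.1 = y.2.1.1 ∧
    vlt y.2.1.2 y.1.2.2.2) ?_ ((prim_Hist hq).comp Primrec.snd)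
  refine PrimrecPred.and ?_ ?_
  · exact Primrec.eq.comp (Primrec.fst.comp (Primrec.snd.comp Primrec.fst))
      (Primrec.fst.comp (Primrec.fst.comp Primrec.snd))
  · exact prim_vlt (Primrec.snd.comp (Primrec.fst.comp Primrec.snd))
      (Primrec.snd.comp (Primrec.snd.comp (Primrec.snd.comp Primrec.fst)))

end

end ME.JD
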