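import Pool.Agent.Helper89.MEF.H91_JRed
import Pool.Agent.Helper89.MEF.H84_JV

/-!
# The theorem of Cai-Ganchev-Lempp-Miller-Soskova
-/

set_option autoImplicit false

namespace ME

/-- **JAMS** a nontrivial K-pair lies below a semicomputable pair -/
theorem jams {A B : Set ℕ} (h : KPair A B) (hA : ¬ RE (· ∈ A)) (hB : ¬ RE (· ∈ B)) :
    ∃ C : Set ℕ, KPair C Cᶜ ∧ ER A C ∧ ER B Cᶜ := by
  obtain ⟨W, ⟨q, hq, hW⟩, h1, h2⟩ := h
  have hAB : ∀ a ∈ A, ∀ b ∈ B, ∃ m, q (a, b) m := fun a ha b hb => (hW _).1 (h1 a ha b hb)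
  have hc : ∀ a b m, q (a, b) m → a ∈ A ∨ b ∈ B := fun a b m hm => h2 a b ((hW _).2 ⟨m, hm⟩)
  exact JD.jams_of hq (JD.inv_inW q) A B hc (JD.main_V q A B hAB hc) hA hB

end ME
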